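import Pool.Agent.H63.CR.SQA

/-!
# H63/CR/COA: the coarea inequality
-/

open MeasureTheory Set Filter
open scoped Topology ENNReal

namespace Pool.Agent.H63.CR

variable {f : ℝ × ℝ → ℝ} {p : ℕ → ℕ} {G : ℕ → ℤ × ℤ → ℝ × ℝ} {n0 : ℕ} {k0 : ℤ × ℤ} {C c : ℝ}
  {w : Fin 3 → ℝ × ℝ × ℝ}

lemma cnt_nonneg (f : ℝ × ℝ → ℝ) (p : ℕ) (S : Finset (ℤ × ℤ)) (t : ℝ) : 0 ≤ cnt f p S t := by
  unfold cnt
  refine Finset.sum_nonneg fun k _ => ?_
  exact indicator_nonneg (fun _ _ => (side_pos p).le) t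

/-- a cover: the number of the squares of `S` that meet the level set -/
lemma cnt_eq (f : ℝ × ℝ → ℝ) (p : ℕ) (S : Finset (ℤ × ℤ)) (t : ℝ) (T : Finset (ℤ × ℤ))
    (hT : ∀ k, k ∈ T ↔ k ∈ S ∧ t ∈ f '' csq p k) : cnt f p S t = T.card * side p := by
  classical
  unfold cnt
  have h1 : T = S.filter (fun k => t ∈ f '' csq p k) := by
    ext k
    rw [hT k, Finset.mem_filter]
  have h2 : ∀ k ∈ S, (f '' csq p k).indicator (fun _ => side p) t =
      if t ∈ f '' csq p k then side p else 0 := by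
    intro k _
    rw [indicator_apply]
  rw [Finset.sum_congr rfl h2, ← Finset.sum_filter, ← h1, Finset.sum_const, nsmul_eq_mul]

/-- the squares of the box are in the box -/
lemma csq_sub_box' {f : ℝ × ℝ → ℝ} {p : ℕ → ℕ} {G : ℕ → ℤ × ℤ → ℝ × ℝ} {n0 : ℕ} {k0 : ℤ × ℤ}
    {C c : ℝ} {w : Fin 3 → ℝ × ℝ × ℝ} (hW : IsWalk f p G n0 k0 C c w) (n : ℕ) (hn : n0 ≤ n)
    (k : ℤ × ℤ) (hk : k ∈ boxIdx (p n - p n0) k0) : csq (p n) k ⊆ box (p n0) k0 := by
  have hp : p n0 ≤ p n := by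
    have hm : Monotone p := monotone_nat_of_le_succ fun i => by have := hW.step i; omega
    exact hm hn
  have h := csq_sub_box (p := p n0) (d := p n - p n0) hk
  rwa [Nat.add_sub_cancel' hp] at h

lemma isCompact_image (hW : IsWalk f p G n0 k0 C c w) (n : ℕ) (hn : n0 ≤ n)
    (k : ℤ × ℤ) (hk : k ∈ boxIdx (p n - p n0) k0) : IsCompact (f '' csq (p n) k) :=
  (isCompact_csq _ _).image_of_continuousOn (hW.cont.mono (csq_sub_box' hW n hn k hk))

lemma measurable_cnt (hW : IsWalk f p G n0 k0 C c w) (n : ℕ) (hn : n0 ≤ n)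
    (S : Finset (ℤ × ℤ)) (hS : S ⊆ boxIdx (p n - p n0) k0) : Measurable (cnt f (p n) S) := by
  unfold cnt
  refine Finset.measurable_fun_sum S fun k hk => ?_
  exact measurable_const.indicator (isCompact_image hW n hn k (hS hk)).measurableSet

/-- the oscillation on a square -/
lemma osc_csq (hW : IsWalk f p G n0 k0 C c w) (n : ℕ) (hn : n0 ≤ n) (k : ℤ × ℤ)
    (hk : k ∈ boxIdx (p n - p n0) k0) (M : ℝ) (hM : 2 * ‖G n k‖ + dlt n ≤ M)
    (u v : ℝ × ℝ) (hu : u ∈ csq (p n) k) (hv : v ∈ csq (p n) k) :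
    |f v - f u| ≤ side (p n) * M := by
  have h1 := norm_sub_le_side hv hu
  have hs := side_pos (p n)
  have h2 := hW.lin n hn k hk u hu v (csq_sub_box' hW n hn k hk hv) (by linarith)
  have h3 : |dot (G n k) (v - u)| ≤ 2 * ‖G n k‖ * side (p n) := by
    unfold dot
    have a1 : |(G n k).1| ≤ ‖G n k‖ := norm_fst_le (G n k)
    have a2 : |(G n k).2| ≤ ‖G n k‖ := norm_snd_le (G n k)
    have b1 : |(v - u).1| ≤ side (p n) := (norm_fst_le (v - u)).trans h1
    have b2 : |(v - u).2| ≤ side (p n) := (norm_snd_le (v - u)).trans h1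
    have c1 := mul_le_mul a1 b1 (abs_nonneg _) (norm_nonneg _)
    have c2 := mul_le_mul a2 b2 (abs_nonneg _) (norm_nonneg _)
    rw [← abs_mul] at c1 c2
    have := abs_add_le ((G n k).1 * (v - u).1) ((G n k).2 * (v - u).2)
    linarith
  have h4 : |f v - f u| ≤ |f v - f u - dot (G n k) (v - u)| + |dot (G n k) (v - u)| := by
    have := abs_add_le (f v - f u - dot (G n k) (v - u)) (dot (G n k) (v - u))
    rwa [sub_add_cancel] at this
  have h5 : side (p n) * (2 * ‖G n k‖ + dlt n) ≤ side (p n) * M :=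
    mul_le_mul_of_nonneg_left hM hs.le
  linarith

lemma vol_image (hW : IsWalk f p G n0 k0 C c w) (n : ℕ) (hn : n0 ≤ n) (k : ℤ × ℤ)
    (hk : k ∈ boxIdx (p n - p n0) k0) (M : ℝ) (hM : 2 * ‖G n k‖ + dlt n ≤ M) :
    volume (f '' csq (p n) k) ≤ ENNReal.ofReal (2 * (side (p n) * M)) := by
  rcases (csq (p n) k).eq_empty_or_nonempty with he | ⟨u, hu⟩
  · rw [he, image_empty, measure_empty]; exact zero_le
  · rw [← Real.volume_closedBall (f u) (side (p n) * M)]
    refine measure_mono ?_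
    rintro _ ⟨v, hv, rfl⟩
    rw [Metric.mem_closedBall, Real.dist_eq]
    exact osc_csq hW n hn k hk M hM u v hu hv

theorem coarea_gen (hW : IsWalk f p G n0 k0 C c w) (n : ℕ) (hn : n0 ≤ n)
    (S : Finset (ℤ × ℤ)) (hS : S ⊆ boxIdx (p n - p n0) k0) (M : ℤ × ℤ → ℝ)
    (hM : ∀ k ∈ S, 2 * ‖G n k‖ + dlt n ≤ M k) :
    ∫⁻ t, ENNReal.ofReal (cnt f (p n) S t) ≤
      ENNReal.ofReal (∑ k ∈ S, 2 * side (p n) ^ 2 * M k) := by
  have hs := side_pos (p n)
  have hd : 0 ≤ dlt n := by unfold dlt; positivity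
  have hM0 : ∀ k ∈ S, 0 ≤ M k := fun k hk => by
    have := hM k hk
    have := norm_nonneg (G n k)
    linarith
  have h1 : ∀ t, ENNReal.ofReal (cnt f (p n) S t) =
      ∑ k ∈ S, (f '' csq (p n) k).indicator (fun _ => ENNReal.ofReal (side (p n))) t := by
    intro t
    unfold cnt
    rw [ENNReal.ofReal_sum_of_nonneg (fun k _ => indicator_nonneg (fun _ _ => hs.le) t)]
    refine Finset.sum_congr rfl fun k _ => ?_
    by_cases h : t ∈ f '' csq (p n) k
    · rw [indicator_of_mem h, indicator_of_mem h]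
    · rw [indicator_of_notMem h, indicator_of_notMem h, ENNReal.ofReal_zero]
  rw [lintegral_congr h1, lintegral_finsetSum]
  · rw [ENNReal.ofReal_sum_of_nonneg (fun k hk => by have := hM0 k hk; positivity)]
    refine Finset.sum_le_sum fun k hk => ?_
    rw [lintegral_indicator (isCompact_image hW n hn k (hS hk)).measurableSet,
      setLIntegral_const]
    have h2 := vol_image hW n hn k (hS hk) (M k) (hM k hk)
    calc ENNReal.ofReal (side (p n)) * volume (f '' csq (p n) k)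
        ≤ ENNReal.ofReal (side (p n)) * ENNReal.ofReal (2 * (side (p n) * M k)) := by gcongr
      _ = ENNReal.ofReal (2 * side (p n) ^ 2 * M k) := by
          rw [← ENNReal.ofReal_mul hs.le]
          ring_nf
  · intro k hk
    exact measurable_const.indicator (isCompact_image hW n hn k (hS hk)).measurableSet

theorem coarea (hW : IsWalk f p G n0 k0 C c w) (n : ℕ) (hn : n0 ≤ n)
    (S : Finset (ℤ × ℤ)) (hS : S ⊆ boxIdx (p n - p n0) k0) :
    ∫⁻ t, ENNReal.ofReal (cnt f (p n) S t) ≤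
      ENNReal.ofReal (4 * ∑ k ∈ S, side (p n) ^ 2 * (1 + ‖G n k‖)) := by
  have hd : dlt n ≤ 1 := by
    unfold dlt; exact pow_le_one₀ (by norm_num) (by norm_num)
  refine (coarea_gen hW n hn S hS (fun k => 2 * ‖G n k‖ + 1) (fun k _ => by linarith)).trans ?_
  refine ENNReal.ofReal_le_ofReal ?_
  rw [Finset.mul_sum]
  refine Finset.sum_le_sum fun k _ => ?_
  have := side_pos (p n)
  have h2 := sq_nonneg (side (p n))
  nlinarith [norm_nonneg (G n k)]

end Pool.Agent.H63.CR
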