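import Pool.Agent.H63.CR.Defs

/-!
# H63/CR/HNL: sets of Hausdorff measure zero and coverings
-/

open MeasureTheory Set Filter
open scoped Topology ENNReal

namespace Pool.Agent.H63.CR

/-- covers with small total diameter give measure zero -/
theorem hnl_of_cover (Z : Set (ℝ × ℝ))
    (h : ∀ ep : ℝ≥0∞, 0 < ep → ∃ U : ℕ → Set (ℝ × ℝ), Z ⊆ ⋃ i, U i ∧
      (∀ i, Metric.ediam (U i) ≤ ep) ∧ ∑' i, Metric.ediam (U i) ≤ ep) :
    Measure.hausdorffMeasure 1 Z = 0 := by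
  rw [← nonpos_iff_eq_zero, Measure.hausdorffMeasure_apply]
  refine iSup₂_le fun r hr => ?_
  refine le_of_forall_gt fun ep hep => ?_
  obtain ⟨ep', h1, h2⟩ := ENNReal.lt_iff_exists_nnreal_btwn.1 hep
  have hp : 0 < min r (ep' : ℝ≥0∞) := lt_min hr h1
  obtain ⟨U, hU1, hU2, hU3⟩ := h _ hp
  refine lt_of_le_of_lt ?_ h2
  refine iInf₂_le_of_le U hU1 ?_
  refine iInf_le_of_le (fun i => (hU2 i).trans (min_le_left _ _)) ?_
  refine le_trans (ENNReal.tsum_le_tsum fun i => ?_) (hU3.trans (min_le_right _ _))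
  refine iSup_le fun _ => ?_
  rw [ENNReal.rpow_one]

/-- a set of measure zero has covers with small total diameter -/
theorem hnl_cover (Z : Set (ℝ × ℝ)) (hZ : Measure.hausdorffMeasure 1 Z = 0) (ep : ℝ≥0∞)
    (hep : 0 < ep) : ∃ U : ℕ → Set (ℝ × ℝ), Z ⊆ ⋃ i, U i ∧ (∀ i, U i ⊆ Z) ∧
      ∑' i, Metric.ediam (U i) ≤ ep := by
  rw [← nonpos_iff_eq_zero, Measure.hausdorffMeasure_apply] at hZ
  have h1 := (iSup₂_le_iff.1 hZ) 1 one_pos
  have h2 := lt_of_le_of_lt h1 hep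
  rw [iInf_lt_iff] at h2
  obtain ⟨t, h2⟩ := h2
  rw [iInf_lt_iff] at h2
  obtain ⟨ht, h2⟩ := h2
  rw [iInf_lt_iff] at h2
  obtain ⟨ht2, h2⟩ := h2
  refine ⟨fun i => t i ∩ Z, ?_, fun i => inter_subset_right, ?_⟩
  · intro z hz
    obtain ⟨i, hi⟩ := mem_iUnion.1 (ht hz)
    exact mem_iUnion.2 ⟨i, hi, hz⟩
  · refine le_trans (ENNReal.tsum_le_tsum fun i => ?_) h2.le
    rcases (t i).eq_empty_or_nonempty with he | hne
    · simp [he]
    · rw [iSup_pos hne, ENNReal.rpow_one]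
      exact Metric.ediam_mono inter_subset_left

end Pool.Agent.H63.CR
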