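import Pool.Agent.H63.CR.Defs

/-!
# H63/CR/AMP: the amplitudes (elementary, about 30 min)

`amp n = 16 ^ (-m)` for `256 ^ m <= n < 256 ^ (m + 1)` (`Nat.log_eq_iff`, `Nat.log_eq_of_pow_le_of_lt_pow`),
so `amp n ^ 2 = 256 ^ (-m)` and a block contributes `255` to the sum of the squares.
-/

open MeasureTheory Set Filter
open scoped Topology ENNReal

namespace Pool.Agent.H63.CR

lemma amp_pos (n : ℕ) : 0 < amp n := by
  unfold amp
  positivity

lemma amp_le_one (n : ℕ) : amp n ≤ 1 :=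
  pow_le_one₀ (by norm_num) (by norm_num)

lemma amp_anti {n n' : ℕ} (h : n ≤ n') : amp n' ≤ amp n :=
  pow_le_pow_of_le_one (by norm_num) (by norm_num) (Nat.log_mono_right h)

lemma amp_block {m n : ℕ} (h1 : 256 ^ m ≤ n) (h2 : n < 256 ^ (m + 1)) :
    amp n = (1 / 16 : ℝ) ^ m := by
  unfold amp
  rw [Nat.log_eq_of_pow_le_of_lt_pow h1 h2]

lemma amp_tendsto : Tendsto amp atTop (𝓝 0) := by
  have h1 : Tendsto (fun n => Nat.log 256 n) atTop atTop :=
    tendsto_atTop.2 fun m => eventually_atTop.2 ⟨256 ^ m, fun n hn =>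
      Nat.le_log_of_pow_le (by norm_num) hn⟩
  exact (tendsto_pow_atTop_nhds_zero_of_lt_one (by norm_num : (0 : ℝ) ≤ 1 / 16) (by norm_num)).comp h1

private lemma amp_sq (n : ℕ) : amp n ^ 2 = 1 / (256 : ℝ) ^ Nat.log 256 n := by
  unfold amp
  rw [← pow_mul, mul_comm, pow_mul, ← one_div_pow]
  norm_num

private lemma amp_sq_ge (n : ℕ) (hn : 1 ≤ n) : 1 / (n : ℝ) ≤ amp n ^ 2 := by
  rw [amp_sq]
  have h1 : 256 ^ Nat.log 256 n ≤ n := Nat.pow_log_le_self _ (by omega)
  have h2 : ((256 : ℝ)) ^ Nat.log 256 n ≤ n := by exact_mod_cast h1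
  exact one_div_le_one_div_of_le (by positivity) h2

/-- the partial sums of the squares of the amplitudes are unbounded -/
lemma amp_sq_unbounded (n0 : ℕ) (B : ℝ) :
    ∃ N, B ≤ ∑ i ∈ Finset.range N, amp (n0 + i + 1) ^ 2 := by
  have h1 := Real.tendsto_sum_range_one_div_nat_succ_atTop
  obtain ⟨N, hN⟩ := (h1.eventually_ge_atTop (B * (n0 + 1))).exists
  refine ⟨N, ?_⟩
  have hp : (0 : ℝ) < n0 + 1 := by positivity
  have h2 : B ≤ ∑ i ∈ Finset.range N, 1 / ((n0 : ℝ) + 1) * (1 / ((i : ℝ) + 1)) := by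
    rw [← Finset.mul_sum, one_div_mul_eq_div, le_div_iff₀ hp]
    exact hN
  refine h2.trans (Finset.sum_le_sum fun i _ => ?_)
  refine le_trans ?_ (amp_sq_ge (n0 + i + 1) (by omega))
  rw [one_div_mul_one_div]
  apply one_div_le_one_div_of_le
  · positivity
  · push_cast
    have h3 : (0 : ℝ) ≤ n0 := Nat.cast_nonneg _
    have h4 : (0 : ℝ) ≤ i := Nat.cast_nonneg _
    nlinarith

private lemma amp_sum_aux (m : ℕ) :
    ∑ i ∈ Finset.range (256 ^ m), amp (i + 1) ^ 2 ≤ 255 * m + 1 := by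
  induction m with
  | zero =>
    simp only [pow_zero, Finset.range_one, Finset.sum_singleton, zero_add, Nat.cast_zero, mul_zero]
    have h1 := amp_le_one 1
    have h2 := (amp_pos 1).le
    nlinarith
  | succ m ih =>
    have hle : 256 ^ m ≤ 256 ^ (m + 1) := Nat.pow_le_pow_right (by norm_num) (Nat.le_succ m)
    rw [← Finset.sum_range_add_sum_Ico _ hle]
    have h1 : ∑ i ∈ Finset.Ico (256 ^ m) (256 ^ (m + 1)), amp (i + 1) ^ 2 ≤ 255 := by
      calc ∑ i ∈ Finset.Ico (256 ^ m) (256 ^ (m + 1)), amp (i + 1) ^ 2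
          ≤ ∑ _i ∈ Finset.Ico (256 ^ m) (256 ^ (m + 1)), (1 / (256 : ℝ) ^ m) := by
            refine Finset.sum_le_sum fun i hi => ?_
            rw [amp_sq]
            apply one_div_le_one_div_of_le (by positivity)
            apply pow_le_pow_right₀ (by norm_num)
            apply Nat.le_log_of_pow_le (by norm_num)
            have := (Finset.mem_Ico.1 hi).1
            omega
        _ = 255 := by
            rw [Finset.sum_const, Nat.card_Ico, nsmul_eq_mul, Nat.cast_sub hle]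
            push_cast
            have : (256 : ℝ) ^ m ≠ 0 := by positivity
            field_simp
            ring
    push_cast
    linarith

/-- at the end of block `m` -/
lemma amp_sq_sum_le (m : ℕ) :
    ∑ i ∈ Finset.range (256 ^ (m + 1)), amp (i + 1) ^ 2 ≤ 256 * (m + 1) := by
  have h1 := amp_sum_aux (m + 1)
  push_cast at h1
  have h2 : (0 : ℝ) ≤ m := Nat.cast_nonneg _
  linarith

/-- the errors `dlt` are much smaller than the amplitudes -/
lemma dlt_le_amp (n : ℕ) : dlt n ≤ 16 * amp (n + 1) := by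
  have h1 : 256 ^ Nat.log 256 (n + 1) ≤ n + 1 := Nat.pow_log_le_self _ (by omega)
  have h2 : n + 1 ≤ 2 ^ n := Nat.lt_two_pow_self
  have h3 : (16 : ℕ) ^ Nat.log 256 (n + 1) ≤ 256 ^ Nat.log 256 (n + 1) :=
    Nat.pow_le_pow_left (by norm_num) _
  have h4 : (16 : ℕ) ^ Nat.log 256 (n + 1) ≤ 2 ^ n := h3.trans (h1.trans h2)
  have h5 : (16 : ℝ) ^ Nat.log 256 (n + 1) ≤ 2 ^ n := by exact_mod_cast h4
  have h6 : dlt n ≤ amp (n + 1) := by
    unfold dlt amp
    rw [one_div_pow, one_div_pow]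
    exact one_div_le_one_div_of_le (by positivity) h5
  linarith [amp_pos (n + 1)]

private lemma amp_bern (m : ℕ) : 1 + 255 * m ≤ 256 ^ m := by
  induction m with
  | zero => norm_num
  | succ m ih =>
    rw [pow_succ]
    have : 1 ≤ 256 ^ m := Nat.one_le_pow _ _ (by norm_num)
    omega

/-- in block `m` the errors are smaller than the thresholds -/
lemma dlt_le_thr {m n : ℕ} (hm : 1 ≤ m) (h : 256 ^ m ≤ n) : 16 * dlt n ≤ thr m := by
  have h1 := amp_bern m
  have h2 : 2 * m + 4 ≤ n := by omega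
  have h3 : (2 : ℝ) ^ (2 * m + 4) ≤ 2 ^ n := pow_le_pow_right₀ (by norm_num) h2
  have h4 : (2 : ℝ) ^ (2 * m + 4) = 4 ^ m * 16 := by
    rw [pow_add, pow_mul]
    norm_num
  rw [h4] at h3
  unfold dlt thr
  rw [one_div_pow, one_div_pow, mul_one_div, div_le_div_iff₀ (by positivity) (by positivity), one_mul]
  linarith

/-- in block `m` the errors are smaller than `16 ^ (-m)` -/
lemma dlt_le_pow {m n : ℕ} (h : 256 ^ m ≤ n) : dlt n ≤ (1 / 16 : ℝ) ^ m := by
  have h1 := amp_bern m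
  have h2 : 4 * m ≤ n := by omega
  unfold dlt
  calc (1 / 2 : ℝ) ^ n ≤ (1 / 2 : ℝ) ^ (4 * m) := pow_le_pow_of_le_one (by norm_num) (by norm_num) h2
    _ = (1 / 16 : ℝ) ^ m := by
        rw [pow_mul]
        norm_num

end Pool.Agent.H63.CR
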