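import Pool.Agent.H63.CR.Defs

/-!
# H63/CR/SQA: dyadic squares, real part (elementary, about 40 min)

`side p = 2 ^ (-p)`.  All facts follow from the floor and from `side (p + d) * 2 ^ d = side p`.
For `par_idx`: `⌊x / side p⌋ = ⌊x / side (p + d)⌋ / 2 ^ d` (floor division of integers),
since `x / side p = (x / side (p + d)) / 2 ^ d`; Mathlib has `Int.floor_div_ofNat` /
`Int.floor_div_natCast` type lemmas (or: `Int.floor_eq_iff` and `Int.ediv` inequalities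
`Int.ediv_mul_le`, `Int.lt_ediv_add_one_mul_self`).
-/

open MeasureTheory Set Filter
open scoped Topology ENNReal

namespace Pool.Agent.H63.CR

lemma side_pos (p : ℕ) : 0 < side p := by
  unfold side
  positivity

lemma side_add (p d : ℕ) : side (p + d) * 2 ^ d = side p := by
  unfold side
  rw [pow_add, mul_assoc, ← mul_pow]
  norm_num

lemma side_anti {p q : ℕ} (h : p ≤ q) : side q ≤ side p :=
  pow_le_pow_of_le_one (by norm_num) (by norm_num) h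

/-- four levels down is a factor 16 -/
lemma side_step {p q : ℕ} (h : p + 4 ≤ q) : 16 * side q ≤ side p := by
  have h1 := side_anti h
  have h2 := side_add p 4
  norm_num at h2
  linarith

private lemma sqa_floor (s x : ℝ) (hs : 0 < s) : (⌊x / s⌋ : ℝ) * s ≤ x ∧ x ≤ ((⌊x / s⌋ : ℝ) + 1) * s := by
  constructor
  · rw [← le_div_iff₀ hs]
    exact Int.floor_le _
  · rw [← div_le_iff₀ hs]
    exact (Int.lt_floor_add_one _).le

lemma mem_csq_idx (p : ℕ) (u : ℝ × ℝ) : u ∈ csq p (idx p u) := by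
  have h1 := sqa_floor (side p) u.1 (side_pos p)
  have h2 := sqa_floor (side p) u.2 (side_pos p)
  exact ⟨⟨h1.1, h1.2⟩, ⟨h2.1, h2.2⟩⟩

private lemma sqa_par (p d : ℕ) (x : ℝ) : ⌊x / side (p + d)⌋ / 2 ^ d = ⌊x / side p⌋ := by
  have h0 := side_pos (p + d)
  have h2 : x / side p = x / side (p + d) / ((2 ^ d : ℕ) : ℝ) := by
    rw [← side_add p d]
    push_cast
    field_simp
  rw [h2, Int.floor_div_natCast]
  norm_num

lemma par_idx (p d : ℕ) (u : ℝ × ℝ) : par d (idx (p + d) u) = idx p u := by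
  unfold par idx
  simp only [sqa_par]

private lemma sqa_norm {u v : ℝ × ℝ} {r : ℝ} (h1 : |u.1 - v.1| ≤ r) (h2 : |u.2 - v.2| ≤ r) :
    ‖u - v‖ ≤ r := by
  rw [Prod.norm_def]
  exact max_le h1 h2

/-- the sup norm distance of two points of a square is at most its side -/
lemma norm_sub_le_side {p : ℕ} {k : ℤ × ℤ} {u v : ℝ × ℝ} (hu : u ∈ csq p k) (hv : v ∈ csq p k) :
    ‖u - v‖ ≤ side p := by
  obtain ⟨⟨a1, a2⟩, ⟨a3, a4⟩⟩ := hu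
  obtain ⟨⟨b1, b2⟩, ⟨b3, b4⟩⟩ := hv
  refine sqa_norm (abs_le.2 ⟨?_, ?_⟩) (abs_le.2 ⟨?_, ?_⟩) <;> linarith

private lemma sqa_par_le (p d : ℕ) (k : ℤ) : ((k / 2 ^ d : ℤ) : ℝ) * side p ≤ (k : ℝ) * side (p + d) ∧
    ((k : ℝ) + 1) * side (p + d) ≤ (((k / 2 ^ d : ℤ) : ℝ) + 1) * side p := by
  have h0 := side_pos (p + d)
  have h1 := side_add p d
  have h2 : k / 2 ^ d * 2 ^ d ≤ k := Int.ediv_mul_le _ (by positivity)
  have h3 : k + 1 ≤ (k / 2 ^ d + 1) * 2 ^ d := Int.lt_ediv_add_one_mul_self _ (by positivity)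
  have h2' : ((k / 2 ^ d : ℤ) : ℝ) * 2 ^ d ≤ k := by exact_mod_cast h2
  have h3' : (k : ℝ) + 1 ≤ (((k / 2 ^ d : ℤ) : ℝ) + 1) * 2 ^ d := by exact_mod_cast h3
  constructor
  · calc ((k / 2 ^ d : ℤ) : ℝ) * side p = (((k / 2 ^ d : ℤ) : ℝ) * 2 ^ d) * side (p + d) := by
          rw [← h1]; ring
      _ ≤ (k : ℝ) * side (p + d) := mul_le_mul_of_nonneg_right h2' h0.le
  · calc ((k : ℝ) + 1) * side (p + d) ≤ ((((k / 2 ^ d : ℤ) : ℝ) + 1) * 2 ^ d) * side (p + d) :=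
          mul_le_mul_of_nonneg_right h3' h0.le
      _ = (((k / 2 ^ d : ℤ) : ℝ) + 1) * side p := by rw [← h1]; ring

lemma csq_sub_par (p d : ℕ) (k : ℤ × ℤ) : csq (p + d) k ⊆ csq p (par d k) := by
  intro u hu
  obtain ⟨⟨a1, a2⟩, ⟨a3, a4⟩⟩ := hu
  have h1 := sqa_par_le p d k.1
  have h2 := sqa_par_le p d k.2
  exact ⟨⟨h1.1.trans a1, a2.trans h1.2⟩, ⟨h2.1.trans a3, a4.trans h2.2⟩⟩

lemma isCompact_csq (p : ℕ) (k : ℤ × ℤ) : IsCompact (csq p k) :=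
  isCompact_Icc.prod isCompact_Icc

lemma isCompact_box (p : ℕ) (k0 : ℤ × ℤ) : IsCompact (box p k0) :=
  isCompact_Icc.prod isCompact_Icc

lemma isCompact_mid (p : ℕ) (k0 : ℤ × ℤ) : IsCompact (mid p k0) :=
  isCompact_Icc.prod isCompact_Icc

lemma mid_sub_box (p : ℕ) (k0 : ℤ × ℤ) : mid p k0 ⊆ box p k0 := by
  intro u hu
  obtain ⟨⟨a1, a2⟩, ⟨a3, a4⟩⟩ := hu
  have h0 := side_pos p
  refine ⟨⟨?_, ?_⟩, ⟨?_, ?_⟩⟩ <;> nlinarith

private lemma sqa_box {p d : ℕ} {k k0 : ℤ} (hk : k ∈ Finset.Ico (k0 * 2 ^ d) ((k0 + 2) * 2 ^ d)) :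
    (k0 : ℝ) * side p ≤ (k : ℝ) * side (p + d) ∧
      ((k : ℝ) + 1) * side (p + d) ≤ ((k0 : ℝ) + 2) * side p := by
  obtain ⟨h1, h2⟩ := Finset.mem_Ico.1 hk
  have h0 := side_pos (p + d)
  have h3 := side_add p d
  have h1' : (k0 : ℝ) * 2 ^ d ≤ k := by exact_mod_cast h1
  have h2' : (k : ℝ) + 1 ≤ ((k0 : ℝ) + 2) * 2 ^ d := by
    have : k + 1 ≤ (k0 + 2) * 2 ^ d := h2
    exact_mod_cast this
  constructor
  · calc (k0 : ℝ) * side p = ((k0 : ℝ) * 2 ^ d) * side (p + d) := by rw [← h3]; ring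
      _ ≤ (k : ℝ) * side (p + d) := mul_le_mul_of_nonneg_right h1' h0.le
  · calc ((k : ℝ) + 1) * side (p + d) ≤ (((k0 : ℝ) + 2) * 2 ^ d) * side (p + d) :=
          mul_le_mul_of_nonneg_right h2' h0.le
      _ = ((k0 : ℝ) + 2) * side p := by rw [← h3]; ring

lemma csq_sub_box {p d : ℕ} {k k0 : ℤ × ℤ} (hk : k ∈ boxIdx d k0) :
    csq (p + d) k ⊆ box p k0 := by
  intro u hu
  obtain ⟨hk1, hk2⟩ := Finset.mem_product.1 hk
  obtain ⟨⟨a1, a2⟩, ⟨a3, a4⟩⟩ := hu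
  have h1 := sqa_box (p := p) hk1
  have h2 := sqa_box (p := p) hk2
  exact ⟨⟨h1.1.trans a1, a2.trans h1.2⟩, ⟨h2.1.trans a3, a4.trans h2.2⟩⟩

private lemma sqa_idx {p d : ℕ} {k0 : ℤ} {x : ℝ} (h1 : ((k0 : ℝ) + 1 / 2) * side p ≤ x)
    (h2 : x ≤ ((k0 : ℝ) + 3 / 2) * side p) :
    ⌊x / side (p + d)⌋ ∈ Finset.Ico (k0 * 2 ^ d) ((k0 + 2) * 2 ^ d) := by
  have h0 := side_pos (p + d)
  have h3 := side_add p d
  have h5 := side_pos p
  have h6 : (0 : ℝ) < 2 ^ d := by positivity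
  rw [Finset.mem_Ico]
  constructor
  · rw [Int.le_floor, le_div_iff₀ h0]
    push_cast
    calc (k0 : ℝ) * 2 ^ d * side (p + d) = (k0 : ℝ) * side p := by rw [← h3]; ring
      _ ≤ x := by nlinarith
  · rw [Int.floor_lt, div_lt_iff₀ h0]
    push_cast
    calc x < ((k0 : ℝ) + 2) * side p := by nlinarith
      _ = ((k0 : ℝ) + 2) * 2 ^ d * side (p + d) := by rw [← h3]; ring

lemma idx_mem_boxIdx {p d : ℕ} {u : ℝ × ℝ} {k0 : ℤ × ℤ} (hu : u ∈ mid p k0) :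
    idx (p + d) u ∈ boxIdx d k0 := by
  obtain ⟨⟨a1, a2⟩, ⟨a3, a4⟩⟩ := hu
  exact Finset.mem_product.2 ⟨sqa_idx a1 a2, sqa_idx a3 a4⟩

lemma closedBall_sub_box {p : ℕ} {k0 : ℤ × ℤ} {u : ℝ × ℝ} {r : ℝ} (hu : u ∈ mid p k0)
    (hr : r ≤ side p / 2) : Metric.closedBall u r ⊆ box p k0 := by
  intro v hv
  obtain ⟨⟨a1, a2⟩, ⟨a3, a4⟩⟩ := hu
  rw [Metric.mem_closedBall, Prod.dist_eq] at hv
  have h1 := (le_max_left _ _).trans hv
  have h2 := (le_max_right _ _).trans hv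
  rw [Real.dist_eq, abs_le] at h1 h2
  refine ⟨⟨?_, ?_⟩, ⟨?_, ?_⟩⟩ <;> nlinarith [h1.1, h1.2, h2.1, h2.2]

private lemma sqa_ex {s x : ℝ} (hs : 0 < s) : ∃ k : ℤ, ((k : ℝ) + 1 / 2) * s ≤ x ∧
    x ≤ ((k : ℝ) + 3 / 2) * s := by
  refine ⟨⌊x / s - 1 / 2⌋, ?_, ?_⟩
  · rw [← le_div_iff₀ hs]
    linarith [Int.floor_le (x / s - 1 / 2)]
  · rw [← div_le_iff₀ hs]
    linarith [Int.lt_floor_add_one (x / s - 1 / 2)]

/-- every point has a box with `u` in its middle -/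
lemma exists_mid (p : ℕ) (u : ℝ × ℝ) : ∃ k0 : ℤ × ℤ, u ∈ mid p k0 := by
  obtain ⟨k1, h1, h2⟩ := sqa_ex (x := u.1) (side_pos p)
  obtain ⟨k2, h3, h4⟩ := sqa_ex (x := u.2) (side_pos p)
  exact ⟨(k1, k2), ⟨h1, h2⟩, ⟨h3, h4⟩⟩

/-- points of the box are close to each other -/
lemma norm_sub_le_box {p : ℕ} {k0 : ℤ × ℤ} {u v : ℝ × ℝ} (hu : u ∈ box p k0)
    (hv : v ∈ box p k0) : ‖u - v‖ ≤ 2 * side p := by
  obtain ⟨⟨a1, a2⟩, ⟨a3, a4⟩⟩ := hu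
  obtain ⟨⟨b1, b2⟩, ⟨b3, b4⟩⟩ := hv
  refine sqa_norm (abs_le.2 ⟨?_, ?_⟩) (abs_le.2 ⟨?_, ?_⟩) <;> linarith

end Pool.Agent.H63.CR
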