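import Pool.Agent.H63.CR.Defs

/-!
# H63/CR/SQB: dyadic squares, indices (elementary integer arithmetic, about 30 min)

`par d k' = k` iff `k.1 * 2 ^ d <= k'.1 < (k.1 + 1) * 2 ^ d` and the same for the second
coordinate (`Int.ediv` with positive divisor, `Int.le_ediv_iff_mul_le`, `Int.ediv_lt_iff_lt_mul`).
`sum_boxIdx` is `Finset.sum_fiberwise_of_maps_to` (or `Finset.sum_biUnion`) with `mem_kids`.
-/

open MeasureTheory Set Filter
open scoped Topology ENNReal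

namespace Pool.Agent.H63.CR

private lemma sqb_div {d : ℕ} {k k' : ℤ} :
    k' ∈ Finset.Ico (k * 2 ^ d) ((k + 1) * 2 ^ d) ↔ k' / 2 ^ d = k := by
  rw [Finset.mem_Ico]
  have h0 : (0 : ℤ) < 2 ^ d := by positivity
  rw [← Int.le_ediv_iff_mul_le h0, ← Int.ediv_lt_iff_lt_mul h0]
  omega

lemma mem_kids {d : ℕ} {k k' : ℤ × ℤ} : k' ∈ kids d k ↔ par d k' = k := by
  unfold kids par
  rw [Finset.mem_product, sqb_div, sqb_div, Prod.ext_iff]

private lemma sqb_card (d : ℕ) (k c : ℤ) (c' : ℕ) (hc : c = c') :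
    (Finset.Ico (k * 2 ^ d) ((k + c) * 2 ^ d)).card = c' * 2 ^ d := by
  rw [Int.card_Ico]
  have h1 : (k + c) * 2 ^ d - k * 2 ^ d = ((c' * 2 ^ d : ℕ) : ℤ) := by
    rw [hc]
    push_cast
    ring
  rw [h1, Int.toNat_natCast]

lemma card_kids (d : ℕ) (k : ℤ × ℤ) : (kids d k).card = 4 ^ d := by
  unfold kids
  rw [Finset.card_product, sqb_card d k.1 1 1 rfl, sqb_card d k.2 1 1 rfl, one_mul, ← mul_pow]
  norm_num

lemma card_boxIdx (d : ℕ) (k0 : ℤ × ℤ) : (boxIdx d k0).card = 4 * 4 ^ d := by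
  unfold boxIdx
  rw [Finset.card_product, sqb_card d k0.1 2 2 rfl, sqb_card d k0.2 2 2 rfl]
  have : (4 : ℕ) ^ d = 2 ^ d * 2 ^ d := by
    rw [← mul_pow]
    norm_num
  rw [this]
  ring

lemma par_par (d e : ℕ) (k : ℤ × ℤ) : par d (par e k) = par (d + e) k := by
  unfold par
  have h : ∀ x : ℤ, x / 2 ^ e / 2 ^ d = x / 2 ^ (d + e) := by
    intro x
    rw [Int.ediv_ediv_of_nonneg (by positivity), ← pow_add, add_comm]
  simp only [h]

private lemma sqb_box {d e : ℕ} {k0 k' : ℤ} :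
    k' ∈ Finset.Ico (k0 * 2 ^ (d + e)) ((k0 + 2) * 2 ^ (d + e)) ↔
      k' / 2 ^ e ∈ Finset.Ico (k0 * 2 ^ d) ((k0 + 2) * 2 ^ d) := by
  have h0 : (0 : ℤ) < 2 ^ e := by positivity
  rw [Finset.mem_Ico, Finset.mem_Ico, Int.le_ediv_iff_mul_le h0, Int.ediv_lt_iff_lt_mul h0, pow_add,
    mul_assoc, mul_assoc]

lemma mem_boxIdx_add {d e : ℕ} {k0 k' : ℤ × ℤ} :
    k' ∈ boxIdx (d + e) k0 ↔ par e k' ∈ boxIdx d k0 := by
  unfold boxIdx par
  rw [Finset.mem_product, Finset.mem_product, sqb_box, sqb_box]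

lemma sum_boxIdx (d e : ℕ) (k0 : ℤ × ℤ) (F : ℤ × ℤ → ℝ) :
    ∑ k' ∈ boxIdx (d + e) k0, F k' = ∑ k ∈ boxIdx d k0, ∑ k' ∈ kids e k, F k' := by
  classical
  rw [← Finset.sum_fiberwise_of_maps_to (g := par e) (t := boxIdx d k0)
    (fun x hx => mem_boxIdx_add.1 hx)]
  refine Finset.sum_congr rfl fun k hk => ?_
  refine Finset.sum_congr ?_ fun _ _ => rfl
  ext k'
  rw [Finset.mem_filter, mem_kids]
  refine ⟨fun h => h.2, fun h => ⟨?_, h⟩⟩
  rw [mem_boxIdx_add, h]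
  exact hk

end Pool.Agent.H63.CR
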