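import Pool.Agent.H63.CR.Defs
import Pool.Agent.H63.CR.SQA
import Pool.Agent.H63.CR.SQB
import Pool.Agent.H63.CR.AMP

/-!
# H63/CR/TWA: one step of the Lyapunov inequality (about 90 min, finite sums)

Notation: `n = K0 + i`, `d = p (n+1) - p n`, `s = side (p n)`, `s' = side (p (n+1))`, so
`s ^ 2 = 4 ^ d * s' ^ 2`; `W = qf (w j)`; `S i` = sum over `cf i` of `s ^ 2 * W (G n k)`,
`A i = s ^ 2 * card (cf i)`.

PROOF of `tw_step`.
(1) `W (g + x) = W g + lin g x + W x` with `lin g x` bilinear,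
`|lin g x| <= Cw * ‖g‖ * ‖x‖`, `|W x| <= Cw * ‖x‖ ^ 2`, `Cw` depending on `w j` only; `W (-g) = W g`,
so `coer` also holds on `-cone j`.
(2) `‖G n k‖ <= D0 * (n + 1)` for all `k` in the box (take for `D0` the maximum of `C` and of the
norms at level `n0`; induction with `inc`, `amp <= 1`, `mem_boxIdx_add`). (lemma `tw_bound`)
(3) For `k` in `cf i`: the sum over `k' in kids d k` of `W (G (n+1) k')` is
`4 ^ d * W (G n k) + lin (G n k) (sum of the differences) + sum of W (differences)`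
`<= 4 ^ d * (W (G n k) + Cw * D0 * (n+1) * dlt n - c * amp (n+1) ^ 2)` by `mean`, `quad`.
(4) The elements of `cf (i+1)` are exactly the `k'` in `kids d k`, `k in cf i`, with
`G (n+1) k' in K`. For `k'` in `kids d k`, `k in cf i`, with `G (n+1) k'` not in `K`:
`W (G (n+1) k') >= W (G n k) - Cw ‖G n k‖ C amp - Cw C^2 amp^2 >= -D1` for a constant `D1`, since
`W (G n k) >= c * sqn (G n k) >= c * ‖G n k‖ ^ 2` and `c x^2 - B x >= - B^2 / (4 c)`.
(5) So the sum over `cf (i+1)` of `W` is at most the sum over all kids plus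
`D1 * (number of the kids outside)`; multiply by `s' ^ 2` and use `s' ^ 2 * 4 ^ d = s ^ 2`:
`s' ^ 2 * (number of kids outside) = A i - A (i+1)`.
-/

open MeasureTheory Set Filter
open scoped Topology ENNReal

namespace Pool.Agent.H63.CR

variable {f : ℝ × ℝ → ℝ} {p : ℕ → ℕ} {G : ℕ → ℤ × ℤ → ℝ × ℝ} {n0 : ℕ} {k0 : ℤ × ℤ} {C c : ℝ}
  {w : Fin 3 → ℝ × ℝ × ℝ}

private lemma twa_pmono (hW : IsWalk f p G n0 k0 C c w) : Monotone p := by
  refine monotone_nat_of_le_succ ?_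
  intro n
  have := hW.step n
  omega

private lemma twa_split (hW : IsWalk f p G n0 k0 C c w) {n : ℕ} (hn : n0 ≤ n) :
    p (n + 1) - p n0 = (p n - p n0) + (p (n + 1) - p n) := by
  have h1 := twa_pmono hW hn
  have h2 := hW.step n
  omega

private lemma twa_par_mem (hW : IsWalk f p G n0 k0 C c w) {n : ℕ} (hn : n0 ≤ n) {k' : ℤ × ℤ}
    (hk : k' ∈ boxIdx (p (n + 1) - p n0) k0) :
    par (p (n + 1) - p n) k' ∈ boxIdx (p n - p n0) k0 := by
  rw [twa_split hW hn] at hk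
  exact mem_boxIdx_add.mp hk

/-- the gradients grow at most linearly in `n` -/
lemma tw_bound (hW : IsWalk f p G n0 k0 C c w) : ∃ D0 : ℝ, 0 ≤ D0 ∧ ∀ n, n0 ≤ n →
    ∀ k ∈ boxIdx (p n - p n0) k0, ‖G n k‖ ≤ D0 * (n + 1) := by
  have hC := hW.hC
  have hM : 0 ≤ ∑ k ∈ boxIdx (p n0 - p n0) k0, ‖G n0 k‖ :=
    Finset.sum_nonneg fun k _ => norm_nonneg _
  refine ⟨C + ∑ k ∈ boxIdx (p n0 - p n0) k0, ‖G n0 k‖, by linarith, ?_⟩
  intro n hn
  induction n, hn using Nat.le_induction with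
  | base =>
    intro k hk
    have h1 : ‖G n0 k‖ ≤ ∑ k ∈ boxIdx (p n0 - p n0) k0, ‖G n0 k‖ :=
      Finset.single_le_sum (f := fun k => ‖G n0 k‖) (fun k _ => norm_nonneg _) hk
    have h2 : (0 : ℝ) ≤ n0 := Nat.cast_nonneg _
    nlinarith
  | succ n hn ih =>
    intro k' hk'
    have h1 := twa_par_mem hW hn hk'
    have h2 := ih _ h1
    have h3 := hW.inc n hn _ h1 k' (mem_kids.mpr rfl)
    have h4 := amp_le_one (n + 1)
    have h5 : ‖G (n + 1) k'‖ ≤ ‖G (n + 1) k' - G n (par (p (n + 1) - p n) k')‖ +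
        ‖G n (par (p (n + 1) - p n) k')‖ := by
      have := norm_add_le (G (n + 1) k' - G n (par (p (n + 1) - p n) k'))
        (G n (par (p (n + 1) - p n) k'))
      rwa [sub_add_cancel] at this
    have h6 : C * amp (n + 1) ≤ C := by nlinarith
    push_cast
    nlinarith

lemma cf_sub (hW : IsWalk f p G n0 k0 C c w) (K : Set (ℝ × ℝ)) (K0 i : ℕ) :
    cf p G n0 k0 K K0 i ⊆ boxIdx (p (K0 + i) - p n0) k0 := by
  classical
  cases i with
  | zero => exact Finset.filter_subset _ _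
  | succ i => exact Finset.filter_subset _ _

lemma cf_mem (K : Set (ℝ × ℝ)) (K0 i : ℕ) {k : ℤ × ℤ} (hk : k ∈ cf p G n0 k0 K K0 i) :
    G (K0 + i) k ∈ K := by
  classical
  cases i with
  | zero => exact (Finset.mem_filter.mp hk).2
  | succ i => exact (Finset.mem_filter.mp hk).2.2

open Classical in
private lemma twa_cf_succ (hW : IsWalk f p G n0 k0 C c w) (K : Set (ℝ × ℝ)) (K0 : ℕ)
    (hK0 : n0 ≤ K0) (i : ℕ) :
    cf p G n0 k0 K K0 (i + 1) =
      Finset.filter (fun k => G (K0 + i + 1) k ∈ K)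
        ((cf p G n0 k0 K K0 i).biUnion (kids (p (K0 + i + 1) - p (K0 + i)))) := by
  ext k
  rw [cf, Finset.mem_filter, Finset.mem_filter, Finset.mem_biUnion]
  constructor
  · rintro ⟨h1, h2, h3⟩
    exact ⟨⟨_, h2, mem_kids.mpr rfl⟩, h3⟩
  · rintro ⟨⟨a, ha, hka⟩, h3⟩
    rw [mem_kids] at hka
    subst hka
    refine ⟨?_, ha, h3⟩
    have hn : n0 ≤ K0 + i := by omega
    rw [twa_split hW hn]
    exact mem_boxIdx_add.mpr (cf_sub hW K K0 i ha)

private lemma twa_disj (d : ℕ) (S : Finset (ℤ × ℤ)) :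
    (S : Set (ℤ × ℤ)).PairwiseDisjoint (kids d) := by
  intro a _ b _ hab
  rw [Function.onFun, Finset.disjoint_left]
  intro x hx hy
  exact hab ((mem_kids.mp hx).symm.trans (mem_kids.mp hy))

private lemma twa_card (d : ℕ) (S : Finset (ℤ × ℤ)) :
    ((S.biUnion (kids d)).card : ℝ) = 4 ^ d * (S.card : ℝ) := by
  rw [Finset.card_biUnion (fun a ha b hb hab => twa_disj d S ha hb hab)]
  simp only [card_kids, Finset.sum_const, smul_eq_mul]
  push_cast
  ring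

private lemma twa_side (hW : IsWalk f p G n0 k0 C c w) (n : ℕ) :
    side (p (n + 1)) ^ 2 * 4 ^ (p (n + 1) - p n) = side (p n) ^ 2 := by
  have h1 : p (n + 1) = p n + (p (n + 1) - p n) := by
    have := hW.step n
    omega
  have h2 := side_add (p n) (p (n + 1) - p n)
  rw [← h1] at h2
  have h3 : (4 : ℝ) ^ (p (n + 1) - p n) = (2 ^ (p (n + 1) - p n)) ^ 2 := by
    rw [← pow_mul, mul_comm, pow_mul]
    norm_num
  rw [h3, ← mul_pow, h2]

/-- the area does not increase -/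
lemma cf_area (hW : IsWalk f p G n0 k0 C c w) (K : Set (ℝ × ℝ)) (K0 : ℕ) (hK0 : n0 ≤ K0)
    (i : ℕ) :
    side (p (K0 + (i + 1))) ^ 2 * ((cf p G n0 k0 K K0 (i + 1)).card : ℝ) ≤
      side (p (K0 + i)) ^ 2 * ((cf p G n0 k0 K K0 i).card : ℝ) := by
  classical
  have h1 : ((cf p G n0 k0 K K0 (i + 1)).card : ℝ) ≤
      (((cf p G n0 k0 K K0 i).biUnion (kids (p (K0 + i + 1) - p (K0 + i)))).card : ℝ) := by
    rw [twa_cf_succ hW K K0 hK0 i]
    exact_mod_cast Finset.card_filter_le _ _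
  rw [twa_card] at h1
  have h2 := twa_side hW (K0 + i)
  have h3 : side (p (K0 + (i + 1))) = side (p (K0 + i + 1)) := rfl
  rw [h3, ← h2]
  have h4 : 0 ≤ side (p (K0 + i + 1)) ^ 2 := sq_nonneg _
  calc side (p (K0 + i + 1)) ^ 2 * ((cf p G n0 k0 K K0 (i + 1)).card : ℝ)
      ≤ side (p (K0 + i + 1)) ^ 2 *
        (4 ^ (p (K0 + i + 1) - p (K0 + i)) * ((cf p G n0 k0 K K0 i).card : ℝ)) :=
        mul_le_mul_of_nonneg_left h1 h4
    _ = _ := by ring

/-! ### quadratic forms -/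

private noncomputable def twa_cw (v : ℝ × ℝ × ℝ) : ℝ := |v.1| + |v.2.1| + |v.2.2|

private noncomputable def twa_bl (v : ℝ × ℝ × ℝ) (g x : ℝ × ℝ) : ℝ :=
  2 * v.1 * g.1 * x.1 + v.2.1 * (g.1 * x.2 + g.2 * x.1) + 2 * v.2.2 * g.2 * x.2

private lemma twa_cw_nonneg (v : ℝ × ℝ × ℝ) : 0 ≤ twa_cw v := by
  unfold twa_cw
  positivity

private lemma twa_qf_add (v : ℝ × ℝ × ℝ) (g x : ℝ × ℝ) :
    qf v (g + x) = qf v g + twa_bl v g x + qf v x := by
  simp only [qf, twa_bl, Prod.fst_add, Prod.snd_add]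
  ring

private lemma twa_abs_fst (x : ℝ × ℝ) : |x.1| ≤ ‖x‖ := by
  rw [← Real.norm_eq_abs]
  exact norm_fst_le x

private lemma twa_abs_snd (x : ℝ × ℝ) : |x.2| ≤ ‖x‖ := by
  rw [← Real.norm_eq_abs]
  exact norm_snd_le x

private lemma twa_mul_le (g x : ℝ × ℝ) {a b : ℝ} (ha : |a| ≤ ‖g‖) (hb : |b| ≤ ‖x‖) :
    |a * b| ≤ ‖g‖ * ‖x‖ := by
  rw [abs_mul]
  exact mul_le_mul ha hb (abs_nonneg _) (norm_nonneg _)

private lemma twa_bl_le (v : ℝ × ℝ × ℝ) (g x : ℝ × ℝ) :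
    |twa_bl v g x| ≤ 2 * twa_cw v * (‖g‖ * ‖x‖) := by
  have h11 := twa_mul_le g x (twa_abs_fst g) (twa_abs_fst x)
  have h12 := twa_mul_le g x (twa_abs_fst g) (twa_abs_snd x)
  have h21 := twa_mul_le g x (twa_abs_snd g) (twa_abs_fst x)
  have h22 := twa_mul_le g x (twa_abs_snd g) (twa_abs_snd x)
  have e : twa_bl v g x = 2 * (v.1 * (g.1 * x.1)) + (v.2.1 * (g.1 * x.2) + v.2.1 * (g.2 * x.1))
      + 2 * (v.2.2 * (g.2 * x.2)) := by
    unfold twa_bl
    ring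
  have t1 : |v.1 * (g.1 * x.1)| ≤ |v.1| * (‖g‖ * ‖x‖) := by
    rw [abs_mul]; exact mul_le_mul_of_nonneg_left h11 (abs_nonneg _)
  have t2 : |v.2.1 * (g.1 * x.2)| ≤ |v.2.1| * (‖g‖ * ‖x‖) := by
    rw [abs_mul]; exact mul_le_mul_of_nonneg_left h12 (abs_nonneg _)
  have t3 : |v.2.1 * (g.2 * x.1)| ≤ |v.2.1| * (‖g‖ * ‖x‖) := by
    rw [abs_mul]; exact mul_le_mul_of_nonneg_left h21 (abs_nonneg _)
  have t4 : |v.2.2 * (g.2 * x.2)| ≤ |v.2.2| * (‖g‖ * ‖x‖) := by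
    rw [abs_mul]; exact mul_le_mul_of_nonneg_left h22 (abs_nonneg _)
  rw [abs_le] at t1 t2 t3 t4
  rw [e, abs_le]
  unfold twa_cw
  constructor
  · nlinarith [t1.1, t2.1, t3.1, t4.1]
  · nlinarith [t1.2, t2.2, t3.2, t4.2]

private lemma twa_qf_le (v : ℝ × ℝ × ℝ) (x : ℝ × ℝ) :
    |qf v x| ≤ twa_cw v * ‖x‖ ^ 2 := by
  have h1 := twa_bl_le v x x
  have h2 : twa_bl v x x = 2 * qf v x := by
    simp only [qf, twa_bl]
    ring
  rw [h2, abs_mul, abs_of_pos (by norm_num : (0 : ℝ) < 2)] at h1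
  nlinarith

private lemma twa_bl_sum (v : ℝ × ℝ × ℝ) (g : ℝ × ℝ) (S : Finset (ℤ × ℤ))
    (F : ℤ × ℤ → ℝ × ℝ) : ∑ k ∈ S, twa_bl v g (F k) = twa_bl v g (∑ k ∈ S, F k) := by
  simp only [twa_bl, Prod.fst_sum, Prod.snd_sum, mul_add, Finset.sum_add_distrib,
    Finset.mul_sum]

private lemma twa_norm_sq (g : ℝ × ℝ) : ‖g‖ ^ 2 ≤ sqn g := by
  unfold sqn
  rcases le_total |g.1| |g.2| with h | h
  · have e : ‖g‖ = |g.2| := by
      rw [Prod.norm_def, Real.norm_eq_abs, Real.norm_eq_abs, max_eq_right h]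
    rw [e, sq_abs]
    nlinarith [sq_nonneg g.1]
  · have e : ‖g‖ = |g.1| := by
      rw [Prod.norm_def, Real.norm_eq_abs, Real.norm_eq_abs, max_eq_left h]
    rw [e, sq_abs]
    nlinarith [sq_nonneg g.2]

private lemma twa_coer (hW : IsWalk f p G n0 k0 C c w) (j : Fin 3) (K : Set (ℝ × ℝ))
    (hK : K = cone j ∨ K = {g | -g ∈ cone j}) {g : ℝ × ℝ} (hg : g ∈ K) :
    c * ‖g‖ ^ 2 ≤ qf (w j) g := by
  have hc := hW.hc
  have h0 : c * sqn g ≤ qf (w j) g := by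
    rcases hK with h | h
    · rw [h] at hg
      exact hW.coer j g hg
    · rw [h] at hg
      have h1 := hW.coer j (-g) hg
      have h2 : sqn (-g) = sqn g := by
        simp only [sqn, Prod.fst_neg, Prod.snd_neg]; ring
      have h3 : qf (w j) (-g) = qf (w j) g := by
        simp only [qf, Prod.fst_neg, Prod.snd_neg]; ring
      rwa [h2, h3] at h1
  exact (mul_le_mul_of_nonneg_left (twa_norm_sq g) hc.le).trans h0

/-- the sum over the kids of one square -/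
private lemma twa_cell (hW : IsWalk f p G n0 k0 C c w) (j : Fin 3) {n : ℕ} (hn : n0 ≤ n)
    {k : ℤ × ℤ} (hk : k ∈ boxIdx (p n - p n0) k0) :
    ∑ k' ∈ kids (p (n + 1) - p n) k, qf (w j) (G (n + 1) k') ≤
      4 ^ (p (n + 1) - p n) * (qf (w j) (G n k) + 2 * twa_cw (w j) * ‖G n k‖ * dlt n
        - c * amp (n + 1) ^ 2) := by
  have h1 : ∀ k' ∈ kids (p (n + 1) - p n) k, qf (w j) (G (n + 1) k') =
      qf (w j) (G n k) + twa_bl (w j) (G n k) (G (n + 1) k' - G n k)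
        + qf (w j) (G (n + 1) k' - G n k) := by
    intro k' _
    rw [← twa_qf_add, add_sub_cancel]
  rw [Finset.sum_congr rfl h1, Finset.sum_add_distrib, Finset.sum_add_distrib, twa_bl_sum,
    Finset.sum_const, card_kids, nsmul_eq_mul]
  have h2 := hW.mean n hn k hk
  have h3 := hW.quad j n hn k hk
  have h4 := (abs_le.mp (twa_bl_le (w j) (G n k)
    (∑ k' ∈ kids (p (n + 1) - p n) k, (G (n + 1) k' - G n k)))).2
  have h5 : 2 * twa_cw (w j) * (‖G n k‖ *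
      ‖∑ k' ∈ kids (p (n + 1) - p n) k, (G (n + 1) k' - G n k)‖) ≤
      2 * twa_cw (w j) * (‖G n k‖ * (dlt n * 4 ^ (p (n + 1) - p n))) := by
    have := twa_cw_nonneg (w j)
    have h6 : 0 ≤ ‖G n k‖ := norm_nonneg _
    gcongr
  push_cast
  nlinarith

theorem tw_step (hW : IsWalk f p G n0 k0 C c w) (j : Fin 3) (K : Set (ℝ × ℝ))
    (hK : K = cone j ∨ K = {g | -g ∈ cone j}) (K0 : ℕ) (hK0 : n0 ≤ K0) :
    ∃ D : ℝ, 0 ≤ D ∧ ∀ i,
      (∑ k ∈ cf p G n0 k0 K K0 (i + 1), side (p (K0 + (i + 1))) ^ 2 * qf (w j) (G (K0 + (i + 1)) k))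
        + c * amp (K0 + i + 1) ^ 2 *
            (side (p (K0 + i)) ^ 2 * ((cf p G n0 k0 K K0 i).card : ℝ)) ≤
      (∑ k ∈ cf p G n0 k0 K K0 i, side (p (K0 + i)) ^ 2 * qf (w j) (G (K0 + i) k))
        + D * (K0 + i + 1) * dlt (K0 + i) *
            (side (p (K0 + i)) ^ 2 * ((cf p G n0 k0 K K0 i).card : ℝ))
        + D * (side (p (K0 + i)) ^ 2 * ((cf p G n0 k0 K K0 i).card : ℝ) -
            side (p (K0 + (i + 1))) ^ 2 * ((cf p G n0 k0 K K0 (i + 1)).card : ℝ)) := by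
  classical
  obtain ⟨D0, hD0, hb⟩ := tw_bound hW
  have hc := hW.hc
  have hC := hW.hC
  have hCw := twa_cw_nonneg (w j)
  set Cw : ℝ := twa_cw (w j) with hCwdef
  set D1 : ℝ := (Cw * C) ^ 2 / c + Cw * C ^ 2 with hD1def
  have hD1 : 0 ≤ D1 := by positivity
  refine ⟨2 * Cw * D0 + D1, by positivity, ?_⟩
  intro i
  set n : ℕ := K0 + i with hn_def
  have hn : n0 ≤ n := by omega
  set d : ℕ := p (n + 1) - p n with hd
  set S := cf p G n0 k0 K K0 i with hS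
  set T := S.biUnion (kids d) with hT
  have hSsub : S ⊆ boxIdx (p n - p n0) k0 := cf_sub hW K K0 i
  have e0 : K0 + (i + 1) = n + 1 := by omega
  have hcf : cf p G n0 k0 K K0 (i + 1) = Finset.filter (fun k => G (n + 1) k ∈ K) T :=
    twa_cf_succ hW K K0 hK0 i
  have harea := cf_area hW K K0 hK0 i
  rw [e0] at harea ⊢
  have hside := twa_side hW n
  have hs' : 0 ≤ side (p (n + 1)) ^ 2 := sq_nonneg _
  have hcard : (T.card : ℝ) = 4 ^ d * (S.card : ℝ) := twa_card d S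
  -- outside
  have hout : ∀ k' ∈ Finset.filter (fun k => ¬ G (n + 1) k ∈ K) T,
      -D1 ≤ qf (w j) (G (n + 1) k') := by
    intro k' hk'
    rw [Finset.mem_filter, hT, Finset.mem_biUnion] at hk'
    obtain ⟨⟨k, hk, hkk⟩, _⟩ := hk'
    have h1 : G n k ∈ K := cf_mem K K0 i hk
    have h2 := twa_coer hW j K hK h1
    have h3 := hW.inc n hn k (hSsub hk) k' hkk
    have h4 : ‖G (n + 1) k' - G n k‖ ≤ C := by
      refine h3.trans ?_
      have := amp_le_one (n + 1)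
      nlinarith
    have h5 := twa_qf_add (w j) (G n k) (G (n + 1) k' - G n k)
    rw [add_sub_cancel] at h5
    have h6 := (abs_le.mp (twa_bl_le (w j) (G n k) (G (n + 1) k' - G n k))).1
    have h7 := (abs_le.mp (twa_qf_le (w j) (G (n + 1) k' - G n k))).1
    rw [← hCwdef] at h6 h7
    have h8 : 2 * Cw * (‖G n k‖ * ‖G (n + 1) k' - G n k‖) ≤ 2 * Cw * (‖G n k‖ * C) := by
      have h9 : 0 ≤ ‖G n k‖ := norm_nonneg _
      gcongr
    have h9 : Cw * ‖G (n + 1) k' - G n k‖ ^ 2 ≤ Cw * C ^ 2 := by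
      gcongr
    have h10 : -((Cw * C) ^ 2 / c) ≤ c * ‖G n k‖ ^ 2 - 2 * Cw * (‖G n k‖ * C) := by
      have h11 : c * ‖G n k‖ ^ 2 - 2 * Cw * (‖G n k‖ * C) + (Cw * C) ^ 2 / c =
          (c * ‖G n k‖ - Cw * C) ^ 2 / c := by
        field_simp
        ring
      have h12 : 0 ≤ (c * ‖G n k‖ - Cw * C) ^ 2 / c := by positivity
      linarith
    rw [hD1def]
    linarith
  -- the split
  have hsplit := Finset.sum_filter_add_sum_filter_not T (fun k => G (n + 1) k ∈ K)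
    (fun k => qf (w j) (G (n + 1) k))
  have hcsplit := Finset.card_filter_add_card_filter_not (s := T) (fun k => G (n + 1) k ∈ K)
  have hsum2 : -D1 * ((Finset.filter (fun k => ¬ G (n + 1) k ∈ K) T).card : ℝ) ≤
      ∑ k ∈ Finset.filter (fun k => ¬ G (n + 1) k ∈ K) T, qf (w j) (G (n + 1) k) := by
    have := Finset.card_nsmul_le_sum _ _ _ hout
    rw [nsmul_eq_mul] at this
    linarith
  have hcell : ∑ k ∈ T, qf (w j) (G (n + 1) k) ≤
      ∑ k ∈ S, 4 ^ d * (qf (w j) (G n k) + 2 * Cw * (D0 * (n + 1)) * dlt n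
        - c * amp (n + 1) ^ 2) := by
    rw [hT, Finset.sum_biUnion (twa_disj d S)]
    refine Finset.sum_le_sum fun k hk => ?_
    refine (twa_cell hW j hn (hSsub hk)).trans ?_
    have h1 := hb n hn k (hSsub hk)
    have h2 : 0 ≤ dlt n := by
      unfold dlt
      positivity
    have h3 : 2 * twa_cw (w j) * ‖G n k‖ * dlt n ≤ 2 * Cw * (D0 * (n + 1)) * dlt n := by
      rw [← hCwdef]
      gcongr
    have h4 : (0 : ℝ) ≤ 4 ^ d := by positivity
    refine mul_le_mul_of_nonneg_left ?_ h4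
    linarith
  rw [← Finset.mul_sum, Finset.sum_sub_distrib, Finset.sum_add_distrib, Finset.sum_const,
    Finset.sum_const, nsmul_eq_mul, nsmul_eq_mul] at hcell
  have hcardc : ((Finset.filter (fun k => G (n + 1) k ∈ K) T).card : ℝ) +
      ((Finset.filter (fun k => ¬ G (n + 1) k ∈ K) T).card : ℝ) = 4 ^ d * (S.card : ℝ) := by
    rw [← hcard]
    exact_mod_cast hcsplit
  rw [← hcf] at hsplit hcardc
  rw [← Finset.mul_sum, ← Finset.mul_sum]
  set X := ∑ k ∈ cf p G n0 k0 K K0 (i + 1), qf (w j) (G (n + 1) k) with hX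
  set Y := ∑ k ∈ S, qf (w j) (G n k) with hY
  set a' : ℝ := ((cf p G n0 k0 K K0 (i + 1)).card : ℝ) with ha'
  set a : ℝ := (S.card : ℝ) with ha
  set o : ℝ := ((Finset.filter (fun k => ¬ G (n + 1) k ∈ K) T).card : ℝ) with ho
  have hXle : X ≤ 4 ^ d * (Y + a * (2 * Cw * (D0 * (n + 1)) * dlt n) - a * (c * amp (n + 1) ^ 2))
      + D1 * (4 ^ d * a - a') := by
    have h1 : o = 4 ^ d * a - a' := by linarith
    rw [← h1]
    linarith
  have hmul := mul_le_mul_of_nonneg_left hXle hs'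
  have hrew : side (p (n + 1)) ^ 2 * (4 ^ d * (Y + a * (2 * Cw * (D0 * (n + 1)) * dlt n)
      - a * (c * amp (n + 1) ^ 2)) + D1 * (4 ^ d * a - a')) =
      side (p n) ^ 2 * (Y + a * (2 * Cw * (D0 * (n + 1)) * dlt n)
      - a * (c * amp (n + 1) ^ 2)) + D1 * (side (p n) ^ 2 * a - side (p (n + 1)) ^ 2 * a') := by
    rw [← hside]
    ring
  rw [hrew] at hmul
  have hnc : ((n : ℕ) : ℝ) = (K0 : ℝ) + (i : ℝ) := by
    rw [hn_def]
    push_cast
    ring
  have hdl : 0 ≤ dlt n := by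
    unfold dlt
    positivity
  have ha0 : 0 ≤ side (p n) ^ 2 * a := by positivity
  have hk0 : (0 : ℝ) ≤ (K0 : ℝ) + i + 1 := by positivity
  have hz1 : 0 ≤ D1 * ((K0 : ℝ) + i + 1) * dlt n * (side (p n) ^ 2 * a) := by positivity
  have hz2 : 0 ≤ (2 * Cw * D0) * (side (p n) ^ 2 * a - side (p (n + 1)) ^ 2 * a') := by
    have : 0 ≤ side (p n) ^ 2 * a - side (p (n + 1)) ^ 2 * a' := by linarith
    positivity
  rw [hnc] at hmul
  nlinarith [hmul, hz1, hz2]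

end Pool.Agent.H63.CR
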