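import Pool.Agent.H63.CR.RSL
import Pool.Agent.H63.CR.TWA

/-!
# H63/CR/TWB: the Lyapunov lemma (about 40 min)

Apply `rsl` with `A i = side ^ 2 * card (cf i)`, `S i` the sum of `side ^ 2 * qf (w j) (G k)`,
`Q i` the sum of `side ^ 2 * sqn (G k)`, `L i` the sum of `side ^ 2 * (1 + ‖G k‖)`,
`b i = amp (K0 + i + 1) ^ 2` (`amp_sq_unbounded`), `e i = D * (K0 + i + 1) * dlt (K0 + i)` (bounded
partial sums, since the sum of `(m+1) / 2^m` is finite), `tw_step`, `cf_area`, `coer` (for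
`-cone j` use `qf w (-g) = qf w g`, `sqn (-g) = sqn g`), and `‖g‖ <= 1/ep + ep * sqn g`
(sup norm: `‖g‖ ^ 2 <= sqn g`).
-/

open MeasureTheory Set Filter
open scoped Topology ENNReal

namespace Pool.Agent.H63.CR

variable {f : ℝ × ℝ → ℝ} {p : ℕ → ℕ} {G : ℕ → ℤ × ℤ → ℝ × ℝ} {n0 : ℕ} {k0 : ℤ × ℤ} {C c : ℝ}
  {w : Fin 3 → ℝ × ℝ × ℝ}

private lemma twb_sum (K0 n : ℕ) : ∑ i ∈ Finset.range n, ((K0 : ℝ) + i + 1) * dlt (K0 + i) =
    (2 * (K0 : ℝ) + 4) * dlt K0 - (2 * ((K0 : ℝ) + n) + 4) * dlt (K0 + n) := by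
  induction n with
  | zero => simp
  | succ n ih =>
    rw [Finset.sum_range_succ, ih]
    have h1 : dlt (K0 + n) = 2 * dlt (K0 + (n + 1)) := by
      unfold dlt
      rw [← Nat.add_assoc, pow_succ]
      ring
    rw [h1]
    push_cast
    ring

private lemma twb_dlt_pos (n : ℕ) : 0 < dlt n := by
  unfold dlt
  positivity

private lemma twb_norm (g : ℝ × ℝ) : ‖g‖ ^ 2 ≤ sqn g := by
  unfold sqn
  rw [Prod.norm_def, Real.norm_eq_abs, Real.norm_eq_abs]
  rcases le_total |g.1| |g.2| with h | h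
  · rw [max_eq_right h, sq_abs]
    nlinarith [sq_nonneg g.1]
  · rw [max_eq_left h, sq_abs]
    nlinarith [sq_nonneg g.2]

private lemma twb_L (g : ℝ × ℝ) (ep : ℝ) (hep : 0 < ep) :
    1 + ‖g‖ ≤ (1 + 1 / ep) + ep * sqn g := by
  have h1 := twb_norm g
  have h2 : ep * ‖g‖ ^ 2 ≤ ep * sqn g := mul_le_mul_of_nonneg_left h1 hep.le
  have h3 : 0 ≤ ep * (‖g‖ - 1 / ep) ^ 2 := by positivity
  have h4 : ep * (‖g‖ - 1 / ep) ^ 2 = ep * ‖g‖ ^ 2 - 2 * ‖g‖ + 1 / ep := by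
    field_simp
    ring
  have h5 : 0 ≤ ‖g‖ := norm_nonneg g
  have h6 : 0 ≤ ep * ‖g‖ ^ 2 := by positivity
  have h7 : 0 < 1 / ep := by positivity
  linarith

theorem tree_walk (hW : IsWalk f p G n0 k0 C c w) (j : Fin 3) (K : Set (ℝ × ℝ))
    (hK : K = cone j ∨ K = {g | -g ∈ cone j}) (K0 : ℕ) (hK0 : n0 ≤ K0) :
    Tendsto (fun i => ∑ k ∈ cf p G n0 k0 K K0 i,
      side (p (K0 + i)) ^ 2 * (1 + ‖G (K0 + i) k‖)) atTop (𝓝 0) := by
  obtain ⟨D, hD, hstep⟩ := tw_step hW j K hK K0 hK0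
  have hcoer : ∀ g ∈ K, c * sqn g ≤ qf (w j) g := by
    intro g hg
    rcases hK with rfl | rfl
    · exact hW.coer j g hg
    · have h1 := hW.coer j (-g) hg
      have h2 : sqn (-g) = sqn g := by
        unfold sqn
        simp
      have h3 : qf (w j) (-g) = qf (w j) g := by
        unfold qf
        simp only [Prod.fst_neg, Prod.snd_neg]
        ring
      rwa [h2, h3] at h1
  have hsq : ∀ g : ℝ × ℝ, 0 ≤ sqn g := fun g => by unfold sqn; positivity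
  refine rsl (fun i => side (p (K0 + i)) ^ 2 * ((cf p G n0 k0 K K0 i).card : ℝ))
    (fun i => ∑ k ∈ cf p G n0 k0 K K0 i, side (p (K0 + i)) ^ 2 * qf (w j) (G (K0 + i) k))
    (fun i => ∑ k ∈ cf p G n0 k0 K K0 i, side (p (K0 + i)) ^ 2 * sqn (G (K0 + i) k))
    (fun i => ∑ k ∈ cf p G n0 k0 K K0 i, side (p (K0 + i)) ^ 2 * (1 + ‖G (K0 + i) k‖))
    (fun i => amp (K0 + i + 1) ^ 2)
    (fun i => D * (((K0 : ℝ) + i + 1) * dlt (K0 + i)))
    c D (D * ((2 * (K0 : ℝ) + 4) * dlt K0)) hW.hc hD ?_ ?_ ?_ ?_ ?_ ?_ ?_ ?_ ?_ ?_ ?_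
  · intro i
    positivity
  · intro i
    exact cf_area hW K K0 hK0 i
  · intro i
    exact Finset.sum_nonneg fun k _ => mul_nonneg (sq_nonneg _) (hsq _)
  · intro i
    rw [Finset.mul_sum]
    apply Finset.sum_le_sum
    intro k hk
    have h1 := hcoer _ (cf_mem K K0 i hk)
    have h2 := mul_le_mul_of_nonneg_left h1 (sq_nonneg (side (p (K0 + i))))
    calc c * (side (p (K0 + i)) ^ 2 * sqn (G (K0 + i) k))
        = side (p (K0 + i)) ^ 2 * (c * sqn (G (K0 + i) k)) := by ring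
      _ ≤ _ := h2
  · intro i
    have := (twb_dlt_pos (K0 + i)).le
    positivity
  · intro n
    rw [← Finset.mul_sum, twb_sum]
    apply mul_le_mul_of_nonneg_left _ hD
    have h1 := (twb_dlt_pos (K0 + n)).le
    have h2 : 0 ≤ (2 * ((K0 : ℝ) + n) + 4) * dlt (K0 + n) := by positivity
    linarith
  · intro i
    positivity
  · intro B
    exact amp_sq_unbounded K0 B
  · intro i
    have h1 := hstep i
    refine le_trans h1 (le_of_eq ?_)
    ring
  · intro i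
    exact Finset.sum_nonneg fun k _ =>
      mul_nonneg (sq_nonneg _) (add_nonneg zero_le_one (norm_nonneg _))
  · intro i ep hep
    have h1 : ∑ k ∈ cf p G n0 k0 K K0 i, side (p (K0 + i)) ^ 2 * (1 + ‖G (K0 + i) k‖) ≤
        ∑ k ∈ cf p G n0 k0 K K0 i, side (p (K0 + i)) ^ 2 *
          ((1 + 1 / ep) + ep * sqn (G (K0 + i) k)) := by
      apply Finset.sum_le_sum
      intro k _
      exact mul_le_mul_of_nonneg_left (twb_L _ ep hep) (sq_nonneg _)
    refine h1.trans (le_of_eq ?_)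
    have h2 : ∀ k, side (p (K0 + i)) ^ 2 * ((1 + 1 / ep) + ep * sqn (G (K0 + i) k)) =
        (1 + 1 / ep) * side (p (K0 + i)) ^ 2 +
          ep * (side (p (K0 + i)) ^ 2 * sqn (G (K0 + i) k)) := fun k => by ring
    rw [Finset.sum_congr rfl fun k _ => h2 k, Finset.sum_add_distrib, Finset.sum_const,
      nsmul_eq_mul, Finset.mul_sum]
    ring

end Pool.Agent.H63.CR
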