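import Pool.Agent.H63.CR.SQA
import Pool.Agent.H63.CR.COA
import Pool.Agent.H63.CR.HNL
import Pool.Agent.H63.CR.TWB

/-!
# H63/CR/CNF: confined points form a null set of the level curve (about 60 min)

Let `T i t := cnt f (p (K0+i)) (cf p G n0 k0 K K0 i) t`. By `coarea` (`cf_sub`) and `tree_walk` the
integral of `T i` over `t` tends to zero as `i -> oo`. By Fatou (`MeasureTheory.lintegral_liminf_le`),
for almost every `t` the liminf of `T i t` is zero. Fix such `t`. A point `u` of the set has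
`idx (p (K0+i)) u` in `cf i` for all `i` (induction, `par_idx`, `idx_mem_boxIdx`), so for every `i`
the set is covered by the squares of `cf i` whose image contains `t`; their number times the side
is `T i t` (`cnt_eq`) and the diameter of each is at most `side (p (K0+i)) -> 0`
(`norm_sub_le_side`). `hnl_of_cover`.
-/

open MeasureTheory Set Filter
open scoped Topology ENNReal

namespace Pool.Agent.H63.CR

variable {f : ℝ × ℝ → ℝ} {p : ℕ → ℕ} {G : ℕ → ℤ × ℤ → ℝ × ℝ} {n0 : ℕ} {k0 : ℤ × ℤ} {C c : ℝ}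
  {w : Fin 3 → ℝ × ℝ × ℝ}

private lemma cnf_strict {p : ℕ → ℕ} (h : ∀ n, p n + 4 ≤ p (n + 1)) : StrictMono p :=
  strictMono_nat_of_lt_succ fun n => by
    have := h n
    omega

private lemma cnf_side_tendsto {p : ℕ → ℕ} (h : ∀ n, p n + 4 ≤ p (n + 1)) (K0 : ℕ) :
    Tendsto (fun i => side (p (K0 + i))) atTop (𝓝 0) := by
  have h1 : Tendsto (fun i => p (K0 + i)) atTop atTop :=
    ((cnf_strict h).tendsto_atTop).comp (tendsto_add_atTop_nat K0 |>.congr fun i => by ring)
  have h2 : Tendsto (fun q : ℕ => (1 / 2 : ℝ) ^ q) atTop (𝓝 0) :=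
    tendsto_pow_atTop_nhds_zero_of_lt_one (by norm_num) (by norm_num)
  exact h2.comp h1

private lemma cnf_ediam (p : ℕ) (k : ℤ × ℤ) : Metric.ediam (csq p k) ≤ ENNReal.ofReal (side p) := by
  refine Metric.ediam_le fun u hu v hv => ?_
  rw [edist_dist, dist_eq_norm]
  exact ENNReal.ofReal_le_ofReal (norm_sub_le_side hu hv)

/-- a set covered by the squares of a finite set is a countable union of small sets -/
private lemma cnf_cover (q : ℕ) (T : Finset (ℤ × ℤ)) (Z : Set (ℝ × ℝ))
    (hZ : ∀ u ∈ Z, ∃ k ∈ T, u ∈ csq q k) (ep : ℝ≥0∞) (h1 : ENNReal.ofReal (side q) ≤ ep)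
    (h2 : ENNReal.ofReal (T.card * side q) ≤ ep) :
    ∃ U : ℕ → Set (ℝ × ℝ), Z ⊆ ⋃ i, U i ∧
      (∀ i, Metric.ediam (U i) ≤ ep) ∧ ∑' i, Metric.ediam (U i) ≤ ep := by
  classical
  refine ⟨fun i => if h : i < T.card then csq q (T.equivFin.symm ⟨i, h⟩ : ℤ × ℤ) else ∅, ?_, ?_, ?_⟩
  · intro u hu
    obtain ⟨k, hk, huk⟩ := hZ u hu
    rw [mem_iUnion]
    refine ⟨(T.equivFin ⟨k, hk⟩ : ℕ), ?_⟩
    rw [dif_pos (T.equivFin ⟨k, hk⟩).2]
    simpa using huk
  · intro i
    dsimp only
    split_ifs with h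
    · exact (cnf_ediam q _).trans h1
    · simp
  · rw [tsum_eq_sum (s := Finset.range T.card)]
    · refine le_trans ?_ h2
      calc ∑ i ∈ Finset.range T.card, Metric.ediam (if h : i < T.card then
              csq q (T.equivFin.symm ⟨i, h⟩ : ℤ × ℤ) else ∅)
          ≤ ∑ _i ∈ Finset.range T.card, ENNReal.ofReal (side q) := by
            refine Finset.sum_le_sum fun i hi => ?_
            rw [dif_pos (Finset.mem_range.1 hi)]
            exact cnf_ediam q _
        _ = ENNReal.ofReal (T.card * side q) := by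
            rw [Finset.sum_const, Finset.card_range, nsmul_eq_mul, ENNReal.ofReal_mul (Nat.cast_nonneg _),
              ENNReal.ofReal_natCast]
    · intro i hi
      dsimp only
      rw [dif_neg (fun h => hi (Finset.mem_range.2 h))]
      simp

theorem conf_null (hW : IsWalk f p G n0 k0 C c w) (j : Fin 3) (K : Set (ℝ × ℝ))
    (hK : K = cone j ∨ K = {g | -g ∈ cone j}) (K0 : ℕ) (hK0 : n0 ≤ K0) :
    ∀ᵐ t ∂(volume : Measure ℝ),
    Measure.hausdorffMeasure 1 {u : ℝ × ℝ | u ∈ mid (p n0) k0 ∧ f u = t ∧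
      ∀ n, K0 ≤ n → G n (idx (p n) u) ∈ K} = 0 := by
  classical
  have hmono := (cnf_strict hW.step).monotone
  have hn : ∀ i, n0 ≤ K0 + i := fun i => hK0.trans (Nat.le_add_right _ _)
  have hS : ∀ i, cf p G n0 k0 K K0 i ⊆ boxIdx (p (K0 + i) - p n0) k0 := fun i => cf_sub hW K K0 i
  have hmeas : ∀ i, Measurable fun t => ENNReal.ofReal
      (cnt f (p (K0 + i)) (cf p G n0 k0 K K0 i) t) := fun i =>
    (measurable_cnt hW (K0 + i) (hn i) _ (hS i)).ennreal_ofReal
  have hint : Tendsto (fun i => ∫⁻ t, ENNReal.ofReal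
      (cnt f (p (K0 + i)) (cf p G n0 k0 K K0 i) t)) atTop (𝓝 0) := by
    have h1 := ENNReal.tendsto_ofReal ((tree_walk hW j K hK K0 hK0).const_mul 4)
    rw [mul_zero, ENNReal.ofReal_zero] at h1
    exact tendsto_of_tendsto_of_tendsto_of_le_of_le tendsto_const_nhds h1 (fun _ => bot_le)
      fun i => coarea hW (K0 + i) (hn i) _ (hS i)
  have hF : ∫⁻ t, liminf (fun i => ENNReal.ofReal
      (cnt f (p (K0 + i)) (cf p G n0 k0 K K0 i) t)) atTop = 0 := by
    have h1 := lintegral_liminf_le (μ := (volume : Measure ℝ)) (u := atTop) hmeas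
    rw [hint.liminf_eq] at h1
    exact le_antisymm h1 bot_le
  rw [lintegral_eq_zero_iff (Measurable.liminf hmeas)] at hF
  filter_upwards [hF] with t ht
  have ht' : liminf (fun i => ENNReal.ofReal
      (cnt f (p (K0 + i)) (cf p G n0 k0 K K0 i) t)) atTop = 0 := ht
  apply hnl_of_cover
  intro ep hep
  have h1 : ∃ᶠ i in atTop, ENNReal.ofReal (cnt f (p (K0 + i)) (cf p G n0 k0 K K0 i) t) < ep :=
    frequently_lt_of_liminf_lt (by isBoundedDefault) (by rw [ht']; exact hep)
  have h2 : ∀ᶠ i in atTop, ENNReal.ofReal (side (p (K0 + i))) < ep := by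
    have h3 := ENNReal.tendsto_ofReal (cnf_side_tendsto hW.step K0)
    rw [ENNReal.ofReal_zero] at h3
    exact h3.eventually (gt_mem_nhds hep)
  obtain ⟨i, hi1, hi2⟩ := (h1.and_eventually h2).exists
  refine cnf_cover (p (K0 + i)) ((cf p G n0 k0 K K0 i).filter fun k => t ∈ f '' csq (p (K0 + i)) k) _
    ?_ ep hi2.le ?_
  · intro u hu
    obtain ⟨hum, hft, hcon⟩ := hu
    have hidx : ∀ i, idx (p (K0 + i)) u ∈ cf p G n0 k0 K K0 i := by
      intro i
      induction i with
      | zero =>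
        rw [cf, Finset.mem_filter]
        refine ⟨?_, hcon K0 le_rfl⟩
        have h3 := idx_mem_boxIdx (d := p K0 - p n0) hum
        rwa [Nat.add_sub_cancel' (hmono hK0)] at h3
      | succ i ih =>
        rw [cf, Finset.mem_filter]
        refine ⟨?_, ?_, hcon _ (by omega)⟩
        · have h3 := idx_mem_boxIdx (d := p (K0 + i + 1) - p n0) hum
          rwa [Nat.add_sub_cancel' (hmono (by omega))] at h3
        · have h3 := par_idx (p (K0 + i)) (p (K0 + i + 1) - p (K0 + i)) u
          rw [Nat.add_sub_cancel' (hmono (by omega))] at h3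
          have h4 : K0 + (i + 1) = K0 + i + 1 := by ring
          rw [h4, h3]
          exact ih
    refine ⟨idx (p (K0 + i)) u, Finset.mem_filter.2 ⟨hidx i, u, mem_csq_idx _ _, hft⟩,
      mem_csq_idx _ _⟩
  · rw [← cnt_eq f (p (K0 + i)) (cf p G n0 k0 K K0 i) t _ (fun k => Finset.mem_filter)]
    exact hi1.le

end Pool.Agent.H63.CR
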