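import Pool.Agent.H63.CR.Defs

/-!
# H63/CR/VAL: the variation estimate (linear algebra)
-/

open MeasureTheory Set Filter
open scoped Topology ENNReal

namespace Pool.Agent.H63.CR

lemma dot_eq (h : ℝ) (g x : ℝ × ℝ) : dot g x = dre h g * x.1 + g.2 * prj h x := by
  unfold dot dre prj; ring

lemma prj_sub (h : ℝ) (x y : ℝ × ℝ) : prj h (x - y) = prj h x - prj h y := by
  unfold prj; simp only [Prod.fst_sub, Prod.snd_sub]; ring

theorem val (h : ℝ) (hh : h ∈ Icc (19 / 10 : ℝ) (31 / 10)) (g x : ℝ × ℝ) (r e q s : ℝ)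
    (hr : 0 < r) (he : 0 ≤ e) (her : 5 * e ≤ r) (hg : r ≤ ‖g‖) (hd : |dre h g| ≤ e)
    (hx : ‖x‖ ≤ 5 * s) (hq : |dot g x| ≤ q) :
    |prj h x| ≤ (q + 5 * e * s) * 5 / r := by
  obtain ⟨hh1, hh2⟩ := hh
  have hh0 : (0 : ℝ) ≤ h := by linarith
  have hg2 : r / 5 ≤ |g.2| := by
    by_contra hc
    push Not at hc
    have h1 : |g.1| ≤ e + h * |g.2| := by
      have h2 : g.1 = dre h g + h * g.2 := by unfold dre; ring
      calc |g.1| = |dre h g + h * g.2| := by rw [← h2]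
        _ ≤ |dre h g| + |h * g.2| := abs_add_le _ _
        _ ≤ e + h * |g.2| := by rw [abs_mul, abs_of_nonneg hh0]; linarith
    have h3 : h * |g.2| ≤ 31 / 10 * (r / 5) :=
      mul_le_mul hh2 hc.le (abs_nonneg _) (by norm_num)
    have h4 : ‖g‖ < r := by
      rw [Prod.norm_def, Real.norm_eq_abs, Real.norm_eq_abs]
      apply max_lt
      · linarith
      · linarith
    linarith
  have hx1 : |x.1| ≤ 5 * s := by
    have := norm_fst_le x
    rw [Real.norm_eq_abs] at this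
    linarith
  have h5 : g.2 * prj h x = dot g x - dre h g * x.1 := by rw [dot_eq h g x]; ring
  have h6 : |g.2| * |prj h x| ≤ q + 5 * e * s := by
    rw [← abs_mul, h5]
    have h7 : |dre h g * x.1| ≤ e * (5 * s) := by
      rw [abs_mul]; exact mul_le_mul hd hx1 (abs_nonneg _) he
    have := abs_sub (dot g x) (dre h g * x.1)
    linarith
  rw [le_div_iff₀ hr]
  have h8 : r / 5 * |prj h x| ≤ |g.2| * |prj h x| :=
    mul_le_mul_of_nonneg_right hg2 (abs_nonneg _)
  linarith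

theorem val_radial (h h1 d : ℝ) (hh1 : h1 ∈ Icc (19 / 10 : ℝ) (31 / 10)) (x1 : ℝ × ℝ)
    (h0 : prj h1 x1 = 0) (hd : d ≤ ‖x1‖) (hd0 : 0 < d) : |h1 - h| ≤ 4 / d * |prj h x1| := by
  obtain ⟨hh1, hh2⟩ := hh1
  unfold prj at h0 ⊢
  have h2 : x1.2 = -(x1.1 * h1) := by linarith
  have h3 : |x1.2| ≤ 31 / 10 * |x1.1| := by
    rw [h2, abs_neg, abs_mul, abs_of_nonneg (by linarith : (0 : ℝ) ≤ h1)]
    have := mul_le_mul_of_nonneg_left hh2 (abs_nonneg x1.1)
    linarith
  have h4 : d / 4 ≤ |x1.1| := by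
    by_contra hc
    push Not at hc
    have : ‖x1‖ < d := by
      rw [Prod.norm_def, Real.norm_eq_abs, Real.norm_eq_abs]
      apply max_lt
      · linarith
      · linarith
    linarith
  have h5 : x1.2 + x1.1 * h = -(x1.1 * (h1 - h)) := by rw [h2]; ring
  rw [h5, abs_neg, abs_mul, div_mul_eq_mul_div, le_div_iff₀ hd0]
  have h6 := mul_le_mul_of_nonneg_right h4 (abs_nonneg (h1 - h))
  nlinarith [abs_nonneg (h1 - h)]

end Pool.Agent.H63.CR
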