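import Pool.Agent.H63.CR.LOW
import Pool.Agent.H63.CR.COA
import Pool.Agent.H63.CR.AMP

/-!
# H63/CR/VIT: the length lemma (Vitali covering, about 80 min)

`n1 = 256 ^ (m+1)`, `s u = side (p (lev u))`, `S = boxIdx (p n1 - p n0) k0`.
PROOF. Vitali (`Vitali.exists_disjoint_subfamily_covering_enlargement_closedBall`) for the closed
balls of centre `u` and radius `s u`, `u in A`: there is `A' ⊆ A` with disjoint balls such that
every `v in A` has a `u in A'` with `closedBall v (s v) ⊆ closedBall u (5 * s u)` (so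
`‖v - u‖ <= 5 * s u`). For `u in A'` let `T u` be the Finset of `low_count` (`n = lev u`,
`dlt_le_thr` gives `16 * dlt n <= thr m <= ‖G n k‖`). The `T u`, `u in A'`, are pairwise disjoint
(a square of `T u` is nonempty and contained in the ball of `u`), nonempty (`side > 0`), and all
contained in the Finset of the `k1 in S` with `t in f '' csq (p n1) k1`; so `A'` is finite and
`sum over A' of s u <= 4 * side (p n1) * (number of these k1) = 4 * cnt f (p n1) S t` (`cnt_eq`).
`tau '' A` is contained in the union over `u in A'` of the intervals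
`[tau u - B * s u, tau u + B * s u]`, of measure `2 * B * s u`.
-/

open MeasureTheory Set Filter
open scoped Topology ENNReal

namespace Pool.Agent.H63.CR

variable {f : ℝ × ℝ → ℝ} {p : ℕ → ℕ} {G : ℕ → ℤ × ℤ → ℝ × ℝ} {n0 : ℕ} {k0 : ℤ × ℤ} {C c : ℝ}
  {w : Fin 3 → ℝ × ℝ × ℝ}

theorem length_lemma (hW : IsWalk f p G n0 k0 C c w) (m : ℕ) (hm : 1 ≤ m) (hm0 : n0 < 256 ^ m)
    (t : ℝ) (A : Set (ℝ × ℝ)) (hA : ∀ u ∈ A, u ∈ mid (p n0) k0 ∧ f u = t) (lev : ℝ × ℝ → ℕ)
    (hlev : ∀ u ∈ A, 256 ^ m ≤ lev u ∧ lev u < 256 ^ (m + 1))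
    (hG : ∀ u ∈ A, ∃ k ∈ boxIdx (p (lev u) - p n0) k0, u ∈ csq (p (lev u)) k ∧
      thr m ≤ ‖G (lev u) k‖)
    (tau : ℝ × ℝ → ℝ) (B : ℝ) (hB : 0 ≤ B)
    (htau : ∀ u ∈ A, ∀ u1 ∈ A, ‖u1 - u‖ ≤ 5 * side (p (lev u)) →
      |tau u1 - tau u| ≤ B * side (p (lev u))) :
    volume (tau '' A) ≤ ENNReal.ofReal (8 * B *
      cnt f (p (256 ^ (m + 1))) (boxIdx (p (256 ^ (m + 1)) - p n0) k0) t) := by
  classical
  obtain ⟨N1, hN1⟩ : ∃ N1 : ℕ, N1 = 256 ^ (m + 1) := ⟨_, rfl⟩
  rw [← hN1]
  have hsp : ∀ q, 0 < side q := side_pos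
  -- Vitali
  obtain ⟨A', hA'A, hdisj, hcov⟩ := Vitali.exists_disjoint_subfamily_covering_enlargement_closedBall
    A (fun u => u) (fun u => side (p (lev u))) (side 0)
    (fun u _ => side_anti (Nat.zero_le _)) 5 (by norm_num)
  -- the squares
  have hT : ∀ u ∈ A', ∃ T : Finset (ℤ × ℤ), T ⊆ boxIdx (p N1 - p n0) k0 ∧
      (∀ k1 ∈ T, t ∈ f '' csq (p N1) k1 ∧
        csq (p N1) k1 ⊆ Metric.closedBall u (side (p (lev u)))) ∧
      side (p (lev u)) ≤ 4 * side (p N1) * (T.card : ℝ) := by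
    intro u hu
    have huA := hA'A hu
    obtain ⟨h1, h2⟩ := hA u huA
    obtain ⟨h3, h4⟩ := hlev u huA
    obtain ⟨k, hk, huk, hthr⟩ := hG u huA
    obtain ⟨T, hT1, hT2, hT3⟩ := low_count hW (lev u) N1 (by omega) (by omega) u h1 k hk huk
      ((dlt_le_thr hm h3).trans hthr)
    rw [h2] at hT2
    exact ⟨T, hT1, hT2, hT3⟩
  choose! T hT1 hT2 hT3 using hT
  have hTne : ∀ u ∈ A', (T u).Nonempty := by
    intro u hu
    rw [Finset.nonempty_iff_ne_empty]
    intro h
    have h1 := hT3 u hu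
    rw [h, Finset.card_empty, Nat.cast_zero, mul_zero] at h1
    exact absurd (hsp (p (lev u))) (not_lt.2 h1)
  have hcsq : ∀ (q : ℕ) (k : ℤ × ℤ), (csq q k).Nonempty := by
    intro q k
    refine ⟨((k.1 : ℝ) * side q, (k.2 : ℝ) * side q), ?_⟩
    have := hsp q
    unfold csq
    rw [Set.mem_prod]
    constructor
    · exact ⟨le_rfl, by nlinarith⟩
    · exact ⟨le_rfl, by nlinarith⟩
  have hTd : ∀ u ∈ A', ∀ v ∈ A', ∀ k, k ∈ T u → k ∈ T v → u = v := by
    intro u hu v hv k hku hkv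
    by_contra hne
    obtain ⟨x, hx⟩ := hcsq (p N1) k
    have h1 := (hT2 u hu k hku).2 hx
    have h2 := (hT2 v hv k hkv).2 hx
    exact Set.disjoint_left.1 (hdisj hu hv hne) h1 h2
  have hfin : A'.Finite := by
    apply Set.Finite.of_injOn (f := fun u => if h : (T u).Nonempty then h.choose else (0, 0))
      (t := (boxIdx (p N1 - p n0) k0 : Set (ℤ × ℤ)))
    · intro u hu
      have h1 := hTne u hu
      simp only [dif_pos h1]
      exact hT1 u hu h1.choose_spec
    · intro u hu v hv huv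
      have h1 := hTne u hu
      have h2 := hTne v hv
      simp only [dif_pos h1, dif_pos h2] at huv
      have h3 := h1.choose_spec
      have h4 := h2.choose_spec
      rw [← huv] at h4
      exact hTd u hu v hv _ h3 h4
    · exact Finset.finite_toSet _
  obtain ⟨F, hF⟩ : ∃ F : Finset (ℝ × ℝ), (F : Set (ℝ × ℝ)) = A' := ⟨hfin.toFinset, by simp⟩
  have hFm : ∀ u, u ∈ F ↔ u ∈ A' := fun u => by rw [← hF]; rfl
  -- the sum of the sides
  obtain ⟨X, hX⟩ : ∃ X : Finset (ℤ × ℤ), X = (boxIdx (p N1 - p n0) k0).filter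
      (fun k => t ∈ f '' csq (p N1) k) := ⟨_, rfl⟩
  have hcnt : cnt f (p N1) (boxIdx (p N1 - p n0) k0) t = X.card * side (p N1) :=
    cnt_eq f (p N1) _ t X (fun k => by rw [hX, Finset.mem_filter])
  have hsum : ∑ u ∈ F, side (p (lev u)) ≤ 4 * cnt f (p N1) (boxIdx (p N1 - p n0) k0) t := by
    have h1 : ∑ u ∈ F, (T u).card ≤ X.card := by
      rw [← Finset.card_biUnion]
      · apply Finset.card_le_card
        intro k hk
        rw [Finset.mem_biUnion] at hk
        obtain ⟨u, hu, hku⟩ := hk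
        rw [hFm] at hu
        rw [hX, Finset.mem_filter]
        exact ⟨hT1 u hu hku, (hT2 u hu k hku).1⟩
      · intro u hu v hv huv
        have hu' := (hFm u).1 hu
        have hv' := (hFm v).1 hv
        simp only [Function.onFun]
        rw [Finset.disjoint_left]
        intro k hk hk'
        exact huv (hTd u hu' v hv' k hk hk')
    have h1' : ∑ u ∈ F, ((T u).card : ℝ) ≤ X.card := by exact_mod_cast h1
    calc ∑ u ∈ F, side (p (lev u)) ≤ ∑ u ∈ F, 4 * side (p N1) * ((T u).card : ℝ) :=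
          Finset.sum_le_sum fun u hu => hT3 u ((hFm u).1 hu)
      _ = 4 * side (p N1) * ∑ u ∈ F, ((T u).card : ℝ) := by rw [Finset.mul_sum]
      _ ≤ 4 * side (p N1) * X.card :=
          mul_le_mul_of_nonneg_left h1' (by have := hsp (p N1); positivity)
      _ = 4 * cnt f (p N1) (boxIdx (p N1 - p n0) k0) t := by rw [hcnt]; ring
  -- the covering
  have hsub : tau '' A ⊆ ⋃ u ∈ F, Icc (tau u - B * side (p (lev u))) (tau u + B * side (p (lev u))) := by
    rintro _ ⟨v, hv, rfl⟩
    obtain ⟨u, hu, hvu⟩ := hcov v hv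
    have h1 : v ∈ Metric.closedBall u (5 * side (p (lev u))) :=
      hvu (Metric.mem_closedBall_self (hsp _).le)
    rw [mem_closedBall_iff_norm] at h1
    have h2 := htau u (hA'A hu) v hv h1
    rw [abs_le] at h2
    refine Set.mem_iUnion₂.2 ⟨u, (hFm u).2 hu, ?_⟩
    constructor <;> linarith [h2.1, h2.2]
  calc volume (tau '' A) ≤ volume (⋃ u ∈ F, Icc (tau u - B * side (p (lev u)))
        (tau u + B * side (p (lev u)))) := measure_mono hsub
    _ ≤ ∑ u ∈ F, volume (Icc (tau u - B * side (p (lev u))) (tau u + B * side (p (lev u)))) :=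
        measure_biUnion_finset_le _ _
    _ = ∑ u ∈ F, ENNReal.ofReal (2 * B * side (p (lev u))) := by
        apply Finset.sum_congr rfl
        intro u _
        rw [Real.volume_Icc]
        congr 1
        ring
    _ = ENNReal.ofReal (∑ u ∈ F, 2 * B * side (p (lev u))) := by
        rw [ENNReal.ofReal_sum_of_nonneg]
        intro u _
        have := (hsp (p (lev u))).le
        positivity
    _ ≤ ENNReal.ofReal (8 * B * cnt f (p N1) (boxIdx (p N1 - p n0) k0) t) := by
        apply ENNReal.ofReal_le_ofReal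
        rw [← Finset.mul_sum]
        have := mul_le_mul_of_nonneg_left hsum (by positivity : 0 ≤ 2 * B)
        refine this.trans (le_of_eq ?_)
        ring

end Pool.Agent.H63.CR
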