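import Pool.Agent.H63.CR.NMC
import Pool.Agent.H63.CR.VIT
import Pool.Agent.H63.CR.VAL

/-!
# H63/CR/NMR: a line that is not in the level set meets `Nm` in small length (about 60 min)

The set `Ga = {u in mid | f u = t}` is compact (`isCompact_mid`, `cont`, `mid_sub_box`); `u'` is not in
`Ga`, so (if `Ga` is not empty) there is `d > 0` with `d <= ‖u - u'‖` for all `u in Ga` (if `Ga` is
empty, `Nm` is empty and everything is trivial). Fix `m`. Let `A` be the set of the `u in Ga` for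
which there is an `h` in the interval with `prj h u = prj h u'` and the condition of `Nm` at `(h, u)`.
Since `prj h (u - u') = 0` and `u <> u'`, `u.1 <> u'.1` and `h` is unique: `h = tau u :=
-(u.2 - u'.2) / (u.1 - u'.1)`. `{h | (h, prj h u') in Nm} ⊆ tau '' A`.
For `u, u1 in A`, `‖u1 - u‖ <= 5 * side`, `h = tau u`, `h1 = tau u1`: as in `nm_slice`,
`|prj h (u1 - u)| <= 130 * C / 4^m * side`; `prj h (u1 - u') = prj h (u1 - u) + 0`; by `val_radial`
(`x1 = u1 - u'`) `|h1 - h| <= 4 / d * 130 * C / 4^m * side`. `length_lemma` with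
`B = 520 * C / d * (1/4)^m`. So `D = 8 * 520 * C / d`.
-/

open MeasureTheory Set Filter
open scoped Topology ENNReal

namespace Pool.Agent.H63.CR

variable {f : ℝ × ℝ → ℝ} {p : ℕ → ℕ} {G : ℕ → ℤ × ℤ → ℝ × ℝ} {n0 : ℕ} {k0 : ℤ × ℤ} {C c : ℝ}
  {w : Fin 3 → ℝ × ℝ × ℝ}

/-- the variation estimate along the level set -/
private theorem nmr_var (hW : IsWalk f p G n0 k0 C c w) (m : ℕ) (hm0 : n0 < 256 ^ m)
    (hmC : 25 * C ≤ 4 ^ m) (t h : ℝ) (hh : h ∈ Icc (19 / 10 : ℝ) (31 / 10)) (u u1 : ℝ × ℝ) (hu : f u = t)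
    (hu1 : u1 ∈ mid (p n0) k0 ∧ f u1 = t) (n : ℕ) (hn : 256 ^ m ≤ n) (k : ℤ × ℤ)
    (hk : k ∈ boxIdx (p n - p n0) k0) (huk : u ∈ csq (p n) k) (hG : thr m ≤ ‖G n k‖)
    (hdr : |dre h (G n k)| ≤ 5 * C * (1 / 16) ^ m) (hd : ‖u1 - u‖ ≤ 5 * side (p n)) :
    |prj h (u1 - u)| ≤ 130 * C * (1 / 4) ^ m * side (p n) := by
  have hs := side_pos (p n)
  have hC := hW.hC
  have hC0 : (0 : ℝ) < C := by linarith
  have hlin := hW.lin n (by omega) k hk u huk u1 (mid_sub_box _ _ hu1.1) (by linarith)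
  rw [hu, hu1.2, sub_self, zero_sub, abs_neg] at hlin
  have hthr : 0 < thr m := by
    unfold thr
    positivity
  have h16 : ((1 : ℝ) / 16) ^ m * 4 ^ m = (1 / 4) ^ m := by
    rw [← mul_pow]
    norm_num
  have hp16 : (0 : ℝ) < (1 / 16) ^ m := by positivity
  have hv := val h hh (G n k) (u1 - u) (thr m) (5 * C * (1 / 16) ^ m) (dlt n * side (p n)) (side (p n)) hthr
    (by positivity) (by
      unfold thr
      calc 5 * (5 * C * (1 / 16) ^ m) = (25 * C) * (1 / 16) ^ m := by ring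
        _ ≤ 4 ^ m * (1 / 16) ^ m := mul_le_mul_of_nonneg_right hmC hp16.le
        _ = (1 / 4) ^ m := by rw [mul_comm, h16]) hG hdr hd hlin
  refine hv.trans ?_
  have hdl := dlt_le_pow hn
  rw [div_le_iff₀ hthr]
  unfold thr
  have e1 : dlt n * side (p n) ≤ (1 / 16) ^ m * side (p n) := mul_le_mul_of_nonneg_right hdl hs.le
  have e2 : ((1 : ℝ) / 16) ^ m = (1 / 4) ^ m * (1 / 4) ^ m := by
    rw [← mul_pow]
    norm_num
  calc (dlt n * side (p n) + 5 * (5 * C * (1 / 16) ^ m) * side (p n)) * 5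
      ≤ ((1 / 16) ^ m * side (p n) + 5 * (5 * C * (1 / 16) ^ m) * side (p n)) * 5 := by linarith
    _ = (5 + 125 * C) * ((1 / 16) ^ m * side (p n)) := by ring
    _ ≤ (130 * C) * ((1 / 16) ^ m * side (p n)) := mul_le_mul_of_nonneg_right (by linarith) (by positivity)
    _ = 130 * C * (1 / 4) ^ m * side (p n) * (1 / 4) ^ m := by
      rw [e2]
      ring

theorem nm_radial (hW : IsWalk f p G n0 k0 C c w) (t : ℝ) (u' : ℝ × ℝ)
    (hu' : ¬ (u' ∈ mid (p n0) k0 ∧ f u' = t)) : ∃ D : ℝ, 0 ≤ D ∧ ∀ m : ℕ, 1 ≤ m →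
    n0 < 256 ^ m → 25 * C ≤ 4 ^ m →
    volume {h : ℝ | (h, prj h u') ∈ Nm f p G n0 k0 C t m} ≤ ENNReal.ofReal (D * (1 / 4) ^ m *
      cnt f (p (256 ^ (m + 1))) (boxIdx (p (256 ^ (m + 1)) - p n0) k0) t) := by
  have hC := hW.hC
  -- the distance
  have hclosed : IsClosed (mid (p n0) k0 ∩ f ⁻¹' {t}) :=
    (hW.cont.mono (mid_sub_box _ _)).preimage_isClosed_of_isClosed (isCompact_mid _ _).isClosed isClosed_singleton
  have hnot : u' ∈ (mid (p n0) k0 ∩ f ⁻¹' {t})ᶜ := fun hc => hu' ⟨hc.1, hc.2⟩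
  obtain ⟨d, hd0, hd⟩ := Metric.isOpen_iff.1 hclosed.isOpen_compl u' hnot
  have hdist : ∀ u : ℝ × ℝ, u ∈ mid (p n0) k0 → f u = t → d ≤ ‖u - u'‖ := by
    intro u h1 h2
    by_contra hc
    rw [not_le] at hc
    have h3 : u ∈ Metric.ball u' d := by
      rw [Metric.mem_ball, dist_eq_norm]
      exact hc
    exact hd h3 ⟨h1, h2⟩
  refine ⟨8 * (520 * C / d), by positivity, fun m hm hm0 hmC => ?_⟩
  obtain ⟨tau, htau⟩ : ∃ tau : ℝ × ℝ → ℝ, tau = fun u => -(u.2 - u'.2) / (u.1 - u'.1) := ⟨_, rfl⟩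
  obtain ⟨A, hA⟩ : ∃ A : Set (ℝ × ℝ), A = {u | u ∈ mid (p n0) k0 ∧ f u = t ∧ tau u ∈ Icc (19 / 10 : ℝ) (31 / 10) ∧
      prj (tau u) u = prj (tau u) u' ∧
      ∃ n, 256 ^ m ≤ n ∧ n < 256 ^ (m + 1) ∧ ∃ k ∈ boxIdx (p n - p n0) k0, u ∈ csq (p n) k ∧
      thr m ≤ ‖G n k‖ ∧ |dre (tau u) (G n k)| ≤ 5 * C * (1 / 16) ^ m} := ⟨_, rfl⟩
  have key : ∀ u : ℝ × ℝ, ∃ n : ℕ, u ∈ A → 256 ^ m ≤ n ∧ n < 256 ^ (m + 1) ∧ ∃ k ∈ boxIdx (p n - p n0) k0, u ∈ csq (p n) k ∧
      thr m ≤ ‖G n k‖ ∧ |dre (tau u) (G n k)| ≤ 5 * C * (1 / 16) ^ m := by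
    intro u
    by_cases hu : u ∈ A
    · have h2 := hu
      rw [hA] at h2
      obtain ⟨n, hn⟩ := h2.2.2.2.2
      exact ⟨n, fun _ => hn⟩
    · exact ⟨0, fun h => absurd h hu⟩
  choose lev hlev using key
  have hAm : ∀ u ∈ A, u ∈ mid (p n0) k0 ∧ f u = t := by
    intro u hu
    rw [hA] at hu
    exact ⟨hu.1, hu.2.1⟩
  have hAt : ∀ u ∈ A, tau u ∈ Icc (19 / 10 : ℝ) (31 / 10) ∧ prj (tau u) (u - u') = 0 := by
    intro u hu
    rw [hA] at hu
    refine ⟨hu.2.2.1, ?_⟩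
    rw [prj_sub, hu.2.2.2.1, sub_self]
  have hsub : {h : ℝ | (h, prj h u') ∈ Nm f p G n0 k0 C t m} ⊆ tau '' A := by
    intro h hx
    obtain ⟨hh, u, hu1, hu2, hu3, hu4⟩ := hx
    simp only at hh hu3 hu4
    have hne : u.1 - u'.1 ≠ 0 := by
      intro h0
      have h1 : u.1 = u'.1 := by linarith
      have h2 : u.2 = u'.2 := by
        unfold prj at hu3
        rw [h1] at hu3
        linarith
      have h3 := hdist u hu1 hu2
      rw [Prod.ext h1 h2, sub_self, norm_zero] at h3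
      linarith
    have ht : tau u = h := by
      rw [htau]
      simp only
      rw [div_eq_iff hne]
      unfold prj at hu3
      linarith
    refine ⟨u, ?_, ht⟩
    rw [hA]
    refine ⟨hu1, hu2, ?_, ?_, ?_⟩
    · rw [ht]
      exact hh
    · rw [ht]
      exact hu3
    · rw [ht]
      exact hu4
  have hlen := length_lemma hW m hm hm0 t A hAm lev (fun u hu => ⟨(hlev u hu).1, (hlev u hu).2.1⟩) (fun u hu => by
      obtain ⟨_, _, k, hk, h1, h2, _⟩ := hlev u hu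
      exact ⟨k, hk, h1, h2⟩) tau (520 * C / d * (1 / 4) ^ m) (by positivity) (by
      intro u hu u1 hu1 hdd
      obtain ⟨h1, h2, k, hk, h3, h4, h5⟩ := hlev u hu
      have hv := nmr_var hW m hm0 hmC t (tau u) (hAt u hu).1 u u1 (hAm u hu).2 (hAm u1 hu1) (lev u) h1 k hk h3 h4 h5 hdd
      have hr := val_radial (tau u) (tau u1) d (hAt u1 hu1).1 (u1 - u') (hAt u1 hu1).2
        (hdist u1 (hAm u1 hu1).1 (hAm u1 hu1).2) hd0
      have he : prj (tau u) (u1 - u') = prj (tau u) (u1 - u) := by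
        have h6 := (hAt u hu).2
        rw [prj_sub] at h6 ⊢
        rw [prj_sub]
        linarith
      rw [he] at hr
      refine hr.trans ?_
      calc 4 / d * |prj (tau u) (u1 - u)| ≤ 4 / d * (130 * C * (1 / 4) ^ m * side (p (lev u))) :=
            mul_le_mul_of_nonneg_left hv (by positivity)
        _ = 520 * C / d * (1 / 4) ^ m * side (p (lev u)) := by ring)
  refine (measure_mono hsub).trans (hlen.trans (le_of_eq ?_))
  congr 1
  ring

end Pool.Agent.H63.CR
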