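import Pool.Agent.H63.CR.NMS
import Pool.Agent.H63.CR.NMR

/-!
# H63/CR/NLS: the limsup set (Borel-Cantelli, about 30 min)

For a level `t` with summable `(1/4)^m * cnt ...`, the measures in `nm_measure` and `nm_radial` are
summable (for large `m`), so `MeasureTheory.measure_limsup_atTop_eq_zero` /
`MeasureTheory.measure_setOf_frequently_eq_zero` applies (for the finitely many small `m` replace
the set by the empty set: `Filter.Frequently` does not see them).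
-/

open MeasureTheory Set Filter
open scoped Topology ENNReal

namespace Pool.Agent.H63.CR

variable {f : ℝ × ℝ → ℝ} {p : ℕ → ℕ} {G : ℕ → ℤ × ℤ → ℝ × ℝ} {n0 : ℕ} {k0 : ℤ × ℤ} {C c : ℝ}
  {w : Fin 3 → ℝ × ℝ × ℝ}

private lemma nls_bc {α : Type} [MeasurableSpace α] (μ : Measure α) (S : ℕ → Set α) (a : ℕ → ℝ)
    (ha : Summable a) (M : ℕ) (h : ∀ m, M ≤ m → μ (S m) ≤ ENNReal.ofReal (a m)) :
    μ {x | ∃ᶠ m in atTop, x ∈ S m} = 0 := by
  have h1 : μ {x | ∃ᶠ m in atTop, M ≤ m ∧ x ∈ S m} = 0 := by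
    apply measure_setOf_frequently_eq_zero
    refine ne_top_of_le_ne_top ha.tsum_ofReal_ne_top (ENNReal.tsum_le_tsum fun m => ?_)
    by_cases hm : M ≤ m
    · refine le_trans (measure_mono ?_) (h m hm)
      exact fun x hx => hx.2
    · have : {x | M ≤ m ∧ x ∈ S m} = (∅ : Set α) := by
        ext x
        simp [hm]
      rw [this, measure_empty]
      exact bot_le
  refine measure_mono_null (fun x hx => ?_) h1
  have hx' : ∃ᶠ m in atTop, x ∈ S m := hx
  exact ((eventually_ge_atTop M).and_frequently hx')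

private lemma nls_large (n0 : ℕ) (C : ℝ) : ∃ M : ℕ, ∀ m, M ≤ m → 1 ≤ m ∧ n0 < 256 ^ m ∧
    25 * C ≤ 4 ^ m := by
  have h1 : Tendsto (fun m : ℕ => (4 : ℝ) ^ m) atTop atTop :=
    tendsto_pow_atTop_atTop_of_one_lt (by norm_num)
  obtain ⟨M, hM⟩ := eventually_atTop.1 (h1.eventually_ge_atTop (25 * C))
  refine ⟨max M (n0 + 1), fun m hm => ?_⟩
  have h2 : M ≤ m := (le_max_left _ _).trans hm
  have h3 : n0 + 1 ≤ m := (le_max_right _ _).trans hm
  refine ⟨by omega, ?_, hM m h2⟩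
  have h4 : m < 256 ^ m := Nat.lt_pow_self (by norm_num)
  omega

theorem nls_measure (hW : IsWalk f p G n0 k0 C c w) (t : ℝ)
    (ht : Summable fun m : ℕ => (1 / 4 : ℝ) ^ m *
      cnt f (p (256 ^ (m + 1))) (boxIdx (p (256 ^ (m + 1)) - p n0) k0) t) :
    volume {z : ℝ × ℝ | ∃ᶠ m in atTop, z ∈ Nm f p G n0 k0 C t m} = 0 := by
  obtain ⟨M, hM⟩ := nls_large n0 C
  refine nls_bc volume _ _ (ht.mul_left (2080 * C)) M fun m hm => ?_
  obtain ⟨h1, h2, h3⟩ := hM m hm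
  refine (nm_measure hW m h1 h2 h3 t).trans (le_of_eq ?_)
  congr 1
  ring

theorem nls_radial (hW : IsWalk f p G n0 k0 C c w) (t : ℝ)
    (ht : Summable fun m : ℕ => (1 / 4 : ℝ) ^ m *
      cnt f (p (256 ^ (m + 1))) (boxIdx (p (256 ^ (m + 1)) - p n0) k0) t)
    (u' : ℝ × ℝ) (hu' : ¬ (u' ∈ mid (p n0) k0 ∧ f u' = t)) :
    volume {h : ℝ | ∃ᶠ m in atTop, (h, prj h u') ∈ Nm f p G n0 k0 C t m} = 0 := by
  obtain ⟨M, hM⟩ := nls_large n0 C
  obtain ⟨D, hD, hDm⟩ := nm_radial hW t u' hu'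
  refine nls_bc volume (fun m => {h : ℝ | (h, prj h u') ∈ Nm f p G n0 k0 C t m}) _
    (ht.mul_left D) M fun m hm => ?_
  obtain ⟨h1, h2, h3⟩ := hM m hm
  refine (hDm m h1 h2 h3).trans (le_of_eq ?_)
  congr 1
  ring

end Pool.Agent.H63.CR
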