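import Pool.Agent.H63.CR.Defs

/-!
# H63/CR/SGN: no crossing implies confinement (about 50 min)

`dre h g` is affine in `h` and `|dre h g - dre h g'| <= (1 + h) * ‖g - g'‖ <= 4.1 * ‖g - g'‖`.
PROOF. Fix `i`. For `n >= K0` the numbers `dre (h i) (g n)` and `dre (h i) (g (n+1))` have the same
sign: both have absolute value `> 5 * C * b n`, resp. `> 0`, and they differ by at most
`4.1 * C * b n`. So the sign `si i` is constant for `n >= K0`. An affine function of `h` with signs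
at `h 0 < h 1 < h 2`: the patterns `+,-,+` and `-,+,-` are impossible. Up to `g -> -g` there remain:
`+,-,-`: the function is decreasing (`g.2 > 0`), positive at `h 0 > 196/100` so nonnegative at
`196/100`, negative at `h 1 < 251/100` so `<= 0` at `251/100`: cone 0.
`+,+,-`: decreasing, positive at `h 1 > 249/100`, negative at `h 2 < 304/100`: cone 1.
`+,+,+`: positive at `h 0 < 198/100` and at `h 2 > 302/100`, so (affine, convex combination)
positive on `[h 0, h 2]`, which contains `198/100` and `302/100`: cone 2.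
The pattern does not depend on `n`, so the cone does not either.
-/

open MeasureTheory Set Filter
open scoped Topology ENNReal

namespace Pool.Agent.H63.CR

private lemma sgn_dre_neg (h : ℝ) (g : ℝ × ℝ) : dre h (-g) = -dre h g := by
  unfold dre
  simp only [Prod.fst_neg, Prod.snd_neg]
  ring

private lemma sgn_dre_sub (h : ℝ) (hh : h ∈ Icc (19 / 10 : ℝ) (31 / 10)) (g g' : ℝ × ℝ) :
    |dre h g' - dre h g| ≤ 41 / 10 * ‖g' - g‖ := by
  have h1 : |(g' - g).1| ≤ ‖g' - g‖ := norm_fst_le (g' - g)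
  have h2 : |(g' - g).2| ≤ ‖g' - g‖ := norm_snd_le (g' - g)
  have h3 : dre h g' - dre h g = (g' - g).1 - h * (g' - g).2 := by
    unfold dre
    simp only [Prod.fst_sub, Prod.snd_sub]
    ring
  rw [h3]
  have h4 : |h| ≤ 31 / 10 := by
    rw [abs_of_nonneg (by linarith [hh.1])]
    exact hh.2
  calc |(g' - g).1 - h * (g' - g).2| ≤ |(g' - g).1| + |h * (g' - g).2| := abs_sub _ _
    _ = |(g' - g).1| + |h| * |(g' - g).2| := by rw [abs_mul]
    _ ≤ ‖g' - g‖ + 31 / 10 * ‖g' - g‖ := by gcongr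
    _ = 41 / 10 * ‖g' - g‖ := by ring

private lemma sgn_const (g : ℕ → ℝ × ℝ) (b : ℕ → ℝ) (C : ℝ) (hC : 1 ≤ C) (hb : ∀ n, 0 ≤ b n)
    (K0 : ℕ) (hinc : ∀ n, K0 ≤ n → ‖g (n + 1) - g n‖ ≤ C * b n) (h : ℝ)
    (hh : h ∈ Icc (19 / 10 : ℝ) (31 / 10)) (hcr : ∀ n, K0 ≤ n → 5 * C * b n < |dre h (g n)|) :
    (∀ n, K0 ≤ n → 0 < dre h (g n)) ∨ (∀ n, K0 ≤ n → dre h (g n) < 0) := by
  have hstep : ∀ n, K0 ≤ n → |dre h (g (n + 1)) - dre h (g n)| ≤ 41 / 10 * (C * b n) := by
    intro n hn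
    exact (sgn_dre_sub h hh (g n) (g (n + 1))).trans
      (mul_le_mul_of_nonneg_left (hinc n hn) (by norm_num))
  have hCb : ∀ n, 0 ≤ C * b n := fun n => mul_nonneg (by linarith) (hb n)
  rcases lt_trichotomy (dre h (g K0)) 0 with h0 | h0 | h0
  · right
    intro n hn
    induction n, hn using Nat.le_induction with
    | base => exact h0
    | succ n hn ih =>
      have h1 := hstep n hn
      have h2 := hcr n hn
      rw [abs_of_neg ih] at h2
      rw [abs_le] at h1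
      have h3 := hCb n
      linarith [h1.1, h1.2]
  · exfalso
    have h2 := hcr K0 le_rfl
    rw [h0, abs_zero] at h2
    have h3 := hCb K0
    linarith
  · left
    intro n hn
    induction n, hn using Nat.le_induction with
    | base => exact h0
    | succ n hn ih =>
      have h1 := hstep n hn
      have h2 := hcr n hn
      rw [abs_of_pos ih] at h2
      rw [abs_le] at h1
      have h3 := hCb n
      linarith [h1.1, h1.2]

/-- the case of a positive sign at the first height -/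
private lemma sgn_pos (g : ℕ → ℝ × ℝ) (K0 : ℕ) (h : Fin 3 → ℝ) (hh : ∀ i, h i ∈ gap i)
    (h0 : ∀ n, K0 ≤ n → 0 < dre (h 0) (g n))
    (h1 : (∀ n, K0 ≤ n → 0 < dre (h 1) (g n)) ∨ (∀ n, K0 ≤ n → dre (h 1) (g n) < 0))
    (h2 : (∀ n, K0 ≤ n → 0 < dre (h 2) (g n)) ∨ (∀ n, K0 ≤ n → dre (h 2) (g n) < 0)) :
    ∃ j : Fin 3, ∀ n, K0 ≤ n → g n ∈ cone j := by
  have a0 : h 0 ∈ Ioo (196 / 100 : ℝ) (198 / 100) := hh 0
  have a1 : h 1 ∈ Ioo (249 / 100 : ℝ) (251 / 100) := hh 1
  have a2 : h 2 ∈ Ioo (302 / 100 : ℝ) (304 / 100) := hh 2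
  have hle : ∀ (x y : ℝ) (G : ℝ × ℝ), 0 ≤ G.2 → x ≤ y → dre y G ≤ dre x G := by
    intro x y G hG hxy
    unfold dre
    nlinarith
  have hle' : ∀ (x y : ℝ) (G : ℝ × ℝ), G.2 ≤ 0 → x ≤ y → dre x G ≤ dre y G := by
    intro x y G hG hxy
    unfold dre
    nlinarith
  have hsig : ∀ (x y : ℝ) (G : ℝ × ℝ), x < y → 0 < dre x G → dre y G < 0 → 0 ≤ G.2 := by
    intro x y G hxy h3 h4
    by_contra h5
    have := hle' x y G (by linarith) hxy.le
    linarith
  rcases h1 with h1 | h1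
  · rcases h2 with h2 | h2
    · refine ⟨2, fun n hn => ?_⟩
      have b0 := h0 n hn
      have b2 := h2 n hn
      refine (show g n ∈ {G | 0 ≤ dre (198 / 100) G ∧ 0 ≤ dre (302 / 100) G} from ⟨?_, ?_⟩)
      · rcases le_total 0 (g n).2 with h5 | h5
        · have := hle (198 / 100) (h 2) (g n) h5 (by linarith [a2.1])
          linarith
        · have := hle' (h 0) (198 / 100) (g n) h5 a0.2.le
          linarith
      · rcases le_total 0 (g n).2 with h5 | h5
        · have := hle (302 / 100) (h 2) (g n) h5 a2.1.le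
          linarith
        · have := hle' (h 0) (302 / 100) (g n) h5 (by linarith [a0.2])
          linarith
    · refine ⟨1, fun n hn => ?_⟩
      have b1 := h1 n hn
      have b2 := h2 n hn
      have h5 := hsig (h 1) (h 2) (g n) (by linarith [a1.2, a2.1]) b1 b2
      refine (show g n ∈ {G | 0 ≤ dre (249 / 100) G ∧ dre (304 / 100) G ≤ 0} from ⟨?_, ?_⟩)
      · have := hle (249 / 100) (h 1) (g n) h5 a1.1.le
        linarith
      · have := hle (h 2) (304 / 100) (g n) h5 a2.2.le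
        linarith
  · refine ⟨0, fun n hn => ?_⟩
    have b0 := h0 n hn
    have b1 := h1 n hn
    have h5 := hsig (h 0) (h 1) (g n) (by linarith [a0.2, a1.1]) b0 b1
    refine (show g n ∈ {G | 0 ≤ dre (196 / 100) G ∧ dre (251 / 100) G ≤ 0} from ⟨?_, ?_⟩)
    · have := hle (196 / 100) (h 0) (g n) h5 a0.1.le
      linarith
    · have := hle (h 1) (251 / 100) (g n) h5 a1.2.le
      linarith

theorem sgn_conf (g : ℕ → ℝ × ℝ) (b : ℕ → ℝ) (C : ℝ) (hC : 1 ≤ C) (hb : ∀ n, 0 ≤ b n) (K0 : ℕ)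
    (hinc : ∀ n, K0 ≤ n → ‖g (n + 1) - g n‖ ≤ C * b n) (h : Fin 3 → ℝ)
    (hh : ∀ i, h i ∈ gap i) (hcr : ∀ i, ∀ n, K0 ≤ n → 5 * C * b n < |dre (h i) (g n)|) :
    ∃ j : Fin 3, (∀ n, K0 ≤ n → g n ∈ cone j) ∨ (∀ n, K0 ≤ n → -g n ∈ cone j) := by
  have hI : ∀ i, h i ∈ Icc (19 / 10 : ℝ) (31 / 10) := by
    intro i
    have a0 : h 0 ∈ Ioo (196 / 100 : ℝ) (198 / 100) := hh 0
    have a1 : h 1 ∈ Ioo (249 / 100 : ℝ) (251 / 100) := hh 1
    have a2 : h 2 ∈ Ioo (302 / 100 : ℝ) (304 / 100) := hh 2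
    fin_cases i
    · have h9 : h 0 ∈ Icc (19 / 10 : ℝ) (31 / 10) := ⟨by linarith [a0.1], by linarith [a0.2]⟩
      exact h9
    · have h9 : h 1 ∈ Icc (19 / 10 : ℝ) (31 / 10) := ⟨by linarith [a1.1], by linarith [a1.2]⟩
      exact h9
    · have h9 : h 2 ∈ Icc (19 / 10 : ℝ) (31 / 10) := ⟨by linarith [a2.1], by linarith [a2.2]⟩
      exact h9
  have hs : ∀ i, (∀ n, K0 ≤ n → 0 < dre (h i) (g n)) ∨ (∀ n, K0 ≤ n → dre (h i) (g n) < 0) :=
    fun i => sgn_const g b C hC hb K0 hinc (h i) (hI i) (hcr i)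
  rcases hs 0 with h0 | h0
  · obtain ⟨j, hj⟩ := sgn_pos g K0 h hh h0 (hs 1) (hs 2)
    exact ⟨j, Or.inl hj⟩
  · have hneg : ∀ i, (∀ n, K0 ≤ n → 0 < dre (h i) (-g n)) ∨
        (∀ n, K0 ≤ n → dre (h i) (-g n) < 0) := by
      intro i
      rcases hs i with h3 | h3
      · right
        intro n hn
        rw [sgn_dre_neg]
        linarith [h3 n hn]
      · left
        intro n hn
        rw [sgn_dre_neg]
        linarith [h3 n hn]
    obtain ⟨j, hj⟩ := sgn_pos (fun n => -g n) K0 h hh (fun n hn => by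
      rw [sgn_dre_neg]
      linarith [h0 n hn]) (hneg 1) (hneg 2)
    exact ⟨j, Or.inr hj⟩

end Pool.Agent.H63.CR
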