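import Pool.Agent.H63.CR.SQA
import Pool.Agent.H63.CR.SQB
import Pool.Agent.H63.CR.AMP
import Pool.Agent.H63.CR.TWA

/-!
# H63/CR/SMO: second moment of the gradient (about 50 min, finite sums)

`V n` := sum over all squares of level `p n` of the box of `side ^ 2 * sqn (G n k)`.
For `k` of level `n` and the differences `x` to the kids:
`sqn (g + x) = sqn g + 2 * dot g x + sqn x`, so by `mean`, `inc` (`sqn x <= 2 * ‖x‖ ^ 2`) and
`tw_bound`: `V (n+1) <= V n + area * (4 * D0 * (n+1) * dlt n + 2 * C ^ 2 * amp (n+1) ^ 2)` with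
`area = 4 * side (p n0) ^ 2` (`card_boxIdx`). The sum of `(n+1) * dlt n` is bounded. Finally
`1 + ‖g‖ <= 2 + sqn g`.
-/

open MeasureTheory Set Filter
open scoped Topology ENNReal

namespace Pool.Agent.H63.CR

variable {f : ℝ × ℝ → ℝ} {p : ℕ → ℕ} {G : ℕ → ℤ × ℤ → ℝ × ℝ} {n0 : ℕ} {k0 : ℤ × ℤ} {C c : ℝ}
  {w : Fin 3 → ℝ × ℝ × ℝ}

private lemma smo_dot (g x : ℝ × ℝ) : |dot g x| ≤ 2 * (‖g‖ * ‖x‖) := by
  unfold dot
  have h1 : |g.1| ≤ ‖g‖ := norm_fst_le g
  have h2 : |g.2| ≤ ‖g‖ := norm_snd_le g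
  have h3 : |x.1| ≤ ‖x‖ := norm_fst_le x
  have h4 : |x.2| ≤ ‖x‖ := norm_snd_le x
  calc |g.1 * x.1 + g.2 * x.2| ≤ |g.1 * x.1| + |g.2 * x.2| := abs_add_le _ _
    _ = |g.1| * |x.1| + |g.2| * |x.2| := by rw [abs_mul, abs_mul]
    _ ≤ ‖g‖ * ‖x‖ + ‖g‖ * ‖x‖ := by gcongr
    _ = 2 * (‖g‖ * ‖x‖) := by ring

private lemma smo_sqn_le (x : ℝ × ℝ) : sqn x ≤ 2 * ‖x‖ ^ 2 := by
  unfold sqn
  have h3 : |x.1| ≤ ‖x‖ := norm_fst_le x
  have h4 : |x.2| ≤ ‖x‖ := norm_snd_le x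
  have h5 : x.1 ^ 2 ≤ ‖x‖ ^ 2 := by
    rw [← sq_abs]
    gcongr
  have h6 : x.2 ^ 2 ≤ ‖x‖ ^ 2 := by
    rw [← sq_abs]
    gcongr
  linarith

private lemma smo_norm_le (x : ℝ × ℝ) : 1 + ‖x‖ ≤ 2 + sqn x := by
  have h1 : ‖x‖ ^ 2 ≤ sqn x := by
    unfold sqn
    rw [Prod.norm_def]
    rcases max_choice ‖x.1‖ ‖x.2‖ with h | h
    · rw [h, Real.norm_eq_abs, sq_abs]
      nlinarith [sq_nonneg x.2]
    · rw [h, Real.norm_eq_abs, sq_abs]
      nlinarith [sq_nonneg x.1]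
  nlinarith [sq_nonneg (‖x‖ - 1)]

private lemma smo_dlt (n : ℕ) : ∑ i ∈ Finset.range n, ((i : ℝ) + 1) * dlt i ≤ 4 := by
  have h1 : ∀ n : ℕ, ∑ i ∈ Finset.range n, ((i : ℝ) + 1) * dlt i =
      4 - (2 * n + 4) * dlt n := by
    intro n
    induction n with
    | zero =>
      simp [dlt]
    | succ n ih =>
      rw [Finset.sum_range_succ, ih]
      have h2 : dlt (n + 1) = dlt n / 2 := by
        unfold dlt
        rw [pow_succ]
        ring
      rw [h2]
      push_cast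
      ring
  rw [h1]
  have h2 : 0 ≤ dlt n := by
    unfold dlt
    positivity
  have h3 : (0 : ℝ) ≤ n := Nat.cast_nonneg _
  nlinarith

theorem second_moment (hW : IsWalk f p G n0 k0 C c w) : ∃ D : ℝ, 0 ≤ D ∧ ∀ n, n0 ≤ n →
    ∑ k ∈ boxIdx (p n - p n0) k0, side (p n) ^ 2 * (1 + ‖G n k‖) ≤
      D * (1 + ∑ i ∈ Finset.range n, amp (i + 1) ^ 2) := by
  obtain ⟨D0, hD0, hD0n⟩ := tw_bound hW
  have hmono : Monotone p := (strictMono_nat_of_lt_succ fun n => by
    have := hW.step n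
    omega).monotone
  obtain ⟨ar, har⟩ : ∃ ar : ℝ, ar = 4 * side (p n0) ^ 2 := ⟨_, rfl⟩
  have har0 : 0 ≤ ar := by
    rw [har]
    positivity
  obtain ⟨V, hV⟩ : ∃ V : ℕ → ℝ, V = fun n => ∑ k ∈ boxIdx (p n - p n0) k0,
    side (p n) ^ 2 * sqn (G n k) := ⟨_, rfl⟩
  have hsq0 : ∀ g : ℝ × ℝ, 0 ≤ sqn g := fun g => by
    unfold sqn
    positivity
  have hV0 : ∀ n, 0 ≤ V n := by
    intro n
    rw [hV]
    exact Finset.sum_nonneg fun k _ => mul_nonneg (by positivity) (hsq0 _)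
  have hdlt : ∀ n, 0 ≤ dlt n := fun n => by
    unfold dlt
    positivity
  -- area of the box
  have harea : ∀ n, n0 ≤ n → ((boxIdx (p n - p n0) k0).card : ℝ) * side (p n) ^ 2 = ar := by
    intro n hn
    have h1 := side_add (p n0) (p n - p n0)
    rw [Nat.add_sub_cancel' (hmono hn)] at h1
    rw [card_boxIdx, har, ← h1]
    push_cast
    have : (4 : ℝ) ^ (p n - p n0) = (2 ^ (p n - p n0)) ^ 2 := by
      rw [← pow_mul, mul_comm, pow_mul]
      norm_num
    rw [this]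
    ring
  have hstep : ∀ n, n0 ≤ n → V (n + 1) ≤ V n + ar * (4 * D0 * (((n : ℝ) + 1) * dlt n) +
      2 * C ^ 2 * amp (n + 1) ^ 2) := by
    intro n hn
    obtain ⟨d, hd⟩ : ∃ d, d = p (n + 1) - p n := ⟨_, rfl⟩
    have h1 : p (n + 1) - p n0 = (p n - p n0) + d := by
      have a1 := hmono hn
      have a2 := hmono (Nat.le_succ n)
      have a3 : n.succ = n + 1 := rfl
      rw [a3] at a2
      omega
    have h2 : side (p (n + 1)) ^ 2 * 4 ^ d = side (p n) ^ 2 := by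
      have h3 := side_add (p n) d
      rw [hd, Nat.add_sub_cancel' (hmono (Nat.le_succ n))] at h3
      rw [hd, ← h3]
      have : (4 : ℝ) ^ (p (n + 1) - p n) = (2 ^ (p (n + 1) - p n)) ^ 2 := by
        rw [← pow_mul, mul_comm, pow_mul]
        norm_num
      rw [this]
      ring
    have h3 : ∀ k ∈ boxIdx (p n - p n0) k0, ∑ k' ∈ kids d k, side (p (n + 1)) ^ 2 *
        sqn (G (n + 1) k') ≤ side (p n) ^ 2 * sqn (G n k) + side (p n) ^ 2 *
        (4 * D0 * (((n : ℝ) + 1) * dlt n) + 2 * C ^ 2 * amp (n + 1) ^ 2) := by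
      intro k hk
      have hcd : ((kids d k).card : ℝ) = 4 ^ d := by
        rw [card_kids]
        push_cast
        rfl
      have e1 : ∀ k' ∈ kids d k, sqn (G (n + 1) k') ≤ sqn (G n k) +
          2 * dot (G n k) (G (n + 1) k' - G n k) + 2 * C ^ 2 * amp (n + 1) ^ 2 := by
        intro k' hk'
        have e2 : sqn (G (n + 1) k') = sqn (G n k) + 2 * dot (G n k) (G (n + 1) k' - G n k) +
            sqn (G (n + 1) k' - G n k) := by
          unfold sqn dot
          simp only [Prod.fst_sub, Prod.snd_sub]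
          ring
        rw [hd] at hk'
        have e3 := hW.inc n hn k hk k' hk'
        have e4 : ‖G (n + 1) k' - G n k‖ ^ 2 ≤ (C * amp (n + 1)) ^ 2 := by gcongr
        have e5 := smo_sqn_le (G (n + 1) k' - G n k)
        rw [e2]
        nlinarith
      have e6 : ∑ k' ∈ kids d k, sqn (G (n + 1) k') ≤ 4 ^ d * sqn (G n k) +
          2 * dot (G n k) (∑ k' ∈ kids d k, (G (n + 1) k' - G n k)) +
          4 ^ d * (2 * C ^ 2 * amp (n + 1) ^ 2) := by
        refine (Finset.sum_le_sum e1).trans (le_of_eq ?_)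
        rw [Finset.sum_add_distrib, Finset.sum_add_distrib, Finset.sum_const, Finset.sum_const,
          nsmul_eq_mul, nsmul_eq_mul, hcd]
        congr 2
        rw [← Finset.mul_sum]
        congr 1
        unfold dot
        rw [Prod.fst_sum, Prod.snd_sum, Finset.mul_sum, Finset.mul_sum, ← Finset.sum_add_distrib]
      have e7 : dot (G n k) (∑ k' ∈ kids d k, (G (n + 1) k' - G n k)) ≤
          2 * (D0 * (n + 1) * (dlt n * 4 ^ d)) := by
        refine (le_abs_self _).trans ((smo_dot _ _).trans ?_)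
        have e8 := hW.mean n hn k hk
        rw [← hd] at e8
        have e9 := hD0n n hn k hk
        have e10 : 0 ≤ D0 * ((n : ℝ) + 1) := by positivity
        refine mul_le_mul_of_nonneg_left ?_ (by norm_num)
        exact mul_le_mul e9 e8 (norm_nonneg _) e10
      have h4d : (0 : ℝ) < 4 ^ d := by positivity
      rw [← Finset.mul_sum]
      calc side (p (n + 1)) ^ 2 * ∑ k' ∈ kids d k, sqn (G (n + 1) k')
          ≤ side (p (n + 1)) ^ 2 * (4 ^ d * sqn (G n k) + 2 * (2 * (D0 * (n + 1) * (dlt n * 4 ^ d))) +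
            4 ^ d * (2 * C ^ 2 * amp (n + 1) ^ 2)) := by
            refine mul_le_mul_of_nonneg_left ?_ (by positivity)
            linarith
        _ = (side (p (n + 1)) ^ 2 * 4 ^ d) * sqn (G n k) + (side (p (n + 1)) ^ 2 * 4 ^ d) *
            (4 * D0 * (((n : ℝ) + 1) * dlt n) + 2 * C ^ 2 * amp (n + 1) ^ 2) := by ring
        _ = _ := by rw [h2]
    rw [hV]
    dsimp only
    rw [h1, sum_boxIdx]
    refine (Finset.sum_le_sum h3).trans (le_of_eq ?_)
    rw [Finset.sum_add_distrib, Finset.sum_const, nsmul_eq_mul, ← mul_assoc, harea n hn]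
  have hVn : ∀ j, V (n0 + j) ≤ V n0 + ar * (4 * D0 * ∑ i ∈ Finset.range (n0 + j),
      ((i : ℝ) + 1) * dlt i + 2 * C ^ 2 * ∑ i ∈ Finset.range (n0 + j), amp (i + 1) ^ 2) := by
    intro j
    induction j with
    | zero =>
      have h1 : 0 ≤ ∑ i ∈ Finset.range (n0 + 0), ((i : ℝ) + 1) * dlt i :=
        Finset.sum_nonneg fun i _ => mul_nonneg (by positivity) (hdlt i)
      have h2 : 0 ≤ ∑ i ∈ Finset.range (n0 + 0), amp (i + 1) ^ 2 :=
        Finset.sum_nonneg fun i _ => by positivity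
      have h3 : 0 ≤ ar * (4 * D0 * ∑ i ∈ Finset.range (n0 + 0),
        ((i : ℝ) + 1) * dlt i + 2 * C ^ 2 * ∑ i ∈ Finset.range (n0 + 0), amp (i + 1) ^ 2) := by
        positivity
      rw [add_zero] at h3 ⊢
      linarith
    | succ j ih =>
      have h1 := hstep (n0 + j) (by omega)
      have h2 : n0 + (j + 1) = n0 + j + 1 := by ring
      rw [h2, Finset.sum_range_succ, Finset.sum_range_succ]
      have h3 := h1.trans (add_le_add_left ih _)
      refine h3.trans (le_of_eq ?_)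
      ring
  refine ⟨2 * ar + V n0 + 16 * D0 * ar + 2 * C ^ 2 * ar, ?_, ?_⟩
  · have := hV0 n0
    positivity
  intro n hn
  obtain ⟨j, rfl⟩ := Nat.exists_eq_add_of_le hn
  have h1 : ∑ k ∈ boxIdx (p (n0 + j) - p n0) k0, side (p (n0 + j)) ^ 2 * (1 + ‖G (n0 + j) k‖) ≤
      2 * ar + V (n0 + j) := by
    calc ∑ k ∈ boxIdx (p (n0 + j) - p n0) k0, side (p (n0 + j)) ^ 2 * (1 + ‖G (n0 + j) k‖)
        ≤ ∑ k ∈ boxIdx (p (n0 + j) - p n0) k0, (side (p (n0 + j)) ^ 2 * 2 +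
          side (p (n0 + j)) ^ 2 * sqn (G (n0 + j) k)) := by
          refine Finset.sum_le_sum fun k _ => ?_
          rw [← mul_add]
          exact mul_le_mul_of_nonneg_left (smo_norm_le _) (by positivity)
      _ = 2 * ar + V (n0 + j) := by
          rw [Finset.sum_add_distrib, Finset.sum_const, nsmul_eq_mul, ← mul_assoc,
            harea _ hn, hV]
          ring
  have h2 := hVn j
  have h3 := smo_dlt (n0 + j)
  obtain ⟨Sm, hSm⟩ : ∃ Sm : ℝ, Sm = ∑ i ∈ Finset.range (n0 + j), amp (i + 1) ^ 2 := ⟨_, rfl⟩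
  have hS0 : 0 ≤ Sm := by
    rw [hSm]
    exact Finset.sum_nonneg fun i _ => by positivity
  rw [← hSm] at h2 ⊢
  have h4 : ar * (4 * D0 * ∑ i ∈ Finset.range (n0 + j), ((i : ℝ) + 1) * dlt i) ≤
      ar * (4 * D0 * 4) := by gcongr
  have h5 := hV0 n0
  have h6 : 0 ≤ (2 * ar + V n0 + 16 * D0 * ar) * Sm := by positivity
  have h7 : 0 ≤ 2 * C ^ 2 * ar := by positivity
  calc _ ≤ 2 * ar + V (n0 + j) := h1
    _ ≤ 2 * ar + (V n0 + ar * (4 * D0 * ∑ i ∈ Finset.range (n0 + j),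
      ((i : ℝ) + 1) * dlt i + 2 * C ^ 2 * Sm)) := by linarith
    _ ≤ (2 * ar + V n0 + 16 * D0 * ar + 2 * C ^ 2 * ar) * (1 + Sm) := by nlinarith

end Pool.Agent.H63.CR
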