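import Pool.Agent.H63.CR.COA
import Pool.Agent.H63.CR.SMO

/-!
# H63/CR/TLN: total length at the end of the blocks (about 40 min)

By `coarea` for `n = 256 ^ (m+1) >= n0`, `second_moment` and `amp_sq_sum_le` the integral over `t`
of `cnt f (p (256^(m+1))) (boxIdx ...) t` is at most `4 * D * (1 + 256 * (m+1))`; the sum over `m`
of `(1/4)^m` times this is finite, so (`MeasureTheory.lintegral_tsum`, `ae_lt_top`) for almost
every `t` the series converges (the finitely many `m` with `256 ^ (m+1) < n0` do not matter).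
-/

open MeasureTheory Set Filter
open scoped Topology ENNReal

namespace Pool.Agent.H63.CR

variable {f : ℝ × ℝ → ℝ} {p : ℕ → ℕ} {G : ℕ → ℤ × ℤ → ℝ × ℝ} {n0 : ℕ} {k0 : ℤ × ℤ} {C c : ℝ}
  {w : Fin 3 → ℝ × ℝ × ℝ}

theorem total_length (hW : IsWalk f p G n0 k0 C c w) : ∀ᵐ t ∂(volume : Measure ℝ),
    Summable fun m : ℕ => (1 / 4 : ℝ) ^ m *
      cnt f (p (256 ^ (m + 1))) (boxIdx (p (256 ^ (m + 1)) - p n0) k0) t := by
  obtain ⟨D, hD, hDn⟩ := second_moment hW
  have hn : ∀ m, n0 ≤ 256 ^ (m + n0 + 1) := by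
    intro m
    have h4 : m + n0 + 1 < 256 ^ (m + n0 + 1) := Nat.lt_pow_self (by norm_num)
    omega
  obtain ⟨T, hT⟩ : ∃ T : ℕ → ℝ → ℝ, T = fun m t =>
    cnt f (p (256 ^ (m + n0 + 1))) (boxIdx (p (256 ^ (m + n0 + 1)) - p n0) k0) t := ⟨_, rfl⟩
  have hTm : ∀ m, Measurable (T m) := by
    intro m
    rw [hT]
    exact measurable_cnt hW _ (hn m) _ (Finset.Subset.refl _)
  have hT0 : ∀ m t, 0 ≤ T m t := by
    intro m t
    rw [hT]
    exact cnt_nonneg _ _ _ _
  obtain ⟨a, had⟩ : ∃ a : ℕ → ℝ, a = fun m : ℕ => (1 / 4 : ℝ) ^ (m + n0) *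
    (4 * (D * (1 + 256 * (((m + n0 : ℕ) : ℝ) + 1)))) := ⟨_, rfl⟩
  have ha : Summable a := by
    have h1 : Summable fun m : ℕ => (1 / 4 : ℝ) ^ m * (4 * (D * (1 + 256 * ((m : ℝ) + 1)))) := by
      have h2 : Summable fun m : ℕ => (1 / 4 : ℝ) ^ m :=
        summable_geometric_of_lt_one (by norm_num) (by norm_num)
      have h3 : Summable fun m : ℕ => (m : ℝ) ^ 1 * (1 / 4 : ℝ) ^ m :=
        summable_pow_mul_geometric_of_norm_lt_one 1 (by norm_num)
      refine ((h2.mul_left (4 * D * 257)).add (h3.mul_left (4 * D * 256))).congr fun m => ?_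
      ring
    rw [had]
    exact (summable_nat_add_iff n0).2 h1
  have hint : ∀ m, ∫⁻ t, ENNReal.ofReal ((1 / 4 : ℝ) ^ (m + n0) * T m t) ≤ ENNReal.ofReal (a m) := by
    intro m
    have h1 : ∀ t, ENNReal.ofReal ((1 / 4 : ℝ) ^ (m + n0) * T m t) =
        ENNReal.ofReal ((1 / 4 : ℝ) ^ (m + n0)) * ENNReal.ofReal (T m t) := fun t =>
      ENNReal.ofReal_mul (by positivity)
    simp only [h1]
    rw [lintegral_const_mul _ (hTm m).ennreal_ofReal, had]
    dsimp only
    rw [ENNReal.ofReal_mul (by positivity)]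
    refine mul_le_mul_right ?_ _
    have h2 := coarea hW (256 ^ (m + n0 + 1)) (hn m) _ (Finset.Subset.refl _)
    rw [hT]
    refine h2.trans (ENNReal.ofReal_le_ofReal ?_)
    refine mul_le_mul_of_nonneg_left ?_ (by norm_num)
    refine (hDn _ (hn m)).trans (mul_le_mul_of_nonneg_left ?_ hD)
    have h3 := amp_sq_sum_le (m + n0)
    push_cast at h3 ⊢
    linarith
  have hfin : ∫⁻ t, ∑' m, ENNReal.ofReal ((1 / 4 : ℝ) ^ (m + n0) * T m t) ≠ ∞ := by
    rw [lintegral_tsum fun m => ((hTm m).const_mul _).ennreal_ofReal.aemeasurable]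
    exact ne_top_of_le_ne_top ha.tsum_ofReal_ne_top (ENNReal.tsum_le_tsum hint)
  have hae := ae_lt_top (Measurable.ennreal_tsum fun m =>
    ((hTm m).const_mul ((1 / 4 : ℝ) ^ (m + n0))).ennreal_ofReal) hfin
  filter_upwards [hae] with t ht
  have h1 := ENNReal.summable_toReal ht.ne
  have h2 : ∀ m, (ENNReal.ofReal ((1 / 4 : ℝ) ^ (m + n0) * T m t)).toReal =
      (1 / 4 : ℝ) ^ (m + n0) * T m t := fun m =>
    ENNReal.toReal_ofReal (mul_nonneg (by positivity) (hT0 m t))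
  simp only [h2] at h1
  rw [← summable_nat_add_iff n0]
  rw [hT] at h1
  exact h1

end Pool.Agent.H63.CR
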