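import Pool.Agent.H63.CR.HNL
import Pool.Agent.H63.CR.VAL

/-!
# H63/CR/ZLN: the lines of a set of Hausdorff measure zero (about 60 min)

`zln_plane`: `Z` bounded or not does not matter. For `ep > 0` take the cover `U i` of `hnl_cover`
(`U i ⊆ Z`, sum of the diameters `<= ep`). For nonempty `U i` of finite diameter `d i` fix `u i in U i`;
for `u in U i` and `h in gap 1 ⊆ [0, 3]`: `|prj h u - prj h (u i)| <= 4 * d i`. So the part of the set
that belongs to `U i` lies in `{(h, x) | h in gap 1, |x - prj h (u i)| <= 4 * d i}`, a set of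
measure `<= (2/100) * 8 * d i` (measurable, `Measure.prod_apply`). Sum: `<= ep`. If `Z` is
covered, all `d i` are finite as their sum is.
`zln_line`: for `h` in the set there is `u in Z` with `prj h (u - u') = 0`, `u <> u'`, so
`u.1 <> u'.1` and `h = tau u := -(u.2 - u'.2) / (u.1 - u'.1)`. On
`Z_j := {u in Z | 1/j <= |u.1 - u'.1|, ‖u‖ <= j}` the map `tau` is Lipschitz, so
`H^1 (tau '' Z_j) = 0` (`LipschitzOnWith.hausdorffMeasure_image_le`), and `H^1 = volume` on the real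
line (`MeasureTheory.hausdorffMeasure_real`). Countable union over `j`.
-/

open MeasureTheory Set Filter
open scoped Topology ENNReal

namespace Pool.Agent.H63.CR

private lemma zln_strip (c : ℝ → ℝ) (hc : Continuous c) (d : ℝ) (hd : 0 ≤ d) :
    volume {z : ℝ × ℝ | z.1 ∈ gap 1 ∧ |z.2 - c z.1| ≤ 4 * d} ≤ 8 * ENNReal.ofReal d := by
  have hg : gap 1 = Ioo (249 / 100 : ℝ) (251 / 100) := rfl
  rw [hg]
  have hm : MeasurableSet {z : ℝ × ℝ | z.1 ∈ Ioo (249 / 100 : ℝ) (251 / 100) ∧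
      |z.2 - c z.1| ≤ 4 * d} := by
    apply MeasurableSet.inter
    · exact measurable_fst measurableSet_Ioo
    · have h1 : Continuous fun z : ℝ × ℝ => |z.2 - c z.1| := by fun_prop
      exact (isClosed_le h1 continuous_const).measurableSet
  rw [Measure.volume_eq_prod, Measure.prod_apply hm]
  have h1 : ∀ h : ℝ, volume (Prod.mk h ⁻¹' {z : ℝ × ℝ | z.1 ∈ Ioo (249 / 100 : ℝ) (251 / 100) ∧
      |z.2 - c z.1| ≤ 4 * d}) ≤
      (Ioo (249 / 100 : ℝ) (251 / 100)).indicator (fun _ => 8 * ENNReal.ofReal d) h := by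
    intro h
    by_cases hh : h ∈ Ioo (249 / 100 : ℝ) (251 / 100)
    · rw [indicator_of_mem hh]
      have h2 : Prod.mk h ⁻¹' {z : ℝ × ℝ | z.1 ∈ Ioo (249 / 100 : ℝ) (251 / 100) ∧
          |z.2 - c z.1| ≤ 4 * d} ⊆ Icc (c h - 4 * d) (c h + 4 * d) := by
        intro x hx
        have h3 : |x - c h| ≤ 4 * d := hx.2
        rw [abs_le] at h3
        exact ⟨by linarith [h3.1], by linarith [h3.2]⟩
      refine (measure_mono h2).trans (le_of_eq ?_)
      rw [Real.volume_Icc]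
      have h4 : c h + 4 * d - (c h - 4 * d) = 8 * d := by ring
      rw [h4, ENNReal.ofReal_mul (by norm_num)]
      norm_num
    · rw [indicator_of_notMem hh]
      have h2 : Prod.mk h ⁻¹' {z : ℝ × ℝ | z.1 ∈ Ioo (249 / 100 : ℝ) (251 / 100) ∧
          |z.2 - c z.1| ≤ 4 * d} = ∅ := by
        ext x
        simp only [mem_preimage, mem_setOf_eq, mem_empty_iff_false, iff_false]
        exact fun hx => hh hx.1
      rw [h2, measure_empty]
  refine (lintegral_mono h1).trans ?_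
  rw [lintegral_indicator measurableSet_Ioo, setLIntegral_const, Real.volume_Ioo]
  refine mul_le_of_le_one_right bot_le ?_
  rw [ENNReal.ofReal_le_one]
  norm_num

theorem zln_plane (Z : Set (ℝ × ℝ)) (hZ : Measure.hausdorffMeasure 1 Z = 0) :
    volume {z : ℝ × ℝ | z.1 ∈ gap 1 ∧ ∃ u ∈ Z, prj z.1 u = z.2} = 0 := by
  have hg : gap 1 = Ioo (249 / 100 : ℝ) (251 / 100) := rfl
  have hmain : ∀ ep : ℝ≥0∞, 0 < ep → ep < ∞ →
      volume {z : ℝ × ℝ | z.1 ∈ gap 1 ∧ ∃ u ∈ Z, prj z.1 u = z.2} ≤ 8 * ep := by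
    intro ep hep hept
    obtain ⟨U, hU1, hU2, hU3⟩ := hnl_cover Z hZ ep hep
    have hfin : ∀ i, Metric.ediam (U i) ≠ ∞ := by
      intro i
      have h1 := (ENNReal.le_tsum i).trans hU3
      exact (h1.trans_lt hept).ne
    have hsub : {z : ℝ × ℝ | z.1 ∈ gap 1 ∧ ∃ u ∈ Z, prj z.1 u = z.2} ⊆
        ⋃ i, {z : ℝ × ℝ | z.1 ∈ gap 1 ∧ ∃ u ∈ U i, prj z.1 u = z.2} := by
      rintro z ⟨h1, u, hu, h2⟩
      obtain ⟨i, hi⟩ := mem_iUnion.1 (hU1 hu)
      exact mem_iUnion.2 ⟨i, h1, u, hi, h2⟩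
    have hi : ∀ i, volume {z : ℝ × ℝ | z.1 ∈ gap 1 ∧ ∃ u ∈ U i, prj z.1 u = z.2} ≤
        8 * Metric.ediam (U i) := by
      intro i
      rcases (U i).eq_empty_or_nonempty with he | ⟨v, hv⟩
      · have : {z : ℝ × ℝ | z.1 ∈ gap 1 ∧ ∃ u ∈ U i, prj z.1 u = z.2} = ∅ := by
          rw [he]
          ext z
          simp
        rw [this, measure_empty]
        exact bot_le
      · obtain ⟨d, hd⟩ : ∃ d : ℝ, d = (Metric.ediam (U i)).toReal := ⟨_, rfl⟩
        have hd0 : 0 ≤ d := by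
          rw [hd]
          exact ENNReal.toReal_nonneg
        have h1 : {z : ℝ × ℝ | z.1 ∈ gap 1 ∧ ∃ u ∈ U i, prj z.1 u = z.2} ⊆
            {z : ℝ × ℝ | z.1 ∈ gap 1 ∧ |z.2 - prj z.1 v| ≤ 4 * d} := by
          rintro z ⟨h1, u, hu, h2⟩
          refine ⟨h1, ?_⟩
          have h3 : edist u v ≤ Metric.ediam (U i) := Metric.edist_le_ediam_of_mem hu hv
          have h4 : ‖u - v‖ ≤ d := by
            rw [← dist_eq_norm, hd, ← ENNReal.toReal_ofReal (dist_nonneg (x := u) (y := v)),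
              ← edist_dist]
            exact ENNReal.toReal_mono (hfin i) h3
          have h5 : |(u - v).1| ≤ ‖u - v‖ := norm_fst_le (u - v)
          have h6 : |(u - v).2| ≤ ‖u - v‖ := norm_snd_le (u - v)
          rw [hg] at h1
          have h7 : z.2 - prj z.1 v = (u - v).2 + (u - v).1 * z.1 := by
            rw [← h2]
            unfold prj
            simp only [Prod.fst_sub, Prod.snd_sub]
            ring
          rw [h7]
          have h8 : |z.1| ≤ 3 := by
            rw [abs_of_nonneg (by linarith [h1.1])]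
            linarith [h1.2]
          calc |(u - v).2 + (u - v).1 * z.1| ≤ |(u - v).2| + |(u - v).1 * z.1| := abs_add_le _ _
            _ = |(u - v).2| + |(u - v).1| * |z.1| := by rw [abs_mul]
            _ ≤ d + d * 3 := by
                gcongr
                · exact h6.trans h4
                · exact h5.trans h4
            _ = 4 * d := by ring
        refine (measure_mono h1).trans ((zln_strip (fun h => prj h v) (by
          unfold prj
          fun_prop) d hd0).trans (le_of_eq ?_))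
        rw [hd, ENNReal.ofReal_toReal (hfin i)]
    calc volume {z : ℝ × ℝ | z.1 ∈ gap 1 ∧ ∃ u ∈ Z, prj z.1 u = z.2}
        ≤ ∑' i, volume {z : ℝ × ℝ | z.1 ∈ gap 1 ∧ ∃ u ∈ U i, prj z.1 u = z.2} :=
          (measure_mono hsub).trans (measure_iUnion_le _)
      _ ≤ ∑' i, 8 * Metric.ediam (U i) := ENNReal.tsum_le_tsum hi
      _ = 8 * ∑' i, Metric.ediam (U i) := ENNReal.tsum_mul_left
      _ ≤ 8 * ep := by gcongr
  refine le_antisymm (ENNReal.le_of_forall_pos_le_add fun e he _ => ?_) bot_le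
  have h1 := hmain ((e : ℝ≥0∞) / 8) (ENNReal.div_pos (by exact_mod_cast he.ne') (by norm_num))
    (ENNReal.div_lt_top ENNReal.coe_ne_top (by norm_num))
  rw [ENNReal.mul_div_cancel (by norm_num) (by norm_num)] at h1
  rw [zero_add]
  exact h1

theorem zln_line (Z : Set (ℝ × ℝ)) (hZ : Measure.hausdorffMeasure 1 Z = 0) (u' : ℝ × ℝ)
    (hu' : u' ∉ Z) :
    volume {h : ℝ | h ∈ gap 1 ∧ ∃ u ∈ Z, prj h u = prj h u'} = 0 := by
  obtain ⟨tau, htau⟩ : ∃ tau : ℝ × ℝ → ℝ, tau = fun u => -(u.2 - u'.2) / (u.1 - u'.1) := ⟨_, rfl⟩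
  obtain ⟨Zj, hZj⟩ : ∃ Zj : ℕ → Set (ℝ × ℝ), Zj = fun (j : ℕ) => {u | u ∈ Z ∧
    1 / ((j : ℝ) + 1) ≤ |u.1 - u'.1| ∧ ‖u - u'‖ ≤ (j : ℝ)} := ⟨_, rfl⟩
  have hsub : {h : ℝ | h ∈ gap 1 ∧ ∃ u ∈ Z, prj h u = prj h u'} ⊆ ⋃ j, tau '' Zj j := by
    rintro h ⟨-, u, hu, hpr⟩
    have h1 : (u.2 - u'.2) + (u.1 - u'.1) * h = 0 := by
      unfold prj at hpr
      linarith
    have h2 : u.1 - u'.1 ≠ 0 := by
      intro h3
      rw [h3, zero_mul, add_zero] at h1
      apply hu'
      have : u' = u := Prod.ext (by linarith) (by linarith)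
      rw [this]
      exact hu
    have h4 : 0 < |u.1 - u'.1| := abs_pos.2 h2
    obtain ⟨j, hj⟩ := exists_nat_ge (max (1 / |u.1 - u'.1|) ‖u - u'‖)
    refine mem_iUnion.2 ⟨j, u, ?_, ?_⟩
    · rw [hZj]
      refine ⟨hu, ?_, (le_max_right _ _).trans hj⟩
      have h5 := (le_max_left _ _).trans hj
      rw [div_le_iff₀ (by positivity)]
      rw [div_le_iff₀ h4] at h5
      nlinarith
    · rw [htau]
      dsimp only
      rw [div_eq_iff h2]
      linarith
  refine measure_mono_null hsub (measure_iUnion_null fun j => ?_)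
  have hj0 : (0 : ℝ) ≤ j := Nat.cast_nonneg _
  have hlip : LipschitzOnWith (Real.toNNReal (2 * j * ((j : ℝ) + 1) ^ 2)) tau (Zj j) := by
    apply LipschitzOnWith.of_dist_le_mul
    intro u hu v hv
    rw [hZj] at hu hv
    obtain ⟨-, hu1, hu2⟩ := hu
    obtain ⟨-, hv1, hv2⟩ := hv
    rw [Real.coe_toNNReal _ (by positivity), Real.dist_eq, dist_eq_norm, htau]
    dsimp only
    have hj1 : (0 : ℝ) < (j : ℝ) + 1 := by positivity
    have hu0 : 0 < |u.1 - u'.1| := lt_of_lt_of_le (by positivity) hu1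
    have hv0 : 0 < |v.1 - u'.1| := lt_of_lt_of_le (by positivity) hv1
    have hu3 := abs_pos.1 hu0
    have hv3 := abs_pos.1 hv0
    have b1 : |(u - v).1| ≤ ‖u - v‖ := norm_fst_le (u - v)
    have b2 : |(u - v).2| ≤ ‖u - v‖ := norm_snd_le (u - v)
    have b3 : |(v - u').1| ≤ ‖v - u'‖ := norm_fst_le (v - u')
    have b4 : |(v - u').2| ≤ ‖v - u'‖ := norm_snd_le (v - u')
    have e1 : -(u.2 - u'.2) / (u.1 - u'.1) - -(v.2 - u'.2) / (v.1 - u'.1) =
        ((v - u').2 * (u - v).1 - (v - u').1 * (u - v).2) / ((u.1 - u'.1) * (v.1 - u'.1)) := by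
      simp only [Prod.fst_sub, Prod.snd_sub]
      field_simp
      ring
    rw [e1, abs_div, abs_mul, div_le_iff₀ (mul_pos hu0 hv0)]
    have e2 : |(v - u').2 * (u - v).1 - (v - u').1 * (u - v).2| ≤ 2 * j * ‖u - v‖ := by
      calc |(v - u').2 * (u - v).1 - (v - u').1 * (u - v).2|
          ≤ |(v - u').2 * (u - v).1| + |(v - u').1 * (u - v).2| := abs_sub _ _
        _ = |(v - u').2| * |(u - v).1| + |(v - u').1| * |(u - v).2| := by rw [abs_mul, abs_mul]
        _ ≤ j * ‖u - v‖ + j * ‖u - v‖ := by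
            gcongr
            · exact b4.trans hv2
            · exact b3.trans hv2
        _ = 2 * j * ‖u - v‖ := by ring
    have e3 : 1 ≤ ((j : ℝ) + 1) ^ 2 * (|u.1 - u'.1| * |v.1 - u'.1|) := by
      have c1 : 1 ≤ ((j : ℝ) + 1) * |u.1 - u'.1| := by
        rw [div_le_iff₀ hj1] at hu1
        linarith
      have c2 : 1 ≤ ((j : ℝ) + 1) * |v.1 - u'.1| := by
        rw [div_le_iff₀ hj1] at hv1
        linarith
      nlinarith
    calc |(v - u').2 * (u - v).1 - (v - u').1 * (u - v).2| ≤ 2 * j * ‖u - v‖ * 1 := by linarith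
      _ ≤ 2 * j * ‖u - v‖ * (((j : ℝ) + 1) ^ 2 * (|u.1 - u'.1| * |v.1 - u'.1|)) := by
          gcongr
      _ = 2 * j * ((j : ℝ) + 1) ^ 2 * ‖u - v‖ * (|u.1 - u'.1| * |v.1 - u'.1|) := by ring
  have h1 : Measure.hausdorffMeasure 1 (Zj j) = 0 := by
    refine measure_mono_null (fun u hu => ?_) hZ
    rw [hZj] at hu
    exact hu.1
  have h2 := hlip.hausdorffMeasure_image_le (d := 1) zero_le_one
  rw [h1, mul_zero, hausdorffMeasure_real] at h2
  exact le_antisymm h2 bot_le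

end Pool.Agent.H63.CR
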