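import Pool.Agent.H63.CR.SML
import Pool.Agent.H63.CR.CNF
import Pool.Agent.H63.CR.TLN
import Pool.Agent.H63.CR.NLS
import Pool.Agent.H63.CR.SGN
import Pool.Agent.H63.CR.ZLN

/-!
# H63/CR/ABS: the abstract theorem (assembly, about 60 min)

Fix `t` outside the null sets of `small_null`, `conf_null` (all `j`, both signs, all `K0 >= n0`:
countably many) and `total_length`. Let `Z1` = the set of `small_null`, `Z2` = the union of the sets
of `conf_null`; `Z = Z1 ∪ Z2` has `H^1 = 0`. Let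
`N = {z | ∃ᶠ m, z in Nm m} ∪ {z | z.1 in gap 1, ∃ u in Z, prj z.1 u = z.2}`.
Measure zero: `nls_measure`, `zln_plane`. Heights: definition of `Nm`, `gap 1`.
Radial: `nls_radial`, `zln_line` (`u'` is not in `Z` because `Z` is contained in the level set in `mid`).
Covering: let `u in mid`, `f u = t`. If `u in Z` take `i = 1`. If not: suppose that for every `i` there
is `h i in gap i` with `(h i, prj (h i) u)` not in `N`; so for all large `m` it is not in `Nm m`.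
With `g n := G n (idx (p n) u)` and `b n := (1/16)^m` for `n` in block `m` (`b n = amp n`, `amp_block`):
for all large `m` and `n` in block `m`, `thr m <= ‖g n‖` (`u` not in `Z1`), so by the definition of `Nm`
(`k = idx (p n) u`, `mem_csq_idx`, `idx_mem_boxIdx`) `|dre (h i) (g n)| > 5 * C / 16 ^ m`. By `inc`
(`par_idx`, `mem_kids`) `‖g (n+1) - g n‖ <= C * amp (n+1) <= C * amp n`. `sgn_conf` gives a cone, so
`u in Z2`: contradiction.
-/

open MeasureTheory Set Filter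
open scoped Topology ENNReal

namespace Pool.Agent.H63.CR

variable {f : ℝ × ℝ → ℝ} {p : ℕ → ℕ} {G : ℕ → ℤ × ℤ → ℝ × ℝ} {n0 : ℕ} {k0 : ℤ × ℤ} {C c : ℝ}
  {w : Fin 3 → ℝ × ℝ × ℝ}

theorem abs_main (hW : IsWalk f p G n0 k0 C c w) : ∀ᵐ t ∂(volume : Measure ℝ),
    ∃ N : Set (ℝ × ℝ), volume N = 0 ∧ (∀ z ∈ N, z.1 ∈ Icc (19 / 10 : ℝ) (31 / 10)) ∧
      (∀ u ∈ mid (p n0) k0, f u = t → ∃ i : Fin 3, ∀ h ∈ gap i, (h, prj h u) ∈ N) ∧
      ∀ u' : ℝ × ℝ, ¬ (u' ∈ mid (p n0) k0 ∧ f u' = t) →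
        volume {h : ℝ | (h, prj h u') ∈ N} = 0 := by
  have hmono : Monotone p := (strictMono_nat_of_lt_succ fun n => by
    have := hW.step n
    omega).monotone
  have hgap : ∀ i : Fin 3, ∀ h ∈ gap i, h ∈ Icc (19 / 10 : ℝ) (31 / 10) := by
    intro i h hh
    fin_cases i <;>
    · simp only [gap, Fin.zero_eta, Fin.mk_one, Fin.reduceFinMk, Matrix.cons_val_zero,
        Matrix.cons_val_one, Matrix.cons_val, mem_Ioo] at hh
      constructor <;> linarith [hh.1, hh.2]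
  have h1 := small_null hW
  have h2 : ∀ᵐ t ∂(volume : Measure ℝ), ∀ j : Fin 3, ∀ K0 : ℕ, n0 ≤ K0 →
      Measure.hausdorffMeasure 1 {u : ℝ × ℝ | u ∈ mid (p n0) k0 ∧ f u = t ∧
      ∀ n, K0 ≤ n → G n (idx (p n) u) ∈ cone j} = 0 := by
    refine ae_all_iff.2 fun j => ae_all_iff.2 fun K0 => ?_
    by_cases h : n0 ≤ K0
    · filter_upwards [conf_null hW j (cone j) (Or.inl rfl) K0 h] with t ht _
      exact ht
    · exact Filter.Eventually.of_forall fun t h' => absurd h' h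
  have h3 : ∀ᵐ t ∂(volume : Measure ℝ), ∀ j : Fin 3, ∀ K0 : ℕ, n0 ≤ K0 →
      Measure.hausdorffMeasure 1 {u : ℝ × ℝ | u ∈ mid (p n0) k0 ∧ f u = t ∧
      ∀ n, K0 ≤ n → G n (idx (p n) u) ∈ {g : ℝ × ℝ | -g ∈ cone j}} = 0 := by
    refine ae_all_iff.2 fun j => ae_all_iff.2 fun K0 => ?_
    by_cases h : n0 ≤ K0
    · filter_upwards [conf_null hW j {g | -g ∈ cone j} (Or.inr rfl) K0 h] with t ht _
      exact ht
    · exact Filter.Eventually.of_forall fun t h' => absurd h' h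
  filter_upwards [h1, h2, h3, total_length hW] with t ht1 ht2 ht3 ht4
  obtain ⟨Z1, hZ1⟩ : ∃ Z1 : Set (ℝ × ℝ), Z1 = {u : ℝ × ℝ | u ∈ mid (p n0) k0 ∧ f u = t ∧
      ∃ᶠ m in atTop, ∃ n, 256 ^ m ≤ n ∧ n < 256 ^ (m + 1) ∧ ‖G n (idx (p n) u)‖ < thr m} := ⟨_, rfl⟩
  obtain ⟨Z2, hZ2⟩ : ∃ Z2 : Fin 3 → ℕ → Set (ℝ × ℝ), Z2 = fun j K0 => {u : ℝ × ℝ |
      u ∈ mid (p n0) k0 ∧ f u = t ∧ ∀ n, K0 ≤ n → G n (idx (p n) u) ∈ cone j} := ⟨_, rfl⟩
  obtain ⟨Z3, hZ3⟩ : ∃ Z3 : Fin 3 → ℕ → Set (ℝ × ℝ), Z3 = fun j K0 => {u : ℝ × ℝ |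
      u ∈ mid (p n0) k0 ∧ f u = t ∧ ∀ n, K0 ≤ n → G n (idx (p n) u) ∈ {g : ℝ × ℝ | -g ∈ cone j}} :=
    ⟨_, rfl⟩
  obtain ⟨Z, hZd⟩ : ∃ Z : Set (ℝ × ℝ), Z = Z1 ∪ ⋃ j : Fin 3, ⋃ K0 : ℕ, ⋃ _ : n0 ≤ K0,
      (Z2 j K0 ∪ Z3 j K0) := ⟨_, rfl⟩
  have hZ0 : Measure.hausdorffMeasure 1 Z = 0 := by
    rw [hZd]
    refine measure_union_null (by rw [hZ1]; exact ht1) ?_
    refine measure_iUnion_null fun j => measure_iUnion_null fun K0 => measure_iUnion_null fun h => ?_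
    exact measure_union_null (by rw [hZ2]; exact ht2 j K0 h) (by rw [hZ3]; exact ht3 j K0 h)
  have hZlev : ∀ u ∈ Z, u ∈ mid (p n0) k0 ∧ f u = t := by
    intro u hu
    rw [hZd] at hu
    rcases hu with hu | hu
    · rw [hZ1] at hu
      exact ⟨hu.1, hu.2.1⟩
    · simp only [mem_iUnion] at hu
      obtain ⟨j, K0, h, hu | hu⟩ := hu
      · rw [hZ2] at hu
        exact ⟨hu.1, hu.2.1⟩
      · rw [hZ3] at hu
        exact ⟨hu.1, hu.2.1⟩
  refine ⟨{z : ℝ × ℝ | ∃ᶠ m in atTop, z ∈ Nm f p G n0 k0 C t m} ∪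
    {z : ℝ × ℝ | z.1 ∈ gap 1 ∧ ∃ u ∈ Z, prj z.1 u = z.2}, ?_, ?_, ?_, ?_⟩
  · exact measure_union_null (nls_measure hW t ht4) (zln_plane Z hZ0)
  · rintro z (hz | hz)
    · obtain ⟨m, hm⟩ := hz.exists
      exact hm.1
    · exact hgap 1 _ hz.1
  · intro u hu hft
    by_cases huZ : u ∈ Z
    · exact ⟨1, fun h hh => Or.inr ⟨hh, u, huZ, rfl⟩⟩
    by_contra hcon
    push Not at hcon
    choose h hh hhN using hcon
    have hidx : ∀ n, n0 ≤ n → idx (p n) u ∈ boxIdx (p n - p n0) k0 := by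
      intro n hn
      have h3 := idx_mem_boxIdx (d := p n - p n0) hu
      rwa [Nat.add_sub_cancel' (hmono hn)] at h3
    have e1 : ∀ᶠ m in atTop, ∀ n, 256 ^ m ≤ n → n < 256 ^ (m + 1) →
        thr m ≤ ‖G n (idx (p n) u)‖ := by
      have h4 : ¬ ∃ᶠ m in atTop, ∃ n, 256 ^ m ≤ n ∧ n < 256 ^ (m + 1) ∧
          ‖G n (idx (p n) u)‖ < thr m := by
        intro h5
        apply huZ
        rw [hZd, hZ1]
        exact Or.inl ⟨hu, hft, h5⟩
      rw [not_frequently] at h4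
      filter_upwards [h4] with m hm n hn1 hn2
      by_contra h6
      exact hm ⟨n, hn1, hn2, not_le.1 h6⟩
    have e2 : ∀ i, ∀ᶠ m in atTop, (h i, prj (h i) u) ∉ Nm f p G n0 k0 C t m := by
      intro i
      have h4 := fun h5 => hhN i (Or.inl h5)
      exact not_frequently.1 h4
    have e3 : ∀ᶠ m in atTop, ∀ i, (h i, prj (h i) u) ∉ Nm f p G n0 k0 C t m :=
      eventually_all.2 e2
    obtain ⟨m0, hm0⟩ := eventually_atTop.1 (e1.and e3)
    have hblk : ∀ n, max n0 (256 ^ m0) ≤ n → n0 ≤ n ∧ 256 ^ (Nat.log 256 n) ≤ n ∧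
        n < 256 ^ (Nat.log 256 n + 1) ∧ m0 ≤ Nat.log 256 n := by
      intro n hn
      have a1 : n0 ≤ n := (le_max_left _ _).trans hn
      have a2 : 256 ^ m0 ≤ n := (le_max_right _ _).trans hn
      have a3 : n ≠ 0 := by
        have : 0 < 256 ^ m0 := by positivity
        omega
      exact ⟨a1, Nat.pow_log_le_self _ a3, Nat.lt_pow_succ_log_self (by norm_num) _,
        Nat.le_log_of_pow_le (by norm_num) a2⟩
    obtain ⟨j, hj⟩ := sgn_conf (fun n => G n (idx (p n) u)) amp C hW.hC (fun n => (amp_pos n).le)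
      (max n0 (256 ^ m0)) (by
        intro n hn
        obtain ⟨a1, -, -, -⟩ := hblk n hn
        have h5 := hW.inc n a1 (idx (p n) u) (hidx n a1) (idx (p (n + 1)) u) (by
          rw [mem_kids]
          have h3 := par_idx (p n) (p (n + 1) - p n) u
          rwa [Nat.add_sub_cancel' (hmono (Nat.le_succ n))] at h3)
        refine h5.trans ?_
        exact mul_le_mul_of_nonneg_left (amp_anti (Nat.le_succ n)) (by linarith [hW.hC]))
      h hh (by
        intro i n hn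
        obtain ⟨a1, a2, a3, a4⟩ := hblk n hn
        by_contra h6
        rw [not_lt] at h6
        obtain ⟨b1, b2⟩ := hm0 _ a4
        apply b2 i
        refine ⟨hgap i _ (hh i), u, hu, hft, rfl, n, a2, a3, idx (p n) u, hidx n a1,
          mem_csq_idx _ _, b1 n a2 a3, ?_⟩
        exact h6)
    apply huZ
    rw [hZd]
    refine Or.inr ?_
    simp only [mem_iUnion]
    refine ⟨j, max n0 (256 ^ m0), le_max_left _ _, ?_⟩
    rcases hj with hj | hj
    · left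
      rw [hZ2]
      exact ⟨hu, hft, hj⟩
    · right
      rw [hZ3]
      exact ⟨hu, hft, hj⟩
  · intro u' hu'
    have hsub : {h : ℝ | (h, prj h u') ∈ {z : ℝ × ℝ | ∃ᶠ m in atTop, z ∈ Nm f p G n0 k0 C t m} ∪
        {z : ℝ × ℝ | z.1 ∈ gap 1 ∧ ∃ u ∈ Z, prj z.1 u = z.2}} ⊆
        {h : ℝ | ∃ᶠ m in atTop, (h, prj h u') ∈ Nm f p G n0 k0 C t m} ∪
        {h : ℝ | h ∈ gap 1 ∧ ∃ u ∈ Z, prj h u = prj h u'} := by
      rintro h (hh | hh)
      · exact Or.inl hh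
      · exact Or.inr hh
    refine measure_mono_null hsub (measure_union_null (nls_radial hW t ht4 u' hu') ?_)
    exact zln_line Z hZ0 u' fun hz => hu' (hZlev u' hz)

end Pool.Agent.H63.CR
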