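import Pool.Agent.H63.CR.GDefs
import Pool.Agent.H63.CR.AMP

/-!
# H63/CR/ADM: the parameters of the walls are admissible (about 40 min)

* `adm`: `amp n = (1/16)^l`, `l = Nat.log 256 n`, so `0 < amp n ≤ 1`, `8 * amp n * Rn n = 1` and
  `omq Q n * Rn n = 16 * pi * Q n * 16 ^ l / 8 = 2 * pi * (Q n * 16 ^ l)`. `om ≥ 1` from `Q n ≥ 1`.
  `2 ≤ mh i n ≤ 3 + 1 / 200 ≤ 4`.
* `mh_close`: `|mh i n - (2 + i)| = (1/2)^n / 200`.
* `Rn` tends to infinity: `amp_tendsto`.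
* `dlt_small`: `dlt n / amp (n + 1)` tends to zero: `amp (n + 1) ^ 2 ≥ 1 / (n + 1)` because
  `256 ^ (Nat.log 256 (n + 1)) ≤ n + 1`, and `2 ^ (-n) * sqrt (n + 1)` tends to zero.
-/

open MeasureTheory Set Filter
open scoped Topology ENNReal

namespace Pool.Agent.H63.CR

variable {Q : ℕ → ℕ}

private lemma adm_pi : 50 ≤ 16 * Real.pi := by
  have := Real.pi_gt_d2
  linarith

lemma omq_ge (hQ : ∀ n, 1 ≤ Q n) (n : ℕ) : 50 ≤ omq Q n := by
  unfold omq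
  have h1 : (1 : ℝ) ≤ Q n := by exact_mod_cast hQ n
  have h2 := adm_pi
  nlinarith

lemma adm (hQ : ∀ n, 1 ≤ Q n) (i : Fin 2) (n : ℕ) :
    Adm (amp n) (omq Q n) (Rn n) (mh i n) where
  a0 := amp_pos n
  a1 := amp_le_one n
  om1 := by
    have := omq_ge hQ n
    linarith
  R0 := by
    have := amp_pos n
    unfold Rn
    positivity
  aR := by
    have := (amp_pos n).ne'
    unfold Rn
    refine le_of_eq ?_
    field_simp
  per := by
    refine ⟨Q n * 16 ^ Nat.log 256 n, ?_⟩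
    unfold omq Rn amp
    push_cast
    rw [one_div_pow]
    field_simp
    ring
  m2 := by
    unfold mh
    have h1 : (0 : ℝ) ≤ (i : ℕ) := Nat.cast_nonneg _
    have h2 : (0 : ℝ) ≤ (1 / 2) ^ n / 200 := by positivity
    linarith
  m4 := by
    unfold mh
    have h1 : ((i : ℕ) : ℝ) ≤ 1 := by
      have := i.isLt
      exact_mod_cast (by omega : (i : ℕ) ≤ 1)
    have h2 : ((1 : ℝ) / 2) ^ n ≤ 1 := pow_le_one₀ (by norm_num) (by norm_num)
    linarith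

lemma mh_close (i : Fin 2) (n : ℕ) : |mh i n - (2 + (i : ℕ))| ≤ dlt n / 200 := by
  unfold mh dlt
  rw [add_sub_cancel_left, abs_of_nonneg (by positivity)]

lemma mh_succ (n : ℕ) : mh 1 n = mh 0 n + 1 := by
  unfold mh
  simp
  ring

lemma amp_small {ε : ℝ} (hε : 0 < ε) : ∃ n1, ∀ n, n1 ≤ n → amp n ≤ ε :=
  eventually_atTop.1 (amp_tendsto.eventually (eventually_le_nhds hε))

lemma rn_large (A : ℝ) : ∃ n1, ∀ n, n1 ≤ n → A ≤ Rn n := by
  obtain ⟨n1, h1⟩ := amp_small (ε := 1 / (8 * (|A| + 1))) (by positivity)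
  refine ⟨n1, fun n hn => ?_⟩
  have h2 := h1 n hn
  have h3 := amp_pos n
  unfold Rn
  rw [le_div_iff₀ (by positivity)] at h2 ⊢
  have h4 := le_abs_self A
  nlinarith

private lemma adm_sq (n : ℕ) (hn : 1 ≤ n) : 1 / (n : ℝ) ≤ amp n ^ 2 := by
  have h0 : amp n ^ 2 = 1 / (256 : ℝ) ^ Nat.log 256 n := by
    unfold amp
    rw [← pow_mul, mul_comm, pow_mul, ← one_div_pow]
    norm_num
  rw [h0]
  have h1 : 256 ^ Nat.log 256 n ≤ n := Nat.pow_log_le_self _ (by omega)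
  have h2 : ((256 : ℝ)) ^ Nat.log 256 n ≤ n := by exact_mod_cast h1
  exact one_div_le_one_div_of_le (by positivity) h2

lemma dlt_small {ε : ℝ} (hε : 0 < ε) : ∃ n1, ∀ n, n1 ≤ n → dlt n ≤ ε * amp (n + 1) := by
  have t1 : Tendsto (fun n : ℕ => (n : ℝ) * (1 / 4 : ℝ) ^ n) atTop (𝓝 0) :=
    tendsto_self_mul_const_pow_of_lt_one (by norm_num) (by norm_num)
  have t2 : Tendsto (fun n : ℕ => (1 / 4 : ℝ) ^ n) atTop (𝓝 0) :=
    tendsto_pow_atTop_nhds_zero_of_lt_one (by norm_num) (by norm_num)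
  have t3 : Tendsto (fun n : ℕ => (n : ℝ) * (1 / 4 : ℝ) ^ n + (1 / 4 : ℝ) ^ n) atTop (𝓝 0) := by
    simpa using t1.add t2
  obtain ⟨n1, h1⟩ := eventually_atTop.1
    (t3.eventually (eventually_le_nhds (by positivity : 0 < ε ^ 2)))
  refine ⟨n1, fun n hn => ?_⟩
  have h2 := h1 n hn
  have h3 := adm_sq (n + 1) (by omega)
  have hp : (0 : ℝ) < ((n + 1 : ℕ) : ℝ) := by positivity
  have h4 : dlt n ^ 2 ≤ (ε * amp (n + 1)) ^ 2 := by
    have h5 : dlt n ^ 2 = (1 / 4 : ℝ) ^ n := by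
      unfold dlt
      rw [← pow_mul, mul_comm, pow_mul]
      norm_num
    rw [h5, mul_pow]
    rw [div_le_iff₀ hp] at h3
    push_cast at h3 h2
    have h6 : ((n : ℝ) + 1) * (1 / 4 : ℝ) ^ n ≤ ε ^ 2 := by linarith
    have h7 : ε ^ 2 * 1 ≤ ε ^ 2 * (amp (n + 1) ^ 2 * ((n : ℝ) + 1)) :=
      mul_le_mul_of_nonneg_left h3 (by positivity)
    have h8 : ((n : ℝ) + 1) * (1 / 4 : ℝ) ^ n ≤
        ((n : ℝ) + 1) * (ε ^ 2 * amp (n + 1) ^ 2) := by linarith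
    exact le_of_mul_le_mul_left h8 (by positivity)
  have h5 : 0 ≤ ε * amp (n + 1) := mul_nonneg hε.le (amp_pos _).le
  exact (abs_le_of_sq_le_sq' h4 h5).2

lemma side_small {ε : ℝ} (hε : 0 < ε) {p : ℕ → ℕ} (hp : ∀ n, p n + 4 ≤ p (n + 1)) :
    ∃ n1, ∀ n, n1 ≤ n → side (p n) ≤ ε := by
  have h0 : ∀ n, n ≤ p n := by
    intro n
    induction n with
    | zero => omega
    | succ n ih =>
      have := hp n
      omega
  obtain ⟨n1, h1⟩ := exists_pow_lt_of_lt_one hε (by norm_num : (1 / 2 : ℝ) < 1)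
  refine ⟨n1, fun n hn => ?_⟩
  unfold side
  have h2 : n1 ≤ p n := hn.trans (h0 n)
  exact (pow_le_pow_of_le_one (by norm_num) (by norm_num) h2).trans h1.le

end Pool.Agent.H63.CR
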