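import Pool.Agent.H63.CR.GDefs

/-!
# H63/CR/BIG: the other lines have long sections (about 60 min)

Lower bound: the coordinate maps are 1-Lipschitz, so if for every `y` in an interval `I` there is a
point of the set `S` with coordinate `y` then `volume I ≤ μH[1] S` (`LipschitzWith.hausdorffMeasure_image_le`,
`hausdorffMeasure_real`). A point of `Sq` with `1/200 ≤ x 0 ≤ 199/200` is in `E0 Q` (no `refl s x` is in `Tri`).
* Case I, `a < c`: then `b ≥ 2 * c - a > c`. For `x 0 ∈ (1/200, 199/200)`, `x 1 = (c - a * x 0) / b ∈ (0, 1)`: the point is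
  in `E0 Q`. Length `198/200`.
* Case II, `b < c`: symmetric.
* Case III, `c ≤ a ≤ b`: then `a ≤ 400 * c` (otherwise `400 * c < a ≤ b`). Put `D0 = c / a ∈ [1/400, 1]`, `D1 = c / b ≤ D0`.
  For `x 0 ∈ (D0 / 2, 99/100 * D0)`, `x 1 = D1 * (1 - x 0 / D0) ∈ (0, D1 / 2)`, so `x 1 < x 0`, `x 1 < 1/2`,
  `x 0 < 99/100`: `x ∈ Sq`; if `x ∈ Tri` then `x ∈ Ec Q` because `x 1 < x 0`; the other `refl s x` have a coordinate
  sum `≥ 1/100`. Length `49/100 * D0 ≥ 49/40000 ≥ 1/3000`.
* Case IV, `c ≤ b < a`: then `b ≤ 400 * c`, `D1 = c / b ∈ [1/400, 1]`, `D0 < D1`. For `x 1 ∈ (5/6 * D1, 99/100 * D1)`,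
  `x 0 = D0 * (1 - x 1 / D1) ∈ (0, D0 / 6)`, so `5 * x 0 < 5/6 * D1 < x 1`: in `Ec Q` if in `Tri`; the other `refl s x` have a
  coordinate sum `≥ 1/100`. Length `(99/100 - 5/6) * D1 ≥ 0.156 / 400 ≥ 1/3000`.
-/

open MeasureTheory Set Filter
open scoped Topology ENNReal

namespace Pool.Agent.H63.CR

private theorem big_meas (S : Set Plane) (i : Fin 2) (p q : ℝ) (f : ℝ → Plane) (hf : ∀ y, (f y) i = y)
    (hS : ∀ y ∈ Ioo p q, f y ∈ S) : ENNReal.ofReal (q - p) ≤ μH[1] S := by
  have hl : LipschitzWith 1 (fun x : Plane => x i) := by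
    apply LipschitzWith.mk_one
    intro x y
    rw [Real.dist_eq, dist_eq_norm, ← Real.norm_eq_abs]
    exact PiLp.norm_apply_le (x - y) i
  have h1 := hl.hausdorffMeasure_image_le (d := 1) zero_le_one S
  have h2 : Ioo p q ⊆ (fun x : Plane => x i) '' S := by
    intro y hy
    exact ⟨f y, hS y hy, hf y⟩
  rw [ENNReal.coe_one, ENNReal.one_rpow, one_mul] at h1
  calc ENNReal.ofReal (q - p) = volume (Ioo p q) := Real.volume_Ioo.symm
    _ = μH[1] (Ioo p q) := by rw [hausdorffMeasure_real]
    _ ≤ μH[1] ((fun x : Plane => x i) '' S) := measure_mono h2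
    _ ≤ μH[1] S := h1

private theorem big_r0 (s : Bool × Bool) (x : Plane) : (refl s x) 0 = if s.1 then 1 - x 0 else x 0 := rfl

private theorem big_r1 (s : Bool × Bool) (x : Plane) : (refl s x) 1 = if s.2 then 1 - x 1 else x 1 := rfl

private theorem big_mid {Q : ℕ → ℕ} {x : Plane} (hx : x ∈ Sq)
    (h : (1 / 200 ≤ x 0 ∧ x 0 ≤ 199 / 200) ∨ (1 / 200 ≤ x 1 ∧ x 1 ≤ 199 / 200)) : x ∈ E0 Q := by
  refine ⟨hx, fun s hs => ?_⟩
  exfalso
  obtain ⟨t0, t1, t2⟩ := hs
  rw [big_r0] at t0 t2
  rw [big_r1] at t1 t2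
  rcases h with ⟨h1, h2⟩ | ⟨h1, h2⟩
  · split_ifs at t0 t1 t2 <;> linarith
  · split_ifs at t0 t1 t2 <;> linarith

private theorem big_cor {Q : ℕ → ℕ} {x : Plane} (hx : x ∈ Sq) (h0 : x 0 ≤ 99 / 100) (h1 : x 1 ≤ 99 / 100)
    (h : x 1 < x 0 ∨ 5 * x 0 < x 1) : x ∈ E0 Q := by
  refine ⟨hx, fun s hs => ?_⟩
  obtain ⟨x0, x0', x1, x1'⟩ := hx
  obtain ⟨t0, t1, t2⟩ := hs
  rcases s with ⟨s0, s1⟩
  rw [big_r0] at t0 t2
  rw [big_r1] at t1 t2
  cases s0
  · cases s1
    · refine ⟨t0, t1, ?_⟩
      rcases h with h | h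
      · exact Or.inl h
      · exact Or.inr (Or.inl h)
    · exfalso
      simp only [Bool.false_eq_true, if_false, if_true] at t0 t1 t2
      linarith
  · exfalso
    cases s1
    · simp only [Bool.false_eq_true, if_false, if_true] at t0 t1 t2
      linarith
    · simp only [if_true] at t0 t1 t2
      linarith

theorem big {Q : ℕ → ℕ} {a b c : ℝ} (ha : 0 ≤ a) (hb : 0 ≤ b) (hc : 0 < c) (hab : c ≤ (a + b) / 2)
    (h : ¬ (400 * c < a ∧ 400 * c < b)) :
    ENNReal.ofReal (1 / 3000) ≤ μH[1] ({x : Plane | a * x 0 + b * x 1 = c} ∩ E0 Q) := by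
  have hf0 : ∀ y z : ℝ, (!₂[y, z] : Plane) 0 = y := fun _ _ => rfl
  have hf1 : ∀ y z : ℝ, (!₂[y, z] : Plane) 1 = z := fun _ _ => rfl
  by_cases c1 : a < c
  · have hbp : c < b := by linarith
    have hb0 : 0 < b := by linarith
    have h1 := big_meas ({x : Plane | a * x 0 + b * x 1 = c} ∩ E0 Q) 0 (1 / 200) (199 / 200)
      (fun y => !₂[y, (c - a * y) / b]) (fun y => rfl) ?_
    · exact (ENNReal.ofReal_le_ofReal (by norm_num)).trans h1
    · rintro y ⟨y1, y2⟩
      have hay : a * y ≤ a := mul_le_of_le_one_right ha (by linarith)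
      have hay0 : 0 ≤ a * y := mul_nonneg ha (by linarith)
      refine ⟨?_, big_mid (x := !₂[y, (c - a * y) / b]) ⟨?_, ?_, ?_, ?_⟩ (Or.inl ⟨?_, ?_⟩)⟩
      · show a * y + b * ((c - a * y) / b) = c
        field_simp
        ring
      · show 0 < y
        linarith
      · show y < 1
        linarith
      · show 0 < (c - a * y) / b
        exact div_pos (by linarith) hb0
      · show (c - a * y) / b < 1
        rw [div_lt_one hb0]
        linarith
      · show 1 / 200 ≤ y
        linarith
      · show y ≤ 199 / 200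
        linarith
  by_cases c2 : b < c
  · have hap : c < a := by linarith
    have ha0 : 0 < a := by linarith
    have h1 := big_meas ({x : Plane | a * x 0 + b * x 1 = c} ∩ E0 Q) 1 (1 / 200) (199 / 200)
      (fun y => !₂[(c - b * y) / a, y]) (fun y => rfl) ?_
    · exact (ENNReal.ofReal_le_ofReal (by norm_num)).trans h1
    · rintro y ⟨y1, y2⟩
      have hby : b * y ≤ b := mul_le_of_le_one_right hb (by linarith)
      have hby0 : 0 ≤ b * y := mul_nonneg hb (by linarith)
      refine ⟨?_, big_mid (x := !₂[(c - b * y) / a, y]) ⟨?_, ?_, ?_, ?_⟩ (Or.inr ⟨?_, ?_⟩)⟩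
      · show a * ((c - b * y) / a) + b * y = c
        field_simp
        ring
      · show 0 < (c - b * y) / a
        exact div_pos (by linarith) ha0
      · show (c - b * y) / a < 1
        rw [div_lt_one ha0]
        linarith
      · show 0 < y
        linarith
      · show y < 1
        linarith
      · show 1 / 200 ≤ y
        linarith
      · show y ≤ 199 / 200
        linarith
  push Not at c1 c2
  have ha0 : 0 < a := by linarith
  have hb0 : 0 < b := by linarith
  by_cases c3 : a ≤ b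
  · have ha4 : a ≤ 400 * c := by
      by_contra hh
      push Not at hh
      exact h ⟨hh, by linarith⟩
    obtain ⟨D, hD⟩ : ∃ D, D = c / a := ⟨_, rfl⟩
    have haD : a * D = c := by rw [hD]; field_simp
    have hD1 : D ≤ 1 := by rw [hD, div_le_one ha0]; exact c1
    have hD2 : 1 / 400 ≤ D := by rw [hD, div_le_div_iff₀ (by norm_num) ha0]; linarith
    have h1 := big_meas ({x : Plane | a * x 0 + b * x 1 = c} ∩ E0 Q) 0 (D / 2) (99 / 100 * D)
      (fun y => !₂[y, (c - a * y) / b]) (fun y => rfl) ?_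
    · exact (ENNReal.ofReal_le_ofReal (by linarith)).trans h1
    · rintro y ⟨y1, y2⟩
      have e1 := mul_lt_mul_of_pos_left y1 ha0
      have e2 := mul_lt_mul_of_pos_left y2 ha0
      have e3 : a * (D / 2) = c / 2 := by rw [← haD]; ring
      have e4 : a * (99 / 100 * D) = 99 / 100 * c := by rw [← haD]; ring
      rw [e3] at e1
      rw [e4] at e2
      have x1 : 0 < (c - a * y) / b := div_pos (by linarith) hb0
      have x2 : (c - a * y) / b < D / 2 := by
        rw [div_lt_iff₀ hb0]
        have : a * (D / 2) ≤ b * (D / 2) := mul_le_mul_of_nonneg_right c3 (by linarith)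
        linarith
      refine ⟨?_, big_cor (x := !₂[y, (c - a * y) / b]) ⟨?_, ?_, ?_, ?_⟩ ?_ ?_ (Or.inl ?_)⟩
      · show a * y + b * ((c - a * y) / b) = c
        field_simp
        ring
      · show 0 < y
        linarith
      · show y < 1
        linarith
      · exact x1
      · show (c - a * y) / b < 1
        linarith
      · show y ≤ 99 / 100
        linarith
      · show (c - a * y) / b ≤ 99 / 100
        linarith
      · show (c - a * y) / b < y
        linarith
  · push Not at c3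
    have hb4 : b ≤ 400 * c := by
      by_contra hh
      push Not at hh
      exact h ⟨by linarith, hh⟩
    obtain ⟨D, hD⟩ : ∃ D, D = c / b := ⟨_, rfl⟩
    have hbD : b * D = c := by rw [hD]; field_simp
    have hD1 : D ≤ 1 := by rw [hD, div_le_one hb0]; exact c2
    have hD2 : 1 / 400 ≤ D := by rw [hD, div_le_div_iff₀ (by norm_num) hb0]; linarith
    have h1 := big_meas ({x : Plane | a * x 0 + b * x 1 = c} ∩ E0 Q) 1 (5 / 6 * D) (99 / 100 * D)
      (fun y => !₂[(c - b * y) / a, y]) (fun y => rfl) ?_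
    · exact (ENNReal.ofReal_le_ofReal (by linarith)).trans h1
    · rintro y ⟨y1, y2⟩
      have e1 := mul_lt_mul_of_pos_left y1 hb0
      have e2 := mul_lt_mul_of_pos_left y2 hb0
      have e3 : b * (5 / 6 * D) = 5 / 6 * c := by rw [← hbD]; ring
      have e4 : b * (99 / 100 * D) = 99 / 100 * c := by rw [← hbD]; ring
      rw [e3] at e1
      rw [e4] at e2
      have x1 : 0 < (c - b * y) / a := div_pos (by linarith) ha0
      have x2 : (c - b * y) / a < D / 6 := by
        rw [div_lt_iff₀ ha0]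
        have : b * (D / 6) ≤ a * (D / 6) := mul_le_mul_of_nonneg_right c3.le (by linarith)
        linarith
      refine ⟨?_, big_cor (x := !₂[(c - b * y) / a, y]) ⟨?_, ?_, ?_, ?_⟩ ?_ ?_ (Or.inr ?_)⟩
      · show a * ((c - b * y) / a) + b * y = c
        field_simp
        ring
      · exact x1
      · show (c - b * y) / a < 1
        linarith
      · show 0 < y
        linarith
      · show y < 1
        linarith
      · show (c - b * y) / a ≤ 99 / 100
        linarith
      · show y ≤ 99 / 100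
        linarith
      · show 5 * ((c - b * y) / a) < y
        linarith

end Pool.Agent.H63.CR
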