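import Pool.Agent.H63.CR.ZET

/-!
# H63/CR/CHI: the parameter intervals (about 50 min)

Write `al = u.1`, `be = u.2`, `x = pt u s`, `0 < s < 1`, so `x 0 = s / be`, `x 1 = (1 - s) / al` are positive.
* `chi_lt`: `h * x 0 < x 1` iff `h * al * s < be * (1 - s)` iff `s * prj h u < be` iff `s < sp u h` (for `h ≥ 0`);
  `chi_gt` in the same way.
* `chi_wall`: put `z = (be / s - prj m u) / al`, so `be / s = prj m u + al * z`, `s = sp u (m + z)` and
  `1 / x 0 = be / s`. The first inequality is `s < sp u m`, that is `0 < z`; the second, with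
  `l = lam (1 / x 0) ≥ 0`, is `sp u (m + l) < s`, that is `z < l = lam (prj m u + al * z)`. Use `zet_set`
  (`2 * al ≤ prj m u` because `m ≥ 2`) and that `h ↦ sp u h` is strictly decreasing for `h ≥ 0`.
* `chi_len`: `sp u h1 - sp u h2 = be * al * (h2 - h1) / (prj h1 u * prj h2 u)`.
-/

open MeasureTheory Set Filter
open scoped Topology ENNReal

namespace Pool.Agent.H63.CR

variable {u : ℝ × ℝ}

lemma chi_prj_pos (h1 : 0 < u.1) (h2 : 0 < u.2) {h : ℝ} (hh : 0 ≤ h) : 0 < prj h u := by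
  unfold prj
  positivity

lemma sp_mem (h1 : 0 < u.1) (h2 : 0 < u.2) {h : ℝ} (hh : 0 < h) : sp u h ∈ Ioo (0 : ℝ) 1 := by
  have hp := chi_prj_pos h1 h2 hh.le
  refine ⟨div_pos h2 hp, ?_⟩
  unfold sp
  rw [div_lt_one hp]
  unfold prj
  nlinarith [mul_pos h1 hh]

lemma sp_anti (h1 : 0 < u.1) (h2 : 0 < u.2) {h h' : ℝ} (hh : 0 ≤ h) (hlt : h < h') :
    sp u h' < sp u h := by
  have hp := chi_prj_pos h1 h2 hh
  unfold sp
  apply div_lt_div_of_pos_left h2 hp
  unfold prj
  nlinarith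

lemma chi_pt0 (s : ℝ) : (pt u s) 0 = s / u.2 := by simp [pt]

lemma chi_pt1 (s : ℝ) : (pt u s) 1 = (1 - s) / u.1 := by simp [pt]

lemma chi_lt (h1 : 0 < u.1) (h2 : 0 < u.2) {h s : ℝ} (hh : 0 ≤ h) :
    h * (pt u s) 0 < (pt u s) 1 ↔ s < sp u h := by
  have hp := chi_prj_pos h1 h2 hh
  rw [chi_pt0, chi_pt1, sp, lt_div_iff₀ hp, lt_div_iff₀ h1, mul_div_assoc', div_mul_eq_mul_div,
    div_lt_iff₀ h2]
  unfold prj
  constructor <;> intro h <;> nlinarith

lemma chi_gt (h1 : 0 < u.1) (h2 : 0 < u.2) {h s : ℝ} (hh : 0 ≤ h) :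
    (pt u s) 1 < h * (pt u s) 0 ↔ sp u h < s := by
  have hp := chi_prj_pos h1 h2 hh
  rw [chi_pt0, chi_pt1, sp, div_lt_iff₀ hp, div_lt_iff₀ h1, mul_div_assoc', div_mul_eq_mul_div,
    lt_div_iff₀ h2]
  unfold prj
  constructor <;> intro h <;> nlinarith

theorem chi_wall (h1 : 0 < u.1) (h2 : 0 < u.2) {a om R m s : ℝ} (h : Adm a om R m)
    (hs : s ∈ Ioo (0 : ℝ) 1) :
    (m * (pt u s) 0 < (pt u s) 1 ∧
        (pt u s) 1 < (m + lam a om R (1 / (pt u s) 0)) * (pt u s) 0) ↔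
      s ∈ Ioo (sp u (m + zet a om R u.1 (prj m u))) (sp u m) := by
  have hm : 0 ≤ m := by linarith [h.m2]
  have hX : 2 * u.1 ≤ prj m u := by unfold prj; nlinarith [h.m2]
  have hz := (zet_spec h h1.le hX).1
  set z := (u.2 / s - prj m u) / u.1 with hzdef
  have hus : u.2 / s = prj m u + u.1 * z := by rw [hzdef]; field_simp; ring
  have h1x : 1 / (pt u s) 0 = prj m u + u.1 * z := by
    rw [chi_pt0, one_div_div, hus]
  have hpz : prj (m + z) u = u.2 / s := by
    rw [hus]; unfold prj; ring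
  have hsp : sp u (m + z) = s := by
    unfold sp
    rw [hpz]
    have := hs.1.ne'
    field_simp
  have hlam := lam_nonneg h (prj m u + u.1 * z)
  rw [chi_lt h1 h2 hm, h1x, chi_gt h1 h2 (by linarith)]
  have hset := zet_set h h1.le hX
  have e1 : s < sp u m ↔ 0 < z := by
    constructor
    · intro hlt
      rw [hzdef]
      apply div_pos _ h1
      have : prj m u < u.2 / s := by
        rw [lt_div_iff₀ hs.1]
        have h3 := (lt_div_iff₀ (chi_prj_pos h1 h2 hm)).mp hlt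
        linarith
      linarith
    · intro hlt
      calc s = sp u (m + z) := hsp.symm
        _ < sp u m := sp_anti h1 h2 hm (by linarith)
  have e2 : ∀ l, 0 ≤ l → 0 < z → (sp u (m + l) < s ↔ z < l) := by
    intro l hl hzp
    rw [← hsp]
    constructor
    · intro hlt
      by_contra hcon
      push Not at hcon
      rcases hcon.lt_or_eq with h' | h'
      · have := sp_anti h1 h2 (h := m + l) (h' := m + z) (by linarith) (by linarith)
        linarith
      · rw [h'] at hlt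
        exact lt_irrefl _ hlt
    · intro hlt
      exact sp_anti h1 h2 (by linarith) (by linarith)
  constructor
  · rintro ⟨ha, hb⟩
    have hzp := e1.mp ha
    have hzl := (e2 _ hlam hzp).mp hb
    have : z ∈ Ioo 0 (zet a om R u.1 (prj m u)) := by
      rw [← hset]
      exact ⟨hzp, hzl⟩
    exact ⟨(e2 _ hz hzp).mpr this.2, ha⟩
  · rintro ⟨ha, hb⟩
    have hzp := e1.mp hb
    have hzl := (e2 _ hz hzp).mp ha
    have : z ∈ {z : ℝ | 0 < z ∧ z < lam a om R (prj m u + u.1 * z)} := by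
      rw [hset]
      exact ⟨hzp, hzl⟩
    exact ⟨hb, (e2 _ hlam hzp).mpr this.2⟩

lemma chi_len (h1 : 0 < u.1) (h2 : 0 < u.2) {a b : ℝ} (ha : 0 ≤ a) (hb : 0 ≤ b) :
    La u / (u.1 * u.2) * (sp u a - sp u b) = seg u a b := by
  have hpa := (chi_prj_pos h1 h2 ha).ne'
  have hpb := (chi_prj_pos h1 h2 hb).ne'
  have h1' := h1.ne'
  have h2' := h2.ne'
  unfold sp seg
  field_simp
  unfold prj
  ring

end Pool.Agent.H63.CR
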