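import Pool.Agent.H63.CR.GDefs

/-!
# H63/CR/CHM: length on a chart line (about 40 min)

`pt u` is the affine map `AffineMap.lineMap x y` with `x = !₂[0, 1 / u.1]` (`s = 0`) and
`y = !₂[1 / u.2, 0]` (`s = 1`), `dist x y = sqrt (1 / u.2 ^ 2 + 1 / u.1 ^ 2) = La u / (u.1 * u.2)`. A point of the chart
line with positive coordinates is `pt u s` with `s = u.2 * x 0 ∈ (0, 1)`, and `pt u s ∈ chartLine u`. So
`chartLine u ∩ S` is the image of the set on the right, and
`MeasureTheory.hausdorffMeasure_lineMap_image` with `MeasureTheory.hausdorffMeasure_real` (or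
`hausdorffMeasure_real`) gives the formula.
-/

open MeasureTheory Set Filter
open scoped Topology ENNReal

namespace Pool.Agent.H63.CR

theorem chm {u : ℝ × ℝ} (h1 : 0 < u.1) (h2 : 0 < u.2) (S : Set Plane)
    (hS : ∀ x ∈ S, 0 < x 0 ∧ 0 < x 1) :
    μH[1] (chartLine u ∩ S) =
      ENNReal.ofReal (La u / (u.1 * u.2)) * volume {s : ℝ | s ∈ Ioo (0 : ℝ) 1 ∧ pt u s ∈ S} := by
  obtain ⟨x, hx⟩ : ∃ x : Plane, x = !₂[0, 1 / u.1] := ⟨_, rfl⟩
  obtain ⟨y, hy⟩ : ∃ y : Plane, y = !₂[1 / u.2, 0] := ⟨_, rfl⟩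
  have hx0 : x 0 = 0 := by rw [hx]; rfl
  have hx1 : x 1 = 1 / u.1 := by rw [hx]; rfl
  have hy0 : y 0 = 1 / u.2 := by rw [hy]; rfl
  have hy1 : y 1 = 0 := by rw [hy]; rfl
  have hp0 : ∀ s, pt u s 0 = s / u.2 := fun s => rfl
  have hp1 : ∀ s, pt u s 1 = (1 - s) / u.1 := fun s => rfl
  have hpt : ∀ s : ℝ, pt u s = AffineMap.lineMap x y s := by
    intro s
    ext i
    rw [AffineMap.lineMap_apply]
    fin_cases i
    · show pt u s 0 = (s • (y -ᵥ x) +ᵥ x) 0
      rw [hp0]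
      simp only [vsub_eq_sub, vadd_eq_add, PiLp.add_apply, PiLp.smul_apply, PiLp.sub_apply, smul_eq_mul, hx0, hy0]
      ring
    · show pt u s 1 = (s • (y -ᵥ x) +ᵥ x) 1
      rw [hp1]
      simp only [vsub_eq_sub, vadd_eq_add, PiLp.add_apply, PiLp.smul_apply, PiLp.sub_apply, smul_eq_mul, hx1, hy1]
      ring
  have himg : chartLine u ∩ S = AffineMap.lineMap x y '' {s : ℝ | s ∈ Ioo (0 : ℝ) 1 ∧ pt u s ∈ S} := by
    ext z
    constructor
    · rintro ⟨hz1, hz2⟩
      have hz1' : u.1 * z 1 + u.2 * z 0 = 1 := hz1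
      obtain ⟨p0, p1⟩ := hS z hz2
      have e : pt u (u.2 * z 0) = z := by
        ext i
        fin_cases i
        · show pt u (u.2 * z 0) 0 = z 0
          rw [hp0]
          field_simp
        · show pt u (u.2 * z 0) 1 = z 1
          rw [hp1]
          rw [div_eq_iff h1.ne']
          linarith
      refine ⟨u.2 * z 0, ⟨⟨by positivity, ?_⟩, ?_⟩, ?_⟩
      · have : 0 < u.1 * z 1 := by positivity
        linarith
      · rw [e]; exact hz2
      · rw [← hpt, e]
    · rintro ⟨s, ⟨hs, hsS⟩, rfl⟩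
      rw [← hpt]
      refine ⟨?_, hsS⟩
      show u.1 * pt u s 1 + u.2 * pt u s 0 = 1
      rw [hp0, hp1]
      field_simp
      ring
  rw [himg, hausdorffMeasure_lineMap_image, hausdorffMeasure_real]
  have hdist : dist x y = La u / (u.1 * u.2) := by
    rw [EuclideanSpace.dist_eq, Fin.sum_univ_two, hx0, hx1, hy0, hy1, Real.dist_eq, Real.dist_eq, sq_abs, sq_abs]
    unfold La
    have e : (0 - 1 / u.2) ^ 2 + (1 / u.1 - 0) ^ 2 = (u.1 ^ 2 + u.2 ^ 2) / (u.1 * u.2) ^ 2 := by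
      field_simp
      ring
    rw [e, Real.sqrt_div (by positivity), Real.sqrt_sq (by positivity)]
  have hnn : ENNReal.ofReal (La u / (u.1 * u.2)) = ((nndist x y : NNReal) : ENNReal) := by
    rw [← hdist, ← edist_dist, edist_nndist]
  rw [hnn]
  rfl

end Pool.Agent.H63.CR
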