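import Pool.Agent.H63.CR.CHI
import Pool.Agent.H63.CR.ADM

/-!
# H63/CR/CHV: the parameter set of a chart line (about 70 min)

Write `Z i n = zet (amp n) (omq Q n) (Rn n) u.1 (prj (mh i n) u)`, `0 ≤ Z i n ≤ 2 * amp n / omq Q n ≤ (1/2)^n / 400`
(`zet_spec`, `zet_le`, `hQ0`, `amp ≤ 1`, `adm`). `chv_set`: for `s ∈ Ioo 0 1`, `pt u s ∈ Ec Q` iff `s > sp u 1` (`x 1 < x 0`)
or `s < sp u 5` (`5 * x 0 < x 1`) or `s` is in the interval `Ioo (sp u (mh i n + Z i n)) (sp u (mh i n))` for some `i, n`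
(`chi_gt`, `chi_lt`, `chi_wall`).
`chv_disj`: the height intervals `(mh i n, mh i n + Z i n)` are pairwise disjoint:
`mh i (n+1) + Z i (n+1) ≤ 2 + i + (1/2)^n * (1/400 + 1/800) < mh i n`, they decrease with `n`, and those of `i = 0` are in
`(2, 2.01)`, those of `i = 1` in `(3, 3.01)` (`chv_heights`). `sp u` is strictly decreasing.
`chv`: the measure of the disjoint union is the sum of the lengths; times `La u / (u.1 * u.2)` the
lengths become (`chi_len`) `seg u 0 1 = La / (u.2 (u.1 + u.2))` (here `sp u 0 = 1`),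
`La / (u.1 u.2) * sp u 5 = La / (u.1 (u.2 + 5 u.1))`, and `vv Q i n u`. Summable:
`0 ≤ vv Q i n u = La * Z / (X * (X + u.1 * Z)) ≤ La / u.2 ^ 2 * (1/2)^n`. `ff Q u` is the sum by definition (`ENNReal.ofReal_tsum_of_nonneg`).
-/

open MeasureTheory Set Filter
open scoped Topology ENNReal

namespace Pool.Agent.H63.CR

variable {u : ℝ × ℝ} {Q : ℕ → ℕ}

private lemma chv_X (h1 : 0 < u.1) (h2 : 0 < u.2) (i : Fin 2) (n : ℕ) :
    2 * u.1 ≤ prj (mh i n) u := by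
  unfold prj mh
  have h3 : (0 : ℝ) ≤ (i : ℕ) := Nat.cast_nonneg _
  have h4 : (0 : ℝ) ≤ (1 / 2) ^ n / 200 := by positivity
  nlinarith

private lemma chv_zle (hQ : ∀ n, 1 ≤ Q n) (hQ0 : ∀ n, 800 * 2 ^ n ≤ omq Q n) (h1 : 0 < u.1)
    (h2 : 0 < u.2) (i : Fin 2) (n : ℕ) :
    zet (amp n) (omq Q n) (Rn n) u.1 (prj (mh i n) u) ≤ (1 / 2) ^ n / 400 := by
  refine (zet_le (adm hQ i n) h1.le (chv_X h1 h2 i n)).trans ?_
  have h3 := amp_le_one n
  have h4 := hQ0 n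
  have h5 : (0 : ℝ) < 2 ^ n := by positivity
  have h6 : (0 : ℝ) < omq Q n := lt_of_lt_of_le (by positivity) h4
  rw [div_le_div_iff₀ h6 (by norm_num)]
  have h7 : ((1 : ℝ) / 2) ^ n * 2 ^ n = 1 := by
    rw [← mul_pow]
    norm_num
  have h8 : (0 : ℝ) < (1 / 2) ^ n := by positivity
  nlinarith [mul_le_mul_of_nonneg_left h4 h8.le]

private lemma chv_znn (hQ : ∀ n, 1 ≤ Q n) (h1 : 0 < u.1) (h2 : 0 < u.2) (i : Fin 2) (n : ℕ) :
    0 ≤ zet (amp n) (omq Q n) (Rn n) u.1 (prj (mh i n) u) :=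
  (zet_spec (adm hQ i n) h1.le (chv_X h1 h2 i n)).1

theorem chv_heights (hQ : ∀ n, 1 ≤ Q n) (hQ0 : ∀ n, 800 * 2 ^ n ≤ omq Q n) (h1 : 0 < u.1)
    (h2 : 0 < u.2) (i : Fin 2) (n : ℕ) :
    2 + (i : ℕ) < mh i n ∧ 0 ≤ zet (amp n) (omq Q n) (Rn n) u.1 (prj (mh i n) u) ∧
      mh i n + zet (amp n) (omq Q n) (Rn n) u.1 (prj (mh i n) u) ≤ 2 + (i : ℕ) + 1 / 100 ∧
      mh i (n + 1) + zet (amp (n + 1)) (omq Q (n + 1)) (Rn (n + 1)) u.1 (prj (mh i (n + 1)) u) <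
        mh i n := by
  have hp : (0 : ℝ) < (1 / 2) ^ n := by positivity
  have hp1 : ((1 : ℝ) / 2) ^ n ≤ 1 := pow_le_one₀ (by norm_num) (by norm_num)
  have e0 : mh i n = 2 + (i : ℕ) + (1 / 2) ^ n / 200 := rfl
  have e1 : mh i (n + 1) = 2 + (i : ℕ) + (1 / 2) ^ n / 400 := by
    unfold mh
    rw [pow_succ]
    ring
  have z0 := chv_zle hQ hQ0 h1 h2 i n
  have z1 := chv_zle hQ hQ0 h1 h2 i (n + 1)
  have z2 : ((1 : ℝ) / 2) ^ (n + 1) / 400 = (1 / 2) ^ n / 800 := by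
    rw [pow_succ]
    ring
  rw [z2] at z1
  refine ⟨?_, chv_znn hQ h1 h2 i n, ?_, ?_⟩
  · rw [e0]
    linarith
  · rw [e0] at z0 ⊢
    linarith
  · rw [e1] at z1 ⊢
    rw [e0]
    linarith

theorem chv_set (hQ : ∀ n, 1 ≤ Q n) (h1 : 0 < u.1) (h2 : 0 < u.2) {s : ℝ}
    (hs : s ∈ Ioo (0 : ℝ) 1) :
    pt u s ∈ Ec Q ↔ s ∈ Ioo (sp u 1) 1 ∨ s ∈ Ioo 0 (sp u 5) ∨ ∃ i : Fin 2, ∃ n : ℕ,
      s ∈ Ioo (sp u (mh i n + zet (amp n) (omq Q n) (Rn n) u.1 (prj (mh i n) u)))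
        (sp u (mh i n)) := by
  have e0 : (pt u s) 0 = s / u.2 := rfl
  have e1 : (pt u s) 1 = (1 - s) / u.1 := rfl
  have p0 : 0 < (pt u s) 0 := by
    rw [e0]
    exact div_pos hs.1 h2
  have p1 : 0 < (pt u s) 1 := by
    rw [e1]
    exact div_pos (by linarith [hs.2]) h1
  have a1 := chi_gt (u := u) h1 h2 (h := 1) (s := s) (by norm_num)
  rw [one_mul] at a1
  have a5 := chi_lt (u := u) h1 h2 (h := 5) (s := s) (by norm_num)
  constructor
  · rintro ⟨_, _, h | h | ⟨i, n, h, h'⟩⟩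
    · exact Or.inl ⟨a1.1 h, hs.2⟩
    · exact Or.inr (Or.inl ⟨hs.1, a5.1 h⟩)
    · exact Or.inr (Or.inr ⟨i, n, (chi_wall h1 h2 (adm hQ i n) hs).1 ⟨h, h'⟩⟩)
  · rintro (h | h | ⟨i, n, h⟩)
    · exact ⟨p0, p1, Or.inl (a1.2 h.1)⟩
    · exact ⟨p0, p1, Or.inr (Or.inl (a5.2 h.2))⟩
    · exact ⟨p0, p1, Or.inr (Or.inr ⟨i, n, (chi_wall h1 h2 (adm hQ i n) hs).2 h⟩)⟩

private lemma chv_sp0 (h2 : 0 < u.2) : sp u 0 = 1 := by
  unfold sp prj
  rw [mul_zero, add_zero, div_self h2.ne']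

private lemma chv_anti' (h1 : 0 < u.1) (h2 : 0 < u.2) {h h' : ℝ} (hh : 0 ≤ h) (hle : h ≤ h') :
    sp u h' ≤ sp u h := by
  rcases hle.lt_or_eq with h3 | h3
  · exact (sp_anti h1 h2 hh h3).le
  · rw [h3]

/-- the lower end of the height intervals decreases -/
private lemma chv_mono (hQ : ∀ n, 1 ≤ Q n) (hQ0 : ∀ n, 800 * 2 ^ n ≤ omq Q n) (h1 : 0 < u.1)
    (h2 : 0 < u.2) (i : Fin 2) {n n' : ℕ} (hn : n < n') :
    mh i n' + zet (amp n') (omq Q n') (Rn n') u.1 (prj (mh i n') u) < mh i n := by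
  obtain ⟨m, rfl⟩ : ∃ m, n' = m + 1 := ⟨n' - 1, by omega⟩
  have h3 := (chv_heights hQ hQ0 h1 h2 i m).2.2.2
  have h4 : mh i m ≤ mh i n := by
    unfold mh
    have : ((1 : ℝ) / 2) ^ m ≤ (1 / 2) ^ n :=
      pow_le_pow_of_le_one (by norm_num) (by norm_num) (by omega)
    linarith
  linarith

private lemma chv_fin2 (i : Fin 2) : ((i : ℕ) : ℝ) = 0 ∨ ((i : ℕ) : ℝ) = 1 := by
  have h := i.isLt
  have h2 : (i : ℕ) = 0 ∨ (i : ℕ) = 1 := by omega
  rcases h2 with h2 | h2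
  · left
    rw [h2]
    norm_num
  · right
    rw [h2]
    norm_num

/-- disjoint parameter intervals from disjoint height intervals -/
private lemma chv_disj (h1 : 0 < u.1) (h2 : 0 < u.2) {a b a' b' : ℝ} (ha : 0 ≤ a) (hab : a ≤ b)
    (hb : b ≤ a') :
    Disjoint (Ioo (sp u b) (sp u a)) (Ioo (sp u b') (sp u a')) := by
  rw [Set.disjoint_left]
  intro x hx hx'
  have := chv_anti' h1 h2 (ha.trans hab) hb
  have h3 := hx.1
  have h4 := hx'.2
  linarith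

private lemma chv_vv (u : ℝ × ℝ) (i : Fin 2) (n : ℕ) (h1 : 0 < u.1) (h2 : 0 < u.2)
    (hQ : ∀ n, 1 ≤ Q n) :
    La u / (u.1 * u.2) * (sp u (mh i n) -
      sp u (mh i n + zet (amp n) (omq Q n) (Rn n) u.1 (prj (mh i n) u))) = vv Q i n u := by
  have hm : (0 : ℝ) ≤ mh i n := by
    have := (adm hQ i n).m2
    linarith
  rw [chi_len h1 h2 hm (add_nonneg hm (chv_znn hQ h1 h2 i n))]
  rfl

private lemma chv_vv_nonneg (h1 : 0 < u.1) (h2 : 0 < u.2) (hQ : ∀ n, 1 ≤ Q n) (i : Fin 2) (n : ℕ) :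
    0 ≤ vv Q i n u := by
  rw [← chv_vv u i n h1 h2 hQ]
  have hm : (0 : ℝ) ≤ mh i n := by
    have := (adm hQ i n).m2
    linarith
  have h3 := chv_anti' h1 h2 hm
    (le_add_of_nonneg_right (chv_znn hQ h1 h2 i n) : mh i n ≤ _)
  have h4 : 0 ≤ La u := Real.sqrt_nonneg _
  apply mul_nonneg (by positivity)
  linarith

private lemma chv_vv_le (h1 : 0 < u.1) (h2 : 0 < u.2) (hQ : ∀ n, 1 ≤ Q n)
    (hQ0 : ∀ n, 800 * 2 ^ n ≤ omq Q n) (i : Fin 2) (n : ℕ) :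
    vv Q i n u ≤ La u / u.2 ^ 2 * (1 / 2) ^ n := by
  have hz := chv_zle hQ hQ0 h1 h2 i n
  have hz0 := chv_znn hQ h1 h2 i n
  have hm : (0 : ℝ) ≤ mh i n := by
    have := (adm hQ i n).m2
    linarith
  have e : vv Q i n u = La u * (mh i n + zet (amp n) (omq Q n) (Rn n) u.1 (prj (mh i n) u) - mh i n)
      / (prj (mh i n) u * prj (mh i n + zet (amp n) (omq Q n) (Rn n) u.1 (prj (mh i n) u)) u) := rfl
  rw [e, add_sub_cancel_left]
  set Z := zet (amp n) (omq Q n) (Rn n) u.1 (prj (mh i n) u)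
  have h4 : 0 ≤ La u := Real.sqrt_nonneg _
  have h5 : u.2 ≤ prj (mh i n) u := by
    unfold prj
    nlinarith [mul_nonneg h1.le hm]
  have h6 : u.2 ≤ prj (mh i n + Z) u := by
    unfold prj
    nlinarith [mul_nonneg h1.le (add_nonneg hm hz0)]
  have h7 : u.2 ^ 2 ≤ prj (mh i n) u * prj (mh i n + Z) u := by
    rw [sq]
    exact mul_le_mul h5 h6 h2.le (h2.le.trans h5)
  have h8 : 0 < u.2 ^ 2 := by positivity
  have h9 : (0 : ℝ) < (1 / 2) ^ n := by positivity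
  calc La u * Z / (prj (mh i n) u * prj (mh i n + Z) u) ≤ La u * Z / u.2 ^ 2 :=
        div_le_div_of_nonneg_left (mul_nonneg h4 hz0) h8 h7
    _ = La u / u.2 ^ 2 * Z := by ring
    _ ≤ La u / u.2 ^ 2 * (1 / 2) ^ n := by
        apply mul_le_mul_of_nonneg_left _ (by positivity)
        linarith

private lemma chv_summable (h1 : 0 < u.1) (h2 : 0 < u.2) (hQ : ∀ n, 1 ≤ Q n)
    (hQ0 : ∀ n, 800 * 2 ^ n ≤ omq Q n) (i : Fin 2) : Summable fun n => vv Q i n u := by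
  apply Summable.of_nonneg_of_le (fun n => chv_vv_nonneg h1 h2 hQ i n)
    (fun n => chv_vv_le h1 h2 hQ hQ0 i n)
  exact (summable_geometric_of_lt_one (by norm_num) (by norm_num)).mul_left _

theorem chv (hQ : ∀ n, 1 ≤ Q n) (hQ0 : ∀ n, 800 * 2 ^ n ≤ omq Q n) (h1 : 0 < u.1)
    (h2 : 0 < u.2) :
    ENNReal.ofReal (La u / (u.1 * u.2)) * volume {s : ℝ | s ∈ Ioo (0 : ℝ) 1 ∧ pt u s ∈ Ec Q} =
      ENNReal.ofReal (ff Q u) := by
  have hLa : 0 ≤ La u := Real.sqrt_nonneg _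
  set c := La u / (u.1 * u.2) with hc
  have hc0 : 0 ≤ c := by positivity
  let Z : Fin 2 → ℕ → ℝ := fun i n => zet (amp n) (omq Q n) (Rn n) u.1 (prj (mh i n) u)
  let W : Fin 2 → ℕ → Set ℝ := fun i n => Ioo (sp u (mh i n + Z i n)) (sp u (mh i n))
  have hm : ∀ i n, (0 : ℝ) < mh i n := by
    intro i n
    have := (adm hQ i n).m2
    linarith
  have hZ : ∀ i n, 0 ≤ Z i n := fun i n => chv_znn hQ h1 h2 i n
  have hsp1 := sp_mem h1 h2 (h := 1) one_pos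
  have hsp5 := sp_mem h1 h2 (h := 5) (by norm_num)
  have hset : {s : ℝ | s ∈ Ioo (0 : ℝ) 1 ∧ pt u s ∈ Ec Q}
      = (Ioo (sp u 1) (sp u 0) ∪ Ioo 0 (sp u 5)) ∪ ((⋃ n, W 0 n) ∪ ⋃ n, W 1 n) := by
    ext s
    rw [chv_sp0 h2]
    constructor
    · rintro ⟨hs, hs'⟩
      rcases (chv_set hQ h1 h2 hs).1 hs' with h | h | ⟨i, n, h⟩
      · exact Or.inl (Or.inl h)
      · exact Or.inl (Or.inr h)
      · right
        have hi : i = 0 ∨ i = 1 := by
          fin_cases i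
          · left; rfl
          · right; rfl
        rcases hi with hi | hi
        · subst hi
          exact Or.inl (mem_iUnion.2 ⟨n, h⟩)
        · subst hi
          exact Or.inr (mem_iUnion.2 ⟨n, h⟩)
    · intro h
      have hs : s ∈ Ioo (0 : ℝ) 1 := by
        have hW : ∀ i n, W i n ⊆ Ioo (0 : ℝ) 1 := by
          intro i n x hx
          have h3 := sp_mem h1 h2 (hm i n)
          have h4 := sp_mem h1 h2 (h := mh i n + Z i n) (by have := hm i n; have := hZ i n; linarith)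
          exact ⟨h4.1.trans hx.1, hx.2.trans h3.2⟩
        rcases h with (h | h) | (h | h)
        · exact ⟨hsp1.1.trans h.1, h.2⟩
        · exact ⟨h.1, h.2.trans hsp5.2⟩
        · obtain ⟨n, hn⟩ := mem_iUnion.1 h
          exact hW 0 n hn
        · obtain ⟨n, hn⟩ := mem_iUnion.1 h
          exact hW 1 n hn
      refine ⟨hs, (chv_set hQ h1 h2 hs).2 ?_⟩
      rcases h with (h | h) | (h | h)
      · exact Or.inl h
      · exact Or.inr (Or.inl h)
      · obtain ⟨n, hn⟩ := mem_iUnion.1 h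
        exact Or.inr (Or.inr ⟨0, n, hn⟩)
      · obtain ⟨n, hn⟩ := mem_iUnion.1 h
        exact Or.inr (Or.inr ⟨1, n, hn⟩)
  -- measurability
  have mW : ∀ i, MeasurableSet (⋃ n, W i n) := fun i =>
    MeasurableSet.iUnion fun n => measurableSet_Ioo
  -- bounds of the walls
  have hlow : ∀ i n, (1 : ℝ) ≤ mh i n := by
    intro i n
    have := (adm hQ i n).m2
    linarith
  have hhigh : ∀ i n, mh i n + Z i n ≤ 5 := by
    intro i n
    have h3 := (chv_heights hQ hQ0 h1 h2 i n).2.2.1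
    rcases chv_fin2 i with h4 | h4
    · rw [h4] at h3
      have : mh i n + Z i n ≤ 2 + 0 + 1 / 100 := h3
      linarith
    · rw [h4] at h3
      have : mh i n + Z i n ≤ 2 + 1 + 1 / 100 := h3
      linarith
  have dA : Disjoint (Ioo (sp u 1) (sp u 0)) (Ioo 0 (sp u 5)) := by
    rw [Set.disjoint_left]
    intro x hx hx'
    have h3 := sp_anti h1 h2 (h := 1) (h' := 5) (by norm_num) (by norm_num)
    have h4 := hx.1
    have h5 := hx'.2
    linarith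
  have dW : ∀ i, Pairwise (Function.onFun Disjoint (W i)) := by
    intro i n n' hnn
    show Disjoint (W i n) (W i n')
    rcases lt_or_gt_of_ne hnn with h | h
    · exact (chv_disj h1 h2 (hm i n').le (le_add_of_nonneg_right (hZ i n'))
        (chv_mono hQ hQ0 h1 h2 i h).le).symm
    · exact chv_disj h1 h2 (hm i n).le (le_add_of_nonneg_right (hZ i n))
        (chv_mono hQ hQ0 h1 h2 i h).le
  have dWW : Disjoint (⋃ n, W 0 n) (⋃ n, W 1 n) := by
    rw [Set.disjoint_iUnion_left]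
    intro n
    rw [Set.disjoint_iUnion_right]
    intro n'
    apply chv_disj h1 h2 (hm 0 n).le (le_add_of_nonneg_right (hZ 0 n))
    have h3 : mh 0 n + Z 0 n ≤ 2 + ((0 : Fin 2) : ℕ) + 1 / 100 := (chv_heights hQ hQ0 h1 h2 0 n).2.2.1
    have h4 : (2 : ℝ) + ((1 : Fin 2) : ℕ) < mh 1 n' := (chv_heights hQ hQ0 h1 h2 1 n').1
    simp only [Fin.val_zero, Fin.val_one, Nat.cast_zero, Nat.cast_one] at h3 h4
    linarith
  have dAW : ∀ i, Disjoint (Ioo (sp u 1) (sp u 0) ∪ Ioo 0 (sp u 5)) (⋃ n, W i n) := by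
    intro i
    rw [Set.disjoint_iUnion_right]
    intro n
    rw [Set.disjoint_union_left]
    constructor
    · exact chv_disj h1 h2 le_rfl zero_le_one (hlow i n)
    · rw [Set.disjoint_left]
      intro x hx hx'
      have h3 := chv_anti' h1 h2 (h := mh i n + Z i n) (h' := 5)
        (by have := hm i n; have := hZ i n; linarith) (hhigh i n)
      have h4 := hx.2
      have h5 := hx'.1
      linarith
  have hvol : volume {s : ℝ | s ∈ Ioo (0 : ℝ) 1 ∧ pt u s ∈ Ec Q}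
      = (ENNReal.ofReal (sp u 0 - sp u 1) + ENNReal.ofReal (sp u 5)) +
        ((∑' n, ENNReal.ofReal (sp u (mh 0 n) - sp u (mh 0 n + Z 0 n))) +
          ∑' n, ENNReal.ofReal (sp u (mh 1 n) - sp u (mh 1 n + Z 1 n))) := by
    rw [hset, measure_union (Set.disjoint_union_right.2 ⟨dAW 0, dAW 1⟩) ((mW 0).union (mW 1)),
      measure_union dA measurableSet_Ioo, measure_union dWW (mW 1),
      measure_iUnion (dW 0) (fun n => measurableSet_Ioo),
      measure_iUnion (dW 1) (fun n => measurableSet_Ioo)]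
    simp only [W, Real.volume_Ioo, sub_zero]
  have hlen : ∀ i n, ENNReal.ofReal c * ENNReal.ofReal (sp u (mh i n) - sp u (mh i n + Z i n))
      = ENNReal.ofReal (vv Q i n u) := by
    intro i n
    rw [← ENNReal.ofReal_mul hc0, ← chv_vv u i n h1 h2 hQ]
  have hb1 : c * (sp u 0 - sp u 1) = La u / (u.2 * (u.1 + u.2)) := by
    rw [hc, chi_len h1 h2 le_rfl zero_le_one]
    unfold seg prj
    rw [mul_zero, add_zero, mul_one, sub_zero, mul_one, add_comm u.2 u.1]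
  have hb2 : c * sp u 5 = La u / (u.1 * (u.2 + 5 * u.1)) := by
    rw [hc]
    unfold sp prj
    have h3 : (0 : ℝ) < u.2 + u.1 * 5 := by positivity
    have h4 : (0 : ℝ) < u.2 + 5 * u.1 := by positivity
    rw [mul_comm u.1 5]
    field_simp
  have hs0 := chv_summable h1 h2 hQ hQ0 0
  have hs1 := chv_summable h1 h2 hQ hQ0 1
  have hff : ff Q u = (La u / (u.2 * (u.1 + u.2)) + La u / (u.1 * (u.2 + 5 * u.1))) +
      ((∑' n, vv Q 0 n u) + ∑' n, vv Q 1 n u) := by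
    unfold ff bas
    rw [hs0.tsum_add hs1]
  have n1 : 0 ≤ La u / (u.2 * (u.1 + u.2)) := by positivity
  have n2 : 0 ≤ La u / (u.1 * (u.2 + 5 * u.1)) := by positivity
  have n3 : 0 ≤ ∑' n, vv Q 0 n u := tsum_nonneg fun n => chv_vv_nonneg h1 h2 hQ 0 n
  have n4 : 0 ≤ ∑' n, vv Q 1 n u := tsum_nonneg fun n => chv_vv_nonneg h1 h2 hQ 1 n
  rw [hvol, mul_add, mul_add, mul_add, ← ENNReal.tsum_mul_left, ← ENNReal.tsum_mul_left]
  simp only [hlen]
  rw [← ENNReal.ofReal_mul hc0, ← ENNReal.ofReal_mul hc0, hb1, hb2,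
    ← ENNReal.ofReal_tsum_of_nonneg (fun n => chv_vv_nonneg h1 h2 hQ 0 n) hs0,
    ← ENNReal.ofReal_tsum_of_nonneg (fun n => chv_vv_nonneg h1 h2 hQ 1 n) hs1,
    ← ENNReal.ofReal_add n1 n2, ← ENNReal.ofReal_add n3 n4,
    ← ENNReal.ofReal_add (add_nonneg n1 n2) (add_nonneg n3 n4), hff]

theorem chv_ge (hQ : ∀ n, 1 ≤ Q n) (hQ0 : ∀ n, 800 * 2 ^ n ≤ omq Q n) (h1 : 0 < u.1)
    (h2 : 0 < u.2) : 0 < bas u ∧ bas u ≤ ff Q u := by
  have hLa : 0 < La u := Real.sqrt_pos.2 (by positivity)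
  constructor
  · unfold bas
    positivity
  · unfold ff
    have : 0 ≤ ∑' j, (vv Q 0 j u + vv Q 1 j u) :=
      tsum_nonneg fun n => add_nonneg (chv_vv_nonneg h1 h2 hQ 0 n) (chv_vv_nonneg h1 h2 hQ 1 n)
    linarith

end Pool.Agent.H63.CR
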