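import Pool.Agent.H63.CR.CHM
import Pool.Agent.H63.CR.CHV

/-!
# H63/CR/CHT: the length of the section of `E0` by a chart line (about 30 min)

`cht_set`: let `x` be on the line, `u.1 * x 1 + u.2 * x 0 = 1` with both coefficients `> 400`, and with positive
coordinates (true if `x ∈ Sq` or `x ∈ Ec Q`). Then `400 * (x 0 + x 1) < 1`, so `x ∈ Tri` and
`x ∈ Sq`, and `refl s x` is not in `Tri` for `s ≠ (false, false)` (one coordinate of `refl s x` is `> 1 / 2`).
So `x ∈ E0 Q` iff `x = refl (false, false) x ∈ Ec Q`.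
`cht`: `chm` with `S = Ec Q` and `chv`.
-/

open MeasureTheory Set Filter
open scoped Topology ENNReal

namespace Pool.Agent.H63.CR

variable {u : ℝ × ℝ} {Q : ℕ → ℕ}

theorem cht_set (h1 : 400 < u.1) (h2 : 400 < u.2) :
    chartLine u ∩ E0 Q = chartLine u ∩ Ec Q := by
  have key : ∀ x : Plane, x ∈ chartLine u → 0 < x 0 → 0 < x 1 →
      400 * (x 0 + x 1) < 1 := by
    intro x hx hx0 hx1
    have hx' : u.1 * x 1 + u.2 * x 0 = 1 := hx
    nlinarith
  have hff : ∀ x : Plane, refl (false, false) x = x := by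
    intro x
    ext i
    fin_cases i <;> simp [refl]
  ext x
  constructor
  · rintro ⟨hx, hS, hE⟩
    have h400 := key x hx hS.1 hS.2.2.1
    refine ⟨hx, ?_⟩
    have h3 := hE (false, false)
    rw [hff] at h3
    exact h3 ⟨hS.1, hS.2.2.1, by linarith⟩
  · rintro ⟨hx, hE⟩
    have hx0 : 0 < x 0 := hE.1
    have hx1 : 0 < x 1 := hE.2.1
    have h400 := key x hx hx0 hx1
    refine ⟨hx, ⟨hx0, by linarith, hx1, by linarith⟩, ?_⟩
    rintro ⟨s1, s2⟩ hT
    have hT0 : 0 < (refl (s1, s2) x) 0 := hT.1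
    have hT1 : 0 < (refl (s1, s2) x) 1 := hT.2.1
    have hT2 : (refl (s1, s2) x) 0 + (refl (s1, s2) x) 1 < 1 / 200 := hT.2.2
    have hr0 : (refl (s1, s2) x) 0 = if s1 then 1 - x 0 else x 0 := by simp [refl]
    have hr1 : (refl (s1, s2) x) 1 = if s2 then 1 - x 1 else x 1 := by simp [refl]
    rw [hr0, hr1] at hT2
    cases s1 <;> cases s2
    · rw [hff]; exact hE
    · exfalso
      simp only [if_true, Bool.false_eq_true, if_false] at hT2
      linarith
    · exfalso
      simp only [if_true, Bool.false_eq_true, if_false] at hT2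
      linarith
    · exfalso
      simp only [if_true] at hT2
      linarith

theorem cht (hQ : ∀ n, 1 ≤ Q n) (hQ0 : ∀ n, 800 * 2 ^ n ≤ omq Q n) (h1 : 400 < u.1)
    (h2 : 400 < u.2) : μH[1] (chartLine u ∩ E0 Q) = ENNReal.ofReal (ff Q u) := by
  rw [cht_set h1 h2, chm (by linarith) (by linarith) (Ec Q) (fun x hx => ⟨hx.1, hx.2.1⟩)]
  exact chv hQ hQ0 (by linarith) (by linarith)

end Pool.Agent.H63.CR
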