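import Pool.Agent.H63.CR.GDefs

/-!
# H63/CR/CNE: the three quadratic forms are positive on the cones (algebra, about 60 min)

Write `x0 = (3 * G.2 - G.1) / k0`, `x1 = (G.1 - 2 * G.2) / k1`, so `G = (k0 * x0) • (2, 1) + (k1 * x1) • (3, 1)`
and `dre h G = G.1 - h * G.2 = (2 - h) * k0 * x0 + (3 - h) * k1 * x1`. `cne_form` is field arithmetic.
Put `x = k0 * x0`, `y = k1 * x1`, `rho = k0 / k1 ∈ [1, 9/4]`.
* Cone 0: `0.04 x + 1.04 y ≥ 0` and `-0.51 x + 0.49 y ≤ 0`. So `x ≥ 0` and `-x / 26 ≤ y ≤ 51 x / 49`,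
  hence `-0.087 x0 ≤ x1 ≤ 2.35 x0`. There `55 x0^2 + 384 x0 x1 - 57 x1^2 ≥ 20 x0^2` (the left side minus
  the right side is `-57 (x1 + 0.087 x0) (x1 - 2.35 x0)` plus `(384 - 57 * 2.263) x0 x1` plus
  `(35 - 57 * 0.087 * 2.35) x0^2`, and `x1 ≥ -0.087 x0`), and `x0^2 + x1^2 ≤ 7 x0^2`.
* Cone 1: `-0.49 x + 0.51 y ≥ 0` and `-1.04 x - 0.04 y ≤ 0`. So `y ≥ 0` and `-y / 26 ≤ x ≤ 51 y / 49`,
  hence `-0.0385 x1 ≤ x0 ≤ 1.041 x1`, and `-57 x0^2 + 384 x0 x1 + 55 x1^2 ≥ 20 x1^2`.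
* Cone 2: `0.02 x + 1.02 y ≥ 0` and `-1.02 x - 0.02 y ≥ 0`. So `x ≤ 0 ≤ y`, `-x ≤ 51 y`, `y ≤ -51 x`; with
  `q = -x0 ≥ 0`, `r = x1 ≥ 0`: `q ≤ 51 r` and `r ≤ 114.75 q`, and
  `500 q r - q^2 - r^2 ≥ (500 - 51 - 114.75) q r ≥ (q^2 + r^2)` (because `q^2 ≤ 51 q r`,
  `r^2 ≤ 114.75 q r`).
Finally `sqn G ≤ M * (x0^2 + x1^2)` with `M` depending on `k0, k1`.
`cne_ratio`: `kap 2 u / kap 3 u = (prj 3 u / prj 2 u) ^ 2` and `1 < prj 3 u / prj 2 u < 3 / 2`.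
-/

open MeasureTheory Set Filter
open scoped Topology ENNReal

namespace Pool.Agent.H63.CR

theorem cne_form (P Q S k0 k1 x0 x1 : ℝ) (h0 : 0 < k0) (h1 : 0 < k1) :
    qf (wco P Q S k0 k1) ((k0 * x0) • ((2, 1) : ℝ × ℝ) + (k1 * x1) • ((3, 1) : ℝ × ℝ)) =
      P * x0 ^ 2 + Q * x0 * x1 + S * x1 ^ 2 := by
  unfold qf wco
  simp only [Prod.smul_mk, Prod.mk_add_mk, smul_eq_mul]
  field_simp
  ring

theorem cne_ratio {u : ℝ × ℝ} (h1 : 0 < u.1) (h2 : 0 < u.2) :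
    0 < kap 3 u ∧ kap 3 u ≤ kap 2 u ∧ kap 2 u ≤ 9 / 4 * kap 3 u := by
  have hL : 0 < La u := Real.sqrt_pos.2 (by positivity)
  have hp2 : 0 < prj 2 u := by unfold prj; positivity
  have hp3 : 0 < prj 3 u := by unfold prj; positivity
  have h23 : prj 2 u ≤ prj 3 u := by unfold prj; linarith
  have h32 : prj 3 u ≤ 3 / 2 * prj 2 u := by unfold prj; linarith
  unfold kap
  refine ⟨by positivity, ?_, ?_⟩
  · exact div_le_div_of_nonneg_left hL.le (by positivity) (pow_le_pow_left₀ hp2.le h23 2)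
  · rw [← mul_div_assoc, div_le_div_iff₀ (by positivity) (by positivity)]
    have h3 : prj 3 u ^ 2 ≤ 9 / 4 * prj 2 u ^ 2 := by nlinarith
    nlinarith [mul_le_mul_of_nonneg_left h3 hL.le]

private theorem cne_c0 (r a b : ℝ) (h1 : 1 ≤ r) (h2 : r ≤ 9 / 4)
    (e1 : 0 ≤ 4 * r * a + 104 * b) (e2 : -(51 * r * a) + 49 * b ≤ 0) :
    a ^ 2 + b ^ 2 ≤ 55 * a ^ 2 + 384 * a * b + -57 * b ^ 2 := by
  have hra : 0 ≤ r * a := by linarith
  have ha : 0 ≤ a := nonneg_of_mul_nonneg_right hra (by linarith)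
  have s1 : 0 ≤ b + 87 / 1000 * a := by nlinarith
  have s2 : 0 ≤ 235 / 100 * a - b := by nlinarith
  nlinarith [mul_nonneg s1 s2, mul_nonneg ha s1, mul_nonneg ha ha, mul_nonneg ha s2]

private theorem cne_c1 (r a b : ℝ) (h1 : 1 ≤ r) (h2 : r ≤ 9 / 4)
    (e1 : 0 ≤ -(49 * r * a) + 51 * b) (e2 : -(104 * r * a) - 4 * b ≤ 0) :
    a ^ 2 + b ^ 2 ≤ -57 * a ^ 2 + 384 * a * b + 55 * b ^ 2 := by
  have hb : 0 ≤ b := by linarith
  have s1 : 0 ≤ a + 1 / 26 * b := by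
    have : 0 ≤ r * (a + 1 / 26 * b) := by nlinarith
    exact nonneg_of_mul_nonneg_right this (by linarith)
  have s2 : 0 ≤ 51 / 49 * b - a := by
    have : 0 ≤ r * (51 / 49 * b - a) := by nlinarith
    exact nonneg_of_mul_nonneg_right this (by linarith)
  nlinarith [mul_nonneg s1 s2, mul_nonneg hb s1, mul_nonneg hb hb, mul_nonneg hb s2]

private theorem cne_c2 (r a b : ℝ) (h1 : 1 ≤ r) (h2 : r ≤ 9 / 4)
    (e1 : 0 ≤ 2 * r * a + 102 * b) (e2 : 0 ≤ -(102 * r * a) - 2 * b) :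
    a ^ 2 + b ^ 2 ≤ -1 * a ^ 2 + -500 * a * b + -1 * b ^ 2 := by
  have hb : 0 ≤ b := by linarith
  have hra : 0 ≤ r * (-a) := by linarith
  have ha : 0 ≤ -a := nonneg_of_mul_nonneg_right hra (by linarith)
  have s1 : 0 ≤ 51 * b + a := by nlinarith
  have s2 : 0 ≤ 459 / 4 * (-a) - b := by nlinarith
  nlinarith [mul_nonneg ha s1, mul_nonneg hb s2, mul_nonneg ha hb]

theorem cne_coer {u : ℝ × ℝ} (h1 : 0 < u.1) (h2 : 0 < u.2) :
    ∃ c : ℝ, 0 < c ∧ ∀ j : Fin 3, ∀ g ∈ cone j, c * sqn g ≤ qf (wj u j) g := by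
  obtain ⟨hk1, hk01, hk0⟩ := cne_ratio h1 h2
  obtain ⟨k0, e0⟩ : ∃ k0, k0 = kap 2 u := ⟨_, rfl⟩
  obtain ⟨k1, e1⟩ : ∃ k1, k1 = kap 3 u := ⟨_, rfl⟩
  rw [← e1] at hk1
  rw [← e0, ← e1] at hk01 hk0
  have hk0p : 0 < k0 := by linarith
  obtain ⟨r, hr⟩ : ∃ r, r = k0 / k1 := ⟨_, rfl⟩
  have hrk : k0 = r * k1 := by rw [hr]; field_simp
  have hr1 : 1 ≤ r := by rw [hr, le_div_iff₀ hk1]; linarith
  have hr2 : r ≤ 9 / 4 := by rw [hr, div_le_iff₀ hk1]; linarith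
  refine ⟨1 / (17 * k0 ^ 2), by positivity, fun j g hg => ?_⟩
  obtain ⟨a, ha⟩ : ∃ a, a = (3 * g.2 - g.1) / k0 := ⟨_, rfl⟩
  obtain ⟨b, hb⟩ : ∃ b, b = (g.1 - 2 * g.2) / k1 := ⟨_, rfl⟩
  have ha' : k0 * a = 3 * g.2 - g.1 := by rw [ha]; field_simp
  have hb' : k1 * b = g.1 - 2 * g.2 := by rw [hb]; field_simp
  have hg1 : g.1 = 2 * (k0 * a) + 3 * (k1 * b) := by linarith
  have hg2 : g.2 = k0 * a + k1 * b := by linarith
  have hgG : g = (k0 * a) • ((2, 1) : ℝ × ℝ) + (k1 * b) • ((3, 1) : ℝ × ℝ) := by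
    ext
    · simp only [Prod.smul_mk, Prod.mk_add_mk, smul_eq_mul]
      linarith
    · simp only [Prod.smul_mk, Prod.mk_add_mk, smul_eq_mul]
      linarith
  have hsq : 1 / (17 * k0 ^ 2) * sqn g ≤ a ^ 2 + b ^ 2 := by
    rw [one_div, inv_mul_le_iff₀ (by positivity)]
    unfold sqn
    rw [hg1, hg2]
    have h5 : (k1 * b) ^ 2 ≤ k0 ^ 2 * b ^ 2 := by
      rw [mul_pow]
      exact mul_le_mul_of_nonneg_right (pow_le_pow_left₀ hk1.le hk01 2) (sq_nonneg b)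
    nlinarith [sq_nonneg (k0 * a - k1 * b)]
  refine hsq.trans ?_
  have hcan : ∀ t : ℝ, 0 ≤ k1 * t → 0 ≤ t := fun t ht => nonneg_of_mul_nonneg_right ht hk1
  fin_cases j
  · obtain ⟨c1, c2⟩ := hg
    unfold dre at c1 c2
    have hw : qf (wj u 0) g = 55 * a ^ 2 + 384 * a * b + -57 * b ^ 2 := by
      unfold wj
      rw [← e0, ← e1]
      conv_lhs => rw [hgG]
      exact cne_form 55 384 (-57) k0 k1 a b hk0p hk1
    refine le_trans ?_ (le_of_eq hw.symm)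
    refine cne_c0 r a b hr1 hr2 (hcan _ ?_) ?_
    · rw [hg1, hg2, hrk] at c1
      nlinarith
    · have : 0 ≤ k1 * (51 * r * a - 49 * b) := by
        rw [hg1, hg2, hrk] at c2
        nlinarith
      have := hcan _ this
      linarith
  · obtain ⟨c1, c2⟩ := hg
    unfold dre at c1 c2
    have hw : qf (wj u 1) g = -57 * a ^ 2 + 384 * a * b + 55 * b ^ 2 := by
      unfold wj
      rw [← e0, ← e1]
      conv_lhs => rw [hgG]
      exact cne_form (-57) 384 55 k0 k1 a b hk0p hk1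
    refine le_trans ?_ (le_of_eq hw.symm)
    refine cne_c1 r a b hr1 hr2 (hcan _ ?_) ?_
    · rw [hg1, hg2, hrk] at c1
      nlinarith
    · have : 0 ≤ k1 * (104 * r * a + 4 * b) := by
        rw [hg1, hg2, hrk] at c2
        nlinarith
      have := hcan _ this
      linarith
  · obtain ⟨c1, c2⟩ := hg
    unfold dre at c1 c2
    have hw : qf (wj u 2) g = -1 * a ^ 2 + -500 * a * b + -1 * b ^ 2 := by
      unfold wj
      rw [← e0, ← e1]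
      conv_lhs => rw [hgG]
      exact cne_form (-1) (-500) (-1) k0 k1 a b hk0p hk1
    refine le_trans ?_ (le_of_eq hw.symm)
    refine cne_c2 r a b hr1 hr2 (hcan _ ?_) (hcan _ ?_)
    · rw [hg1, hg2, hrk] at c1
      nlinarith
    · rw [hg1, hg2, hrk] at c2
      nlinarith

end Pool.Agent.H63.CR
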