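import Mathlib

/-!
# H63/CR, definitions (MP_ec7c5f_an Q1, Croft): no sorry in this file

Overall paper proof: table proofs, helper63, MP_ec7c5f_an (id 303).
A line that cuts the corner 0 of the quadrant is `{al * Y + be * X = 1}`, written `u = (al, be)`
(`u.1 = al`, `u.2 = be`).  The point of this line of height `h = Y / X` has
`1 / X = be + al * h = prj h u`.
-/

open MeasureTheory Set Filter
open scoped Topology ENNReal

namespace Pool.Agent.H63.CR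

/-- amplitude `a_n` of stage `n`: `16 ^ (-m)` for `256 ^ m <= n < 256 ^ (m + 1)` -/
noncomputable def amp (n : ℕ) : ℝ := (1 / 16 : ℝ) ^ Nat.log 256 n

/-- threshold `r_m` of block `m` -/
noncomputable def thr (m : ℕ) : ℝ := (1 / 4 : ℝ) ^ m

/-- error `delta_n` -/
noncomputable def dlt (n : ℕ) : ℝ := (1 / 2 : ℝ) ^ n

/-- side of the dyadic squares of level `p` -/
noncomputable def side (p : ℕ) : ℝ := (1 / 2 : ℝ) ^ p

/-- closed dyadic square of level `p` and index `k` -/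
def csq (p : ℕ) (k : ℤ × ℤ) : Set (ℝ × ℝ) :=
  Icc ((k.1 : ℝ) * side p) (((k.1 : ℝ) + 1) * side p) ×ˢ
    Icc ((k.2 : ℝ) * side p) (((k.2 : ℝ) + 1) * side p)

/-- index of the half open dyadic square of level `p` that contains `u` -/
noncomputable def idx (p : ℕ) (u : ℝ × ℝ) : ℤ × ℤ := (⌊u.1 / side p⌋, ⌊u.2 / side p⌋)

/-- ancestor, `d` levels up, of the index `k` (floor division) -/
def par (d : ℕ) (k : ℤ × ℤ) : ℤ × ℤ := (k.1 / 2 ^ d, k.2 / 2 ^ d)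

/-- indices of the descendants, `d` levels down, of the index `k` -/
noncomputable def kids (d : ℕ) (k : ℤ × ℤ) : Finset (ℤ × ℤ) :=
  Finset.Ico (k.1 * 2 ^ d) ((k.1 + 1) * 2 ^ d) ×ˢ Finset.Ico (k.2 * 2 ^ d) ((k.2 + 1) * 2 ^ d)

/-- indices, `d` levels down, of the squares in the two by two box with lower left index `k0` -/
noncomputable def boxIdx (d : ℕ) (k0 : ℤ × ℤ) : Finset (ℤ × ℤ) :=
  Finset.Ico (k0.1 * 2 ^ d) ((k0.1 + 2) * 2 ^ d) ×ˢ Finset.Ico (k0.2 * 2 ^ d) ((k0.2 + 2) * 2 ^ d)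

/-- the closed two by two box (squares of level `p`) with lower left index `k0` -/
def box (p : ℕ) (k0 : ℤ × ℤ) : Set (ℝ × ℝ) :=
  Icc ((k0.1 : ℝ) * side p) (((k0.1 : ℝ) + 2) * side p) ×ˢ
    Icc ((k0.2 : ℝ) * side p) (((k0.2 : ℝ) + 2) * side p)

/-- the middle of the box -/
def mid (p : ℕ) (k0 : ℤ × ℤ) : Set (ℝ × ℝ) :=
  Icc (((k0.1 : ℝ) + 1 / 2) * side p) (((k0.1 : ℝ) + 3 / 2) * side p) ×ˢ
    Icc (((k0.2 : ℝ) + 1 / 2) * side p) (((k0.2 : ℝ) + 3 / 2) * side p)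

/-- scalar product -/
def dot (G v : ℝ × ℝ) : ℝ := G.1 * v.1 + G.2 * v.2

/-- square of the Euclidean norm -/
def sqn (G : ℝ × ℝ) : ℝ := G.1 ^ 2 + G.2 ^ 2

/-- quadratic form with coefficients `w` -/
def qf (w : ℝ × ℝ × ℝ) (G : ℝ × ℝ) : ℝ := w.1 * G.1 ^ 2 + w.2.1 * G.1 * G.2 + w.2.2 * G.2 ^ 2

/-- `1 / X` of the point of height `h` on the line `u` -/
def prj (h : ℝ) (u : ℝ × ℝ) : ℝ := u.2 + u.1 * h

/-- derivative of direction `(1, -h)` (the direction in which `prj h` is constant) -/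
def dre (h : ℝ) (G : ℝ × ℝ) : ℝ := G.1 - h * G.2

/-- the three gaps (heights) -/
def gap : Fin 3 → Set ℝ :=
  ![Ioo (196 / 100) (198 / 100), Ioo (249 / 100) (251 / 100), Ioo (302 / 100) (304 / 100)]

/-- the three cones -/
def cone : Fin 3 → Set (ℝ × ℝ) :=
  ![{G | 0 ≤ dre (196 / 100) G ∧ dre (251 / 100) G ≤ 0},
    {G | 0 ≤ dre (249 / 100) G ∧ dre (304 / 100) G ≤ 0},
    {G | 0 ≤ dre (198 / 100) G ∧ 0 ≤ dre (302 / 100) G}]

/-- total side length of the squares of index in `S` (level `p`) whose image under `f`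
contains `t` -/
noncomputable def cnt (f : ℝ × ℝ → ℝ) (p : ℕ) (S : Finset (ℤ × ℤ)) (t : ℝ) : ℝ :=
  ∑ k ∈ S, (f '' csq p k).indicator (fun _ => side p) t

/-- The data of a rough function `f` on the box `box (p n0) k0`: `G n k` is the gradient of stage
`n` on the square `k` of level `p n`. -/
structure IsWalk (f : ℝ × ℝ → ℝ) (p : ℕ → ℕ) (G : ℕ → ℤ × ℤ → ℝ × ℝ) (n0 : ℕ) (k0 : ℤ × ℤ)
    (C c : ℝ) (w : Fin 3 → ℝ × ℝ × ℝ) : Prop where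
  hC : 1 ≤ C
  hc : 0 < c
  hn0 : 1 ≤ n0
  step : ∀ n, p n + 4 ≤ p (n + 1)
  cont : ContinuousOn f (box (p n0) k0)
  lin : ∀ n, n0 ≤ n → ∀ k ∈ boxIdx (p n - p n0) k0, ∀ u ∈ csq (p n) k, ∀ u1 ∈ box (p n0) k0,
    ‖u1 - u‖ ≤ 20 * side (p n) →
      |f u1 - f u - dot (G n k) (u1 - u)| ≤ dlt n * side (p n)
  inc : ∀ n, n0 ≤ n → ∀ k ∈ boxIdx (p n - p n0) k0, ∀ k' ∈ kids (p (n + 1) - p n) k,
    ‖G (n + 1) k' - G n k‖ ≤ C * amp (n + 1)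
  mean : ∀ n, n0 ≤ n → ∀ k ∈ boxIdx (p n - p n0) k0,
    ‖∑ k' ∈ kids (p (n + 1) - p n) k, (G (n + 1) k' - G n k)‖ ≤
      dlt n * 4 ^ (p (n + 1) - p n)
  quad : ∀ j, ∀ n, n0 ≤ n → ∀ k ∈ boxIdx (p n - p n0) k0,
    ∑ k' ∈ kids (p (n + 1) - p n) k, qf (w j) (G (n + 1) k' - G n k) ≤
      -(c * amp (n + 1) ^ 2 * 4 ^ (p (n + 1) - p n))
  coer : ∀ j, ∀ g ∈ cone j, c * sqn g ≤ qf (w j) g

open Classical in
/-- `cf ... K K0 i`: indices of the squares of level `p (K0 + i)` in the box all of whose ancestors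
of the levels `p K0, ..., p (K0 + i)` (itself included) have their gradient in `K`. -/
noncomputable def cf (p : ℕ → ℕ) (G : ℕ → ℤ × ℤ → ℝ × ℝ) (n0 : ℕ) (k0 : ℤ × ℤ)
    (K : Set (ℝ × ℝ)) (K0 : ℕ) : ℕ → Finset (ℤ × ℤ)
  | 0 => Finset.filter (fun k => G K0 k ∈ K) (boxIdx (p K0 - p n0) k0)
  | (i + 1) => Finset.filter
        (fun k => par (p (K0 + i + 1) - p (K0 + i)) k ∈ cf p G n0 k0 K K0 i ∧
          G (K0 + i + 1) k ∈ K) (boxIdx (p (K0 + i + 1) - p n0) k0)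

/-- the set `N^(m)` of points (height, 1 / X) -/
def Nm (f : ℝ × ℝ → ℝ) (p : ℕ → ℕ) (G : ℕ → ℤ × ℤ → ℝ × ℝ) (n0 : ℕ) (k0 : ℤ × ℤ) (C t : ℝ)
    (m : ℕ) : Set (ℝ × ℝ) :=
  {z | z.1 ∈ Icc (19 / 10 : ℝ) (31 / 10) ∧ ∃ u ∈ mid (p n0) k0, f u = t ∧ prj z.1 u = z.2 ∧
    ∃ n, 256 ^ m ≤ n ∧ n < 256 ^ (m + 1) ∧ ∃ k ∈ boxIdx (p n - p n0) k0, u ∈ csq (p n) k ∧
      thr m ≤ ‖G n k‖ ∧ |dre z.1 (G n k)| ≤ 5 * C * (1 / 16) ^ m}

end Pool.Agent.H63.CR
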