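import Pool.Agent.H63.CR.GRF

/-!
# H63/CR/EFM: `Ef` is bounded, measurable and of positive measure (about 60 min)

* `efm_sub`: `psi z` with `z ∈ Nc N` has coordinates `1 / z.2 ∈ (0, 1/1160)` and `z.1 / z.2 ∈ (0, 3.1/1160]`, so it is in `Sq`;
  `refl_mem_Sq`. `Sq` is bounded.
* `efm_meas0`: `Ec Q`, `Tri`, `Sq` are measurable (countable unions of sets given by inequalities between
  measurable functions; `lam` is measurable: `Measurable.ite`), `refl s` is continuous, finite intersection.
* `efm_psi`: `psi` is differentiable on `{z | 0 < z.2}`, and a differentiable map from the plane to the plane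
  maps null sets to null sets (`MeasureTheory.addHaar_image_eq_zero_of_differentiableOn_of_addHaar_eq_zero`; compose with the
  volume preserving equivalences between `ℝ × ℝ`, `Fin 2 → ℝ` and `EuclideanSpace ℝ (Fin 2)`).
* `efm_null`: null sets are null measurable; isometries preserve null sets.
* `efm_pos`: `E0 Q` contains the open set `{x | 1/4 < x 0 < 3/4, 1/4 < x 1 < 3/4}` (no `refl s x` is in `Tri`).
-/

open MeasureTheory Set Filter
open scoped Topology ENNReal

namespace Pool.Agent.H63.CR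

variable {Q : ℕ → ℕ} {N : Set (ℝ × ℝ)}

private theorem efm_psi0 (z : ℝ × ℝ) : (psi z) 0 = 1 / z.2 := rfl

private theorem efm_psi1 (z : ℝ × ℝ) : (psi z) 1 = z.1 / z.2 := rfl

private theorem efm_psi_sq {z : ℝ × ℝ} (hz : z ∈ Nc N) : psi z ∈ Sq := by
  obtain ⟨-, ⟨h1, h2⟩, h3⟩ := hz
  have h0 : 0 < z.2 := by linarith
  refine ⟨?_, ?_, ?_, ?_⟩
  · rw [efm_psi0]
    positivity
  · rw [efm_psi0, div_lt_one h0]
    linarith
  · rw [efm_psi1]
    exact div_pos (by linarith) h0
  · rw [efm_psi1, div_lt_one h0]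
    linarith

theorem efm_sub : Ef Q N ⊆ Sq := by
  intro x hx
  rcases hx with hx | hx
  · exact hx.1
  · obtain ⟨s, hs⟩ := mem_iUnion.1 hx
    obtain ⟨y, ⟨z, hz, rfl⟩, rfl⟩ := hs
    exact refl_mem_Sq.2 (efm_psi_sq hz)

theorem efm_bounded : Bornology.IsBounded (Ef Q N) := by
  refine (Metric.isBounded_closedBall (x := (0 : Plane)) (r := 2)).subset ?_
  intro x hx
  obtain ⟨h1, h2, h3, h4⟩ := efm_sub hx
  rw [mem_closedBall_zero_iff, EuclideanSpace.norm_eq, Fin.sum_univ_two, Real.norm_eq_abs, Real.norm_eq_abs,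
    sq_abs, sq_abs, Real.sqrt_le_left (by norm_num)]
  nlinarith

private theorem efm_c (i : Fin 2) : Continuous fun x : Plane => x i := by fun_prop

private theorem efm_lam (a om R : ℝ) : Measurable (lam a om R) := by
  unfold lam
  refine Measurable.ite measurableSet_Iic ?_ measurable_const
  fun_prop

theorem efm_meas0 : MeasurableSet (E0 Q) := by
  have m0 : Measurable fun x : Plane => x 0 := (efm_c 0).measurable
  have m1 : Measurable fun x : Plane => x 1 := (efm_c 1).measurable
  have hSq : MeasurableSet Sq := by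
    have : Sq = ({x : Plane | (0 : ℝ) < x 0} ∩ {x : Plane | x 0 < (1 : ℝ)}) ∩
        ({x : Plane | (0 : ℝ) < x 1} ∩ {x : Plane | x 1 < (1 : ℝ)}) := by
      ext x
      constructor
      · rintro ⟨h1, h2, h3, h4⟩
        exact ⟨⟨h1, h2⟩, h3, h4⟩
      · rintro ⟨⟨h1, h2⟩, h3, h4⟩
        exact ⟨h1, h2, h3, h4⟩
    rw [this]
    exact ((measurableSet_lt measurable_const m0).inter (measurableSet_lt m0 measurable_const)).inter
      ((measurableSet_lt measurable_const m1).inter (measurableSet_lt m1 measurable_const))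
  have hTri : MeasurableSet Tri := by
    have : Tri = {x : Plane | (0 : ℝ) < x 0} ∩ ({x : Plane | (0 : ℝ) < x 1} ∩
        {x : Plane | x 0 + x 1 < (1 / 200 : ℝ)}) := rfl
    rw [this]
    exact (measurableSet_lt measurable_const m0).inter
      ((measurableSet_lt measurable_const m1).inter (measurableSet_lt (m0.add m1) measurable_const))
  have hEc : MeasurableSet (Ec Q) := by
    have : Ec Q = {x : Plane | (0 : ℝ) < x 0} ∩ ({x : Plane | (0 : ℝ) < x 1} ∩
        ({x : Plane | x 1 < x 0} ∪ ({x : Plane | 5 * x 0 < x 1} ∪ ⋃ i : Fin 2, ⋃ n : ℕ,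
          ({x : Plane | mh i n * x 0 < x 1} ∩
            {x : Plane | x 1 < (mh i n + lam (amp n) (omq Q n) (Rn n) (1 / x 0)) * x 0})))) := by
      ext x
      constructor
      · rintro ⟨h1, h2, h3 | h3 | ⟨i, n, h3, h4⟩⟩
        · exact ⟨h1, h2, Or.inl h3⟩
        · exact ⟨h1, h2, Or.inr (Or.inl h3)⟩
        · exact ⟨h1, h2, Or.inr (Or.inr (mem_iUnion.2 ⟨i, mem_iUnion.2 ⟨n, h3, h4⟩⟩))⟩
      · rintro ⟨h1, h2, h3 | h3 | h3⟩
        · exact ⟨h1, h2, Or.inl h3⟩
        · exact ⟨h1, h2, Or.inr (Or.inl h3)⟩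
        · obtain ⟨i, h4⟩ := mem_iUnion.1 h3
          obtain ⟨n, h5, h6⟩ := mem_iUnion.1 h4
          exact ⟨h1, h2, Or.inr (Or.inr ⟨i, n, h5, h6⟩)⟩
    rw [this]
    refine (measurableSet_lt measurable_const m0).inter ((measurableSet_lt measurable_const m1).inter
      ((measurableSet_lt m1 m0).union ((measurableSet_lt (m0.const_mul 5) m1).union
        (MeasurableSet.iUnion fun i => MeasurableSet.iUnion fun n =>
          (measurableSet_lt (m0.const_mul _) m1).inter (measurableSet_lt m1 ?_)))))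
    exact (measurable_const.add ((efm_lam _ _ _).comp (measurable_const.div m0))).mul m0
  have hE : E0 Q = Sq ∩ ⋂ s : Bool × Bool, (refl s ⁻¹' Triᶜ ∪ refl s ⁻¹' (Ec Q)) := by
    ext x
    constructor
    · rintro ⟨h1, h2⟩
      refine ⟨h1, mem_iInter.2 fun s => ?_⟩
      by_cases h3 : refl s x ∈ Tri
      · exact Or.inr (h2 s h3)
      · exact Or.inl h3
    · rintro ⟨h1, h2⟩
      refine ⟨h1, fun s h3 => ?_⟩
      rcases mem_iInter.1 h2 s with h4 | h4
      · exact absurd h3 h4
      · exact h4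
  rw [hE]
  refine hSq.inter (MeasurableSet.iInter fun s => ?_)
  have hm : Measurable (refl s) := (refl_isometry s).continuous.measurable
  exact (hm hTri.compl).union (hm hEc)

private theorem efm_e (S : Set (ℝ × ℝ)) (h : volume S = 0) :
    volume ((fun z : ℝ × ℝ => (!₂[z.1, z.2] : Plane)) '' S) = 0 := by
  have hG : MeasurePreserving (fun x : Plane => MeasurableEquiv.finTwoArrow ((MeasurableEquiv.toLp 2 (Fin 2 → ℝ)).symm x))
      volume volume :=
    (volume_preserving_finTwoArrow ℝ).comp (EuclideanSpace.volume_preserving_symm_measurableEquiv_toLp (Fin 2))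
  have h1 := hG.quasiMeasurePreserving.preimage_null h
  refine measure_mono_null ?_ h1
  rintro _ ⟨z, hz, rfl⟩
  have : (MeasurableEquiv.finTwoArrow ((MeasurableEquiv.toLp 2 (Fin 2 → ℝ)).symm (!₂[z.1, z.2] : Plane)) : ℝ × ℝ) = z := rfl
  rw [mem_preimage, this]
  exact hz

theorem efm_psi (h : volume N = 0) : volume (psi '' Nc N) = 0 := by
  have h1 : volume (Nc N) = 0 := measure_mono_null (fun z hz => hz.1) h
  have h2 : DifferentiableOn ℝ (fun z : ℝ × ℝ => ((1 / z.2, z.1 / z.2) : ℝ × ℝ)) (Nc N) := by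
    intro z hz
    have hz0 : z.2 ≠ 0 := by
      have : 1160 < z.2 := hz.2.2
      linarith
    apply DifferentiableAt.differentiableWithinAt
    have d1 : DifferentiableAt ℝ (fun z : ℝ × ℝ => z.1) z := differentiableAt_fst
    have d2 : DifferentiableAt ℝ (fun z : ℝ × ℝ => z.2) z := differentiableAt_snd
    have d3 : DifferentiableAt ℝ (fun z : ℝ × ℝ => 1 / z.2) z := by
      simp only [one_div]
      exact d2.inv hz0
    have d4 : DifferentiableAt ℝ (fun z : ℝ × ℝ => z.1 / z.2) z := by
      simp only [div_eq_mul_inv]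
      exact d1.mul (d2.inv hz0)
    exact d3.prodMk d4
  have h3 := addHaar_image_eq_zero_of_differentiableOn_of_addHaar_eq_zero volume h2 h1
  have h4 := efm_e _ h3
  rw [image_image] at h4
  exact h4

private theorem efm_refl (s : Bool × Bool) (S : Set Plane) (h : volume S = 0) : volume (refl s '' S) = 0 := by
  refine addHaar_image_eq_zero_of_differentiableOn_of_addHaar_eq_zero volume ?_ h
  apply Differentiable.differentiableOn
  rw [differentiable_euclidean]
  intro i
  have hd : ∀ j : Fin 2, Differentiable ℝ (fun x : Plane => x j) := by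
    intro j
    fun_prop
  fin_cases i
  · show Differentiable ℝ (fun x : Plane => if s.1 then 1 - x 0 else x 0)
    cases s.1
    · exact hd 0
    · exact (differentiable_const _).sub (hd 0)
  · show Differentiable ℝ (fun x : Plane => if s.2 then 1 - x 1 else x 1)
    cases s.2
    · exact hd 1
    · exact (differentiable_const _).sub (hd 1)

theorem efm_null (h : volume N = 0) : NullMeasurableSet (Ef Q N) (volume : Measure Plane) := by
  refine efm_meas0.nullMeasurableSet.union (NullMeasurableSet.of_null ?_)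
  exact measure_iUnion_null fun s => efm_refl s _ (efm_psi h)

theorem efm_pos : 0 < volume (Ef Q N) := by
  obtain ⟨U, hU⟩ : ∃ U : Set Plane, U = ({x : Plane | (1 / 4 : ℝ) < x 0} ∩ {x : Plane | x 0 < (3 / 4 : ℝ)}) ∩
      ({x : Plane | (1 / 4 : ℝ) < x 1} ∩ {x : Plane | x 1 < (3 / 4 : ℝ)}) := ⟨_, rfl⟩
  have hopen : IsOpen U := by
    rw [hU]
    exact ((isOpen_lt continuous_const (efm_c 0)).inter (isOpen_lt (efm_c 0) continuous_const)).inter
      ((isOpen_lt continuous_const (efm_c 1)).inter (isOpen_lt (efm_c 1) continuous_const))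
  have hne : U.Nonempty := by
    refine ⟨!₂[1 / 2, 1 / 2], ?_⟩
    rw [hU]
    refine ⟨⟨?_, ?_⟩, ?_, ?_⟩
    · show (1 / 4 : ℝ) < 1 / 2
      norm_num
    · show (1 / 2 : ℝ) < 3 / 4
      norm_num
    · show (1 / 4 : ℝ) < 1 / 2
      norm_num
    · show (1 / 2 : ℝ) < 3 / 4
      norm_num
  have hsub : U ⊆ Ef Q N := by
    intro x hx
    rw [hU] at hx
    obtain ⟨⟨h1, h2⟩, h3, h4⟩ := hx
    have h1' : 1 / 4 < x 0 := h1
    have h2' : x 0 < 3 / 4 := h2
    have h3' : 1 / 4 < x 1 := h3
    have h4' : x 1 < 3 / 4 := h4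
    refine Or.inl ⟨⟨by linarith, by linarith, by linarith, by linarith⟩, fun s hs => ?_⟩
    exfalso
    obtain ⟨t0, t1, t2⟩ := hs
    have r0 : (refl s x) 0 = if s.1 then 1 - x 0 else x 0 := rfl
    have r1 : (refl s x) 1 = if s.2 then 1 - x 1 else x 1 := rfl
    rw [r0, r1] at t2
    split_ifs at t2 <;> linarith
  exact (hopen.measure_pos volume hne).trans_le (measure_mono hsub)

theorem efm_fin : volume (Ef Q N) < ⊤ := efm_bounded.measure_lt_top

end Pool.Agent.H63.CR
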