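import Pool.Agent.H63.CR.GDefs

/-!
# H63/CR/GRF: reflections (about 60 min)

`refl s` is an involutive isometry, `refl s (refl s' x) = refl (xor s.1 s'.1, xor s.2 s'.2) x`, and it maps `Sq` onto
itself. `grf_mem`: in the definition of `E0` the condition for `refl s x` is the same family of
conditions (substitution `s' ↦ xor s s'`), and the union in `Ef` is invariant. `grf_meas`: image under the
isometry `refl s` (`Isometry.hausdorffMeasure_image`).
`grf_line`: let `a = |th 0|`, `b = |th 1|`, `s1 = (th 0 < 0, th 1 < 0)`. Then `refl s1 x ∈ lineSet th q` iff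
`a * x 0 + b * x 1 = q'`, where `q' = q - (th 0 if negative) - (th 1 if negative)` (`inner ℝ x th = x 0 * th 0 + x 1 * th 1`, and
`(1 - x 0) * th 0 = th 0 + |th 0| * x 0` if `th 0 < 0`). The line meets the open square, `a + b > 0`, so
`0 < q' < a + b`. If `q' ≤ (a + b) / 2` take `s = s1`, `c = q'`; otherwise take `s = (not s1.1, not s1.2)`,
`c = a + b - q'`.
-/

open MeasureTheory Set Filter
open scoped Topology ENNReal

namespace Pool.Agent.H63.CR

variable {Q : ℕ → ℕ} {N : Set (ℝ × ℝ)}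

private lemma grf_app0 (s : Bool × Bool) (x : Plane) : (refl s x) 0 = if s.1 then 1 - x 0 else x 0 := by
  simp [refl]

private lemma grf_app1 (s : Bool × Bool) (x : Plane) : (refl s x) 1 = if s.2 then 1 - x 1 else x 1 := by
  simp [refl]

private lemma grf_comp (s s' : Bool × Bool) (x : Plane) :
    refl s (refl s' x) = refl (xor s.1 s'.1, xor s.2 s'.2) x := by
  obtain ⟨a, b⟩ := s
  obtain ⟨c, d⟩ := s'
  ext i
  fin_cases i
  · show (refl (a, b) (refl (c, d) x)) 0 = (refl (xor a c, xor b d) x) 0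
    rw [grf_app0, grf_app0, grf_app0]
    cases a <;> cases c <;> simp
  · show (refl (a, b) (refl (c, d) x)) 1 = (refl (xor a c, xor b d) x) 1
    rw [grf_app1, grf_app1, grf_app1]
    cases b <;> cases d <;> simp

lemma refl_refl (s : Bool × Bool) (x : Plane) : refl s (refl s x) = x := by
  rw [grf_comp]
  ext i
  fin_cases i
  · show (refl (xor s.1 s.1, xor s.2 s.2) x) 0 = x 0
    rw [grf_app0]
    simp
  · show (refl (xor s.1 s.1, xor s.2 s.2) x) 1 = x 1
    rw [grf_app1]
    simp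

lemma refl_isometry (s : Bool × Bool) : Isometry (refl s) := by
  refine Isometry.of_dist_eq (fun x y => ?_)
  rw [EuclideanSpace.dist_eq, EuclideanSpace.dist_eq, Fin.sum_univ_two, Fin.sum_univ_two]
  rw [grf_app0, grf_app0, grf_app1, grf_app1]
  have key : ∀ (b : Bool) (u v : ℝ), dist (if b then 1 - u else u) (if b then 1 - v else v) = dist u v := by
    intro b u v
    cases b
    · simp
    · simp only [if_true, Real.dist_eq]
      rw [abs_sub_comm]
      congr 1
      ring
  rw [key, key]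

lemma refl_mem_Sq {s : Bool × Bool} {x : Plane} : refl s x ∈ Sq ↔ x ∈ Sq := by
  obtain ⟨a, b⟩ := s
  unfold Sq
  simp only [Set.mem_ofPred_eq, grf_app0, grf_app1]
  have key : ∀ (b : Bool) (u : ℝ), (0 < (if b then 1 - u else u) ∧ (if b then 1 - u else u) < 1) ↔ (0 < u ∧ u < 1) := by
    intro b u
    cases b
    · simp
    · simp only [if_true]
      constructor <;> rintro ⟨h1, h2⟩ <;> constructor <;> linarith
  have k1 := key a (x 0)
  have k2 := key b (x 1)
  tauto

theorem grf_mem0 {s : Bool × Bool} {x : Plane} : refl s x ∈ E0 Q ↔ x ∈ E0 Q := by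
  unfold E0
  simp only [Set.mem_ofPred_eq, refl_mem_Sq]
  constructor
  · rintro ⟨h1, h2⟩
    refine ⟨h1, fun s' h3 => ?_⟩
    have h4 := h2 (xor s'.1 s.1, xor s'.2 s.2)
    rw [grf_comp] at h4
    have e : ((xor (xor s'.1 s.1) s.1, xor (xor s'.2 s.2) s.2) : Bool × Bool) = s' := by
      simp
    simp only at h4
    rw [e] at h4
    exact h4 h3
  · rintro ⟨h1, h2⟩
    refine ⟨h1, fun s' h3 => ?_⟩
    rw [grf_comp] at h3 ⊢
    exact h2 _ h3

private lemma grf_union {s : Bool × Bool} {x : Plane} (P : Set Plane) (h : x ∈ ⋃ s : Bool × Bool, refl s '' P) :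
    refl s x ∈ ⋃ s : Bool × Bool, refl s '' P := by
  rw [Set.mem_iUnion] at h ⊢
  obtain ⟨s', y, hy, rfl⟩ := h
  refine ⟨(xor s.1 s'.1, xor s.2 s'.2), y, hy, ?_⟩
  rw [grf_comp]

theorem grf_mem {s : Bool × Bool} {x : Plane} : refl s x ∈ Ef Q N ↔ x ∈ Ef Q N := by
  have key : ∀ y : Plane, y ∈ Ef Q N → refl s y ∈ Ef Q N := by
    intro y hy
    unfold Ef at hy ⊢
    rcases hy with hy | hy
    · exact Or.inl (grf_mem0.2 hy)
    · exact Or.inr (grf_union _ hy)
  constructor
  · intro h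
    have := key _ h
    rwa [refl_refl] at this
  · exact key x

theorem grf_meas (s : Bool × Bool) (L : Set Plane) :
    μH[1] ({x | refl s x ∈ L} ∩ Ef Q N) = μH[1] (L ∩ Ef Q N) := by
  have e : {x | refl s x ∈ L} ∩ Ef Q N = refl s '' (L ∩ Ef Q N) := by
    ext x
    constructor
    · rintro ⟨h1, h2⟩
      exact ⟨refl s x, ⟨h1, grf_mem.2 h2⟩, refl_refl s x⟩
    · rintro ⟨y, ⟨h1, h2⟩, rfl⟩
      refine ⟨?_, grf_mem.2 h2⟩
      show refl s (refl s y) ∈ L
      rw [refl_refl]
      exact h1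
  rw [e]
  exact (refl_isometry s).hausdorffMeasure_image (Or.inl (by norm_num)) _

private lemma grf_coord (w : ℝ) : ∃ (e : Bool) (a κ : ℝ), 0 ≤ a ∧ (a = 0 → w = 0) ∧
    (∀ t : ℝ, (if e then 1 - t else t) * w = a * t + κ) ∧ ∀ t : ℝ, (if !e then 1 - t else t) * w = a + κ - a * t := by
  rcases lt_or_ge w 0 with h | h
  · refine ⟨true, -w, w, by linarith, fun h0 => by linarith, fun t => ?_, fun t => ?_⟩
    · simp only [if_true]
      ring
    · simp
      ring
  · refine ⟨false, w, 0, h, fun h0 => h0, fun t => ?_, fun t => ?_⟩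
    · simp
      ring
    · simp
      ring

private lemma grf_inner (x th : Plane) : inner ℝ x th = x 0 * th 0 + x 1 * th 1 := by
  rw [PiLp.inner_apply, Fin.sum_univ_two]
  simp only [RCLike.inner_apply, conj_trivial]
  ring

theorem grf_line {th : Plane} {q : ℝ} (hth : th ≠ 0) (hne : (lineSet th q ∩ Sq).Nonempty) :
    ∃ (s : Bool × Bool) (a b c : ℝ), 0 ≤ a ∧ 0 ≤ b ∧ 0 < c ∧ c ≤ (a + b) / 2 ∧
      ∀ x : Plane, refl s x ∈ lineSet th q ↔ a * x 0 + b * x 1 = c := by
  obtain ⟨e0, a, κ0, ha, ha0, p0, m0⟩ := grf_coord (th 0)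
  obtain ⟨e1, b, κ1, hb, hb0, p1, m1⟩ := grf_coord (th 1)
  have hab : 0 < a ∨ 0 < b := by
    by_contra hcon
    push Not at hcon
    have z0 : th 0 = 0 := ha0 (le_antisymm hcon.1 ha)
    have z1 : th 1 = 0 := hb0 (le_antisymm hcon.2 hb)
    apply hth
    ext i
    fin_cases i
    · exact z0
    · exact z1
  have H1 : ∀ x : Plane, refl (e0, e1) x ∈ lineSet th q ↔ a * x 0 + b * x 1 = q - κ0 - κ1 := by
    intro x
    unfold lineSet
    rw [Set.mem_ofPred_eq, grf_inner, grf_app0, grf_app1]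
    show (if e0 then 1 - x 0 else x 0) * th 0 + (if e1 then 1 - x 1 else x 1) * th 1 = q ↔ _
    rw [p0, p1]
    constructor <;> intro h <;> linarith
  have H2 : ∀ x : Plane, refl (!e0, !e1) x ∈ lineSet th q ↔ a * x 0 + b * x 1 = a + b - (q - κ0 - κ1) := by
    intro x
    unfold lineSet
    rw [Set.mem_ofPred_eq, grf_inner, grf_app0, grf_app1]
    show (if !e0 then 1 - x 0 else x 0) * th 0 + (if !e1 then 1 - x 1 else x 1) * th 1 = q ↔ _
    rw [m0, m1]
    constructor <;> intro h <;> linarith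
  obtain ⟨y, hyL, hyS⟩ := hne
  have h3 := (H1 (refl (e0, e1) y)).1 (by rw [refl_refl]; exact hyL)
  have h4 : refl (e0, e1) y ∈ Sq := refl_mem_Sq.2 hyS
  obtain ⟨x, hx⟩ : ∃ x, x = refl (e0, e1) y := ⟨_, rfl⟩
  rw [← hx] at h3 h4
  unfold Sq at h4
  obtain ⟨x0, x0', x1, x1'⟩ := h4
  obtain ⟨q', hq'⟩ : ∃ q', q' = q - κ0 - κ1 := ⟨_, rfl⟩
  rw [← hq'] at h3 H1 H2
  have hpos : 0 < q' := by
    rw [← h3]
    rcases hab with h | h
    · have := mul_pos h x0
      have := mul_nonneg hb x1.le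
      linarith
    · have := mul_pos h x1
      have := mul_nonneg ha x0.le
      linarith
  have hlt : q' < a + b := by
    rw [← h3]
    rcases hab with h | h
    · have := mul_lt_mul_of_pos_left x0' h
      have := mul_le_mul_of_nonneg_left x1'.le hb
      linarith
    · have := mul_lt_mul_of_pos_left x1' h
      have := mul_le_mul_of_nonneg_left x0'.le ha
      linarith
  rcases le_total q' ((a + b) / 2) with h | h
  · exact ⟨(e0, e1), a, b, q', ha, hb, hpos, h, H1⟩
  · exact ⟨(!e0, !e1), a, b, a + b - q', ha, hb, by linarith, by linarith, H2⟩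

end Pool.Agent.H63.CR
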