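import Pool.Agent.H63.CR.NPT
import Pool.Agent.H63.CR.GRF

/-!
# H63/CR/FCH: the sections of `Ef` by the chart lines (about 40 min)

`fch_set`: a point `x = refl s (psi z)`, `z ∈ Nc N`, `s ≠ (false, false)`, has one coordinate `≥ 1 - 3.1/1160 > 0.99` and
the other one positive, so `u.1 * x 1 + u.2 * x 0 > 1`: it is not on the line.
`refl (false, false) x = x`.
`fch_null`: `cht` and `npt_null` (measure of a union with a set of measure zero).
`fch_le`: `cht`, `npt_le` and `bas u ≤ ff Q u` (`chv_ge`).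
`fch_gap`: `npt_gap`.
-/

open MeasureTheory Set Filter
open scoped Topology ENNReal

namespace Pool.Agent.H63.CR

variable {u : ℝ × ℝ} {Q : ℕ → ℕ} {N : Set (ℝ × ℝ)}

lemma fch_refl_ff (x : Plane) : refl (false, false) x = x := by
  ext i
  fin_cases i <;> simp [refl]

theorem fch_set (h1 : 400 < u.1) (h2 : 400 < u.2) :
    chartLine u ∩ Ef Q N = chartLine u ∩ (E0 Q ∪ psi '' Nc N) := by
  ext x
  constructor
  · rintro ⟨hx, hE | hE⟩
    · exact ⟨hx, Or.inl hE⟩
    · obtain ⟨s, y, ⟨z, hz, rfl⟩, rfl⟩ := mem_iUnion.mp hE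
      obtain ⟨hzN, hz1, hz2⟩ := hz
      have hz0 : 0 < z.2 := by linarith
      have ha : 1 / z.2 < 1 / 1160 := by
        rw [div_lt_div_iff₀ hz0 (by norm_num)]; linarith
      have ha0 : 0 < 1 / z.2 := by positivity
      have hb : z.1 / z.2 < 1 / 300 := by
        rw [div_lt_div_iff₀ hz0 (by norm_num)]; linarith [hz1.2]
      have hb0 : 0 < z.1 / z.2 := div_pos (by linarith [hz1.1]) hz0
      rcases s with ⟨s1, s2⟩
      have hx' : u.1 * (refl (s1, s2) (psi z)) 1 + u.2 * (refl (s1, s2) (psi z)) 0 = 1 := hx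
      have hp0 : (psi z) 0 = 1 / z.2 := by simp [psi]
      have hp1 : (psi z) 1 = z.1 / z.2 := by simp [psi]
      have hr0 : (refl (s1, s2) (psi z)) 0 = if s1 then 1 - 1 / z.2 else 1 / z.2 := by
        simp [refl, psi]
      have hr1 : (refl (s1, s2) (psi z)) 1 = if s2 then 1 - z.1 / z.2 else z.1 / z.2 := by
        simp [refl, psi]
      rw [hr0, hr1] at hx'
      cases s1 <;> cases s2
      · refine ⟨hx, Or.inr ⟨z, ⟨hzN, hz1, hz2⟩, ?_⟩⟩
        rw [fch_refl_ff]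
      · exfalso
        simp only [if_true, Bool.false_eq_true, if_false] at hx'
        nlinarith
      · exfalso
        simp only [if_true, Bool.false_eq_true, if_false] at hx'
        nlinarith
      · exfalso
        simp only [if_true] at hx'
        nlinarith
  · rintro ⟨hx, hE | hE⟩
    · exact ⟨hx, Or.inl hE⟩
    · refine ⟨hx, Or.inr (mem_iUnion.mpr ⟨(false, false), x, hE, fch_refl_ff x⟩)⟩

theorem fch_null (hQ : ∀ n, 1 ≤ Q n) (hQ0 : ∀ n, 800 * 2 ^ n ≤ omq Q n) (h1 : 400 < u.1)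
    (h2 : 400 < u.2) (h0 : volume {h : ℝ | (h, prj h u) ∈ N} = 0) :
    μH[1] (chartLine u ∩ Ef Q N) = ENNReal.ofReal (ff Q u) := by
  rw [fch_set h1 h2, Set.inter_union_distrib_left, ← cht hQ hQ0 h1 h2]
  have hn := npt_null (u := u) (N := N) (by linarith) (by linarith) h0
  apply le_antisymm
  · calc μH[1] (chartLine u ∩ E0 Q ∪ chartLine u ∩ psi '' Nc N)
        ≤ μH[1] (chartLine u ∩ E0 Q) + μH[1] (chartLine u ∩ psi '' Nc N) := measure_union_le _ _
      _ = μH[1] (chartLine u ∩ E0 Q) := by rw [hn, add_zero]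
  · exact measure_mono Set.subset_union_left

theorem fch_le (hQ : ∀ n, 1 ≤ Q n) (hQ0 : ∀ n, 800 * 2 ^ n ≤ omq Q n) (h1 : 400 < u.1)
    (h2 : 400 < u.2) : μH[1] (chartLine u ∩ Ef Q N) ≤ ENNReal.ofReal (21 / 10 * ff Q u) := by
  have hp := chv_ge hQ hQ0 (u := u) (by linarith) (by linarith)
  rw [fch_set h1 h2, Set.inter_union_distrib_left]
  calc μH[1] (chartLine u ∩ E0 Q ∪ chartLine u ∩ psi '' Nc N)
      ≤ μH[1] (chartLine u ∩ E0 Q) + μH[1] (chartLine u ∩ psi '' Nc N) := measure_union_le _ _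
    _ ≤ ENNReal.ofReal (ff Q u) + ENNReal.ofReal (11 / 10 * bas u) := by
        rw [cht hQ hQ0 h1 h2]
        exact add_le_add le_rfl (npt_le (by linarith) (by linarith))
    _ = ENNReal.ofReal (ff Q u + 11 / 10 * bas u) :=
        (ENNReal.ofReal_add (by linarith [hp.1, hp.2]) (by linarith [hp.1])).symm
    _ ≤ ENNReal.ofReal (21 / 10 * ff Q u) := ENNReal.ofReal_le_ofReal (by linarith [hp.2])

theorem fch_gap (hQ : ∀ n, 1 ≤ Q n) (hQ0 : ∀ n, 800 * 2 ^ n ≤ omq Q n) (h1 : 400 < u.1)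
    (h2 : 400 < u.2) {i : Fin 3} (hg : ∀ h ∈ gap i, (h, prj h u) ∈ N) :
    ENNReal.ofReal (ff Q u) < μH[1] (chartLine u ∩ Ef Q N) := by
  rw [fch_set h1 h2]
  exact npt_gap hQ hQ0 h1 h2 hg

end Pool.Agent.H63.CR
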