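import Pool.Agent.H63.CR.GEX
import Pool.Agent.H63.CR.FCH
import Pool.Agent.H63.CR.BIG
import Pool.Agent.H63.CR.EFM

/-!
# H63/CR/FIN: the main theorem (assembly, about 60 min)

`gex` gives `Q, p`; by `gov` almost every `t` is good. Choose good values `t 0 < 1 / 3000`, `0 < t (k+1) < t k / 3` (every interval
`(0, d)` contains a good value; recursion), with null sets `Nk`; `N = ⋃ k, Nk k`, `E = Ef Q N`: bounded, measurable
etc. by `EFM`. Given `δ > 0` choose `k` with `t k < δ` (`t k ≤ 3 ^ (-k)`). Let `L = lineSet th q`.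
* If `L ∩ Sq` is empty, `L ∩ Ef` is empty (`efm_sub`), measure `0 ≠ ofReal (t k)`.
* Otherwise `grf_line` and `grf_meas`: `μH[1] (L ∩ Ef) = μH[1] ({x | a * x 0 + b * x 1 = c} ∩ Ef)`.
* If not (`400 * c < a` and `400 * c < b`): at least `1 / 3000 > t k` (`big`, `E0 ⊆ Ef`).
* Otherwise `{x | a * x 0 + b * x 1 = c} = chartLine u` with `u = (b / c, a / c)`, both coordinates `> 400`. Let `v = ff Q u > 0`.
  If `v ≠ t j` for all `j`: every `Nk j` meets the line `u` in measure zero, so `fch_null`: the measure is `ofReal v ≠ ofReal (t k)`.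
  If `v = t j`: `fch_gap` (with `Nk j ⊆ N`) and `fch_le`: the measure is in `(ofReal (t j), ofReal (21/10 * t j)]`; if `k ≥ j` then
  `t k ≤ t j`; if `k < j` then `t k > 3 * t j`. So it is not `ofReal (t k)`.
-/

open MeasureTheory Set Filter
open scoped Topology ENNReal

namespace Pool.Agent.H63.CR

/-- a good value -/
def FinGood (Q : ℕ → ℕ) (t : ℝ) (N : Set (ℝ × ℝ)) : Prop :=
  volume N = 0 ∧
      (∀ u : ℝ × ℝ, 1 < u.1 → 1 < u.2 → ff Q u = t → ∃ i : Fin 3, ∀ h ∈ gap i, (h, prj h u) ∈ N) ∧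
      ∀ u' : ℝ × ℝ, ff Q u' ≠ t → volume {h : ℝ | (h, prj h u') ∈ N} = 0

lemma fin_good_small {Q : ℕ → ℕ}
    (h : ∀ᵐ t ∂(volume : Measure ℝ), ∃ N : Set (ℝ × ℝ), FinGood Q t N) {d : ℝ} (hd : 0 < d) :
    ∃ t : ℝ, 0 < t ∧ t < d ∧ ∃ N : Set (ℝ × ℝ), FinGood Q t N := by
  by_contra hcon
  push Not at hcon
  have h1 : Ioo (0 : ℝ) d ⊆ {t | ¬ ∃ N : Set (ℝ × ℝ), FinGood Q t N} := by
    intro t ht
    rintro ⟨N, hN⟩
    exact hcon t ht.1 ht.2 N hN
  have h2 : volume (Ioo (0 : ℝ) d) = 0 := measure_mono_null h1 (by rwa [ae_iff] at h)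
  rw [Real.volume_Ioo, ENNReal.ofReal_eq_zero] at h2
  linarith

lemma fin_seq {Q : ℕ → ℕ}
    (h : ∀ᵐ t ∂(volume : Measure ℝ), ∃ N : Set (ℝ × ℝ), FinGood Q t N) :
    ∃ (t : ℕ → ℝ) (N : ℕ → Set (ℝ × ℝ)), (∀ k, 0 < t k) ∧ (t 0 < 1 / 3000) ∧
      (∀ k, t (k + 1) < t k / 3) ∧ ∀ k, FinGood Q (t k) (N k) := by
  have key : ∀ d : {d : ℝ // 0 < d}, ∃ x : {d : ℝ // 0 < d} × Set (ℝ × ℝ),
      x.1.1 < d.1 / 3 ∧ FinGood Q x.1.1 x.2 := by
    rintro ⟨d, hd⟩
    obtain ⟨t, ht0, ht1, N, hN⟩ := fin_good_small h (d := d / 3) (by positivity)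
    exact ⟨(⟨t, ht0⟩, N), ht1, hN⟩
  choose F hF using key
  let s : ℕ → {d : ℝ // 0 < d} × Set (ℝ × ℝ) := fun k =>
    Nat.rec (F ⟨1 / 1000, by norm_num⟩) (fun _ x => F x.1) k
  have hs0 : s 0 = F ⟨1 / 1000, by norm_num⟩ := rfl
  have hs : ∀ k, s (k + 1) = F (s k).1 := fun k => rfl
  refine ⟨fun k => (s k).1.1, fun k => (s k).2, fun k => (s k).1.2, ?_, ?_, ?_⟩
  · have := (hF ⟨1 / 1000, by norm_num⟩).1
    simp only [hs0]
    norm_num at this ⊢
    linarith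
  · intro k
    simp only [hs]
    exact (hF (s k).1).1
  · intro k
    cases k with
    | zero => simp only [hs0]; exact (hF _).2
    | succ k => simp only [hs]; exact (hF _).2

lemma fin_seq_le {t : ℕ → ℝ} (h0 : ∀ k, 0 < t k) (h1 : t 0 < 1 / 3000)
    (h2 : ∀ k, t (k + 1) < t k / 3) (k : ℕ) : t k ≤ (1 / 3 : ℝ) ^ k / 3000 := by
  induction k with
  | zero => simp; linarith
  | succ k ih =>
    have := h2 k
    rw [pow_succ]
    linarith

lemma fin_seq_anti {t : ℕ → ℝ} (h0 : ∀ k, 0 < t k)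
    (h2 : ∀ k, t (k + 1) < t k / 3) {j k : ℕ} (h : j < k) : t k < t j / 3 := by
  induction k with
  | zero => omega
  | succ k ih =>
    rcases Nat.lt_succ_iff_lt_or_eq.mp h with h' | h'
    · have := ih h'
      have := h2 k
      have := h0 k
      have := h0 j
      linarith
    · subst h'
      exact h2 j

lemma fin_chart {Q : ℕ → ℕ} (hQ : ∀ n, 1 ≤ Q n) (hQ0 : ∀ n, 800 * 2 ^ n ≤ omq Q n)
    {t : ℕ → ℝ} {N : ℕ → Set (ℝ × ℝ)} (h0 : ∀ k, 0 < t k)
    (h2 : ∀ k, t (k + 1) < t k / 3) (hN : ∀ k, FinGood Q (t k) (N k)) {u : ℝ × ℝ}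
    (hu1 : 400 < u.1) (hu2 : 400 < u.2) (k : ℕ) :
    μH[1] (chartLine u ∩ Ef Q (⋃ j, N j)) ≠ ENNReal.ofReal (t k) := by
  have hpos := chv_ge hQ hQ0 (u := u) (by linarith) (by linarith)
  by_cases hex : ∃ j, ff Q u = t j
  · obtain ⟨j, hj⟩ := hex
    obtain ⟨i, hi⟩ := (hN j).2.1 u (by linarith) (by linarith) hj
    have hgap : ∀ h ∈ gap i, (h, prj h u) ∈ ⋃ j, N j := fun h hh => mem_iUnion.mpr ⟨j, hi h hh⟩
    have hlt := fch_gap hQ hQ0 hu1 hu2 hgap
    have hle := fch_le (N := ⋃ j, N j) hQ hQ0 hu1 hu2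
    rw [hj] at hlt hle
    rcases lt_or_ge k j with hkj | hkj
    · have h3 := fin_seq_anti h0 h2 hkj
      intro heq
      rw [heq] at hle
      have h4 := (ENNReal.ofReal_le_ofReal_iff (by have := h0 j; positivity)).mp hle
      have := h0 j
      linarith
    · have h3 : t k ≤ t j := by
        rcases Nat.eq_or_lt_of_le hkj with h | h
        · rw [h]
        · have := fin_seq_anti h0 h2 h
          have := h0 j
          linarith
      intro heq
      rw [heq] at hlt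
      exact absurd (ENNReal.ofReal_le_ofReal h3) (not_le.mpr hlt)
  · push Not at hex
    have hnull : volume {h : ℝ | (h, prj h u) ∈ ⋃ j, N j} = 0 := by
      have : {h : ℝ | (h, prj h u) ∈ ⋃ j, N j} = ⋃ j, {h : ℝ | (h, prj h u) ∈ N j} := by
        ext h
        simp
      rw [this]
      exact measure_iUnion_null fun j => (hN j).2.2 u (hex j)
    rw [fch_null hQ hQ0 hu1 hu2 hnull]
    intro heq
    have := (ENNReal.ofReal_eq_ofReal_iff (by linarith [hpos.1, hpos.2]) (h0 k).le).mp heq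
    exact hex k this

theorem fin_main : ∃ E : Set (EuclideanSpace ℝ (Fin 2)), Bornology.IsBounded E ∧
    NullMeasurableSet E volume ∧ 0 < volume E ∧ volume E < ⊤ ∧
    ∀ δ : ℝ, 0 < δ → ∃ t : ℝ, 0 < t ∧ t < δ ∧ ∀ (θ : EuclideanSpace ℝ (Fin 2)) (p : ℝ), ‖θ‖ = 1 →
      μH[1] ({x : EuclideanSpace ℝ (Fin 2) | inner ℝ x θ = p} ∩ E) ≠ ENNReal.ofReal t := by
  obtain ⟨Q, p, hQ, hQ0, hw⟩ := gex
  obtain ⟨t, N, h0, h1, h2, hN⟩ := fin_seq (Q := Q) (gov hw)
  have hNnull : volume (⋃ j, N j) = 0 := measure_iUnion_null fun j => (hN j).1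
  refine ⟨Ef Q (⋃ j, N j), efm_bounded, efm_null hNnull, efm_pos, efm_fin, ?_⟩
  intro δ hδ
  obtain ⟨k, hk⟩ := exists_pow_lt_of_lt_one hδ (show (1 / 3 : ℝ) < 1 by norm_num)
  refine ⟨t k, h0 k, ?_, ?_⟩
  · have := fin_seq_le h0 h1 h2 k
    have h3 : (0 : ℝ) < (1 / 3 : ℝ) ^ k := by positivity
    linarith
  intro θ q hθ
  change μH[1] (lineSet θ q ∩ Ef Q (⋃ j, N j)) ≠ ENNReal.ofReal (t k)
  have htk : t k < 1 / 3000 := by
    have := fin_seq_le h0 h1 h2 k
    rcases Nat.eq_zero_or_pos k with h | h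
    · rw [h]; exact h1
    · have h3 : (1 / 3 : ℝ) ^ k < 1 := pow_lt_one₀ (by norm_num) (by norm_num) (by omega)
      linarith
  rcases Set.eq_empty_or_nonempty (lineSet θ q ∩ Sq) with hemp | hne
  · have : lineSet θ q ∩ Ef Q (⋃ j, N j) = ∅ :=
      Set.subset_empty_iff.mp (hemp ▸ Set.inter_subset_inter_right _ efm_sub)
    rw [this, measure_empty]
    exact (ENNReal.ofReal_pos.mpr (h0 k)).ne
  · have hθ0 : θ ≠ 0 := by
      intro h
      rw [h, norm_zero] at hθ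
      exact zero_ne_one hθ
    obtain ⟨s, a, b, c, ha, hb, hc, hab, hline⟩ := grf_line hθ0 hne
    rw [← grf_meas s (lineSet θ q)]
    have hset : {x : Plane | refl s x ∈ lineSet θ q} = {x : Plane | a * x 0 + b * x 1 = c} := by
      ext x
      exact hline x
    rw [hset]
    by_cases hbig : 400 * c < a ∧ 400 * c < b
    · have hch : {x : Plane | a * x 0 + b * x 1 = c} = chartLine (b / c, a / c) := by
        ext x
        simp only [chartLine, Set.mem_ofPred_eq]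
        rw [div_mul_eq_mul_div, div_mul_eq_mul_div, ← add_div, div_eq_one_iff_eq hc.ne']
        constructor <;> intro h <;> linarith
      rw [hch]
      exact fin_chart hQ hQ0 h0 h2 hN (by rw [lt_div_iff₀ hc]; exact hbig.2)
        (by rw [lt_div_iff₀ hc]; exact hbig.1) k
    · have hb3 := big (Q := Q) ha hb hc hab hbig
      have hsub : {x : Plane | a * x 0 + b * x 1 = c} ∩ E0 Q ⊆
          {x : Plane | a * x 0 + b * x 1 = c} ∩ Ef Q (⋃ j, N j) :=
        Set.inter_subset_inter_right _ Set.subset_union_left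
      have h4 : ENNReal.ofReal (t k) < ENNReal.ofReal (1 / 3000) :=
        (ENNReal.ofReal_lt_ofReal_iff (by norm_num)).mpr htk
      exact (lt_of_lt_of_le h4 (hb3.trans (measure_mono hsub))).ne'

end Pool.Agent.H63.CR
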