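import Pool.Agent.H63.CR.GDefs

/-!
# H63/CR/FPT: the partial sums (about 30 min)

Sum of the inequalities of `Dat` and `Wave` (`Wave.tay`, `Wave.lip` with constant `C * omq Q j`, two walls
for each `j`); `dot` is linear in both arguments. `Sg Q n = 1 + 2 * sum`.
-/

open MeasureTheory Set Filter
open scoped Topology ENNReal

namespace Pool.Agent.H63.CR

variable {B C : ℝ} {Q : ℕ → ℕ} {gb : ℝ × ℝ → ℝ × ℝ} {g : Fin 2 → ℕ → ℝ × ℝ → ℝ × ℝ}

private lemma fptx_om (Q : ℕ → ℕ) (n : ℕ) : 0 ≤ omq Q n := by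
  unfold omq
  have := Real.pi_pos
  positivity

lemma sg_ge_one (Q : ℕ → ℕ) (n : ℕ) : 1 ≤ Sg Q n := by
  unfold Sg
  have : 0 ≤ ∑ j ∈ Finset.range (n + 1), omq Q j := Finset.sum_nonneg fun j _ => fptx_om Q j
  linarith

lemma sg_ge (Q : ℕ → ℕ) (n : ℕ) : 2 * omq Q n ≤ Sg Q n := by
  unfold Sg
  have : omq Q n ≤ ∑ j ∈ Finset.range (n + 1), omq Q j :=
    Finset.single_le_sum (f := fun j => omq Q j) (fun j _ => fptx_om Q j)
      (Finset.mem_range.2 (Nat.lt_succ_self n))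
  linarith

lemma gfp_succ (gb : ℝ × ℝ → ℝ × ℝ) (g : Fin 2 → ℕ → ℝ × ℝ → ℝ × ℝ) (n : ℕ) (u : ℝ × ℝ) :
    gfp gb g (n + 1) u = gfp gb g n u + (g 0 (n + 1) u + g 1 (n + 1) u) := by
  unfold gfp
  rw [Finset.sum_range_succ, ← add_assoc]

private lemma fptx_dot (G G' v : ℝ × ℝ) : dot (G + G') v = dot G v + dot G' v := by
  unfold dot
  simp only [Prod.fst_add, Prod.snd_add]
  ring

theorem fpt_tay (hD : Dat B C Q gb g) (n : ℕ) {u u' : ℝ × ℝ} (hu : u ∈ Uu B) (hu' : u' ∈ Uu B) :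
    |fpt Q n u' - fpt Q n u - dot (gfp gb g n u) (u' - u)| ≤ C * Sg Q n * ‖u' - u‖ ^ 2 := by
  have key : ∀ N : ℕ, |(bas u' + ∑ j ∈ Finset.range N, (vv Q 0 j u' + vv Q 1 j u')) -
      (bas u + ∑ j ∈ Finset.range N, (vv Q 0 j u + vv Q 1 j u)) -
      dot (gb u + ∑ j ∈ Finset.range N, (g 0 j u + g 1 j u)) (u' - u)| ≤
      C * (1 + 2 * ∑ j ∈ Finset.range N, omq Q j) * ‖u' - u‖ ^ 2 := by
    intro N
    induction N with
    | zero =>
      simp only [Finset.range_zero, Finset.sum_empty, add_zero, mul_zero, mul_one]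
      exact hD.btay u hu u' hu'
    | succ N ih =>
      rw [Finset.sum_range_succ, Finset.sum_range_succ, Finset.sum_range_succ,
        Finset.sum_range_succ]
      have h0 := (hD.wave 0 N).tay u hu u' hu'
      have h1 := (hD.wave 1 N).tay u hu u' hu'
      rw [← add_assoc (gb u), fptx_dot _ (g 0 N u + g 1 N u), fptx_dot (g 0 N u)]
      rw [abs_le] at ih h0 h1 ⊢
      constructor <;> nlinarith
  exact key (n + 1)

theorem fpt_lip (hD : Dat B C Q gb g) (n : ℕ) {u u' : ℝ × ℝ} (hu : u ∈ Uu B) (hu' : u' ∈ Uu B) :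
    ‖gfp gb g n u' - gfp gb g n u‖ ≤ C * Sg Q n * ‖u' - u‖ := by
  have key : ∀ N : ℕ, ‖(gb u' + ∑ j ∈ Finset.range N, (g 0 j u' + g 1 j u')) -
      (gb u + ∑ j ∈ Finset.range N, (g 0 j u + g 1 j u))‖ ≤
      C * (1 + 2 * ∑ j ∈ Finset.range N, omq Q j) * ‖u' - u‖ := by
    intro N
    induction N with
    | zero =>
      simp only [Finset.range_zero, Finset.sum_empty, add_zero, mul_zero, mul_one]
      exact hD.blip u hu u' hu'
    | succ N ih =>
      rw [Finset.sum_range_succ, Finset.sum_range_succ, Finset.sum_range_succ]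
      have h0 := (hD.wave 0 N).lip u hu u' hu'
      have h1 := (hD.wave 1 N).lip u hu u' hu'
      have e : (gb u' + (∑ j ∈ Finset.range N, (g 0 j u' + g 1 j u') + (g 0 N u' + g 1 N u'))) -
          (gb u + (∑ j ∈ Finset.range N, (g 0 j u + g 1 j u) + (g 0 N u + g 1 N u))) =
          ((gb u' + ∑ j ∈ Finset.range N, (g 0 j u' + g 1 j u')) -
            (gb u + ∑ j ∈ Finset.range N, (g 0 j u + g 1 j u))) +
          ((g 0 N u' - g 0 N u) + (g 1 N u' - g 1 N u)) := by abel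
      rw [e]
      refine (norm_add_le _ _).trans ?_
      have h2 := norm_add_le (g 0 N u' - g 0 N u) (g 1 N u' - g 1 N u)
      nlinarith
  exact key (n + 1)

end Pool.Agent.H63.CR
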