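import Pool.Agent.H63.CR.Defs

/-!
# H63/CR, definitions for the geometric part: no sorry in this file
-/

open MeasureTheory Set Filter
open scoped Topology ENNReal

namespace Pool.Agent.H63.CR

/-- thickness of a wall (amplitude `a`, frequency `om`, cut at `R`) as a function of `x = 1 / X` -/
noncomputable def lam (a om R x : ℝ) : ℝ := if x ≤ R then a / om * (1 - Real.cos (om * x)) else 0

/-- derivative of `lam` -/
noncomputable def lamD (a om R x : ℝ) : ℝ := if x ≤ R then a * Real.sin (om * x) else 0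

/-- admissible parameters of a wall -/
structure Adm (a om R m : ℝ) : Prop where
  a0 : 0 < a
  a1 : a ≤ 1
  om1 : 1 ≤ om
  R0 : 0 ≤ R
  aR : 8 * a * R ≤ 1
  per : ∃ N : ℕ, om * R = 2 * Real.pi * N
  m2 : 2 ≤ m
  m4 : m ≤ 4

open Classical in
/-- the solution `z` of `z = lam (X + al * z)`: the line with parameter `al` that enters the wall at
abscissa `X` crosses it in the heights between `m` and `m + z` -/
noncomputable def zet (a om R al X : ℝ) : ℝ :=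
  if h : ∃ z, 0 ≤ z ∧ z = lam a om R (X + al * z) then h.choose else 0

/-- `sqrt (al ^ 2 + be ^ 2)` -/
noncomputable def La (u : ℝ × ℝ) : ℝ := Real.sqrt (u.1 ^ 2 + u.2 ^ 2)

/-- length of the part of the line `u` between the heights `h1` and `h2` -/
noncomputable def seg (u : ℝ × ℝ) (h1 h2 : ℝ) : ℝ := La u * (h2 - h1) / (prj h1 u * prj h2 u)

/-- length of the part of the line `u` in the wall with parameters `a om R` at height `m` -/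
noncomputable def vw (a om R m : ℝ) (u : ℝ × ℝ) : ℝ := seg u m (m + zet a om R u.1 (prj m u))

/-- the weight -/
noncomputable def kap (m : ℝ) (u : ℝ × ℝ) : ℝ := La u / prj m u ^ 2

/-- slope of `zet` -/
noncomputable def xiz (a om R al X : ℝ) : ℝ :=
  lamD a om R (X + al * zet a om R al X) / (1 - al * lamD a om R (X + al * zet a om R al X))

/-- antiderivative in `h` of `kap h u` -/
noncomputable def Hf (u : ℝ × ℝ) (h : ℝ) : ℝ := -(La u / (u.1 * prj h u))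

/-- the compact part `[1, B] × [1, B]` of the chart -/
def Uu (B : ℝ) : Set (ℝ × ℝ) := Icc 1 B ×ˢ Icc 1 B

/-- A function `v` on `Uu B` with gradient `g`: size `C * a / om`, gradient of size `C * a`, second
order terms `C * om`, and main term `a * sin (om * X) * kap * (m, 1)` of the gradient where the
wall is not cut. -/
structure Wave (B C a om R m : ℝ) (v : ℝ × ℝ → ℝ) (g : ℝ × ℝ → ℝ × ℝ) : Prop where
  size : ∀ u ∈ Uu B, |v u| ≤ C * a / om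
  grad : ∀ u ∈ Uu B, ‖g u‖ ≤ C * a
  tay : ∀ u ∈ Uu B, ∀ u' ∈ Uu B, |v u' - v u - dot (g u) (u' - u)| ≤ C * om * ‖u' - u‖ ^ 2
  lip : ∀ u ∈ Uu B, ∀ u' ∈ Uu B, ‖g u' - g u‖ ≤ C * om * ‖u' - u‖
  main : ∀ u ∈ Uu B, prj (m + 2) u ≤ R →
    ‖g u - (a * Real.sin (om * prj m u) * kap m u) • ((m, 1) : ℝ × ℝ)‖ ≤ C * (a ^ 2 + a / om)

/-- bounds for `Hf` on `Uu B`; `Hu h` is the gradient of `Hf` in `u` -/
structure HB (B C : ℝ) (Hu : ℝ → ℝ × ℝ → ℝ × ℝ) : Prop where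
  one : 1 ≤ C
  tay : ∀ u ∈ Uu B, ∀ u' ∈ Uu B, ∀ h ∈ Icc (2 : ℝ) 6, ∀ h' ∈ Icc (2 : ℝ) 6,
    |Hf u' h' - Hf u h - dot (Hu h u) (u' - u) - kap h u * (h' - h)| ≤
      C * (‖u' - u‖ ^ 2 + |h' - h| ^ 2)
  lip : ∀ u ∈ Uu B, ∀ u' ∈ Uu B, ∀ h ∈ Icc (2 : ℝ) 6, ∀ h' ∈ Icc (2 : ℝ) 6,
    ‖Hu h' u' - Hu h u‖ ≤ C * (‖u' - u‖ + |h' - h|)
  bd : ∀ u ∈ Uu B, ∀ h ∈ Icc (2 : ℝ) 6, ‖Hu h u‖ ≤ C
  kbd : ∀ u ∈ Uu B, ∀ h ∈ Icc (2 : ℝ) 6, |kap h u| ≤ C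
  klip : ∀ u ∈ Uu B, ∀ u' ∈ Uu B, ∀ h ∈ Icc (2 : ℝ) 6, ∀ h' ∈ Icc (2 : ℝ) 6,
    |kap h' u' - kap h u| ≤ C * (‖u' - u‖ + |h' - h|)

/-- gradient of `vw a om R m` -/
noncomputable def gw (Hu : ℝ → ℝ × ℝ → ℝ × ℝ) (a om R m : ℝ) (u : ℝ × ℝ) : ℝ × ℝ :=
  Hu (m + zet a om R u.1 (prj m u)) u - Hu m u +
    (kap (m + zet a om R u.1 (prj m u)) u * xiz a om R u.1 (prj m u)) •
      ((m + zet a om R u.1 (prj m u), 1) : ℝ × ℝ)

/-- coefficients, in `G`, of the form `P * x0 ^ 2 + Q * x0 * x1 + S * x1 ^ 2` where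
`x0 = (3 * G.2 - G.1) / k0` and `x1 = (G.1 - 2 * G.2) / k1` -/
noncomputable def wco (P Q S k0 k1 : ℝ) : ℝ × ℝ × ℝ :=
  (P / k0 ^ 2 - Q / (k0 * k1) + S / k1 ^ 2,
    -(6 * P / k0 ^ 2) + 5 * Q / (k0 * k1) - 4 * S / k1 ^ 2,
    9 * P / k0 ^ 2 - 6 * Q / (k0 * k1) + 4 * S / k1 ^ 2)

/-- the three quadratic forms (one for each cone) -/
noncomputable def wj (u0 : ℝ × ℝ) (j : Fin 3) : ℝ × ℝ × ℝ :=
  wco ((![55, -57, -1] : Fin 3 → ℝ) j) ((![384, 384, -500] : Fin 3 → ℝ) j)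
    ((![-57, 55, -1] : Fin 3 → ℝ) j) (kap 2 u0) (kap 3 u0)

/-- height of the wall `n` of the family `i` -/
noncomputable def mh (i : Fin 2) (n : ℕ) : ℝ := 2 + (i : ℕ) + (1 / 2) ^ n / 200

/-- where the wall of stage `n` is cut -/
noncomputable def Rn (n : ℕ) : ℝ := 1 / (8 * amp n)

/-- frequency of stage `n` -/
noncomputable def omq (Q : ℕ → ℕ) (n : ℕ) : ℝ := 16 * Real.pi * Q n

/-- contribution of the wall `(i, n)` -/
noncomputable def vv (Q : ℕ → ℕ) (i : Fin 2) (n : ℕ) (u : ℝ × ℝ) : ℝ :=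
  vw (amp n) (omq Q n) (Rn n) (mh i n) u

/-- the solid part -/
noncomputable def bas (u : ℝ × ℝ) : ℝ :=
  La u / (u.2 * (u.1 + u.2)) + La u / (u.1 * (u.2 + 5 * u.1))

/-- partial sums -/
noncomputable def fpt (Q : ℕ → ℕ) (n : ℕ) (u : ℝ × ℝ) : ℝ :=
  bas u + ∑ j ∈ Finset.range (n + 1), (vv Q 0 j u + vv Q 1 j u)

/-- length of the section of the set `E_0` by the line `u` -/
noncomputable def ff (Q : ℕ → ℕ) (u : ℝ × ℝ) : ℝ := bas u + ∑' j, (vv Q 0 j u + vv Q 1 j u)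

/-- gradient of `fpt Q n`, from the gradients `gb` of `bas` and `g i j` of `vv Q i j` -/
noncomputable def gfp (gb : ℝ × ℝ → ℝ × ℝ) (g : Fin 2 → ℕ → ℝ × ℝ → ℝ × ℝ) (n : ℕ) (u : ℝ × ℝ) :
    ℝ × ℝ := gb u + ∑ j ∈ Finset.range (n + 1), (g 0 j u + g 1 j u)

/-- sum of the frequencies -/
noncomputable def Sg (Q : ℕ → ℕ) (n : ℕ) : ℝ := 1 + 2 * ∑ j ∈ Finset.range (n + 1), omq Q j

/-- all the gradients on `Uu B`, with the constant `C` -/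
structure Dat (B C : ℝ) (Q : ℕ → ℕ) (gb : ℝ × ℝ → ℝ × ℝ) (g : Fin 2 → ℕ → ℝ × ℝ → ℝ × ℝ) :
    Prop where
  one : 1 ≤ C
  bgrad : ∀ u ∈ Uu B, ‖gb u‖ ≤ C
  btay : ∀ u ∈ Uu B, ∀ u' ∈ Uu B, |bas u' - bas u - dot (gb u) (u' - u)| ≤ C * ‖u' - u‖ ^ 2
  blip : ∀ u ∈ Uu B, ∀ u' ∈ Uu B, ‖gb u' - gb u‖ ≤ C * ‖u' - u‖
  klip : ∀ u ∈ Uu B, ∀ u' ∈ Uu B, ∀ h ∈ Icc (2 : ℝ) 6, ∀ h' ∈ Icc (2 : ℝ) 6,
    |kap h' u' - kap h u| ≤ C * (‖u' - u‖ + |h' - h|)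
  kbd : ∀ u ∈ Uu B, ∀ h ∈ Icc (2 : ℝ) 6, |kap h u| ≤ C
  wave : ∀ i n, Wave B C (amp n) (omq Q n) (Rn n) (mh i n) (vv Q i n) (g i n)

/-- centre of a dyadic square -/
noncomputable def ctr (p : ℕ) (k : ℤ × ℤ) : ℝ × ℝ :=
  (((k.1 : ℝ) + 1 / 2) * side p, ((k.2 : ℝ) + 1 / 2) * side p)

/-- The conditions on the frequencies `Q` and the scales `p`; `Cf` bounds the constants of the
regions `Uu B`, `B` natural. -/
structure GoodSeq (Cf : ℕ → ℝ) (Q p : ℕ → ℕ) : Prop where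
  Q1 : ∀ n, 1 ≤ Q n
  Q0 : ∀ n, 800 * 2 ^ n ≤ omq Q n
  step : ∀ n, p n + 4 ≤ p (n + 1)
  fine : ∀ n, 4096 * (Cf n * Sg Q n) * side (p n) ≤ dlt n
  fast : ∀ n, 4096 * 2 ^ (n + 1) * Cf (n + 1) ≤ omq Q (n + 1) * (dlt n * side (p n))

/-- the plane -/
abbrev Plane : Type := EuclideanSpace ℝ (Fin 2)

/-- the line with normal `th` -/
def lineSet (th : Plane) (q : ℝ) : Set Plane := {x | inner ℝ x th = q}

/-- the line `u` of the chart -/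
def chartLine (u : ℝ × ℝ) : Set Plane := {x | u.1 * x 1 + u.2 * x 0 = 1}

/-- the corner set -/
def Ec (Q : ℕ → ℕ) : Set Plane :=
  {x | 0 < x 0 ∧ 0 < x 1 ∧ (x 1 < x 0 ∨ 5 * x 0 < x 1 ∨ ∃ i : Fin 2, ∃ n : ℕ,
    mh i n * x 0 < x 1 ∧ x 1 < (mh i n + lam (amp n) (omq Q n) (Rn n) (1 / x 0)) * x 0)}

/-- the open unit square -/
def Sq : Set Plane := {x | 0 < x 0 ∧ x 0 < 1 ∧ 0 < x 1 ∧ x 1 < 1}

/-- the small triangle at the corner 0 -/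
def Tri : Set Plane := {x | 0 < x 0 ∧ 0 < x 1 ∧ x 0 + x 1 < 1 / 200}

/-- the four symmetries generated by `x 0 -> 1 - x 0` and `x 1 -> 1 - x 1` -/
noncomputable def refl (s : Bool × Bool) (x : Plane) : Plane :=
  !₂[if s.1 then 1 - x 0 else x 0, if s.2 then 1 - x 1 else x 1]

/-- the set `E_0` -/
def E0 (Q : ℕ → ℕ) : Set Plane := {x | x ∈ Sq ∧ ∀ s : Bool × Bool, refl s x ∈ Tri → refl s x ∈ Ec Q}

/-- the point of height `z.1` with `1 / X = z.2` -/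
noncomputable def psi (z : ℝ × ℝ) : Plane := !₂[1 / z.2, z.1 / z.2]

/-- the part of `N` that is used -/
def Nc (N : Set (ℝ × ℝ)) : Set (ℝ × ℝ) :=
  {z | z ∈ N ∧ z.1 ∈ Icc (19 / 10 : ℝ) (31 / 10) ∧ 1160 < z.2}

/-- the set `E` -/
def Ef (Q : ℕ → ℕ) (N : Set (ℝ × ℝ)) : Set Plane :=
  E0 Q ∪ ⋃ s : Bool × Bool, refl s '' (psi '' Nc N)

/-- the point of the line `u` with parameter `s` -/
noncomputable def pt (u : ℝ × ℝ) (s : ℝ) : Plane := !₂[s / u.2, (1 - s) / u.1]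

/-- the parameter of the point of height `h` -/
noncomputable def sp (u : ℝ × ℝ) (h : ℝ) : ℝ := u.2 / prj h u

end Pool.Agent.H63.CR
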