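import Pool.Agent.H63.CR.GDefs

/-!
# H63/CR/REC: choice of the frequencies and the scales (about 40 min)

Recursion: `Q 0` large (`800 ≤ 16 * pi * Q 0`: `Q 0 = 16`), `p 0` large; given `Q 0 .. Q n` and `p n`, choose
`Q (n + 1)` so large that `fast n` and `Q0 (n + 1)` hold (`16 * pi * Q` is unbounded), then `p (n + 1) ≥ p n + 4`
so large that `fine (n + 1)` holds (`side p` tends to zero, the factor in front is fixed and
depends only on `Q 0 .. Q (n + 1)`; `dlt (n + 1) > 0`).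
Technically: recursion on the pair (list of the previous values) or on triples `(Q n, p n, S n)` with
`S n = Sg Q n` (`S 0 = 1 + 2 * omq Q 0`, `S (n + 1) = S n + 2 * (16 * pi * Q (n + 1))`), then
`Sg Q n = S n` by induction (`Finset.sum_range_succ`).
-/

open MeasureTheory Set Filter
open scoped Topology ENNReal

namespace Pool.Agent.H63.CR

private theorem rec_q (x y : ℝ) : ∃ q : ℕ, 1 ≤ q ∧ x ≤ 16 * Real.pi * q ∧ y ≤ 16 * Real.pi * q := by
  obtain ⟨q, hq⟩ := exists_nat_ge (max x y)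
  refine ⟨q + 1, by omega, ?_, ?_⟩
  · have h1 := (le_max_left x y).trans hq
    have h2 := Real.pi_gt_three
    push_cast
    have h3 : (0 : ℝ) ≤ q := Nat.cast_nonneg q
    nlinarith
  · have h1 := (le_max_right x y).trans hq
    have h2 := Real.pi_gt_three
    push_cast
    have h3 : (0 : ℝ) ≤ q := Nat.cast_nonneg q
    nlinarith

private theorem rec_side_pos (p : ℕ) : 0 < side p := by unfold side; positivity

private theorem rec_p (c e : ℝ) (he : 0 < e) (p0 : ℕ) : ∃ p : ℕ, p0 ≤ p ∧ c * side p ≤ e := by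
  have h0 : 0 < e / (|c| + 1) := by positivity
  obtain ⟨n, hn⟩ := exists_pow_lt_of_lt_one h0 (by norm_num : (1 / 2 : ℝ) < 1)
  refine ⟨max n p0, le_max_right _ _, ?_⟩
  have h1 : side (max n p0) ≤ e / (|c| + 1) := by
    unfold side
    exact (pow_le_pow_of_le_one (by norm_num) (by norm_num) (le_max_left n p0)).trans hn.le
  have h2 := rec_side_pos (max n p0)
  calc c * side (max n p0) ≤ |c| * side (max n p0) := mul_le_mul_of_nonneg_right (le_abs_self c) h2.le
    _ ≤ (|c| + 1) * side (max n p0) := by linarith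
    _ ≤ (|c| + 1) * (e / (|c| + 1)) := mul_le_mul_of_nonneg_left h1 (by positivity)
    _ = e := mul_div_cancel₀ _ (by positivity)

theorem rec_exists (Cf : ℕ → ℝ) (hCf : ∀ n, 1 ≤ Cf n) : ∃ Q p : ℕ → ℕ, GoodSeq Cf Q p := by
  have hd : ∀ n, 0 < dlt n := fun n => by unfold dlt; positivity
  have key : ∀ (n : ℕ) (s : ℕ × ℕ × ℝ), ∃ s' : ℕ × ℕ × ℝ, 1 ≤ s'.1 ∧
      800 * 2 ^ (n + 1) ≤ 16 * Real.pi * s'.1 ∧
      4096 * 2 ^ (n + 1) * Cf (n + 1) ≤ 16 * Real.pi * s'.1 * (dlt n * side s.2.1) ∧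
      s.2.1 + 4 ≤ s'.2.1 ∧ s'.2.2 = s.2.2 + 2 * (16 * Real.pi * s'.1) ∧
      4096 * (Cf (n + 1) * s'.2.2) * side s'.2.1 ≤ dlt (n + 1) := by
    intro n s
    have h1 : 0 < dlt n * side s.2.1 := mul_pos (hd n) (rec_side_pos _)
    obtain ⟨q, hq1, hq2, hq3⟩ := rec_q (800 * 2 ^ (n + 1)) (4096 * 2 ^ (n + 1) * Cf (n + 1) / (dlt n * side s.2.1))
    obtain ⟨p, hp1, hp2⟩ := rec_p (4096 * (Cf (n + 1) * (s.2.2 + 2 * (16 * Real.pi * q)))) (dlt (n + 1)) (hd _)
      (s.2.1 + 4)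
    exact ⟨(q, p, s.2.2 + 2 * (16 * Real.pi * q)), hq1, hq2, (div_le_iff₀ h1).1 hq3, hp1, rfl, hp2⟩
  choose F hF using key
  obtain ⟨q0, hq1, hq2, -⟩ := rec_q 800 0
  obtain ⟨p0, -, hp0⟩ := rec_p (4096 * (Cf 0 * (1 + 2 * (16 * Real.pi * q0)))) (dlt 0) (hd 0) 0
  obtain ⟨T, hT⟩ : ∃ T : ℕ → ℕ × ℕ × ℝ, T = fun n => Nat.rec (q0, p0, 1 + 2 * (16 * Real.pi * q0)) (fun n s => F n s) n :=
    ⟨_, rfl⟩
  have hT0 : T 0 = (q0, p0, 1 + 2 * (16 * Real.pi * q0)) := by
    rw [hT]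
    rfl
  have hTs : ∀ n, T (n + 1) = F n (T n) := by
    intro n
    rw [hT]
  have hS : ∀ n, Sg (fun n => (T n).1) n = (T n).2.2 := by
    intro n
    induction n with
    | zero =>
      unfold Sg omq
      rw [Finset.sum_range_one]
      show 1 + 2 * (16 * Real.pi * ((T 0).1 : ℝ)) = (T 0).2.2
      rw [hT0]
    | succ n ih =>
      have h1 : Sg (fun n => (T n).1) (n + 1) = Sg (fun n => (T n).1) n + 2 * (16 * Real.pi * ((T (n + 1)).1 : ℝ)) := by
        unfold Sg omq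
        rw [Finset.sum_range_succ _ (n + 1)]
        ring
      rw [h1, ih, hTs]
      exact ((hF n (T n)).2.2.2.2.1).symm
  refine ⟨fun n => (T n).1, fun n => (T n).2.1, ?_, ?_, ?_, ?_, ?_⟩
  · intro n
    cases n with
    | zero =>
      show 1 ≤ (T 0).1
      rw [hT0]
      exact hq1
    | succ n =>
      show 1 ≤ (T (n + 1)).1
      rw [hTs]
      exact (hF n (T n)).1
  · intro n
    show 800 * 2 ^ n ≤ 16 * Real.pi * ((T n).1 : ℝ)
    cases n with
    | zero =>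
      rw [hT0, pow_zero, mul_one]
      exact hq2
    | succ n =>
      rw [hTs]
      exact (hF n (T n)).2.1
  · intro n
    show (T n).2.1 + 4 ≤ (T (n + 1)).2.1
    rw [hTs]
    exact (hF n (T n)).2.2.2.1
  · intro n
    rw [hS]
    show 4096 * (Cf n * (T n).2.2) * side (T n).2.1 ≤ dlt n
    cases n with
    | zero =>
      rw [hT0]
      exact hp0
    | succ n =>
      rw [hTs]
      exact (hF n (T n)).2.2.2.2.2
  · intro n
    show 4096 * 2 ^ (n + 1) * Cf (n + 1) ≤ 16 * Real.pi * ((T (n + 1)).1 : ℝ) * (dlt n * side (T n).2.1)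
    rw [hTs]
    exact (hF n (T n)).2.2.1

end Pool.Agent.H63.CR
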