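import Pool.Agent.H63.CR.TAY

/-!
# H63/CR/HFN: the function `Hf` and the bounds for `bas` (about 60 min)

`hf_bounds`: apply `tay_general` to `F (u, h) = Hf u h` on `(ℝ × ℝ) × ℝ`,
`K = Uu B ×ˢ Icc 2 6`, `U = {(u, h) | 0 < u.1 ∧ 0 < u.2 ∧ 0 < h}` (`ContDiffOn`: `La` is the square root
of a positive polynomial, denominators do not vanish), and put
`Hu h u = (fderiv F (u, h) ((1, 0), 0), fderiv F (u, h) ((0, 1), 0))`. By the chain rule
`fderiv F (u, h) (0, 1)` is the derivative of `h ↦ -(La u / (u.1 * (u.2 + u.1 * h)))`, which is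
`La u / prj h u ^ 2 = kap h u`. The norm of `(u' - u, h' - h)` is the maximum of `‖u' - u‖` and
`|h' - h|`, so it is at most their sum and its square at most the sum of the squares. The constant
of `tay_general` bounds everything.
`seg_eq`: field arithmetic, `prj h2 u - prj h1 u = u.1 * (h2 - h1)`.
`bas_bounds`: `tay_plane` with `U = {0 < u.1 ∧ 0 < u.2}`.
-/

open MeasureTheory Set Filter
open scoped Topology ENNReal

namespace Pool.Agent.H63.CR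

lemma seg_eq {u : ℝ × ℝ} {h1 h2 : ℝ} (hu : 0 < u.1) (h1p : 0 < prj h1 u) (h2p : 0 < prj h2 u) :
    seg u h1 h2 = Hf u h2 - Hf u h1 := by
  have e : prj h2 u - prj h1 u = u.1 * (h2 - h1) := by
    unfold prj
    ring
  have h3 : Hf u h2 - Hf u h1 = La u * (prj h2 u - prj h1 u) / (u.1 * prj h1 u * prj h2 u) := by
    unfold Hf
    field_simp
    ring
  rw [h3, e]
  unfold seg
  field_simp

private noncomputable def hfnF (w : (ℝ × ℝ) × ℝ) : ℝ := Hf w.1 w.2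

private lemma hfn_smooth : ContDiffOn ℝ 2 hfnF {w : (ℝ × ℝ) × ℝ | 0 < w.1.1 ∧ 0 < w.1.2 ∧ 0 < w.2} := by
  unfold hfnF Hf La prj
  refine ContDiffOn.neg (ContDiffOn.div (ContDiffOn.sqrt ?_ ?_) ?_ ?_)
  · exact ContDiff.contDiffOn (by fun_prop)
  · rintro w ⟨h1, h2, h3⟩
    positivity
  · exact ContDiff.contDiffOn (by fun_prop)
  · rintro w ⟨h1, h2, h3⟩
    positivity

private lemma hfn_open : IsOpen {w : (ℝ × ℝ) × ℝ | 0 < w.1.1 ∧ 0 < w.1.2 ∧ 0 < w.2} := by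
  have c1 : Continuous fun w : (ℝ × ℝ) × ℝ => w.1.1 := by fun_prop
  have c2 : Continuous fun w : (ℝ × ℝ) × ℝ => w.1.2 := by fun_prop
  have c3 : Continuous fun w : (ℝ × ℝ) × ℝ => w.2 := by fun_prop
  exact (isOpen_lt continuous_const c1).inter
    ((isOpen_lt continuous_const c2).inter (isOpen_lt continuous_const c3))

private lemma hfn_kap {u : ℝ × ℝ} {h : ℝ} (h1 : 0 < u.1) (h2 : 0 < u.2) (h3 : 0 < h) :
    fderiv ℝ hfnF (u, h) (0, 1) = kap h u := by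
  have hd : DifferentiableAt ℝ hfnF (u, h) :=
    (hfn_smooth.contDiffAt (hfn_open.mem_nhds ⟨h1, h2, h3⟩)).differentiableAt (by norm_num)
  have e1 : HasDerivAt (fun t : ℝ => ((u, t) : (ℝ × ℝ) × ℝ)) (0, 1) h :=
    (hasDerivAt_const h u).prodMk (hasDerivAt_id h)
  have e2 := hd.hasFDerivAt.comp_hasDerivAt h e1
  have hp : 0 < u.1 * prj h u := by unfold prj; positivity
  have e3 : HasDerivAt (fun t : ℝ => u.1 * prj t u) (u.1 * u.1) h := by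
    unfold prj
    have := (((hasDerivAt_id h).const_mul u.1).const_add u.2).const_mul u.1
    simpa using this
  have e4 : HasDerivAt (fun t : ℝ => -(La u / (u.1 * prj t u))) (kap h u) h := by
    have := ((hasDerivAt_const h (La u)).div e3 hp.ne').neg
    refine this.congr_deriv ?_
    unfold kap
    have hp2 : prj h u ≠ 0 := by
      intro h0
      rw [h0, mul_zero] at hp
      exact lt_irrefl _ hp
    field_simp
    ring
  exact e2.unique e4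

theorem hf_bounds (B : ℝ) : ∃ C : ℝ, ∃ Hu : ℝ → ℝ × ℝ → ℝ × ℝ, HB B C Hu := by
  have hK : IsCompact (Uu B ×ˢ Icc (2 : ℝ) 6) := (isCompact_Icc.prod isCompact_Icc).prod isCompact_Icc
  have hc : Convex ℝ (Uu B ×ˢ Icc (2 : ℝ) 6) := ((convex_Icc 1 B).prod (convex_Icc 1 B)).prod
    (convex_Icc 2 6)
  have hKU : Uu B ×ˢ Icc (2 : ℝ) 6 ⊆ {w : (ℝ × ℝ) × ℝ | 0 < w.1.1 ∧ 0 < w.1.2 ∧ 0 < w.2} := by
    rintro w ⟨⟨⟨h1, _⟩, ⟨h2, _⟩⟩, ⟨h3, _⟩⟩
    exact ⟨by linarith, by linarith, by linarith⟩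
  obtain ⟨C, hC1, hf0, hf1, hf2, hf3⟩ := tay_general _ hK hc _ hfn_open hKU hfnF hfn_smooth
  have m1 : ‖(((1, 0), 0) : (ℝ × ℝ) × ℝ)‖ = 1 := by simp [Prod.norm_def]
  have m2 : ‖(((0, 1), 0) : (ℝ × ℝ) × ℝ)‖ = 1 := by simp [Prod.norm_def]
  have m3 : ‖((0, 1) : (ℝ × ℝ) × ℝ)‖ = 1 := by simp [Prod.norm_def]
  have key : ∀ L : ((ℝ × ℝ) × ℝ) →L[ℝ] ℝ, ‖((L ((1, 0), 0), L ((0, 1), 0)) : ℝ × ℝ)‖ ≤ ‖L‖ := by
    intro L
    rw [Prod.norm_def]
    refine max_le ?_ ?_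
    · have := L.le_opNorm ((1, 0), 0)
      rwa [m1, mul_one] at this
    · have := L.le_opNorm ((0, 1), 0)
      rwa [m2, mul_one] at this
  have key2 : ∀ L : ((ℝ × ℝ) × ℝ) →L[ℝ] ℝ, |L (0, 1)| ≤ ‖L‖ := by
    intro L
    have := L.le_opNorm (0, 1)
    rwa [m3, mul_one, Real.norm_eq_abs] at this
  have hk : ∀ u ∈ Uu B, ∀ h ∈ Icc (2 : ℝ) 6, fderiv ℝ hfnF (u, h) (0, 1) = kap h u := by
    rintro u ⟨⟨h1, _⟩, ⟨h2, _⟩⟩ h ⟨h3, _⟩
    exact hfn_kap (by linarith) (by linarith) (by linarith)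
  have hn : ∀ (u u' : ℝ × ℝ) (h h' : ℝ), ‖((u', h') : (ℝ × ℝ) × ℝ) - (u, h)‖ =
      max ‖u' - u‖ |h' - h| := by
    intro u u' h h'
    rw [Prod.mk_sub_mk, Prod.norm_def, Real.norm_eq_abs]
  have hn1 : ∀ (u u' : ℝ × ℝ) (h h' : ℝ), ‖((u', h') : (ℝ × ℝ) × ℝ) - (u, h)‖ ≤
      ‖u' - u‖ + |h' - h| := by
    intro u u' h h'
    rw [hn]
    exact max_le (le_add_of_nonneg_right (abs_nonneg _)) (le_add_of_nonneg_left (norm_nonneg _))
  have hn2 : ∀ (u u' : ℝ × ℝ) (h h' : ℝ), ‖((u', h') : (ℝ × ℝ) × ℝ) - (u, h)‖ ^ 2 ≤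
      ‖u' - u‖ ^ 2 + |h' - h| ^ 2 := by
    intro u u' h h'
    rw [hn]
    rcases le_total ‖u' - u‖ |h' - h| with h0 | h0
    · rw [max_eq_right h0]
      exact le_add_of_nonneg_left (sq_nonneg _)
    · rw [max_eq_left h0]
      exact le_add_of_nonneg_right (sq_nonneg _)
  have hC0 : 0 ≤ C := by linarith
  refine ⟨C, fun h u => (fderiv ℝ hfnF (u, h) ((1, 0), 0), fderiv ℝ hfnF (u, h) ((0, 1), 0)),
    hC1, ?_, ?_, ?_, ?_, ?_⟩
  · intro u hu u' hu' h hh h' hh'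
    have h1 := hf3 (u, h) ⟨hu, hh⟩ (u', h') ⟨hu', hh'⟩
    refine le_trans (le_of_eq ?_) (h1.trans (mul_le_mul_of_nonneg_left (hn2 u u' h h') hC0))
    rw [← hk u hu h hh]
    have e : ((u', h') : (ℝ × ℝ) × ℝ) - (u, h) = (u' - u).1 • (((1, 0), 0) : (ℝ × ℝ) × ℝ) +
        (u' - u).2 • (((0, 1), 0) : (ℝ × ℝ) × ℝ) + (h' - h) • ((0, 1) : (ℝ × ℝ) × ℝ) := by
      ext <;> simp
    rw [e, map_add, map_add, map_smul, map_smul, map_smul]
    unfold dot hfnF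
    simp only [smul_eq_mul]
    congr 1
    ring
  · intro u hu u' hu' h hh h' hh'
    have h1 := hf2 (u, h) ⟨hu, hh⟩ (u', h') ⟨hu', hh'⟩
    refine le_trans ?_ (h1.trans (mul_le_mul_of_nonneg_left (hn1 u u' h h') hC0))
    exact key (fderiv ℝ hfnF (u', h') - fderiv ℝ hfnF (u, h))
  · intro u hu h hh
    exact (key _).trans (hf1 (u, h) ⟨hu, hh⟩)
  · intro u hu h hh
    rw [← hk u hu h hh]
    exact (key2 _).trans (hf1 (u, h) ⟨hu, hh⟩)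
  · intro u hu u' hu' h hh h' hh'
    rw [← hk u hu h hh, ← hk u' hu' h' hh']
    have h1 := hf2 (u, h) ⟨hu, hh⟩ (u', h') ⟨hu', hh'⟩
    refine le_trans ?_ (h1.trans (mul_le_mul_of_nonneg_left (hn1 u u' h h') hC0))
    exact key2 (fderiv ℝ hfnF (u', h') - fderiv ℝ hfnF (u, h))

theorem bas_bounds (B : ℝ) :
    ∃ C : ℝ, 1 ≤ C ∧ ∃ gb : ℝ × ℝ → ℝ × ℝ, (∀ u ∈ Uu B, ‖gb u‖ ≤ C) ∧
      (∀ u ∈ Uu B, ∀ u' ∈ Uu B, ‖gb u' - gb u‖ ≤ C * ‖u' - u‖) ∧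
      ∀ u ∈ Uu B, ∀ u' ∈ Uu B, |bas u' - bas u - dot (gb u) (u' - u)| ≤ C * ‖u' - u‖ ^ 2 := by
  have hU : IsOpen {u : ℝ × ℝ | 0 < u.1 ∧ 0 < u.2} :=
    (isOpen_lt continuous_const continuous_fst).inter (isOpen_lt continuous_const continuous_snd)
  have hKU : Uu B ⊆ {u : ℝ × ℝ | 0 < u.1 ∧ 0 < u.2} := by
    rintro u ⟨⟨h1, _⟩, ⟨h2, _⟩⟩
    exact ⟨by linarith, by linarith⟩
  have hs : ContDiffOn ℝ 2 bas {u : ℝ × ℝ | 0 < u.1 ∧ 0 < u.2} := by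
    unfold bas La
    refine ContDiffOn.add (ContDiffOn.div (ContDiffOn.sqrt ?_ ?_) ?_ ?_)
      (ContDiffOn.div (ContDiffOn.sqrt ?_ ?_) ?_ ?_)
    · exact ContDiff.contDiffOn (by fun_prop)
    · rintro w ⟨h1, h2⟩
      positivity
    · exact ContDiff.contDiffOn (by fun_prop)
    · rintro w ⟨h1, h2⟩
      positivity
    · exact ContDiff.contDiffOn (by fun_prop)
    · rintro w ⟨h1, h2⟩
      positivity
    · exact ContDiff.contDiffOn (by fun_prop)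
    · rintro w ⟨h1, h2⟩
      positivity
  obtain ⟨C, hC, g, _, h1, h2, h3⟩ := tay_plane B _ hU hKU bas hs
  exact ⟨C, hC, g, h1, h2, h3⟩

end Pool.Agent.H63.CR
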