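import Pool.Agent.H63.CR.ZDI
import Pool.Agent.H63.CR.HFN

/-!
# H63/CR/WVB: Taylor bound and Lipschitz bound of a wall (about 60 min)

Write `z = zet a om R u.1 (prj m u)`, `xi = xiz a om R u.1 (prj m u)`, primes for `u'`,
`D = ‖u' - u‖`. `vw a om R m u = Hf u (m + z) - Hf u m` (`seg_eq`), `m, m + z ∈ [2, 6]`,
`|z' - z| ≤ 8 * a * D ≤ 8 * D` (`zdi_lip`).
* `wvb_tay`: `vw u' - vw u - dot (gw u) (u' - u)` is the sum of
  `Hf u' (m + z') - Hf u (m + z) - dot (Hu (m + z) u) (u' - u) - kap (m + z) u * (z' - z)`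
  (at most `C * (D ^ 2 + 64 * D ^ 2)`, `HB.tay`),
  minus `Hf u' m - Hf u m - dot (Hu m u) (u' - u)` (at most `C * D ^ 2`),
  plus `kap (m + z) u * (z' - z - xi * ((m + z) * dal + dbe))` (at most `C * 100 * om * D ^ 2`,
  `zdi_tay`); `om ≥ 1`.
* `wvb_lip`: `Hu (m + z') u' - Hu (m + z) u` and `Hu m u' - Hu m u` are at most `C * 9 * D`;
  `(kap' * xi') • (m + z', 1) - (kap * xi) • (m + z, 1)` is the sum of
  `((kap' - kap) * xi') • (m + z', 1)` (at most `C * 9 * D * 2 * 6`),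
  `(kap * (xi' - xi)) • (m + z', 1)` (at most `C * 16 * om * D * 6`, `zdi_xi`) and
  `(kap * xi) • (z' - z, 0)` (at most `C * 2 * 8 * D`).
-/

open MeasureTheory Set Filter
open scoped Topology ENNReal

namespace Pool.Agent.H63.CR

variable {B C a om R m : ℝ} {Hu : ℝ → ℝ × ℝ → ℝ × ℝ}

private theorem wvb_in (h : Adm a om R m) {u : ℝ × ℝ} (hu : u ∈ Uu B) :
    m ∈ Icc (2 : ℝ) 6 ∧ m + zet a om R u.1 (prj m u) ∈ Icc (2 : ℝ) 6 := by
  obtain ⟨h0, -, h2, -⟩ := zdi_bd h hu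
  have h3 := h.m2
  have h4 := h.m4
  exact ⟨⟨h3, by linarith⟩, ⟨by linarith, by linarith⟩⟩

private theorem wvb_pair {x : ℝ} (h0 : 0 ≤ x) (h1 : x ≤ 6) : ‖((x, 1) : ℝ × ℝ)‖ ≤ 6 := by
  rw [Prod.norm_def]
  apply max_le
  · show ‖x‖ ≤ 6
    rw [Real.norm_eq_abs, abs_of_nonneg h0]
    exact h1
  · show ‖(1 : ℝ)‖ ≤ 6
    rw [norm_one]
    norm_num

private theorem wvb_vw (h : Adm a om R m) {u : ℝ × ℝ} (hu : u ∈ Uu B) :
    vw a om R m u = Hf u (m + zet a om R u.1 (prj m u)) - Hf u m := by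
  obtain ⟨h0, -, h2, -⟩ := zdi_bd h hu
  obtain ⟨⟨hu1, -⟩, ⟨hu2, -⟩⟩ := hu
  have h3 := h.m2
  have hpos : ∀ x : ℝ, 0 ≤ x → 0 < prj x u := by
    intro x hx
    unfold prj
    have : 0 ≤ u.1 * x := mul_nonneg (by linarith) hx
    linarith
  unfold vw
  exact seg_eq (by linarith) (hpos m (by linarith)) (hpos _ (by linarith))

theorem wvb_tay (hH : HB B C Hu) (h : Adm a om R m) {u u' : ℝ × ℝ} (hu : u ∈ Uu B)
    (hu' : u' ∈ Uu B) :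
    |vw a om R m u' - vw a om R m u - dot (gw Hu a om R m u) (u' - u)| ≤
      1000 * C * om * ‖u' - u‖ ^ 2 := by
  obtain ⟨hm, hmz⟩ := wvb_in h hu
  obtain ⟨-, hmz'⟩ := wvb_in h hu'
  have hC := hH.one
  have ha := h.a0
  have ha1 := h.a1
  have hom := h.om1
  have hlip := zdi_lip h hu hu'
  have htay := zdi_tay h hu hu'
  have h1 := hH.tay u hu u' hu' _ hmz _ hmz'
  have h2 := hH.tay u hu u' hu' m hm m hm
  have h3 := hH.kbd u hu _ hmz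
  rw [wvb_vw h hu, wvb_vw h hu']
  unfold gw
  obtain ⟨z, hz⟩ : ∃ z, z = zet a om R u.1 (prj m u) := ⟨_, rfl⟩
  obtain ⟨z', hz'⟩ : ∃ z', z' = zet a om R u'.1 (prj m u') := ⟨_, rfl⟩
  obtain ⟨xi, hxi'⟩ : ∃ xi, xi = xiz a om R u.1 (prj m u) := ⟨_, rfl⟩
  obtain ⟨D, hD⟩ : ∃ D, D = ‖u' - u‖ := ⟨_, rfl⟩
  have hD0 : 0 ≤ D := by rw [hD]; exact norm_nonneg _
  rw [← hz, ← hz'] at h1
  rw [← hz] at h3
  rw [← hz, ← hz'] at hlip htay
  rw [← hz, ← hz', ← hxi']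
  rw [← hxi'] at htay
  rw [← hD] at h1 h2 hlip htay ⊢
  obtain ⟨k, hk⟩ : ∃ k, k = kap (m + z) u := ⟨_, rfl⟩
  rw [← hk] at h1 h3 ⊢
  have hl2 : |z' - z| ≤ 8 * D := by
    refine hlip.trans ?_
    nlinarith
  have e1 : m + z' - (m + z) = z' - z := by ring
  rw [e1] at h1
  rw [sub_self, abs_zero] at h2
  have hsq : |z' - z| ^ 2 ≤ (8 * D) ^ 2 := pow_le_pow_left₀ (abs_nonneg _) hl2 2
  have h1' := h1.trans (mul_le_mul_of_nonneg_left (add_le_add (le_refl (D ^ 2)) hsq) (by linarith : (0 : ℝ) ≤ C))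
  have h4 : |k * (z' - z - xi * ((m + z) * (u'.1 - u.1) + (u'.2 - u.2)))| ≤ C * (100 * om * D ^ 2) := by
    rw [abs_mul]
    exact mul_le_mul h3 htay (abs_nonneg _) (by linarith)
  have hdec : Hf u' (m + z') - Hf u' m - (Hf u (m + z) - Hf u m) -
      dot (Hu (m + z) u - Hu m u + (k * xi) • ((m + z, 1) : ℝ × ℝ)) (u' - u) =
      (Hf u' (m + z') - Hf u (m + z) - dot (Hu (m + z) u) (u' - u) - k * (z' - z)) -
      (Hf u' m - Hf u m - dot (Hu m u) (u' - u) - kap m u * 0) +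
      k * (z' - z - xi * ((m + z) * (u'.1 - u.1) + (u'.2 - u.2))) := by
    unfold dot
    simp only [Prod.fst_add, Prod.snd_add, Prod.fst_sub, Prod.snd_sub, Prod.smul_fst, Prod.smul_snd, smul_eq_mul]
    ring
  rw [hdec]
  have hD2 : 0 ≤ C * D ^ 2 := by positivity
  have hD3 : C * D ^ 2 ≤ C * D ^ 2 * om := by nlinarith
  have t1 := abs_add_le ((Hf u' (m + z') - Hf u (m + z) - dot (Hu (m + z) u) (u' - u) - k * (z' - z)) -
      (Hf u' m - Hf u m - dot (Hu m u) (u' - u) - kap m u * 0))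
      (k * (z' - z - xi * ((m + z) * (u'.1 - u.1) + (u'.2 - u.2))))
  have t2 := abs_sub (Hf u' (m + z') - Hf u (m + z) - dot (Hu (m + z) u) (u' - u) - k * (z' - z))
      (Hf u' m - Hf u m - dot (Hu m u) (u' - u) - kap m u * 0)
  calc _ ≤ _ := t1
    _ ≤ C * (D ^ 2 + (8 * D) ^ 2) + C * (D ^ 2 + 0 ^ 2) + C * (100 * om * D ^ 2) :=
      add_le_add (t2.trans (add_le_add h1' h2)) h4
    _ = 66 * (C * D ^ 2) + 100 * (C * D ^ 2 * om) := by ring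
    _ ≤ 1000 * (C * D ^ 2 * om) := by linarith
    _ = 1000 * C * om * D ^ 2 := by ring

theorem wvb_lip (hH : HB B C Hu) (h : Adm a om R m) {u u' : ℝ × ℝ} (hu : u ∈ Uu B)
    (hu' : u' ∈ Uu B) :
    ‖gw Hu a om R m u' - gw Hu a om R m u‖ ≤ 1000 * C * om * ‖u' - u‖ := by
  obtain ⟨hm, hmz⟩ := wvb_in h hu
  obtain ⟨-, hmz'⟩ := wvb_in h hu'
  have hC := hH.one
  have ha := h.a0
  have ha1 := h.a1
  have hom := h.om1
  have hlip := zdi_lip h hu hu'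
  have hxl := zdi_xi h hu hu'
  obtain ⟨-, -, -, hxi⟩ := zdi_bd h hu
  obtain ⟨-, -, -, hxi2⟩ := zdi_bd h hu'
  have h1 := hH.lip u hu u' hu' _ hmz _ hmz'
  have h2 := hH.lip u hu u' hu' m hm m hm
  have h3 := hH.kbd u hu _ hmz
  have h5 := hH.klip u hu u' hu' _ hmz _ hmz'
  unfold gw
  obtain ⟨z, hz⟩ : ∃ z, z = zet a om R u.1 (prj m u) := ⟨_, rfl⟩
  obtain ⟨z', hz'⟩ : ∃ z', z' = zet a om R u'.1 (prj m u') := ⟨_, rfl⟩
  obtain ⟨xi, hxi'⟩ : ∃ xi, xi = xiz a om R u.1 (prj m u) := ⟨_, rfl⟩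
  obtain ⟨xi2, hxi2'⟩ : ∃ xi, xi = xiz a om R u'.1 (prj m u') := ⟨_, rfl⟩
  obtain ⟨D, hD⟩ : ∃ D, D = ‖u' - u‖ := ⟨_, rfl⟩
  have hD0 : 0 ≤ D := by rw [hD]; exact norm_nonneg _
  rw [← hz, ← hz'] at h1 h5
  rw [← hz] at h3
  rw [← hz, ← hz'] at hlip
  rw [← hz'] at hmz'
  rw [← hxi'] at hxi
  rw [← hxi2'] at hxi2
  rw [← hxi', ← hxi2'] at hxl
  rw [← hz, ← hz', ← hxi', ← hxi2']
  rw [← hD] at h1 h2 h5 hlip hxl ⊢
  obtain ⟨k, hk⟩ : ∃ k, k = kap (m + z) u := ⟨_, rfl⟩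
  obtain ⟨k', hk'⟩ : ∃ k, k = kap (m + z') u' := ⟨_, rfl⟩
  rw [← hk] at h3 h5 ⊢
  rw [← hk'] at h5 ⊢
  have hl2 : |z' - z| ≤ 8 * D := by
    refine hlip.trans ?_
    nlinarith
  have e1 : m + z' - (m + z) = z' - z := by ring
  rw [e1] at h1 h5
  rw [sub_self, abs_zero, add_zero] at h2
  have h1' : ‖Hu (m + z') u' - Hu (m + z) u‖ ≤ C * (D + 8 * D) :=
    h1.trans (mul_le_mul_of_nonneg_left (add_le_add le_rfl hl2) (by linarith))
  have h5' : |k' - k| ≤ C * (D + 8 * D) :=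
    h5.trans (mul_le_mul_of_nonneg_left (add_le_add le_rfl hl2) (by linarith))
  have hp := wvb_pair (x := m + z') (by linarith [hmz'.1]) hmz'.2
  have hdec : Hu (m + z') u' - Hu m u' + (k' * xi2) • ((m + z', 1) : ℝ × ℝ) -
      (Hu (m + z) u - Hu m u + (k * xi) • ((m + z, 1) : ℝ × ℝ)) =
      (Hu (m + z') u' - Hu (m + z) u) - (Hu m u' - Hu m u) + ((k' - k) * xi2) • ((m + z', 1) : ℝ × ℝ) +
        (k * (xi2 - xi)) • ((m + z', 1) : ℝ × ℝ) + (k * xi) • ((z' - z, 0) : ℝ × ℝ) := by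
    apply Prod.ext
    · simp only [Prod.fst_add, Prod.fst_sub, Prod.smul_fst, smul_eq_mul]
      ring
    · simp only [Prod.snd_add, Prod.snd_sub, Prod.smul_snd, smul_eq_mul]
      ring
  rw [hdec]
  have t2 : ‖((k' - k) * xi2) • ((m + z', 1) : ℝ × ℝ)‖ ≤ C * (D + 8 * D) * 2 * 6 := by
    rw [norm_smul, Real.norm_eq_abs, abs_mul]
    exact mul_le_mul (mul_le_mul h5' (hxi2.trans (by linarith))
      (abs_nonneg _) (by positivity)) hp (norm_nonneg _) (by positivity)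
  have t3 : ‖(k * (xi2 - xi)) • ((m + z', 1) : ℝ × ℝ)‖ ≤ C * (16 * om * D) * 6 := by
    rw [norm_smul, Real.norm_eq_abs, abs_mul]
    exact mul_le_mul (mul_le_mul h3 hxl (abs_nonneg _) (by linarith)) hp (norm_nonneg _) (by positivity)
  have t4 : ‖(k * xi) • ((z' - z, 0) : ℝ × ℝ)‖ ≤ C * 2 * (8 * D) := by
    rw [norm_smul, Real.norm_eq_abs, abs_mul]
    refine mul_le_mul (mul_le_mul h3 (hxi.trans (by linarith)) (abs_nonneg _) (by linarith)) ?_ (norm_nonneg _)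
      (by positivity)
    rw [Prod.norm_def]
    apply max_le
    · show ‖z' - z‖ ≤ _
      rw [Real.norm_eq_abs]
      exact hl2
    · show ‖(0 : ℝ)‖ ≤ _
      rw [norm_zero]
      linarith
  have hD2 : 0 ≤ C * D := by positivity
  have hD3 : C * D ≤ C * D * om := by nlinarith
  calc _ ≤ ‖(Hu (m + z') u' - Hu (m + z) u) - (Hu m u' - Hu m u) + ((k' - k) * xi2) • ((m + z', 1) : ℝ × ℝ) +
        (k * (xi2 - xi)) • ((m + z', 1) : ℝ × ℝ)‖ + ‖(k * xi) • ((z' - z, 0) : ℝ × ℝ)‖ := norm_add_le _ _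
    _ ≤ ‖(Hu (m + z') u' - Hu (m + z) u) - (Hu m u' - Hu m u) + ((k' - k) * xi2) • ((m + z', 1) : ℝ × ℝ)‖ +
        ‖(k * (xi2 - xi)) • ((m + z', 1) : ℝ × ℝ)‖ + ‖(k * xi) • ((z' - z, 0) : ℝ × ℝ)‖ :=
      add_le_add (norm_add_le _ _) le_rfl
    _ ≤ ‖(Hu (m + z') u' - Hu (m + z) u) - (Hu m u' - Hu m u)‖ + ‖((k' - k) * xi2) • ((m + z', 1) : ℝ × ℝ)‖ +
        ‖(k * (xi2 - xi)) • ((m + z', 1) : ℝ × ℝ)‖ + ‖(k * xi) • ((z' - z, 0) : ℝ × ℝ)‖ :=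
      add_le_add (add_le_add (norm_add_le _ _) le_rfl) le_rfl
    _ ≤ ‖Hu (m + z') u' - Hu (m + z) u‖ + ‖Hu m u' - Hu m u‖ + ‖((k' - k) * xi2) • ((m + z', 1) : ℝ × ℝ)‖ +
        ‖(k * (xi2 - xi)) • ((m + z', 1) : ℝ × ℝ)‖ + ‖(k * xi) • ((z' - z, 0) : ℝ × ℝ)‖ :=
      add_le_add (add_le_add (add_le_add (norm_sub_le _ _) le_rfl) le_rfl) le_rfl
    _ ≤ C * (D + 8 * D) + C * D + C * (D + 8 * D) * 2 * 6 + C * (16 * om * D) * 6 + C * 2 * (8 * D) :=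
      add_le_add (add_le_add (add_le_add (add_le_add h1' h2) t2) t3) t4
    _ = 134 * (C * D) + 96 * (C * D * om) := by ring
    _ ≤ 1000 * (C * D * om) := by linarith
    _ = 1000 * C * om * D := by ring

end Pool.Agent.H63.CR
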