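import Pool.Agent.H63.CR.WVA
import Pool.Agent.H63.CR.WVB
import Pool.Agent.H63.CR.ADM

/-!
# H63/CR/WVE: all gradients on `Uu B` (assembly, about 30 min)

`hf_bounds B` gives `C1`, `Hu`; `bas_bounds B` gives `C2`, `gb`. Take
`C = 1000 * C1 * B + C2` (at least every constant that occurs: `100 * C1`, `100 * C1 * B`,
`1000 * C1`, `C1`, `C2`) and `g i n = gw Hu (amp n) (omq Q n) (Rn n) (mh i n)`; `vv Q i n` is by
definition `vw (amp n) (omq Q n) (Rn n) (mh i n)`. Fields: `wva_size`, `wva_grad`, `wvb_tay`, `wvb_lip`,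
`wva_main` with `adm`; `HB.klip`, `HB.kbd`. (For `u, u'` in `Uu B` all right hand sides are monotone
in the constant.)
-/

open MeasureTheory Set Filter
open scoped Topology ENNReal

namespace Pool.Agent.H63.CR

theorem dat_exists (B : ℝ) (hB : 1 ≤ B) :
    ∃ C : ℝ, 1 ≤ C ∧ ∀ Q : ℕ → ℕ, (∀ n, 1 ≤ Q n) →
      ∃ (gb : ℝ × ℝ → ℝ × ℝ) (g : Fin 2 → ℕ → ℝ × ℝ → ℝ × ℝ), Dat B C Q gb g := by
  obtain ⟨C1, Hu, hH⟩ := hf_bounds B
  obtain ⟨C2, hC2, gb, hb1, hb2, hb3⟩ := bas_bounds B
  have hC1 := hH.one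
  obtain ⟨C, hC⟩ : ∃ C, C = 1000 * C1 * B + C2 := ⟨_, rfl⟩
  have hCB : C1 ≤ C1 * B := by nlinarith
  have h1 : 1000 * C1 ≤ C := by rw [hC]; linarith
  have h2 : C2 ≤ C := by rw [hC]; nlinarith
  have h3 : 100 * C1 * B ≤ C := by rw [hC]; nlinarith
  have h4 : C1 ≤ C := by linarith
  have h5 : 100 * C1 ≤ C := by linarith
  refine ⟨C, by linarith, ?_⟩
  intro Q hQ
  refine ⟨gb, fun i n => gw Hu (amp n) (omq Q n) (Rn n) (mh i n), ?_⟩
  refine { one := by linarith
           bgrad := fun u hu => (hb1 u hu).trans h2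
           btay := fun u hu u' hu' => (hb3 u hu u' hu').trans (mul_le_mul_of_nonneg_right h2 (sq_nonneg _))
           blip := fun u hu u' hu' => (hb2 u hu u' hu').trans (mul_le_mul_of_nonneg_right h2 (norm_nonneg _))
           klip := fun u hu u' hu' h hh h' hh' => (hH.klip u hu u' hu' h hh h' hh').trans
             (mul_le_mul_of_nonneg_right h4 (add_nonneg (norm_nonneg _) (abs_nonneg _)))
           kbd := fun u hu h hh => (hH.kbd u hu h hh).trans h4
           wave := ?_ }
  intro i n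
  have ha := adm hQ i n
  have ha0 := ha.a0
  have hom := ha.om1
  refine { size := ?_, grad := ?_, tay := ?_, lip := ?_, main := ?_ }
  · intro u hu
    refine (wva_size hH ha hu).trans ?_
    rw [mul_div_assoc, mul_div_assoc]
    exact mul_le_mul_of_nonneg_right h5 (by positivity)
  · intro u hu
    exact (wva_grad hH ha hu).trans (mul_le_mul_of_nonneg_right h5 ha0.le)
  · intro u hu u' hu'
    refine (wvb_tay hH ha hu hu').trans ?_
    exact mul_le_mul_of_nonneg_right (mul_le_mul_of_nonneg_right h1 (by linarith)) (sq_nonneg _)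
  · intro u hu u' hu'
    refine (wvb_lip hH ha hu hu').trans ?_
    exact mul_le_mul_of_nonneg_right (mul_le_mul_of_nonneg_right h1 (by linarith)) (norm_nonneg _)
  · intro u hu hR
    refine (wva_main hB hH ha hu hR).trans ?_
    exact mul_le_mul_of_nonneg_right h3 (by positivity)

end Pool.Agent.H63.CR
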