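import Pool.Agent.H63.CR.WLK
import Pool.Agent.H63.CR.WVE
import Pool.Agent.H63.CR.REC
import Pool.Agent.H63.CR.ABS

/-!
# H63/CR/GEX: the parameters exist; the null sets for almost every value (about 50 min)

`gex`: for natural `B ≥ 1` let `C_B` be the constant of `dat_exists B`. `Cf n = max` of `C_B` over
`1 ≤ B ≤ n + 1` (so `1 ≤ Cf n` and `C_B ≤ Cf n` for `n ≥ B`). `rec_exists Cf` gives `Q, p`. For `u0` choose a natural
`B` larger than both coordinates, `dat_exists`, `wlk` (with `n1 = B`), `n0 = n2`, `mid_exists`.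
`gov`: the set of pairs `(n0, k0)` is countable; for every pair for which a walk exists apply
`abs_main`, and take the union of the null sets `N` of the pairs (`ae_all_iff`, `Countable`; for the pairs
without a walk take the empty set). If `ff Q u = t`, `1 < u.1`, `1 < u.2` then `u` is in some `mid (p n0) k0` with a walk.
If `ff Q u' ≠ t` then every `N` meets the line `u'` in measure zero, and a countable union of null
sets is null.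
-/

open MeasureTheory Set Filter
open scoped Topology ENNReal

namespace Pool.Agent.H63.CR

theorem gex : ∃ Q p : ℕ → ℕ, (∀ n, 1 ≤ Q n) ∧ (∀ n, 800 * 2 ^ n ≤ omq Q n) ∧
    ∀ u0 : ℝ × ℝ, 1 < u0.1 → 1 < u0.2 → ∃ (n0 : ℕ) (k0 : ℤ × ℤ) (G : ℕ → ℤ × ℤ → ℝ × ℝ) (C c : ℝ)
      (w : Fin 3 → ℝ × ℝ × ℝ), u0 ∈ mid (p n0) k0 ∧ IsWalk (ff Q) p G n0 k0 C c w := by
  have hex : ∀ B : ℕ, ∃ C : ℝ, 1 ≤ C ∧ ∀ Q : ℕ → ℕ, (∀ n, 1 ≤ Q n) →
      ∃ (gb : ℝ × ℝ → ℝ × ℝ) (g : Fin 2 → ℕ → ℝ × ℝ → ℝ × ℝ), Dat (B + 1 : ℝ) C Q gb g := by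
    intro B
    exact dat_exists (B + 1 : ℝ) (by have : (0 : ℝ) ≤ B := Nat.cast_nonneg B; linarith)
  choose Cb hCb1 hCb using hex
  let Cf : ℕ → ℝ := fun n => ∑ B ∈ Finset.range (n + 1), Cb B
  have hCf1 : ∀ n, 1 ≤ Cf n := by
    intro n
    calc (1 : ℝ) ≤ Cb 0 := hCb1 0
      _ ≤ Cf n := Finset.single_le_sum (f := Cb) (fun i _ => by linarith [hCb1 i])
          (Finset.mem_range.mpr (Nat.succ_pos n))
  have hCfB : ∀ B n, B ≤ n → Cb B ≤ Cf n := by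
    intro B n h
    exact Finset.single_le_sum (f := Cb) (fun i _ => by linarith [hCb1 i])
          (Finset.mem_range.mpr (Nat.lt_succ_of_le h))
  obtain ⟨Q, p, hG⟩ := rec_exists Cf hCf1
  refine ⟨Q, p, hG.Q1, hG.Q0, ?_⟩
  intro u0 h1 h2
  obtain ⟨B, hB⟩ := exists_nat_gt (max u0.1 u0.2)
  obtain ⟨gb, g, hD⟩ := hCb B Q hG.Q1
  obtain ⟨n2, hn2⟩ := wlk hG hD (n1 := B) (fun j hj => hCfB B j hj) h1 h2
    (by have := le_max_left u0.1 u0.2; linarith) (by have := le_max_right u0.1 u0.2; linarith)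
  obtain ⟨k0, hk0⟩ := mid_exists (p n2) u0
  obtain ⟨G, C', c, w, hW⟩ := hn2 n2 le_rfl k0 hk0
  exact ⟨n2, k0, G, C', c, w, hk0, hW⟩

theorem gov {Q p : ℕ → ℕ} (h : ∀ u0 : ℝ × ℝ, 1 < u0.1 → 1 < u0.2 → ∃ (n0 : ℕ) (k0 : ℤ × ℤ)
      (G : ℕ → ℤ × ℤ → ℝ × ℝ) (C c : ℝ) (w : Fin 3 → ℝ × ℝ × ℝ),
        u0 ∈ mid (p n0) k0 ∧ IsWalk (ff Q) p G n0 k0 C c w) :
    ∀ᵐ t ∂(volume : Measure ℝ), ∃ N : Set (ℝ × ℝ), volume N = 0 ∧
      (∀ u : ℝ × ℝ, 1 < u.1 → 1 < u.2 → ff Q u = t → ∃ i : Fin 3, ∀ h ∈ gap i, (h, prj h u) ∈ N) ∧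
      ∀ u' : ℝ × ℝ, ff Q u' ≠ t → volume {h : ℝ | (h, prj h u') ∈ N} = 0 := by
  have key : ∀ x : ℕ × (ℤ × ℤ), ∀ᵐ t ∂(volume : Measure ℝ), ∃ N : Set (ℝ × ℝ), volume N = 0 ∧
      (∀ u : ℝ × ℝ, (∃ (G : ℕ → ℤ × ℤ → ℝ × ℝ) (C c : ℝ)
      (w : Fin 3 → ℝ × ℝ × ℝ), u ∈ mid (p x.1) x.2 ∧ IsWalk (ff Q) p G x.1 x.2 C c w) →
        ff Q u = t → ∃ i : Fin 3, ∀ h ∈ gap i, (h, prj h u) ∈ N) ∧
      ∀ u' : ℝ × ℝ, ff Q u' ≠ t → volume {h : ℝ | (h, prj h u') ∈ N} = 0 := by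
    intro x
    by_cases hx : ∃ (G : ℕ → ℤ × ℤ → ℝ × ℝ) (C c : ℝ) (w : Fin 3 → ℝ × ℝ × ℝ),
        IsWalk (ff Q) p G x.1 x.2 C c w
    · obtain ⟨G, C, c, w, hW⟩ := hx
      filter_upwards [abs_main hW] with t ht
      obtain ⟨N, hN0, -, hN1, hN2⟩ := ht
      refine ⟨N, hN0, ?_, ?_⟩
      · rintro u ⟨_, _, _, _, hu, -⟩ hut
        exact hN1 u hu hut
      · intro u' hu'
        exact hN2 u' fun hh => hu' hh.2
    · refine Filter.Eventually.of_forall fun t => ⟨∅, measure_empty, ?_, ?_⟩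
      · rintro u ⟨G, C, c, w, -, hW⟩ _
        exact absurd ⟨G, C, c, w, hW⟩ hx
      · intro u' _
        simp
  have key2 := ae_all_iff.mpr key
  filter_upwards [key2] with t ht
  choose N hN0 hN1 hN2 using ht
  refine ⟨⋃ x, N x, measure_iUnion_null hN0, ?_, ?_⟩
  · intro u h1 h2 hut
    obtain ⟨n0, k0, G, C, c, w, hu, hW⟩ := h u h1 h2
    obtain ⟨i, hi⟩ := hN1 (n0, k0) u ⟨G, C, c, w, hu, hW⟩ hut
    exact ⟨i, fun h hh => mem_iUnion.mpr ⟨(n0, k0), hi h hh⟩⟩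
  · intro u' hu'
    have : {h : ℝ | (h, prj h u') ∈ ⋃ x, N x} = ⋃ x, {h : ℝ | (h, prj h u') ∈ N x} := by
      ext h
      simp
    rw [this]
    exact measure_iUnion_null fun x => hN2 x u' hu'

end Pool.Agent.H63.CR
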