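import Pool.Agent.H63.CR.GDefs

/-!
# H63/CR/LAM: the function `lam` (calculus, about 50 min)

`om * R = 2 * pi * N`, so `cos (om * R) = 1` and `sin (om * R) = 0`: `lam` and `lamD` are continuous
at the cut `R`.
* `0 ≤ 1 - cos ≤ 2`.
* Derivative: for `x < R` and `R < x` clear (`HasDerivAt.congr_of_eventuallyEq`); at `R` both one sided
  derivatives are `0` (or: `|lam y| ≤ a * om * (y - R) ^ 2` near `R`, because `1 - cos s ≤ s ^ 2 / 2`
  with `s = om * (y - R)`).
* `|lamD| ≤ a`. Lipschitz: `lamD x = a * sin (om * min x R)` (for `x > R`: `sin (om * R) = 0`), and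
  `sin` is 1-Lipschitz, `|min y R - min x R| ≤ |y - x|`.
* `lam_lip`: mean value inequality. `lam_tay`: mean value inequality for
  `y ↦ lam y - lamD x * y` between `x` and `y` (derivative at most `a * om * |y - x|`).
-/

open MeasureTheory Set Filter
open scoped Topology ENNReal

namespace Pool.Agent.H63.CR

variable {a om R m : ℝ}

private lemma lamx_cos (h : Adm a om R m) : Real.cos (om * R) = 1 := by
  obtain ⟨N, hN⟩ := h.per
  rw [hN, mul_comm (2 * Real.pi)]
  exact Real.cos_nat_mul_two_pi N

private lemma lamx_sin (h : Adm a om R m) : Real.sin (om * R) = 0 := by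
  have h1 := Real.sin_sq_add_cos_sq (om * R)
  rw [lamx_cos h] at h1
  have h2 : Real.sin (om * R) ^ 2 = 0 := by linarith
  exact pow_eq_zero_iff two_ne_zero |>.1 h2

lemma lam_nonneg (h : Adm a om R m) (x : ℝ) : 0 ≤ lam a om R x := by
  unfold lam
  have h1 := h.a0
  have h2 := h.om1
  have h3 := Real.cos_le_one (om * x)
  split_ifs
  · exact mul_nonneg (by positivity) (by linarith)
  · exact le_rfl

lemma lam_le (h : Adm a om R m) (x : ℝ) : lam a om R x ≤ 2 * a / om := by
  unfold lam
  have h1 := h.a0
  have h2 := h.om1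
  have h3 := Real.neg_one_le_cos (om * x)
  split_ifs
  · calc a / om * (1 - Real.cos (om * x)) ≤ a / om * 2 :=
          mul_le_mul_of_nonneg_left (by linarith) (by positivity)
      _ = 2 * a / om := by ring
  · positivity

lemma lam_cut (h : Adm a om R m) {x : ℝ} (hx : R ≤ x) : lam a om R x = 0 := by
  unfold lam
  split_ifs with h1
  · have : x = R := le_antisymm h1 hx
    rw [this, lamx_cos h]
    ring
  · rfl

lemma lamD_cut (h : Adm a om R m) {x : ℝ} (hx : R ≤ x) : lamD a om R x = 0 := by
  unfold lamD
  split_ifs with h1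
  · have : x = R := le_antisymm h1 hx
    rw [this, lamx_sin h]
    ring
  · rfl

private lemma lamx_p (h : Adm a om R m) (x : ℝ) :
    HasDerivAt (fun y => a / om * (1 - Real.cos (om * y))) (a * Real.sin (om * x)) x := by
  have h2 := h.om1
  have h1 : HasDerivAt (fun y => Real.cos (om * y)) (-Real.sin (om * x) * om) x :=
    ((hasDerivAt_id x).const_mul om).cos.congr_deriv (by simp)
  refine ((h1.const_sub 1).const_mul (a / om)).congr_deriv ?_
  field_simp

lemma lam_hasDerivAt (h : Adm a om R m) (x : ℝ) :
    HasDerivAt (lam a om R) (lamD a om R x) x := by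
  have hL : ∀ y ≤ R, HasDerivWithinAt (lam a om R) (lamD a om R y) (Iic R) y := by
    intro y hy
    have h1 : lamD a om R y = a * Real.sin (om * y) := if_pos hy
    rw [h1]
    refine ((lamx_p h y).hasDerivWithinAt).congr (fun z hz => if_pos hz) (if_pos hy)
  have hR : ∀ y, R ≤ y → HasDerivWithinAt (lam a om R) (lamD a om R y) (Ici R) y := by
    intro y hy
    rw [lamD_cut h hy]
    exact (hasDerivWithinAt_const y (Ici R) (0 : ℝ)).congr (fun z hz => lam_cut h hz)
      (lam_cut h hy)
  rcases lt_trichotomy x R with hx | hx | hx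
  · exact (hL x hx.le).hasDerivAt (Iic_mem_nhds hx)
  · have h1 := (hL x hx.le).union (hR x hx.ge)
    rw [Iic_union_Ici, hasDerivWithinAt_univ] at h1
    exact h1
  · exact (hR x hx.le).hasDerivAt (Ici_mem_nhds hx)

lemma lamD_abs (h : Adm a om R m) (x : ℝ) : |lamD a om R x| ≤ a := by
  have h1 := h.a0
  unfold lamD
  split_ifs
  · rw [abs_mul, abs_of_pos h1]
    exact mul_le_of_le_one_right h1.le (Real.abs_sin_le_one _)
  · rw [abs_zero]
    exact h1.le

private lemma lamx_min (h : Adm a om R m) (x : ℝ) :
    lamD a om R x = a * Real.sin (om * min x R) := by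
  rcases le_total x R with hx | hx
  · rw [min_eq_left hx]
    exact if_pos hx
  · rw [min_eq_right hx, lamD_cut h hx, lamx_sin h, mul_zero]

private lemma lamx_sinlip (s t : ℝ) : |Real.sin t - Real.sin s| ≤ |t - s| := by
  have h1 := Convex.norm_image_sub_le_of_norm_hasDerivWithin_le (f := Real.sin)
    (f' := Real.cos) (s := univ) (C := 1) (x := s) (y := t)
    (fun z _ => (Real.hasDerivAt_sin z).hasDerivWithinAt)
    (fun z _ => by rw [Real.norm_eq_abs]; exact Real.abs_cos_le_one z) convex_univ
    (mem_univ _) (mem_univ _)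
  rwa [Real.norm_eq_abs, Real.norm_eq_abs, one_mul] at h1

lemma lamD_lip (h : Adm a om R m) (x y : ℝ) :
    |lamD a om R y - lamD a om R x| ≤ a * om * |y - x| := by
  have h1 := h.a0
  have h2 := h.om1
  rw [lamx_min h, lamx_min h, ← mul_sub, abs_mul, abs_of_pos h1, mul_assoc]
  refine mul_le_mul_of_nonneg_left ?_ h1.le
  refine (lamx_sinlip _ _).trans ?_
  rw [← mul_sub, abs_mul, abs_of_pos (by linarith : 0 < om)]
  refine mul_le_mul_of_nonneg_left ?_ (by linarith)
  have h3 := abs_min_sub_min_le_max y R x R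
  rwa [sub_self, abs_zero, max_eq_left (abs_nonneg _)] at h3

lemma lam_lip (h : Adm a om R m) (x y : ℝ) : |lam a om R y - lam a om R x| ≤ a * |y - x| := by
  have h1 := Convex.norm_image_sub_le_of_norm_hasDerivWithin_le (f := lam a om R)
    (f' := lamD a om R) (s := univ) (C := a) (x := x) (y := y)
    (fun z _ => (lam_hasDerivAt h z).hasDerivWithinAt)
    (fun z _ => by rw [Real.norm_eq_abs]; exact lamD_abs h z) convex_univ
    (mem_univ _) (mem_univ _)
  rwa [Real.norm_eq_abs, Real.norm_eq_abs] at h1

lemma lam_tay (h : Adm a om R m) (x y : ℝ) :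
    |lam a om R y - lam a om R x - lamD a om R x * (y - x)| ≤ a * om * |y - x| ^ 2 := by
  have ha := h.a0
  have ho := h.om1
  have h1 := Convex.norm_image_sub_le_of_norm_hasDerivWithin_le
    (f := fun z => lam a om R z - lamD a om R x * z)
    (f' := fun z => lamD a om R z - lamD a om R x) (s := uIcc x y)
    (C := a * om * |y - x|) (x := x) (y := y)
    (fun z _ => by
      have h2 := (lam_hasDerivAt h z).sub ((hasDerivAt_id z).const_mul (lamD a om R x))
      exact (h2.congr_deriv (by simp)).hasDerivWithinAt)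
    (fun z hz => by
      rw [Real.norm_eq_abs]
      refine (lamD_lip h x z).trans (mul_le_mul_of_nonneg_left ?_ (by positivity))
      exact abs_sub_left_of_mem_uIcc hz) (convex_uIcc x y)
    left_mem_uIcc right_mem_uIcc
  rw [Real.norm_eq_abs, Real.norm_eq_abs, mul_assoc, ← sq] at h1
  have e : lam a om R y - lam a om R x - lamD a om R x * (y - x) =
      lam a om R y - lamD a om R x * y - (lam a om R x - lamD a om R x * x) := by ring
  rw [e]
  exact h1

end Pool.Agent.H63.CR
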