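import Pool.Agent.H63.CR.TAI

/-!
# H63/CR/LNI: linear approximation and increments (about 50 min)

Write `s = side (p n)`, `c = ctr (p n) k`, `c' = ctr (p (n+1)) k'`. `GoodSeq.fine n` gives
`C * Sg Q n * s ≤ Cf n * Sg Q n * s ≤ dlt n / 4096`. `c ∈ csq (p n) k`, `‖u - c‖ ≤ s / 2` for `u ∈ csq (p n) k`,
and `csq (p (n+1)) k' ⊆ csq (p n) k` for `k' ∈ kids (p (n+1) - p n) k` (`2 ^ (p (n+1) - p n) * side (p (n+1)) = s`).
* `lni_lin`: `ff u1 - ff u - dot (gfp c) (u1 - u)` = tails (two times `dlt n * s / 1024`, `tai_tail`)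
  + Taylor at `u` (`C * Sg * (20 s) ^ 2 ≤ 400 / 4096 * dlt n * s`) + `dot (gfp u - gfp c) (u1 - u)` (at most
  `2 * (C * Sg * s) * 20 s ≤ 40 / 4096 * dlt n * s`).
* `lni_first`: `fpt_lip`.
* `lni_inc`: `gfp_succ`, `lni_first`, `Wave.grad` twice, `dlt_le_amp`: `16 / 4096 + 2 * C ≤ 3 * C`.
-/

open MeasureTheory Set Filter
open scoped Topology ENNReal

namespace Pool.Agent.H63.CR

variable {B C : ℝ} {Q p : ℕ → ℕ} {gb : ℝ × ℝ → ℝ × ℝ} {g : Fin 2 → ℕ → ℝ × ℝ → ℝ × ℝ} {Cf : ℕ → ℝ}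
  {n1 : ℕ}

private lemma lnix_spos (a : ℕ) : 0 < side a := by
  unfold side
  positivity

private lemma lnix_side (P d : ℕ) : side P = 2 ^ d * side (P + d) := by
  unfold side
  rw [pow_add]
  have : (2 : ℝ) ^ d * (1 / 2) ^ d = 1 := by
    rw [← mul_pow]
    norm_num
  calc (1 / 2 : ℝ) ^ P = (1 / 2) ^ P * 1 := by ring
    _ = (1 / 2 : ℝ) ^ P * (2 ^ d * (1 / 2) ^ d) := by rw [this]
    _ = 2 ^ d * ((1 / 2) ^ P * (1 / 2) ^ d) := by ring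

private lemma lnix_low {P d : ℕ} {a k : ℤ} (h : a * 2 ^ d ≤ k) :
    (a : ℝ) * side P ≤ (k : ℝ) * side (P + d) := by
  rw [lnix_side P d, ← mul_assoc]
  refine mul_le_mul_of_nonneg_right ?_ (lnix_spos _).le
  exact_mod_cast h

private lemma lnix_up {P d : ℕ} {b k : ℤ} (h : k < b * 2 ^ d) :
    ((k : ℝ) + 1) * side (P + d) ≤ (b : ℝ) * side P := by
  rw [lnix_side P d, ← mul_assoc]
  refine mul_le_mul_of_nonneg_right ?_ (lnix_spos _).le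
  have : k + 1 ≤ b * 2 ^ d := h
  exact_mod_cast this

lemma lni_ctr_mem (P : ℕ) (k : ℤ × ℤ) : ctr P k ∈ csq P k := by
  have h := lnix_spos P
  unfold ctr csq
  refine ⟨⟨?_, ?_⟩, ⟨?_, ?_⟩⟩ <;> simp only <;> nlinarith

lemma lni_csq_sub {P d : ℕ} {k k' : ℤ × ℤ} (h : k' ∈ kids d k) : csq (P + d) k' ⊆ csq P k := by
  unfold kids at h
  rw [Finset.mem_product, Finset.mem_Ico, Finset.mem_Ico] at h
  obtain ⟨⟨h1, h2⟩, ⟨h3, h4⟩⟩ := h
  rintro u ⟨⟨a1, a2⟩, ⟨a3, a4⟩⟩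
  have b2 := lnix_up (P := P) h2
  have b4 := lnix_up (P := P) h4
  push_cast at b2 b4
  exact ⟨⟨(lnix_low h1).trans a1, a2.trans b2⟩, ⟨(lnix_low h3).trans a3, a4.trans b4⟩⟩

lemma lni_box_sub {P d : ℕ} {k k0 : ℤ × ℤ} (h : k ∈ boxIdx d k0) :
    csq (P + d) k ⊆ box P k0 := by
  unfold boxIdx at h
  rw [Finset.mem_product, Finset.mem_Ico, Finset.mem_Ico] at h
  obtain ⟨⟨h1, h2⟩, ⟨h3, h4⟩⟩ := h
  rintro u ⟨⟨a1, a2⟩, ⟨a3, a4⟩⟩
  have b2 := lnix_up (P := P) h2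
  have b4 := lnix_up (P := P) h4
  push_cast at b2 b4
  exact ⟨⟨(lnix_low h1).trans a1, a2.trans b2⟩, ⟨(lnix_low h3).trans a3, a4.trans b4⟩⟩

lemma lni_card (d : ℕ) (k : ℤ × ℤ) : (kids d k).card = 4 ^ d := by
  unfold kids
  rw [Finset.card_product, Int.card_Ico, Int.card_Ico]
  have h : ∀ a : ℤ, ((a + 1) * 2 ^ d - a * 2 ^ d).toNat = 2 ^ d := by
    intro a
    have : (a + 1) * 2 ^ d - a * 2 ^ d = ((2 ^ d : ℕ) : ℤ) := by
      push_cast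
      ring
    rw [this, Int.toNat_natCast]
  rw [h, h, ← mul_pow]
  norm_num

private lemma lnix_dist {P : ℕ} {k : ℤ × ℤ} {u v : ℝ × ℝ} (hu : u ∈ csq P k) (hv : v ∈ csq P k) :
    ‖u - v‖ ≤ side P := by
  obtain ⟨⟨a1, a2⟩, ⟨a3, a4⟩⟩ := hu
  obtain ⟨⟨b1, b2⟩, ⟨b3, b4⟩⟩ := hv
  rw [Prod.norm_def]
  refine max_le ?_ ?_
  · rw [Real.norm_eq_abs, abs_le, Prod.fst_sub]
    constructor <;> nlinarith
  · rw [Real.norm_eq_abs, abs_le, Prod.snd_sub]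
    constructor <;> nlinarith

private lemma lnix_fine (hG : GoodSeq Cf Q p) (hC : ∀ j, n1 ≤ j → C ≤ Cf j) {n : ℕ}
    (hn : n1 ≤ n) : C * Sg Q n * side (p n) ≤ dlt n / 4096 := by
  have h1 := hG.fine n
  have h2 : C * Sg Q n * side (p n) ≤ Cf n * Sg Q n * side (p n) := by
    refine mul_le_mul_of_nonneg_right (mul_le_mul_of_nonneg_right (hC n hn) ?_) (lnix_spos _).le
    linarith [sg_ge_one Q n]
  linarith

private lemma lnix_dot (G v : ℝ × ℝ) : |dot G v| ≤ 2 * (‖G‖ * ‖v‖) := by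
  unfold dot
  refine (abs_add_le _ _).trans ?_
  rw [abs_mul, abs_mul]
  have h1 : |G.1| ≤ ‖G‖ := norm_fst_le G
  have h2 : |G.2| ≤ ‖G‖ := norm_snd_le G
  have h3 : |v.1| ≤ ‖v‖ := norm_fst_le v
  have h4 : |v.2| ≤ ‖v‖ := norm_snd_le v
  have h5 := mul_le_mul h1 h3 (abs_nonneg _) (norm_nonneg _)
  have h6 := mul_le_mul h2 h4 (abs_nonneg _) (norm_nonneg _)
  linarith

theorem lni_lin (hG : GoodSeq Cf Q p) (hD : Dat B C Q gb g) (hC : ∀ j, n1 ≤ j → C ≤ Cf j)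
    {n : ℕ} (hn : n1 ≤ n) {k : ℤ × ℤ} (hk : csq (p n) k ⊆ Uu B) {u u1 : ℝ × ℝ}
    (hu : u ∈ csq (p n) k) (hu1 : u1 ∈ Uu B) (hd : ‖u1 - u‖ ≤ 20 * side (p n)) :
    |ff Q u1 - ff Q u - dot (gfp gb g n (ctr (p n) k)) (u1 - u)| ≤ dlt n * side (p n) := by
  have hs := lnix_spos (p n)
  have hc := lni_ctr_mem (p n) k
  have t1 := tai_tail hG hD hC hn hu1
  have t2 := tai_tail hG hD hC hn (hk hu)
  have t3 := fpt_tay hD n (hk hu) hu1
  have t4 := fpt_lip hD n (hk hc) (hk hu)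
  have t5 := lnix_fine hG hC hn
  have t6 := lnix_dist hu hc
  have t7 := lnix_dot (gfp gb g n u - gfp gb g n (ctr (p n) k)) (u1 - u)
  have hCS : 0 ≤ C * Sg Q n := mul_nonneg (by linarith [hD.one]) (by linarith [sg_ge_one Q n])
  have e : ff Q u1 - ff Q u - dot (gfp gb g n (ctr (p n) k)) (u1 - u) =
      (ff Q u1 - fpt Q n u1) - (ff Q u - fpt Q n u) +
      (fpt Q n u1 - fpt Q n u - dot (gfp gb g n u) (u1 - u)) +
      dot (gfp gb g n u - gfp gb g n (ctr (p n) k)) (u1 - u) := by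
    unfold dot
    simp only [Prod.fst_sub, Prod.snd_sub]
    ring
  obtain ⟨D, hDD⟩ : ∃ D, D = dlt n * side (p n) := ⟨_, rfl⟩
  have hD0 : C * Sg Q n * side (p n) * side (p n) ≤ D / 4096 := by
    rw [hDD]
    have := mul_le_mul_of_nonneg_right t5 hs.le
    linarith
  have hD1 : 0 ≤ D := by
    have : 0 ≤ C * Sg Q n * side (p n) * side (p n) :=
      mul_nonneg (mul_nonneg hCS hs.le) hs.le
    linarith
  have b3 : C * Sg Q n * ‖u1 - u‖ ^ 2 ≤ 400 * (D / 4096) := by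
    have h1 : ‖u1 - u‖ ^ 2 ≤ (20 * side (p n)) ^ 2 := pow_le_pow_left₀ (norm_nonneg _) hd 2
    calc C * Sg Q n * ‖u1 - u‖ ^ 2 ≤ C * Sg Q n * (20 * side (p n)) ^ 2 :=
          mul_le_mul_of_nonneg_left h1 hCS
      _ = 400 * (C * Sg Q n * side (p n) * side (p n)) := by ring
      _ ≤ 400 * (D / 4096) := by linarith
  have b4 : 2 * (‖gfp gb g n u - gfp gb g n (ctr (p n) k)‖ * ‖u1 - u‖) ≤ 40 * (D / 4096) := by
    have h1 : ‖gfp gb g n u - gfp gb g n (ctr (p n) k)‖ ≤ C * Sg Q n * side (p n) :=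
      t4.trans (mul_le_mul_of_nonneg_left t6 hCS)
    have h2 := mul_le_mul h1 hd (norm_nonneg _) (mul_nonneg hCS hs.le)
    linarith
  rw [e, ← hDD]
  rw [← hDD] at t1 t2
  refine (abs_add_le _ _).trans ?_
  refine (add_le_add ((abs_add_le _ _).trans (add_le_add ((abs_sub _ _).trans
    (add_le_add t1 t2)) (t3.trans b3))) (t7.trans b4)).trans ?_
  linarith

private lemma lnix_step (hG : GoodSeq Cf Q p) (n : ℕ) : p n + (p (n + 1) - p n) = p (n + 1) := by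
  have := hG.step n
  omega

theorem lni_first (hG : GoodSeq Cf Q p) (hD : Dat B C Q gb g) (hC : ∀ j, n1 ≤ j → C ≤ Cf j)
    {n : ℕ} (hn : n1 ≤ n) {k k' : ℤ × ℤ} (hk : csq (p n) k ⊆ Uu B)
    (hk' : k' ∈ kids (p (n + 1) - p n) k) :
    ‖gfp gb g n (ctr (p (n + 1)) k') - gfp gb g n (ctr (p n) k)‖ ≤ dlt n / 4096 := by
  have h1 := lni_csq_sub (P := p n) hk'
  rw [lnix_step hG n] at h1
  have h2 := h1 (lni_ctr_mem (p (n + 1)) k')
  have h3 := lni_ctr_mem (p n) k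
  have hCS : 0 ≤ C * Sg Q n := mul_nonneg (by linarith [hD.one]) (by linarith [sg_ge_one Q n])
  refine (fpt_lip hD n (hk h3) (hk h2)).trans ?_
  exact (mul_le_mul_of_nonneg_left (lnix_dist h2 h3) hCS).trans (lnix_fine hG hC hn)

theorem lni_inc (hG : GoodSeq Cf Q p) (hD : Dat B C Q gb g) (hC : ∀ j, n1 ≤ j → C ≤ Cf j)
    {n : ℕ} (hn : n1 ≤ n) {k k' : ℤ × ℤ} (hk : csq (p n) k ⊆ Uu B)
    (hk' : k' ∈ kids (p (n + 1) - p n) k) :
    ‖gfp gb g (n + 1) (ctr (p (n + 1)) k') - gfp gb g n (ctr (p n) k)‖ ≤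
      3 * C * amp (n + 1) := by
  have h1 := lni_csq_sub (P := p n) hk'
  rw [lnix_step hG n] at h1
  have h2 := hk (h1 (lni_ctr_mem (p (n + 1)) k'))
  have h3 := lni_first hG hD hC hn hk hk'
  have h4 := (hD.wave 0 (n + 1)).grad _ h2
  have h5 := (hD.wave 1 (n + 1)).grad _ h2
  have h6 := dlt_le_amp n
  have h7 := amp_pos (n + 1)
  have h8 := hD.one
  rw [gfp_succ]
  have e : gfp gb g n (ctr (p (n + 1)) k') + (g 0 (n + 1) (ctr (p (n + 1)) k') +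
      g 1 (n + 1) (ctr (p (n + 1)) k')) - gfp gb g n (ctr (p n) k) =
      (gfp gb g n (ctr (p (n + 1)) k') - gfp gb g n (ctr (p n) k)) +
      (g 0 (n + 1) (ctr (p (n + 1)) k') + g 1 (n + 1) (ctr (p (n + 1)) k')) := by abel
  rw [e]
  refine (norm_add_le _ _).trans ?_
  have h9 := norm_add_le (g 0 (n + 1) (ctr (p (n + 1)) k')) (g 1 (n + 1) (ctr (p (n + 1)) k'))
  nlinarith

end Pool.Agent.H63.CR
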