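import Pool.Agent.H63.CR.SQA
import Pool.Agent.H63.CR.SQB

/-!
# H63/CR/LOW: a level curve through the centre of a ball meets many small squares (about 90 min)

`s = side (p n)`, `s1 = side (p n1) <= s / 16` (`step`, `side_step`, `side_anti`), `g = G n k`,
`‖g‖ >= 16 * dlt n`, closed ball of radius `s` inside the box (`closedBall_sub_box`, `n0 < n`).
PROOF. Case `|g.1| >= |g.2|` (so `‖g‖ = |g.1|`; the other case is symmetric, exchange the
coordinates). For `b` with `|b - u.2| <= s / 4` consider the segment `a in [u.1 - s/2, u.1 + s/2]`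
at second coordinate `b`. By `lin` at the end points (`a = u.1 + e * s / 2`, `e = ±1`):
`f (a,b) - f u = g.1 * e * s / 2 + g.2 * (b - u.2) + err`, `|err| <= dlt n * s`, and
`|g.1| * s / 2 - |g.2| * s / 4 - dlt n * s > 0`, so the signs at the two ends are opposite; by
continuity (intermediate value theorem on the segment, `cont`) there is a point
`v_b = (a, b)`, `|a - u.1| <= s / 2`, with `f v_b = f u`. Its index `idx (p n1) v_b` has second
component `⌊b / s1⌋`; its square contains `v_b`, so `f u` is in the image, and the square is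
contained in `closedBall u s` (`s / 2 + s1 <= s`), so its index is in `boxIdx` (it is in the box:
use `idx_mem_boxIdx` for `v_b`? -- `v_b` may be outside `mid`; prove directly that a square of
level `p n1` contained in the box has its index in `boxIdx`). As `b` runs over the interval of
length `s / 2`, `⌊b / s1⌋` takes at least `s / (2 * s1) - 1 >= s / (4 * s1)` different values.
-/

open MeasureTheory Set Filter
open scoped Topology ENNReal

namespace Pool.Agent.H63.CR

variable {f : ℝ × ℝ → ℝ} {p : ℕ → ℕ} {G : ℕ → ℤ × ℤ → ℝ × ℝ} {n0 : ℕ} {k0 : ℤ × ℤ} {C c : ℝ}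
  {w : Fin 3 → ℝ × ℝ × ℝ}

private lemma low_ivt (φ : ℝ → ℝ) (x s t α β e : ℝ) (hs : 0 < s)
    (hc : ContinuousOn φ (Icc (x - s / 2) (x + s / 2)))
    (h1 : |φ (x - s / 2) - t - (α * (-(s / 2)) + β)| ≤ e)
    (h2 : |φ (x + s / 2) - t - (α * (s / 2) + β)| ≤ e) (h : |β| + e ≤ |α| * (s / 2)) :
    ∃ a ∈ Icc (x - s / 2) (x + s / 2), φ a = t := by
  have hle : x - s / 2 ≤ x + s / 2 := by linarith
  rw [abs_le] at h1 h2
  have hb1 := le_abs_self β
  have hb2 := neg_abs_le β
  rcases le_or_gt 0 α with hα | hα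
  · rw [abs_of_nonneg hα] at h
    have hmem : t ∈ Icc (φ (x - s / 2)) (φ (x + s / 2)) := ⟨by linarith [h1.2], by linarith [h2.1]⟩
    exact intermediate_value_Icc hle hc hmem
  · rw [abs_of_neg hα] at h
    have hmem : t ∈ Icc (φ (x + s / 2)) (φ (x - s / 2)) := ⟨by linarith [h2.2], by linarith [h1.1]⟩
    exact intermediate_value_Icc' hle hc hmem

private lemma low_J (s s1 x : ℝ) (hs1 : 0 < s1) (h16 : 16 * s1 ≤ s) :
    s ≤ 4 * s1 * ((Finset.Icc ⌈(x - s / 4) / s1⌉ ⌊(x + s / 4) / s1⌋).card : ℝ) := by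
  have hd : (x + s / 4) / s1 - (x - s / 4) / s1 = s / (2 * s1) := by
    field_simp
    ring
  have h8 : 8 ≤ s / (2 * s1) := by
    rw [le_div_iff₀ (by positivity)]
    linarith
  have h1 := Int.lt_floor_add_one ((x + s / 4) / s1)
  have h2 := Int.ceil_lt_add_one ((x - s / 4) / s1)
  have h3 : ((⌊(x + s / 4) / s1⌋ + 1 - ⌈(x - s / 4) / s1⌉ : ℤ) : ℝ) ≤
      ((Finset.Icc ⌈(x - s / 4) / s1⌉ ⌊(x + s / 4) / s1⌋).card : ℝ) := by
    rw [Int.card_Icc]
    have h4 := Int.self_le_toNat (⌊(x + s / 4) / s1⌋ + 1 - ⌈(x - s / 4) / s1⌉)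
    exact_mod_cast h4
  push_cast at h3
  have h5 : s / (4 * s1) ≤ ((Finset.Icc ⌈(x - s / 4) / s1⌉ ⌊(x + s / 4) / s1⌋).card : ℝ) := by
    have h6 : s / (4 * s1) = s / (2 * s1) / 2 := by
      field_simp
      norm_num
    rw [h6]
    linarith
  rw [div_le_iff₀ (by positivity)] at h5
  linarith

private lemma low_mem (s s1 x : ℝ) (hs1 : 0 < s1) {j : ℤ}
    (hj : j ∈ Finset.Icc ⌈(x - s / 4) / s1⌉ ⌊(x + s / 4) / s1⌋) : |(j : ℝ) * s1 - x| ≤ s / 4 := by
  rw [Finset.mem_Icc] at hj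
  have h1 : (x - s / 4) / s1 ≤ j := Int.ceil_le.1 hj.1
  have h2 : (j : ℝ) ≤ (x + s / 4) / s1 := Int.le_floor.1 hj.2
  rw [div_le_iff₀ hs1] at h1
  rw [le_div_iff₀ hs1] at h2
  rw [abs_le]
  constructor <;> linarith

private lemma low_box {q0 q1 : ℕ} (hq : q0 ≤ q1) {k k0 : ℤ × ℤ} (h : csq q1 k ⊆ box q0 k0) :
    k ∈ boxIdx (q1 - q0) k0 := by
  have hs1 := side_pos q1
  have hs : side q1 * 2 ^ (q1 - q0) = side q0 := by
    have h1 := side_add q0 (q1 - q0)
    rwa [Nat.add_sub_cancel' hq] at h1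
  have m1 : (((k.1 : ℝ) * side q1, (k.2 : ℝ) * side q1) : ℝ × ℝ) ∈ csq q1 k := by
    refine ⟨⟨le_refl _, ?_⟩, ⟨le_refl _, ?_⟩⟩
    · show (k.1 : ℝ) * side q1 ≤ ((k.1 : ℝ) + 1) * side q1
      linarith
    · show (k.2 : ℝ) * side q1 ≤ ((k.2 : ℝ) + 1) * side q1
      linarith
  have m2 : ((((k.1 : ℝ) + 1) * side q1, ((k.2 : ℝ) + 1) * side q1) : ℝ × ℝ) ∈ csq q1 k := by
    refine ⟨⟨?_, le_refl _⟩, ⟨?_, le_refl _⟩⟩
    · show (k.1 : ℝ) * side q1 ≤ ((k.1 : ℝ) + 1) * side q1
      linarith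
    · show (k.2 : ℝ) * side q1 ≤ ((k.2 : ℝ) + 1) * side q1
      linarith
  have b1 := h m1
  have b2 := h m2
  have c1 : (k0.1 : ℝ) * side q0 ≤ (k.1 : ℝ) * side q1 := b1.1.1
  have c2 : (k0.2 : ℝ) * side q0 ≤ (k.2 : ℝ) * side q1 := b1.2.1
  have c3 : ((k.1 : ℝ) + 1) * side q1 ≤ ((k0.1 : ℝ) + 2) * side q0 := b2.1.2
  have c4 : ((k.2 : ℝ) + 1) * side q1 ≤ ((k0.2 : ℝ) + 2) * side q0 := b2.2.2
  rw [← hs] at c1 c2 c3 c4
  have d1 : (k0.1 : ℝ) * 2 ^ (q1 - q0) ≤ k.1 := by
    refine le_of_mul_le_mul_right ?_ hs1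
    linarith
  have d2 : (k0.2 : ℝ) * 2 ^ (q1 - q0) ≤ k.2 := by
    refine le_of_mul_le_mul_right ?_ hs1
    linarith
  have d3 : (k.1 : ℝ) + 1 ≤ ((k0.1 : ℝ) + 2) * 2 ^ (q1 - q0) := by
    refine le_of_mul_le_mul_right ?_ hs1
    linarith
  have d4 : (k.2 : ℝ) + 1 ≤ ((k0.2 : ℝ) + 2) * 2 ^ (q1 - q0) := by
    refine le_of_mul_le_mul_right ?_ hs1
    linarith
  have e1 : k0.1 * 2 ^ (q1 - q0) ≤ k.1 := by exact_mod_cast d1
  have e2 : k0.2 * 2 ^ (q1 - q0) ≤ k.2 := by exact_mod_cast d2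
  have e3 : k.1 + 1 ≤ (k0.1 + 2) * 2 ^ (q1 - q0) := by exact_mod_cast d3
  have e4 : k.2 + 1 ≤ (k0.2 + 2) * 2 ^ (q1 - q0) := by exact_mod_cast d4
  unfold boxIdx
  rw [Finset.mem_product, Finset.mem_Ico, Finset.mem_Ico]
  exact ⟨⟨e1, by omega⟩, ⟨e2, by omega⟩⟩

private lemma low_mono (hstep : ∀ n, p n + 4 ≤ p (n + 1)) {n n1 : ℕ} (h : n < n1) :
    p n + 4 ≤ p n1 := by
  induction n1, h using Nat.le_induction with
  | base => exact hstep n
  | succ m _ ih =>
    have := hstep m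
    omega

/-- the common end -/
private lemma low_end (q0 q1 : ℕ) (hq : q0 ≤ q1) (s x : ℝ) (u : ℝ × ℝ) (h16 : 16 * side q1 ≤ s)
    (hball : Metric.closedBall u s ⊆ box q0 k0) (v : ℤ → ℝ × ℝ)
    (hv : ∀ j ∈ Finset.Icc ⌈(x - s / 4) / side q1⌉ ⌊(x + s / 4) / side q1⌋, f (v j) = f u ∧ ‖v j - u‖ ≤ s / 2)
    (hinj : ∀ j ∈ Finset.Icc ⌈(x - s / 4) / side q1⌉ ⌊(x + s / 4) / side q1⌋,
      ∀ j' ∈ Finset.Icc ⌈(x - s / 4) / side q1⌉ ⌊(x + s / 4) / side q1⌋, idx q1 (v j) = idx q1 (v j') → j = j') :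
    ∃ T : Finset (ℤ × ℤ), T ⊆ boxIdx (q1 - q0) k0 ∧
      (∀ k1 ∈ T, f u ∈ f '' csq q1 k1 ∧ csq q1 k1 ⊆ Metric.closedBall u s) ∧
      s ≤ 4 * side q1 * (T.card : ℝ) := by
  classical
  have hs1 := side_pos q1
  obtain ⟨J, hJ⟩ : ∃ J, J = Finset.Icc ⌈(x - s / 4) / side q1⌉ ⌊(x + s / 4) / side q1⌋ := ⟨_, rfl⟩
  rw [← hJ] at hv hinj
  have hT : ∀ k1 ∈ J.image (fun j => idx q1 (v j)), f u ∈ f '' csq q1 k1 ∧ csq q1 k1 ⊆ Metric.closedBall u s := by
    intro k1 hk1
    obtain ⟨j, hj, rfl⟩ := Finset.mem_image.1 hk1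
    obtain ⟨h1, h2⟩ := hv j hj
    have hm := mem_csq_idx q1 (v j)
    refine ⟨⟨v j, hm, h1⟩, fun z hz => ?_⟩
    rw [Metric.mem_closedBall, dist_eq_norm]
    have h3 := norm_sub_le_side hz hm
    have h4 : z - u = (z - v j) + (v j - u) := by abel
    rw [h4]
    refine (norm_add_le _ _).trans ?_
    linarith
  refine ⟨J.image (fun j => idx q1 (v j)), ?_, hT, ?_⟩
  · intro k1 hk1
    exact low_box hq ((hT k1 hk1).2.trans hball)
  · rw [Finset.card_image_of_injOn (fun j hj j' hj' he => hinj j hj j' hj' he), hJ]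
    exact low_J s (side q1) x hs1 h16

theorem low_count (hW : IsWalk f p G n0 k0 C c w) (n n1 : ℕ) (hn : n0 < n) (hn1 : n < n1)
    (u : ℝ × ℝ) (hu : u ∈ mid (p n0) k0) (k : ℤ × ℤ) (hk : k ∈ boxIdx (p n - p n0) k0)
    (huk : u ∈ csq (p n) k) (hG : 16 * dlt n ≤ ‖G n k‖) :
    ∃ T : Finset (ℤ × ℤ), T ⊆ boxIdx (p n1 - p n0) k0 ∧
      (∀ k1 ∈ T, f u ∈ f '' csq (p n1) k1 ∧ csq (p n1) k1 ⊆ Metric.closedBall u (side (p n))) ∧
      side (p n) ≤ 4 * side (p n1) * (T.card : ℝ) := by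
  have hp0 := low_mono hW.step hn
  have hp1 := low_mono hW.step hn1
  have hs := side_pos (p n)
  have hs1 := side_pos (p n1)
  have hs0 := side_pos (p n0)
  have h16 := side_step hp1
  have h16' := side_step hp0
  have hball : Metric.closedBall u (side (p n)) ⊆ box (p n0) k0 := closedBall_sub_box hu (by linarith)
  obtain ⟨s, hsd⟩ : ∃ s, s = side (p n) := ⟨_, rfl⟩
  obtain ⟨g, hg⟩ : ∃ g, g = G n k := ⟨_, rfl⟩
  have hd : 0 < dlt n := by
    unfold dlt
    positivity
  have hlin := hW.lin n hn.le k hk u huk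
  rw [← hsd] at hs h16 h16' hball hlin ⊢
  rw [← hg] at hG hlin
  have hin : ∀ a b : ℝ, |a - u.1| ≤ s / 2 → |b - u.2| ≤ s / 2 → ((a, b) : ℝ × ℝ) ∈ box (p n0) k0 := by
    intro a b ha hb
    apply hball
    rw [Metric.mem_closedBall, dist_eq_norm, norm_prod_le_iff]
    refine ⟨?_, ?_⟩
    · show |a - u.1| ≤ s
      linarith
    · show |b - u.2| ≤ s
      linarith
  have hlin2 : ∀ a b : ℝ, |a - u.1| ≤ s / 2 → |b - u.2| ≤ s / 2 →
      |f (a, b) - f u - (g.1 * (a - u.1) + g.2 * (b - u.2))| ≤ dlt n * s := by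
    intro a b ha hb
    have h1 := hlin (a, b) (hin a b ha hb) (by
      rw [norm_prod_le_iff]
      refine ⟨?_, ?_⟩
      · show |a - u.1| ≤ 20 * s
        linarith
      · show |b - u.2| ≤ 20 * s
        linarith)
    exact h1
  have hq : p n0 ≤ p n1 := by omega
  have hs2 : |(-(s / 2))| ≤ s / 2 := by rw [abs_neg, abs_of_pos (by linarith)]
  have hs2' : |(s / 2)| ≤ s / 2 := by rw [abs_of_pos (by linarith)]
  rcases le_total |g.2| |g.1| with hgg | hgg
  · -- first coordinate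
    have hg1 : 16 * dlt n ≤ |g.1| := by
      have h1 : ‖g‖ = |g.1| := by
        rw [Prod.norm_def, Real.norm_eq_abs, Real.norm_eq_abs]
        exact max_eq_left hgg
      rwa [h1] at hG
    have key : ∀ j : ℤ, ∃ a : ℝ, j ∈ Finset.Icc ⌈(u.2 - s / 4) / side (p n1)⌉ ⌊(u.2 + s / 4) / side (p n1)⌋ →
        |a - u.1| ≤ s / 2 ∧ f (a, (j : ℝ) * side (p n1)) = f u := by
      intro j
      by_cases hj : j ∈ Finset.Icc ⌈(u.2 - s / 4) / side (p n1)⌉ ⌊(u.2 + s / 4) / side (p n1)⌋
      · have hb := low_mem s (side (p n1)) u.2 hs1 hj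
        have hb2 : |(j : ℝ) * side (p n1) - u.2| ≤ s / 2 := by linarith
        obtain ⟨a, ha, hfa⟩ := low_ivt (fun a => f (a, (j : ℝ) * side (p n1))) u.1 s (f u) g.1
          (g.2 * ((j : ℝ) * side (p n1) - u.2)) (dlt n * s) hs (by
            refine hW.cont.comp (by fun_prop) ?_
            intro a ha
            apply hin
            · rw [abs_le]
              constructor <;> linarith [ha.1, ha.2]
            · exact hb2) (by
            have h1 := hlin2 (u.1 - s / 2) _ (by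
              have : u.1 - s / 2 - u.1 = -(s / 2) := by ring
              rw [this]
              exact hs2) hb2
            have h2 : u.1 - s / 2 - u.1 = -(s / 2) := by ring
            rw [h2] at h1
            exact h1) (by
            have h1 := hlin2 (u.1 + s / 2) _ (by
              have : u.1 + s / 2 - u.1 = s / 2 := by ring
              rw [this]
              exact hs2') hb2
            have h2 : u.1 + s / 2 - u.1 = s / 2 := by ring
            rw [h2] at h1
            exact h1) (by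
            rw [abs_mul]
            have h1 : |g.2| * |(j : ℝ) * side (p n1) - u.2| ≤ |g.1| * (s / 4) :=
              mul_le_mul hgg hb (abs_nonneg _) (abs_nonneg _)
            have h2 : dlt n * s ≤ |g.1| / 16 * s := mul_le_mul_of_nonneg_right (by linarith) hs.le
            have h3 : 0 ≤ |g.1| * s := by positivity
            linarith)
        refine ⟨a, fun _ => ⟨?_, hfa⟩⟩
        rw [abs_le]
        constructor <;> linarith [ha.1, ha.2]
      · exact ⟨0, fun h => absurd h hj⟩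
    choose a ha using key
    refine low_end (p n0) (p n1) hq s u.2 u h16 hball (fun j => (a j, (j : ℝ) * side (p n1))) ?_ ?_
    · intro j hj
      obtain ⟨h1, h2⟩ := ha j hj
      refine ⟨h2, ?_⟩
      rw [norm_prod_le_iff]
      refine ⟨h1, ?_⟩
      show |(j : ℝ) * side (p n1) - u.2| ≤ s / 2
      linarith [low_mem s (side (p n1)) u.2 hs1 hj]
    · intro j _ j' _ he
      have h1 := congrArg Prod.snd he
      have h2 : ∀ i : ℤ, (idx (p n1) (a i, (i : ℝ) * side (p n1))).2 = i := by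
        intro i
        show ⌊(i : ℝ) * side (p n1) / side (p n1)⌋ = i
        rw [mul_div_cancel_right₀ _ hs1.ne', Int.floor_intCast]
      rw [h2 j, h2 j'] at h1
      exact h1
  · -- second coordinate
    have hg1 : 16 * dlt n ≤ |g.2| := by
      have h1 : ‖g‖ = |g.2| := by
        rw [Prod.norm_def, Real.norm_eq_abs, Real.norm_eq_abs]
        exact max_eq_right hgg
      rwa [h1] at hG
    have key : ∀ j : ℤ, ∃ a : ℝ, j ∈ Finset.Icc ⌈(u.1 - s / 4) / side (p n1)⌉ ⌊(u.1 + s / 4) / side (p n1)⌋ →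
        |a - u.2| ≤ s / 2 ∧ f ((j : ℝ) * side (p n1), a) = f u := by
      intro j
      by_cases hj : j ∈ Finset.Icc ⌈(u.1 - s / 4) / side (p n1)⌉ ⌊(u.1 + s / 4) / side (p n1)⌋
      · have hb := low_mem s (side (p n1)) u.1 hs1 hj
        have hb2 : |(j : ℝ) * side (p n1) - u.1| ≤ s / 2 := by linarith
        obtain ⟨a, ha, hfa⟩ := low_ivt (fun a => f ((j : ℝ) * side (p n1), a)) u.2 s (f u) g.2
          (g.1 * ((j : ℝ) * side (p n1) - u.1)) (dlt n * s) hs (by
            refine hW.cont.comp (by fun_prop) ?_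
            intro a ha
            apply hin
            · exact hb2
            · rw [abs_le]
              constructor <;> linarith [ha.1, ha.2]) (by
            have h1 := hlin2 _ (u.2 - s / 2) hb2 (by
              have : u.2 - s / 2 - u.2 = -(s / 2) := by ring
              rw [this]
              exact hs2)
            have h2 : u.2 - s / 2 - u.2 = -(s / 2) := by ring
            rw [h2, add_comm (g.1 * _)] at h1
            exact h1) (by
            have h1 := hlin2 _ (u.2 + s / 2) hb2 (by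
              have : u.2 + s / 2 - u.2 = s / 2 := by ring
              rw [this]
              exact hs2')
            have h2 : u.2 + s / 2 - u.2 = s / 2 := by ring
            rw [h2, add_comm (g.1 * _)] at h1
            exact h1) (by
            rw [abs_mul]
            have h1 : |g.1| * |(j : ℝ) * side (p n1) - u.1| ≤ |g.2| * (s / 4) :=
              mul_le_mul hgg hb (abs_nonneg _) (abs_nonneg _)
            have h2 : dlt n * s ≤ |g.2| / 16 * s := mul_le_mul_of_nonneg_right (by linarith) hs.le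
            have h3 : 0 ≤ |g.2| * s := by positivity
            linarith)
        refine ⟨a, fun _ => ⟨?_, hfa⟩⟩
        rw [abs_le]
        constructor <;> linarith [ha.1, ha.2]
      · exact ⟨0, fun h => absurd h hj⟩
    choose a ha using key
    refine low_end (p n0) (p n1) hq s u.1 u h16 hball (fun j => ((j : ℝ) * side (p n1), a j)) ?_ ?_
    · intro j hj
      obtain ⟨h1, h2⟩ := ha j hj
      refine ⟨h2, ?_⟩
      rw [norm_prod_le_iff]
      refine ⟨?_, h1⟩
      show |(j : ℝ) * side (p n1) - u.1| ≤ s / 2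
      linarith [low_mem s (side (p n1)) u.1 hs1 hj]
    · intro j _ j' _ he
      have h1 := congrArg Prod.fst he
      have h2 : ∀ i : ℤ, (idx (p n1) ((i : ℝ) * side (p n1), a i)).1 = i := by
        intro i
        show ⌊(i : ℝ) * side (p n1) / side (p n1)⌋ = i
        rw [mul_div_cancel_right₀ _ hs1.ne', Int.floor_intCast]
      rw [h2 j, h2 j'] at h1
      exact h1

end Pool.Agent.H63.CR
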