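import Pool.Agent.H63.CR.LNI

/-!
# H63/CR/MEA: the mean of the increments (about 60 min)

`mev`: write `s' = side (P + d)`, `s = side P = 2 ^ d * s'`, `c = ctr (P + d) k'`. First component: the points
`c + (s'/2, 0)` and `c - (s'/2, 0)` are in `csq (P + d) k' ⊆ Uu B`; the difference of the two Taylor formulas at `c`
gives `|(g c).1 * s' - (v (c + (s'/2, 0)) - v (c - (s'/2, 0)))| ≤ 2 * C * om * (s'/2) ^ 2`. For fixed `k'.2`
the sum over `k'.1` (an interval of `2 ^ d` consecutive integers) of the differences of `v` telescopes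
and is at most `2 * M`; so `s' * |row sum of (g c).1| ≤ 2 * M + 2 ^ d * C * om * s' ^ 2 / 2`. There are `2 ^ d`
rows. Second component: the same with the roles exchanged. The norm is the maximum.
`mea`: `gfp_succ`; `lni_first` for the first part (`4 ^ d` terms), `mev` for `vv Q i (n+1)` with
`M = C * amp (n+1) / omq Q (n+1) ≤ Cf (n+1) / omq Q (n+1)`: by `GoodSeq.fast n`
`2 * M / side (p n) ≤ dlt n / 2048`, and `C * omq Q (n+1) * side (p (n+1)) ≤ dlt (n+1) / 4096` by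
`GoodSeq.fine (n+1)` and `sg_ge`. `p (n+1) = p n + (p (n+1) - p n)` (`GoodSeq.step`).
-/

open MeasureTheory Set Filter
open scoped Topology ENNReal

namespace Pool.Agent.H63.CR

variable {B C : ℝ} {Q p : ℕ → ℕ} {gb : ℝ × ℝ → ℝ × ℝ} {g : Fin 2 → ℕ → ℝ × ℝ → ℝ × ℝ} {Cf : ℕ → ℝ}
  {n1 : ℕ}

private lemma meax_ico (a : ℤ) (n : ℕ) : Finset.Ico a (a + ((n + 1 : ℕ) : ℤ)) =
    insert (a + (n : ℤ)) (Finset.Ico a (a + (n : ℤ))) := by
  ext x
  rw [Finset.mem_insert, Finset.mem_Ico, Finset.mem_Ico]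
  push_cast
  omega

private lemma meax_tele (f : ℤ → ℝ) (a : ℤ) (n : ℕ) :
    ∑ i ∈ Finset.Ico a (a + (n : ℤ)), (f (i + 1) - f i) = f (a + (n : ℤ)) - f a := by
  induction n with
  | zero => simp
  | succ n ih =>
    rw [meax_ico, Finset.sum_insert (by rw [Finset.mem_Ico]; omega), ih]
    push_cast
    rw [← add_assoc]
    ring

private lemma meax_row (f G : ℤ → ℝ) (a : ℤ) (n : ℕ) (s E M : ℝ)
    (hE : ∀ i ∈ Finset.Ico a (a + (n : ℤ)), |f (i + 1) - f i - G i * s| ≤ E)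
    (hM0 : |f a| ≤ M) (hM1 : |f (a + (n : ℤ))| ≤ M) :
    |∑ i ∈ Finset.Ico a (a + (n : ℤ)), G i * s| ≤ 2 * M + n * E := by
  have h1 : ∑ i ∈ Finset.Ico a (a + (n : ℤ)), G i * s = (f (a + (n : ℤ)) - f a) -
      ∑ i ∈ Finset.Ico a (a + (n : ℤ)), (f (i + 1) - f i - G i * s) := by
    rw [← meax_tele, ← Finset.sum_sub_distrib]
    exact Finset.sum_congr rfl fun i _ => by ring
  have h2 : |∑ i ∈ Finset.Ico a (a + (n : ℤ)), (f (i + 1) - f i - G i * s)| ≤ n * E := by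
    refine (Finset.abs_sum_le_sum_abs _ _).trans ((Finset.sum_le_sum hE).trans (le_of_eq ?_))
    rw [Finset.sum_const, Int.card_Ico, nsmul_eq_mul]
    congr 2
    omega
  rw [h1]
  refine (abs_sub _ _).trans ?_
  have h3 := abs_sub (f (a + (n : ℤ))) (f a)
  linarith

private lemma meax_spos (a : ℕ) : 0 < side a := by
  unfold side
  positivity

private lemma meax_side (P d : ℕ) : side P = 2 ^ d * side (P + d) := by
  unfold side
  rw [pow_add]
  have : (2 : ℝ) ^ d * (1 / 2) ^ d = 1 := by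
    rw [← mul_pow]
    norm_num
  calc (1 / 2 : ℝ) ^ P = (1 / 2) ^ P * 1 := by ring
    _ = (1 / 2 : ℝ) ^ P * (2 ^ d * (1 / 2) ^ d) := by rw [this]
    _ = 2 ^ d * ((1 / 2) ^ P * (1 / 2) ^ d) := by ring

private lemma meax_range (a : ℤ) (d : ℕ) :
    Finset.Ico (a * 2 ^ d) ((a + 1) * 2 ^ d) =
      Finset.Ico (a * 2 ^ d) (a * 2 ^ d + ((2 ^ d : ℕ) : ℤ)) := by
  congr 1
  push_cast
  ring

private lemma meax_fin (S X M K sP s : ℝ) (d : ℕ) (hs : 0 < s) (hsP : sP = 2 ^ d * s) (hK : 0 ≤ K)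
    (hX : X = S * s) (h : |X| ≤ 2 ^ d * (2 * M + 2 ^ d * (K * s ^ 2 / 2))) :
    |S| ≤ 4 ^ d * (2 * M / sP + K * s) := by
  rw [hX, abs_mul, abs_of_pos hs] at h
  have h4 : (4 : ℝ) ^ d = 2 ^ d * 2 ^ d := by
    rw [← mul_pow]
    norm_num
  have h2 : (0 : ℝ) < 2 ^ d := by positivity
  have e : 4 ^ d * (2 * M / sP + K * s) * s =
      2 ^ d * (2 * M + 2 ^ d * (K * s ^ 2 / 2)) + 2 ^ d * 2 ^ d * (K * s ^ 2 / 2) := by
    rw [hsP, h4]
    field_simp
    ring
  have h5 : 0 ≤ 2 ^ d * 2 ^ d * (K * s ^ 2 / 2) := by positivity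
  have h6 : |S| * s ≤ 4 ^ d * (2 * M / sP + K * s) * s := by
    rw [e]
    linarith
  exact le_of_mul_le_mul_right h6 hs

theorem mev (B K M : ℝ) (hK : 0 ≤ K) (v : ℝ × ℝ → ℝ) (g : ℝ × ℝ → ℝ × ℝ)
    (htay : ∀ u ∈ Uu B, ∀ u' ∈ Uu B, |v u' - v u - dot (g u) (u' - u)| ≤ K * ‖u' - u‖ ^ 2)
    (hM : ∀ u ∈ Uu B, |v u| ≤ M) (P d : ℕ) (k : ℤ × ℤ) (hk : csq P k ⊆ Uu B) :
    ‖∑ k' ∈ kids d k, g (ctr (P + d) k')‖ ≤ 4 ^ d * (2 * M / side P + K * side (P + d)) := by
  obtain ⟨s, hs⟩ : ∃ s, s = side (P + d) := ⟨_, rfl⟩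
  have hs0 : 0 < s := by rw [hs]; exact meax_spos _
  have hin : ∀ i j : ℤ, (i, j) ∈ kids d k → ∀ x y : ℝ, (i : ℝ) * s ≤ x → x ≤ ((i : ℝ) + 1) * s →
      (j : ℝ) * s ≤ y → y ≤ ((j : ℝ) + 1) * s → ((x, y) : ℝ × ℝ) ∈ Uu B := by
    intro i j hij x y h1 h2 h3 h4
    rw [hs] at h1 h2 h3 h4
    exact hk (lni_csq_sub (P := P) hij ⟨⟨h1, h2⟩, ⟨h3, h4⟩⟩)
  have hmem : ∀ i j : ℤ, (i, j) ∈ kids d k ↔ i ∈ Finset.Ico (k.1 * 2 ^ d) ((k.1 + 1) * 2 ^ d) ∧
      j ∈ Finset.Ico (k.2 * 2 ^ d) ((k.2 + 1) * 2 ^ d) := by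
    intro i j
    unfold kids
    rw [Finset.mem_product]
  have hc : ∀ i j : ℤ, ctr (P + d) (i, j) = (((i : ℝ) + 1 / 2) * s, ((j : ℝ) + 1 / 2) * s) := by
    intro i j
    rw [hs]
    rfl
  have hpow : (0 : ℤ) < 2 ^ d := by positivity
  have hcast : (((2 ^ d : ℕ) : ℤ)) = 2 ^ d := by push_cast; rfl
  have hcastR : (((2 ^ d : ℕ) : ℝ)) = 2 ^ d := by push_cast; rfl
  -- horizontal step
  have hH : ∀ i j : ℤ, (i, j) ∈ kids d k →
      |v (((i + 1 : ℤ) : ℝ) * s, ((j : ℝ) + 1 / 2) * s) - v ((i : ℝ) * s, ((j : ℝ) + 1 / 2) * s) -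
        (g (ctr (P + d) (i, j))).1 * s| ≤ K * s ^ 2 / 2 := by
    intro i j hij
    have m0 := hin i j hij ((i : ℝ) * s) (((j : ℝ) + 1 / 2) * s) le_rfl (by nlinarith)
      (by nlinarith) (by nlinarith)
    have m1 := hin i j hij (((i : ℝ) + 1) * s) (((j : ℝ) + 1 / 2) * s) (by nlinarith) le_rfl
      (by nlinarith) (by nlinarith)
    have mc := hin i j hij (((i : ℝ) + 1 / 2) * s) (((j : ℝ) + 1 / 2) * s) (by nlinarith)
      (by nlinarith) (by nlinarith) (by nlinarith)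
    rw [← hc] at mc
    have t0 := htay _ mc _ m0
    have t1 := htay _ mc _ m1
    have n0 : ‖((i : ℝ) * s, ((j : ℝ) + 1 / 2) * s) - ctr (P + d) (i, j)‖ = s / 2 := by
      rw [hc, Prod.mk_sub_mk, Prod.norm_def]
      have e1 : (i : ℝ) * s - ((i : ℝ) + 1 / 2) * s = -(s / 2) := by ring
      simp only [e1, sub_self, norm_zero, norm_neg, Real.norm_eq_abs]
      rw [abs_of_pos (by linarith)]
      exact max_eq_left (by linarith)
    have n1 : ‖(((i : ℝ) + 1) * s, ((j : ℝ) + 1 / 2) * s) - ctr (P + d) (i, j)‖ = s / 2 := by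
      rw [hc, Prod.mk_sub_mk, Prod.norm_def]
      have e1 : ((i : ℝ) + 1) * s - ((i : ℝ) + 1 / 2) * s = s / 2 := by ring
      simp only [e1, sub_self, norm_zero, Real.norm_eq_abs]
      rw [abs_of_pos (by linarith)]
      exact max_eq_left (by linarith)
    rw [n0] at t0
    rw [n1] at t1
    have d0 : dot (g (ctr (P + d) (i, j))) (((i : ℝ) * s, ((j : ℝ) + 1 / 2) * s) -
        ctr (P + d) (i, j)) = -((g (ctr (P + d) (i, j))).1 * (s / 2)) := by
      conv_lhs => rw [hc i j]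
      rw [Prod.mk_sub_mk]
      unfold dot
      simp only
      rw [← hc i j]
      ring
    have d1 : dot (g (ctr (P + d) (i, j))) ((((i : ℝ) + 1) * s, ((j : ℝ) + 1 / 2) * s) -
        ctr (P + d) (i, j)) = (g (ctr (P + d) (i, j))).1 * (s / 2) := by
      conv_lhs => rw [hc i j]
      rw [Prod.mk_sub_mk]
      unfold dot
      simp only
      rw [← hc i j]
      ring
    rw [d0] at t0
    rw [d1] at t1
    push_cast
    rw [abs_le] at t0 t1 ⊢
    constructor <;> nlinarith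
  -- vertical step
  have hV : ∀ i j : ℤ, (i, j) ∈ kids d k →
      |v (((i : ℝ) + 1 / 2) * s, ((j + 1 : ℤ) : ℝ) * s) - v (((i : ℝ) + 1 / 2) * s, (j : ℝ) * s) -
        (g (ctr (P + d) (i, j))).2 * s| ≤ K * s ^ 2 / 2 := by
    intro i j hij
    have m0 := hin i j hij (((i : ℝ) + 1 / 2) * s) ((j : ℝ) * s) (by nlinarith) (by nlinarith)
      le_rfl (by nlinarith)
    have m1 := hin i j hij (((i : ℝ) + 1 / 2) * s) (((j : ℝ) + 1) * s) (by nlinarith)
      (by nlinarith) (by nlinarith) le_rfl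
    have mc := hin i j hij (((i : ℝ) + 1 / 2) * s) (((j : ℝ) + 1 / 2) * s) (by nlinarith)
      (by nlinarith) (by nlinarith) (by nlinarith)
    rw [← hc] at mc
    have t0 := htay _ mc _ m0
    have t1 := htay _ mc _ m1
    have n0 : ‖(((i : ℝ) + 1 / 2) * s, (j : ℝ) * s) - ctr (P + d) (i, j)‖ = s / 2 := by
      rw [hc, Prod.mk_sub_mk, Prod.norm_def]
      have e1 : (j : ℝ) * s - ((j : ℝ) + 1 / 2) * s = -(s / 2) := by ring
      simp only [e1, sub_self, norm_zero, norm_neg, Real.norm_eq_abs]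
      rw [abs_of_pos (by linarith)]
      exact max_eq_right (by linarith)
    have n1 : ‖(((i : ℝ) + 1 / 2) * s, ((j : ℝ) + 1) * s) - ctr (P + d) (i, j)‖ = s / 2 := by
      rw [hc, Prod.mk_sub_mk, Prod.norm_def]
      have e1 : ((j : ℝ) + 1) * s - ((j : ℝ) + 1 / 2) * s = s / 2 := by ring
      simp only [e1, sub_self, norm_zero, Real.norm_eq_abs]
      rw [abs_of_pos (by linarith)]
      exact max_eq_right (by linarith)
    rw [n0] at t0
    rw [n1] at t1
    have d0 : dot (g (ctr (P + d) (i, j))) ((((i : ℝ) + 1 / 2) * s, (j : ℝ) * s) -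
        ctr (P + d) (i, j)) = -((g (ctr (P + d) (i, j))).2 * (s / 2)) := by
      conv_lhs => rw [hc i j]
      rw [Prod.mk_sub_mk]
      unfold dot
      simp only
      rw [← hc i j]
      ring
    have d1 : dot (g (ctr (P + d) (i, j))) ((((i : ℝ) + 1 / 2) * s, ((j : ℝ) + 1) * s) -
        ctr (P + d) (i, j)) = (g (ctr (P + d) (i, j))).2 * (s / 2) := by
      conv_lhs => rw [hc i j]
      rw [Prod.mk_sub_mk]
      unfold dot
      simp only
      rw [← hc i j]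
      ring
    rw [d0] at t0
    rw [d1] at t1
    push_cast
    rw [abs_le] at t0 t1 ⊢
    constructor <;> nlinarith
  rw [Prod.norm_def]
  refine max_le ?_ ?_
  · rw [Real.norm_eq_abs, Prod.fst_sum]
    refine meax_fin _ (∑ k' ∈ kids d k, (g (ctr (P + d) k')).1 * s) M K (side P) (side (P + d)) d
      (meax_spos _) (meax_side P d) hK (by rw [Finset.sum_mul, hs]) ?_
    rw [← hs]
    unfold kids
    rw [Finset.sum_product_right]
    refine (Finset.abs_sum_le_sum_abs _ _).trans ?_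
    have hrow : ∀ j ∈ Finset.Ico (k.2 * 2 ^ d) ((k.2 + 1) * 2 ^ d),
        |∑ i ∈ Finset.Ico (k.1 * 2 ^ d) ((k.1 + 1) * 2 ^ d), (g (ctr (P + d) (i, j))).1 * s| ≤
          2 * M + 2 ^ d * (K * s ^ 2 / 2) := by
      intro j hj
      rw [meax_range, ← hcastR]
      refine meax_row (fun i => v ((i : ℝ) * s, ((j : ℝ) + 1 / 2) * s))
        (fun i => (g (ctr (P + d) (i, j))).1) (k.1 * 2 ^ d) (2 ^ d) s _ M ?_ ?_ ?_
      · intro i hi
        rw [← meax_range] at hi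
        exact hH i j ((hmem i j).2 ⟨hi, hj⟩)
      · refine hM _ (hin (k.1 * 2 ^ d) j ((hmem _ _).2 ⟨?_, hj⟩) _ _ le_rfl (by nlinarith)
          (by nlinarith) (by nlinarith))
        rw [Finset.mem_Ico]
        constructor <;> nlinarith
      · refine hM _ (hin (k.1 * 2 ^ d + 2 ^ d - 1) j ((hmem _ _).2 ⟨?_, hj⟩) _ _ ?_ ?_
          (by nlinarith) (by nlinarith))
        · rw [Finset.mem_Ico]
          constructor
          · linarith
          · linarith
        · push_cast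
          nlinarith
        · push_cast
          nlinarith
    refine (Finset.sum_le_sum hrow).trans (le_of_eq ?_)
    rw [Finset.sum_const, meax_range, Int.card_Ico, nsmul_eq_mul]
    congr 1
    rw [add_sub_cancel_left, Int.toNat_natCast, hcastR]
  · rw [Real.norm_eq_abs, Prod.snd_sum]
    refine meax_fin _ (∑ k' ∈ kids d k, (g (ctr (P + d) k')).2 * s) M K (side P) (side (P + d)) d
      (meax_spos _) (meax_side P d) hK (by rw [Finset.sum_mul, hs]) ?_
    rw [← hs]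
    unfold kids
    rw [Finset.sum_product]
    refine (Finset.abs_sum_le_sum_abs _ _).trans ?_
    have hrow : ∀ i ∈ Finset.Ico (k.1 * 2 ^ d) ((k.1 + 1) * 2 ^ d),
        |∑ j ∈ Finset.Ico (k.2 * 2 ^ d) ((k.2 + 1) * 2 ^ d), (g (ctr (P + d) (i, j))).2 * s| ≤
          2 * M + 2 ^ d * (K * s ^ 2 / 2) := by
      intro i hi
      rw [meax_range, ← hcastR]
      refine meax_row (fun j => v (((i : ℝ) + 1 / 2) * s, (j : ℝ) * s))
        (fun j => (g (ctr (P + d) (i, j))).2) (k.2 * 2 ^ d) (2 ^ d) s _ M ?_ ?_ ?_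
      · intro j hj
        rw [← meax_range] at hj
        exact hV i j ((hmem i j).2 ⟨hi, hj⟩)
      · refine hM _ (hin i (k.2 * 2 ^ d) ((hmem _ _).2 ⟨hi, ?_⟩) _ _ (by nlinarith)
          (by nlinarith) le_rfl (by nlinarith))
        rw [Finset.mem_Ico]
        constructor <;> nlinarith
      · refine hM _ (hin i (k.2 * 2 ^ d + 2 ^ d - 1) ((hmem _ _).2 ⟨hi, ?_⟩) _ _
          (by nlinarith) (by nlinarith) ?_ ?_)
        · rw [Finset.mem_Ico]
          constructor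
          · linarith
          · linarith
        · push_cast
          nlinarith
        · push_cast
          nlinarith
    refine (Finset.sum_le_sum hrow).trans (le_of_eq ?_)
    rw [Finset.sum_const, meax_range, Int.card_Ico, nsmul_eq_mul]
    congr 1
    rw [add_sub_cancel_left, Int.toNat_natCast, hcastR]

theorem mea (hG : GoodSeq Cf Q p) (hD : Dat B C Q gb g) (hC : ∀ j, n1 ≤ j → C ≤ Cf j)
    {n : ℕ} (hn : n1 ≤ n) {k : ℤ × ℤ} (hk : csq (p n) k ⊆ Uu B) :
    ‖∑ k' ∈ kids (p (n + 1) - p n) k,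
        (gfp gb g (n + 1) (ctr (p (n + 1)) k') - gfp gb g n (ctr (p n) k))‖ ≤
      dlt n * 4 ^ (p (n + 1) - p n) := by
  have hstep : p n + (p (n + 1) - p n) = p (n + 1) := by
    have := hG.step n
    omega
  obtain ⟨d, hd⟩ : ∃ d, d = p (n + 1) - p n := ⟨_, rfl⟩
  rw [← hd] at hstep ⊢
  have h8 := hD.one
  have hom : 0 < omq Q (n + 1) := lt_of_lt_of_le (by positivity) (hG.Q0 (n + 1))
  have hs0 := meax_spos (p n)
  have hs1 := meax_spos (p (n + 1))
  have hdl : 0 < dlt n := by unfold dlt; positivity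
  have hCf := hC (n + 1) (by omega)
  have hM : 2 * (C * amp (n + 1) / omq Q (n + 1)) / side (p n) ≤ dlt n / 2048 := by
    have h1 := hG.fast n
    have h2 := amp_le_one (n + 1)
    have h2' := amp_pos (n + 1)
    have h3 : C * amp (n + 1) ≤ Cf (n + 1) := by nlinarith
    have h4 : (1 : ℝ) ≤ 2 ^ (n + 1) := one_le_pow₀ (by norm_num)
    have h5 : 4096 * (C * amp (n + 1)) ≤ omq Q (n + 1) * (dlt n * side (p n)) := by
      have h6 : 0 ≤ C * amp (n + 1) := by positivity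
      have h7 : 4096 * Cf (n + 1) ≤ 4096 * 2 ^ (n + 1) * Cf (n + 1) := by nlinarith
      linarith
    rw [div_le_div_iff₀ hs0 (by norm_num), ← mul_div_assoc, div_mul_eq_mul_div,
      div_le_iff₀ hom]
    nlinarith
  have hKs : C * omq Q (n + 1) * side (p (n + 1)) ≤ dlt n / 4096 := by
    have h1 := hG.fine (n + 1)
    have h2 := sg_ge Q (n + 1)
    have h3 : dlt (n + 1) ≤ dlt n := by
      unfold dlt
      exact pow_le_pow_of_le_one (by norm_num) (by norm_num) (Nat.le_succ n)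
    have h4 : C * omq Q (n + 1) ≤ Cf (n + 1) * Sg Q (n + 1) :=
      mul_le_mul hCf (by linarith) hom.le (by linarith)
    have h5 := mul_le_mul_of_nonneg_right h4 hs1.le
    linarith
  have hw : ∀ i : Fin 2, ‖∑ k' ∈ kids d k, g i (n + 1) (ctr (p (n + 1)) k')‖ ≤
      4 ^ d * (dlt n / 2048 + dlt n / 4096) := by
    intro i
    have h1 := mev B (C * omq Q (n + 1)) (C * amp (n + 1) / omq Q (n + 1)) (by positivity)
      (vv Q i (n + 1)) (g i (n + 1)) (hD.wave i (n + 1)).tay (hD.wave i (n + 1)).size (p n) d k hk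
    rw [hstep] at h1
    exact h1.trans (mul_le_mul_of_nonneg_left (add_le_add hM hKs) (by positivity))
  have hf : ‖∑ k' ∈ kids d k, (gfp gb g n (ctr (p (n + 1)) k') - gfp gb g n (ctr (p n) k))‖ ≤
      4 ^ d * (dlt n / 4096) := by
    refine (norm_sum_le _ _).trans ?_
    have h1 : ∀ k' ∈ kids d k, ‖gfp gb g n (ctr (p (n + 1)) k') - gfp gb g n (ctr (p n) k)‖ ≤
        dlt n / 4096 := fun k' hk' => lni_first hG hD hC hn hk (hd ▸ hk')
    refine (Finset.sum_le_sum h1).trans (le_of_eq ?_)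
    rw [Finset.sum_const, lni_card, nsmul_eq_mul]
    push_cast
    rfl
  have e : ∑ k' ∈ kids d k, (gfp gb g (n + 1) (ctr (p (n + 1)) k') - gfp gb g n (ctr (p n) k)) =
      ∑ k' ∈ kids d k, (gfp gb g n (ctr (p (n + 1)) k') - gfp gb g n (ctr (p n) k)) +
      (∑ k' ∈ kids d k, g 0 (n + 1) (ctr (p (n + 1)) k') +
        ∑ k' ∈ kids d k, g 1 (n + 1) (ctr (p (n + 1)) k')) := by
    rw [← Finset.sum_add_distrib, ← Finset.sum_add_distrib]
    refine Finset.sum_congr rfl fun k' _ => ?_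
    rw [gfp_succ]
    abel
  rw [e]
  refine (norm_add_le _ _).trans ?_
  have h9 := norm_add_le (∑ k' ∈ kids d k, g 0 (n + 1) (ctr (p (n + 1)) k'))
    (∑ k' ∈ kids d k, g 1 (n + 1) (ctr (p (n + 1)) k'))
  have h10 := hw 0
  have h11 := hw 1
  have h12 : 0 < (4 : ℝ) ^ d * dlt n := by positivity
  nlinarith

end Pool.Agent.H63.CR
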