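import Pool.Agent.H63.CR.SQA

/-!
# H63/CR/NMC: the sets `Nm` are compact (about 40 min)

For `n0 <= 256 ^ m`: `Nm` is the union over the finitely many `n` of block `m` and the finitely many
`k in boxIdx (p n - p n0) k0` with `thr m <= ‖G n k‖` of the images of the compact sets
`{h in Icc | |dre h (G n k)| <= 5 C / 16^m} × (mid ∩ csq (p n) k ∩ {f u = t})` under the continuous
map `(h, u) ↦ (h, prj h u)`. (`f` is continuous on the box, which contains `mid`.)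
-/

open MeasureTheory Set Filter
open scoped Topology ENNReal

namespace Pool.Agent.H63.CR

variable {f : ℝ × ℝ → ℝ} {p : ℕ → ℕ} {G : ℕ → ℤ × ℤ → ℝ × ℝ} {n0 : ℕ} {k0 : ℤ × ℤ} {C c : ℝ}
  {w : Fin 3 → ℝ × ℝ × ℝ}

theorem isCompact_Nm (hW : IsWalk f p G n0 k0 C c w) (t : ℝ) (m : ℕ) :
    IsCompact (Nm f p G n0 k0 C t m) := by
  classical
  have hlev : ∀ (n : ℕ) (k : ℤ × ℤ), IsCompact ((mid (p n0) k0 ∩ csq (p n) k) ∩ f ⁻¹' {t}) := by
    intro n k
    have h1 : IsCompact (mid (p n0) k0 ∩ csq (p n) k) :=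
      (isCompact_mid _ _).inter (isCompact_csq _ _)
    have h2 : ContinuousOn f (mid (p n0) k0 ∩ csq (p n) k) :=
      hW.cont.mono (inter_subset_left.trans (mid_sub_box _ _))
    refine h1.of_isClosed_subset (h2.preimage_isClosed_of_isClosed h1.isClosed isClosed_singleton)
      inter_subset_left
  have hint : ∀ (n : ℕ) (k : ℤ × ℤ), IsCompact {h : ℝ | h ∈ Icc (19 / 10 : ℝ) (31 / 10) ∧
      |dre h (G n k)| ≤ 5 * C * (1 / 16) ^ m} := by
    intro n k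
    have h1 : Continuous fun h : ℝ => |dre h (G n k)| := by
      unfold dre
      fun_prop
    exact isCompact_Icc.inter_right (isClosed_le h1 continuous_const)
  have hcont : Continuous fun z : ℝ × (ℝ × ℝ) => (z.1, prj z.1 z.2) := by
    unfold prj
    fun_prop
  have heq : Nm f p G n0 k0 C t m = ⋃ n ∈ Finset.Ico (256 ^ m) (256 ^ (m + 1)),
      ⋃ k ∈ (boxIdx (p n - p n0) k0).filter (fun k => thr m ≤ ‖G n k‖),
      (fun z : ℝ × (ℝ × ℝ) => (z.1, prj z.1 z.2)) ''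
        ({h : ℝ | h ∈ Icc (19 / 10 : ℝ) (31 / 10) ∧ |dre h (G n k)| ≤ 5 * C * (1 / 16) ^ m} ×ˢ
          ((mid (p n0) k0 ∩ csq (p n) k) ∩ f ⁻¹' {t})) := by
    ext z
    simp only [mem_iUnion, Finset.mem_Ico, Finset.mem_filter, exists_prop]
    constructor
    · rintro ⟨h1, u, hu, hft, hz, n, hn1, hn2, k, hk, huk, hthr, hd⟩
      refine ⟨n, ⟨hn1, hn2⟩, k, ⟨hk, hthr⟩, (z.1, u), ⟨⟨h1, hd⟩, ⟨hu, huk⟩, hft⟩, ?_⟩
      exact Prod.ext rfl hz
    · rintro ⟨n, ⟨hn1, hn2⟩, k, ⟨hk, hthr⟩, ⟨h, u⟩, ⟨⟨h1, hd⟩, ⟨hu, huk⟩, hft⟩, rfl⟩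
      exact ⟨h1, u, hu, hft, rfl, n, hn1, hn2, k, hk, huk, hthr, hd⟩
  rw [heq]
  refine Finset.isCompact_biUnion _ fun n _ => Finset.isCompact_biUnion _ fun k _ => ?_
  exact ((hint n k).prod (hlev n k)).image hcont

end Pool.Agent.H63.CR
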