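import Pool.Agent.H63.CR.NMC
import Pool.Agent.H63.CR.VIT
import Pool.Agent.H63.CR.VAL

/-!
# H63/CR/NMS: measure of `Nm` (about 60 min)

`nm_slice`: fixed height `h`. Let `A` be the set of the `u in mid`, `f u = t`, with an `n` in block
`m` and a square `k` as in the definition of `Nm` (with `z.1 = h`); choose `lev u` = such an `n`.
`{x | (h, x) in Nm} = (prj h) '' A` (or empty if `h` is not in the interval). For `u, u1 in A` with
`‖u1 - u‖ <= 5 * side`: `lin` gives `|dot g (u1 - u)| <= dlt n * side` (`f u1 = f u`), and `val` with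
`e = 5 * C / 16 ^ m`, `r = thr m` (`5 * e <= r` iff `25 * C <= 4 ^ m`), `q = dlt n * side`
(`dlt_le_pow`) gives `|prj h (u1 - u)| <= (1/16^m + 25 C / 16^m) * 5 * 4^m * side <= 130 * C / 4^m * side`.
`length_lemma` with `B = 130 * C * (1/4)^m`: measure `<= 1040 * C * (1/4)^m * cnt`.
`nm_measure`: `Nm` is compact (`isCompact_Nm`), so measurable; `volume = volume.prod volume`,
`MeasureTheory.Measure.prod_apply`, integrate over `h in [1.9, 3.1]` (length 1.2 <= 2).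
-/

open MeasureTheory Set Filter
open scoped Topology ENNReal

namespace Pool.Agent.H63.CR

variable {f : ℝ × ℝ → ℝ} {p : ℕ → ℕ} {G : ℕ → ℤ × ℤ → ℝ × ℝ} {n0 : ℕ} {k0 : ℤ × ℤ} {C c : ℝ}
  {w : Fin 3 → ℝ × ℝ × ℝ}

/-- the variation estimate along the level set -/
private theorem nm_var (hW : IsWalk f p G n0 k0 C c w) (m : ℕ) (hm0 : n0 < 256 ^ m)
    (hmC : 25 * C ≤ 4 ^ m) (t h : ℝ) (hh : h ∈ Icc (19 / 10 : ℝ) (31 / 10)) (u u1 : ℝ × ℝ) (hu : f u = t)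
    (hu1 : u1 ∈ mid (p n0) k0 ∧ f u1 = t) (n : ℕ) (hn : 256 ^ m ≤ n) (k : ℤ × ℤ)
    (hk : k ∈ boxIdx (p n - p n0) k0) (huk : u ∈ csq (p n) k) (hG : thr m ≤ ‖G n k‖)
    (hdr : |dre h (G n k)| ≤ 5 * C * (1 / 16) ^ m) (hd : ‖u1 - u‖ ≤ 5 * side (p n)) :
    |prj h (u1 - u)| ≤ 130 * C * (1 / 4) ^ m * side (p n) := by
  have hs := side_pos (p n)
  have hC := hW.hC
  have hC0 : (0 : ℝ) < C := by linarith
  have hlin := hW.lin n (by omega) k hk u huk u1 (mid_sub_box _ _ hu1.1) (by linarith)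
  rw [hu, hu1.2, sub_self, zero_sub, abs_neg] at hlin
  have hthr : 0 < thr m := by
    unfold thr
    positivity
  have h16 : ((1 : ℝ) / 16) ^ m * 4 ^ m = (1 / 4) ^ m := by
    rw [← mul_pow]
    norm_num
  have h4 : ((1 : ℝ) / 4) ^ m * 4 ^ m = 1 := by
    rw [← mul_pow]
    norm_num
  have hp16 : (0 : ℝ) < (1 / 16) ^ m := by positivity
  have hp4 : (0 : ℝ) < (1 / 4) ^ m := by positivity
  have hv := val h hh (G n k) (u1 - u) (thr m) (5 * C * (1 / 16) ^ m) (dlt n * side (p n)) (side (p n)) hthr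
    (by positivity) (by
      unfold thr
      calc 5 * (5 * C * (1 / 16) ^ m) = (25 * C) * (1 / 16) ^ m := by ring
        _ ≤ 4 ^ m * (1 / 16) ^ m := mul_le_mul_of_nonneg_right hmC hp16.le
        _ = (1 / 4) ^ m := by rw [mul_comm, h16]) hG hdr hd hlin
  refine hv.trans ?_
  have hdl := dlt_le_pow hn
  rw [div_le_iff₀ hthr]
  unfold thr
  have e1 : dlt n * side (p n) ≤ (1 / 16) ^ m * side (p n) := mul_le_mul_of_nonneg_right hdl hs.le
  have e2 : ((1 : ℝ) / 16) ^ m = (1 / 4) ^ m * (1 / 4) ^ m := by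
    rw [← mul_pow]
    norm_num
  have e3 : (1 : ℝ) / 16 ^ 0 ≤ C := by simpa using hC
  calc (dlt n * side (p n) + 5 * (5 * C * (1 / 16) ^ m) * side (p n)) * 5
      ≤ ((1 / 16) ^ m * side (p n) + 5 * (5 * C * (1 / 16) ^ m) * side (p n)) * 5 := by linarith
    _ = (5 + 125 * C) * ((1 / 16) ^ m * side (p n)) := by ring
    _ ≤ (130 * C) * ((1 / 16) ^ m * side (p n)) := mul_le_mul_of_nonneg_right (by linarith) (by positivity)
    _ = 130 * C * (1 / 4) ^ m * side (p n) * (1 / 4) ^ m := by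
      rw [e2]
      ring

private theorem cnt_nonneg' (f : ℝ × ℝ → ℝ) (p : ℕ) (S : Finset (ℤ × ℤ)) (t : ℝ) : 0 ≤ cnt f p S t := by
  unfold cnt
  refine Finset.sum_nonneg fun k _ => ?_
  exact Set.indicator_nonneg (fun _ _ => (side_pos p).le) t

theorem nm_slice (hW : IsWalk f p G n0 k0 C c w) (m : ℕ) (hm : 1 ≤ m) (hm0 : n0 < 256 ^ m)
    (hmC : 25 * C ≤ 4 ^ m) (t h : ℝ) :
    volume {x : ℝ | (h, x) ∈ Nm f p G n0 k0 C t m} ≤ ENNReal.ofReal (1040 * C * (1 / 4) ^ m *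
      cnt f (p (256 ^ (m + 1))) (boxIdx (p (256 ^ (m + 1)) - p n0) k0) t) := by
  have hC := hW.hC
  by_cases hh : h ∈ Icc (19 / 10 : ℝ) (31 / 10)
  swap
  · have h1 : {x : ℝ | (h, x) ∈ Nm f p G n0 k0 C t m} = ∅ := by
      ext x
      simp only [mem_ofPred_eq, mem_empty_iff_false, iff_false]
      intro hx
      exact hh hx.1
    rw [h1, measure_empty]
    exact zero_le
  obtain ⟨A, hA⟩ : ∃ A : Set (ℝ × ℝ), A = {u | u ∈ mid (p n0) k0 ∧ f u = t ∧
      ∃ n, 256 ^ m ≤ n ∧ n < 256 ^ (m + 1) ∧ ∃ k ∈ boxIdx (p n - p n0) k0, u ∈ csq (p n) k ∧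
      thr m ≤ ‖G n k‖ ∧ |dre h (G n k)| ≤ 5 * C * (1 / 16) ^ m} := ⟨_, rfl⟩
  have key : ∀ u : ℝ × ℝ, ∃ n : ℕ, u ∈ A → 256 ^ m ≤ n ∧ n < 256 ^ (m + 1) ∧ ∃ k ∈ boxIdx (p n - p n0) k0, u ∈ csq (p n) k ∧
      thr m ≤ ‖G n k‖ ∧ |dre h (G n k)| ≤ 5 * C * (1 / 16) ^ m := by
    intro u
    by_cases hu : u ∈ A
    · have h2 := hu
      rw [hA] at h2
      obtain ⟨n, hn⟩ := h2.2.2
      exact ⟨n, fun _ => hn⟩
    · exact ⟨0, fun h => absurd h hu⟩
  choose lev hlev using key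
  have hAm : ∀ u ∈ A, u ∈ mid (p n0) k0 ∧ f u = t := by
    intro u hu
    rw [hA] at hu
    exact ⟨hu.1, hu.2.1⟩
  have hsub : {x : ℝ | (h, x) ∈ Nm f p G n0 k0 C t m} ⊆ (prj h) '' A := by
    intro x hx
    obtain ⟨_, u, hu1, hu2, hu3, hu4⟩ := hx
    refine ⟨u, ?_, hu3⟩
    rw [hA]
    exact ⟨hu1, hu2, hu4⟩
  have hlen := length_lemma hW m hm hm0 t A hAm lev (fun u hu => ⟨(hlev u hu).1, (hlev u hu).2.1⟩) (fun u hu => by
      obtain ⟨_, _, k, hk, h1, h2, _⟩ := hlev u hu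
      exact ⟨k, hk, h1, h2⟩) (prj h) (130 * C * (1 / 4) ^ m) (by positivity) (by
      intro u hu u1 hu1 hd
      obtain ⟨h1, h2, k, hk, h3, h4, h5⟩ := hlev u hu
      rw [← prj_sub]
      exact nm_var hW m hm0 hmC t h hh u u1 (hAm u hu).2 (hAm u1 hu1) (lev u) h1 k hk h3 h4 h5 hd)
  refine (measure_mono hsub).trans (hlen.trans (le_of_eq ?_))
  congr 1
  ring

theorem nm_measure (hW : IsWalk f p G n0 k0 C c w) (m : ℕ) (hm : 1 ≤ m) (hm0 : n0 < 256 ^ m)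
    (hmC : 25 * C ≤ 4 ^ m) (t : ℝ) :
    volume (Nm f p G n0 k0 C t m) ≤ ENNReal.ofReal (2080 * C * (1 / 4) ^ m *
      cnt f (p (256 ^ (m + 1))) (boxIdx (p (256 ^ (m + 1)) - p n0) k0) t) := by
  have hC := hW.hC
  obtain ⟨K, hK⟩ : ∃ K : ℝ, K = 1040 * C * (1 / 4) ^ m *
      cnt f (p (256 ^ (m + 1))) (boxIdx (p (256 ^ (m + 1)) - p n0) k0) t := ⟨_, rfl⟩
  have hK0 : 0 ≤ K := by
    rw [hK]
    have := cnt_nonneg' f (p (256 ^ (m + 1))) (boxIdx (p (256 ^ (m + 1)) - p n0) k0) t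
    positivity
  have hmeas : MeasurableSet (Nm f p G n0 k0 C t m) := (isCompact_Nm hW t m).isClosed.measurableSet
  have h2K : 2080 * C * (1 / 4) ^ m * cnt f (p (256 ^ (m + 1))) (boxIdx (p (256 ^ (m + 1)) - p n0) k0) t = 2 * K := by
    rw [hK]
    ring
  rw [h2K, Measure.volume_eq_prod, Measure.prod_apply hmeas]
  have h1 : ∀ h : ℝ, volume (Prod.mk h ⁻¹' Nm f p G n0 k0 C t m) ≤
      (Icc (19 / 10 : ℝ) (31 / 10)).indicator (fun _ => ENNReal.ofReal K) h := by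
    intro h
    by_cases hh : h ∈ Icc (19 / 10 : ℝ) (31 / 10)
    · rw [Set.indicator_of_mem hh, hK]
      exact nm_slice hW m hm hm0 hmC t h
    · have h2 : Prod.mk h ⁻¹' Nm f p G n0 k0 C t m = ∅ := by
        ext x
        simp only [mem_preimage, mem_empty_iff_false, iff_false]
        intro hx
        exact hh hx.1
      rw [h2, measure_empty]
      exact zero_le
  refine (lintegral_mono h1).trans ?_
  rw [lintegral_indicator measurableSet_Icc, setLIntegral_const, Real.volume_Icc, ← ENNReal.ofReal_mul hK0]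
  apply ENNReal.ofReal_le_ofReal
  linarith

end Pool.Agent.H63.CR
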