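import Pool.Agent.H63.CR.CHT

/-!
# H63/CR/NPT: the null set on the chart lines (about 70 min)

* `npt_image`: for `z ∈ Nc N` (so `z.2 > 0`), `psi z ∈ chartLine u` iff `u.1 * z.1 / z.2 + u.2 / z.2 = 1` iff
  `z.2 = prj z.1 u`.
* `npt_null`: the map `h ↦ psi (h, prj h u)` is Lipschitz on `Icc 1.9 3.1` (`prj h u ≥ u.2 > 0`; it is `C^1` near the
  compact convex set `Icc 1.9 3.1`), and the set of the `h` is null (it is contained in `{h | (h, prj h u) ∈ N}`);
  `LipschitzOnWith.hausdorffMeasure_image_le`, `hausdorffMeasure_real`.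
* `npt_le`: the set is contained in `chartLine u ∩ {x | 0 < x 0 ∧ 0 < x 1 ∧ 1.9 * x 0 ≤ x 1 ∧ x 1 ≤ 3.1 * x 0}`; by `chm`,
  `chi_lt`, `chi_gt` its measure is at most `La / (u.1 u.2) * (sp u 1.9 - sp u 3.1) = seg u 1.9 3.1` (`chi_len`)
  `= 1.2 * La / (prj 1.9 u * prj 3.1 u) ≤ 1.1 * La / (u.1 * (u.2 + 5 * u.1)) ≤ 1.1 * bas u`; with `r = u.2 / u.1` the first
  inequality is `1.2 * (r + 5) ≤ 1.1 * (r + 1.9) * (r + 3.1)`, true for `r ≥ 0`.
* `npt_gap`: let `gap i = Ioo a b` and `S = Ec Q ∪ {x | 0 < x 0 ∧ 0 < x 1 ∧ a * x 0 < x 1 ∧ x 1 < b * x 0}`. A point `x` of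
  `chartLine u ∩ S` is in `Ec Q`, so in `E0 Q` (`cht_set`), or has height `h = x 1 / x 0 ∈ gap i` and is
  `psi (h, prj h u)` with `(h, prj h u) ∈ Nc N` (`prj h u > 400 + 400 * 1.9 = 1160`). By `chm` the measure of `chartLine u ∩ S` is
  `La / (u.1 u.2)` times the volume of the union of `{s | pt u s ∈ Ec Q}` and `Ioo (sp u b) (sp u a)`, which are disjoint
  by `chv_set`, `chv_heights` (heights in `(2, 2.01]`, `(3, 3.01]`, `< 1` or `> 5`); so it is
  `ofReal (ff Q u) + ofReal (seg u a b)` (`chv`, `chi_len`) and `seg u a b > 0`.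
-/

open MeasureTheory Set Filter
open scoped Topology ENNReal

namespace Pool.Agent.H63.CR

variable {u : ℝ × ℝ} {Q : ℕ → ℕ} {N : Set (ℝ × ℝ)}

lemma npt_psi0 (z : ℝ × ℝ) : (psi z) 0 = 1 / z.2 := by simp [psi]

lemma npt_psi1 (z : ℝ × ℝ) : (psi z) 1 = z.1 / z.2 := by simp [psi]

lemma npt_mem_line {u z : ℝ × ℝ} (hz : 0 < z.2) : psi z ∈ chartLine u ↔ prj z.1 u = z.2 := by
  change u.1 * (psi z) 1 + u.2 * (psi z) 0 = 1 ↔ _
  rw [npt_psi0, npt_psi1, prj]
  have h1 : u.1 * (z.1 / z.2) + u.2 * (1 / z.2) = (u.1 * z.1 + u.2) / z.2 := by ring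
  rw [h1, div_eq_one_iff_eq hz.ne']
  constructor <;> intro h <;> linarith

theorem npt_image (u : ℝ × ℝ) (N : Set (ℝ × ℝ)) :
    chartLine u ∩ psi '' Nc N = (fun h : ℝ => psi (h, prj h u)) '' {h | (h, prj h u) ∈ Nc N} := by
  ext x
  constructor
  · rintro ⟨hx, z, hz, rfl⟩
    have hz0 : 0 < z.2 := by have := hz.2.2; linarith
    have he := (npt_mem_line hz0).mp hx
    have hzz : (z.1, prj z.1 u) = z := Prod.ext rfl he
    refine ⟨z.1, ?_, ?_⟩
    · change (z.1, prj z.1 u) ∈ Nc N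
      rw [hzz]; exact hz
    · change psi (z.1, prj z.1 u) = psi z
      rw [hzz]
  · rintro ⟨h, hh, rfl⟩
    have hh' : (h, prj h u) ∈ Nc N := hh
    have h0 : 0 < prj h u := by have := hh'.2.2; simp only at this; linarith
    exact ⟨(npt_mem_line h0).mpr rfl, _, hh, rfl⟩

lemma npt_dist (h1 : 0 < u.1) (h2 : 0 < u.2) {h h' : ℝ} (hh : 0 ≤ h) (hh' : 0 ≤ h') :
    dist (psi (h, prj h u)) (psi (h', prj h' u)) ≤ (u.1 + u.2) / u.2 ^ 2 * dist h h' := by
  have hp := chi_prj_pos h1 h2 hh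
  have hp' := chi_prj_pos h1 h2 hh'
  rw [EuclideanSpace.dist_eq, Fin.sum_univ_two]
  simp only [npt_psi0, npt_psi1]
  have e0 : 1 / prj h u - 1 / prj h' u = -(u.1 * (h - h') / (prj h u * prj h' u)) := by
    field_simp
    unfold prj
    ring
  have e1 : h / prj h u - h' / prj h' u = u.2 * (h - h') / (prj h u * prj h' u) := by
    field_simp
    unfold prj
    ring
  have hge : u.2 ^ 2 ≤ prj h u * prj h' u := by
    unfold prj
    nlinarith [mul_nonneg h1.le hh, mul_nonneg h1.le hh',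
      mul_nonneg (mul_nonneg h1.le hh) (mul_nonneg h1.le hh')]
  have hpp : 0 < prj h u * prj h' u := mul_pos hp hp'
  have b0 : |1 / prj h u - 1 / prj h' u| ≤ u.1 / u.2 ^ 2 * |h - h'| := by
    rw [e0, abs_neg, abs_div, abs_mul, abs_of_pos h1, abs_of_pos hpp, div_mul_eq_mul_div]
    exact div_le_div_of_nonneg_left (by positivity) (by positivity) hge
  have b1 : |h / prj h u - h' / prj h' u| ≤ u.2 / u.2 ^ 2 * |h - h'| := by
    rw [e1, abs_div, abs_mul, abs_of_pos h2, abs_of_pos hpp, div_mul_eq_mul_div]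
    exact div_le_div_of_nonneg_left (by positivity) (by positivity) hge
  rw [Real.dist_eq, Real.dist_eq, Real.dist_eq]
  calc Real.sqrt (|1 / prj h u - 1 / prj h' u| ^ 2 + |h / prj h u - h' / prj h' u| ^ 2)
      ≤ |1 / prj h u - 1 / prj h' u| + |h / prj h u - h' / prj h' u| := by
        apply Real.sqrt_le_iff.mpr
        refine ⟨by positivity, ?_⟩
        nlinarith [mul_nonneg (abs_nonneg (1 / prj h u - 1 / prj h' u))
          (abs_nonneg (h / prj h u - h' / prj h' u))]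
    _ ≤ u.1 / u.2 ^ 2 * |h - h'| + u.2 / u.2 ^ 2 * |h - h'| := add_le_add b0 b1
    _ = (u.1 + u.2) / u.2 ^ 2 * |h - h'| := by ring

theorem npt_null (h1 : 0 < u.1) (h2 : 0 < u.2) (h0 : volume {h : ℝ | (h, prj h u) ∈ N} = 0) :
    μH[1] (chartLine u ∩ psi '' Nc N) = 0 := by
  rw [npt_image]
  have hL : LipschitzOnWith (Real.toNNReal ((u.1 + u.2) / u.2 ^ 2))
      (fun h : ℝ => psi (h, prj h u)) {h | (h, prj h u) ∈ Nc N} := by
    apply LipschitzOnWith.of_dist_le_mul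
    intro x hx y hy
    have hx1 : (x, prj x u) ∈ Nc N := hx
    have hy1 : (y, prj y u) ∈ Nc N := hy
    have hx0 : (0 : ℝ) ≤ x := by have := hx1.2.1.1; simp only at this; linarith
    have hy0 : (0 : ℝ) ≤ y := by have := hy1.2.1.1; simp only at this; linarith
    rw [Real.coe_toNNReal _ (by positivity)]
    exact npt_dist h1 h2 hx0 hy0
  have hle := hL.hausdorffMeasure_image_le (d := 1) zero_le_one
  have hz : μH[1] {h : ℝ | (h, prj h u) ∈ Nc N} = 0 := by
    rw [hausdorffMeasure_real]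
    exact measure_mono_null (fun h hh => hh.1) h0
  rw [hz, mul_zero] at hle
  exact le_antisymm hle zero_le

lemma npt_seg (h1 : 0 < u.1) (h2 : 0 < u.2) : seg u (19 / 10) (31 / 10) ≤ 11 / 10 * bas u := by
  have hLa : 0 < La u := Real.sqrt_pos.mpr (by positivity)
  have hp := chi_prj_pos h1 h2 (h := 19 / 10) (by norm_num)
  have hq := chi_prj_pos h1 h2 (h := 31 / 10) (by norm_num)
  have hb1 : 0 < La u / (u.2 * (u.1 + u.2)) := by positivity
  have hkey : seg u (19 / 10) (31 / 10) ≤ 11 / 10 * (La u / (u.1 * (u.2 + 5 * u.1))) := by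
    unfold seg
    rw [mul_div_assoc', div_le_div_iff₀ (mul_pos hp hq) (by positivity)]
    have : (31 / 10 - 19 / 10) * (u.1 * (u.2 + 5 * u.1)) ≤
        11 / 10 * (prj (19 / 10) u * prj (31 / 10) u) := by
      unfold prj
      nlinarith [mul_pos h1 h2, mul_pos h1 h1, mul_pos h2 h2]
    nlinarith
  unfold bas
  linarith

theorem npt_le (h1 : 0 < u.1) (h2 : 0 < u.2) :
    μH[1] (chartLine u ∩ psi '' Nc N) ≤ ENNReal.ofReal (11 / 10 * bas u) := by
  have hsub : psi '' Nc N ⊆ {x : Plane | 0 < x 0 ∧ 0 < x 1 ∧ 19 / 10 * x 0 ≤ x 1 ∧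
      x 1 ≤ 31 / 10 * x 0} := by
    rintro _ ⟨z, hz, rfl⟩
    have hz0 : 0 < z.2 := by have := hz.2.2; linarith
    have ha := hz.2.1.1
    have hb := hz.2.1.2
    refine ⟨?_, ?_, ?_, ?_⟩
    · rw [npt_psi0]; positivity
    · rw [npt_psi1]; exact div_pos (by linarith) hz0
    · rw [npt_psi0, npt_psi1, mul_one_div]
      exact div_le_div_of_nonneg_right ha hz0.le
    · rw [npt_psi0, npt_psi1, mul_one_div]
      exact div_le_div_of_nonneg_right hb hz0.le
  calc μH[1] (chartLine u ∩ psi '' Nc N)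
      ≤ μH[1] (chartLine u ∩ {x : Plane | 0 < x 0 ∧ 0 < x 1 ∧ 19 / 10 * x 0 ≤ x 1 ∧
        x 1 ≤ 31 / 10 * x 0}) := measure_mono (Set.inter_subset_inter_right _ hsub)
    _ = ENNReal.ofReal (La u / (u.1 * u.2)) * volume {s : ℝ | s ∈ Ioo (0 : ℝ) 1 ∧ pt u s ∈
        {x : Plane | 0 < x 0 ∧ 0 < x 1 ∧ 19 / 10 * x 0 ≤ x 1 ∧ x 1 ≤ 31 / 10 * x 0}} :=
        chm h1 h2 _ (fun x hx => ⟨hx.1, hx.2.1⟩)
    _ ≤ ENNReal.ofReal (La u / (u.1 * u.2)) *
        volume (Icc (sp u (31 / 10)) (sp u (19 / 10))) := by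
        gcongr
        rintro s ⟨hs, -, -, ha, hb⟩
        constructor
        · by_contra hcon
          push Not at hcon
          have := (chi_lt h1 h2 (h := 31 / 10) (by norm_num)).mpr hcon
          linarith
        · by_contra hcon
          push Not at hcon
          have := (chi_gt h1 h2 (h := 19 / 10) (by norm_num)).mpr hcon
          linarith
    _ = ENNReal.ofReal (seg u (19 / 10) (31 / 10)) := by
        rw [Real.volume_Icc, ← ENNReal.ofReal_mul (by unfold La; positivity),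
          chi_len h1 h2 (by norm_num) (by norm_num)]
    _ ≤ ENNReal.ofReal (11 / 10 * bas u) := ENNReal.ofReal_le_ofReal (npt_seg h1 h2)

lemma npt_gap_aux (hQ : ∀ n, 1 ≤ Q n) (hQ0 : ∀ n, 800 * 2 ^ n ≤ omq Q n) (h1 : 400 < u.1)
    (h2 : 400 < u.2) {a b : ℝ} (hab : a < b)
    (hcase : ((19 / 10 : ℝ) ≤ a ∧ b ≤ 2) ∨ ((201 / 100 : ℝ) ≤ a ∧ b ≤ 3) ∨
      ((301 / 100 : ℝ) ≤ a ∧ b ≤ 31 / 10))
    (hg : ∀ h ∈ Ioo a b, (h, prj h u) ∈ N) :
    ENNReal.ofReal (ff Q u) < μH[1] (chartLine u ∩ (E0 Q ∪ psi '' Nc N)) := by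
  have h1' : 0 < u.1 := by linarith
  have h2' : 0 < u.2 := by linarith
  have ha19 : (19 / 10 : ℝ) ≤ a := by rcases hcase with h | h | h <;> linarith [h.1]
  have hb31 : b ≤ (31 / 10 : ℝ) := by rcases hcase with h | h | h <;> linarith [h.2]
  have ha0 : 0 ≤ a := by linarith
  have hb0 : 0 ≤ b := by linarith
  set S : Set Plane := Ec Q ∪ {x : Plane | 0 < x 0 ∧ 0 < x 1 ∧ a * x 0 < x 1 ∧ x 1 < b * x 0}
    with hS
  have hsub : chartLine u ∩ S ⊆ chartLine u ∩ (E0 Q ∪ psi '' Nc N) := by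
    rintro x ⟨hx, hxS | hxS⟩
    · have : x ∈ chartLine u ∩ E0 Q := by
        rw [cht_set h1 h2]; exact ⟨hx, hxS⟩
      exact ⟨hx, Or.inl this.2⟩
    · obtain ⟨hx0, hx1, hxa, hxb⟩ := hxS
      have hxl : u.1 * x 1 + u.2 * x 0 = 1 := hx
      set h := x 1 / x 0 with hh
      have hha : a < h := by rw [hh, lt_div_iff₀ hx0]; exact hxa
      have hhb : h < b := by rw [hh, div_lt_iff₀ hx0]; exact hxb
      have hprj : prj h u = 1 / x 0 := by
        unfold prj
        rw [hh]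
        field_simp
        linarith
      refine ⟨hx, Or.inr ⟨(h, prj h u), ⟨hg h ⟨hha, hhb⟩, ⟨by simp only; linarith, by
        simp only; linarith⟩, ?_⟩, ?_⟩⟩
      · simp only
        unfold prj
        nlinarith
      · ext i
        fin_cases i
        · change (psi (h, prj h u)) 0 = x 0
          rw [npt_psi0]
          simp only
          rw [hprj, one_div_one_div]
        · change (psi (h, prj h u)) 1 = x 1
          rw [npt_psi1]
          simp only
          rw [hprj, hh]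
          field_simp
  have hchm := chm h1' h2' S (by
    rintro x (hx | hx)
    · exact ⟨hx.1, hx.2.1⟩
    · exact ⟨hx.1, hx.2.1⟩)
  have hset : {s : ℝ | s ∈ Ioo (0 : ℝ) 1 ∧ pt u s ∈ S} =
      {s : ℝ | s ∈ Ioo (0 : ℝ) 1 ∧ pt u s ∈ Ec Q} ∪ Ioo (sp u b) (sp u a) := by
    ext s
    constructor
    · rintro ⟨hs, hsE | hsE⟩
      · exact Or.inl ⟨hs, hsE⟩
      · exact Or.inr ⟨(chi_gt h1' h2' hb0).mp hsE.2.2.2, (chi_lt h1' h2' ha0).mp hsE.2.2.1⟩
    · rintro (⟨hs, hsE⟩ | hs)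
      · exact ⟨hs, Or.inl hsE⟩
      · have hs1 : s ∈ Ioo (0 : ℝ) 1 := by
          have hsb := sp_mem h1' h2' (u := u) (h := b) (by linarith)
          have hsa := sp_mem h1' h2' (u := u) (h := a) (by linarith)
          exact ⟨lt_trans hsb.1 hs.1, lt_trans hs.2 hsa.2⟩
        refine ⟨hs1, Or.inr ⟨?_, ?_, (chi_lt h1' h2' ha0).mpr hs.2,
          (chi_gt h1' h2' hb0).mpr hs.1⟩⟩
        · rw [chi_pt0]; exact div_pos hs1.1 h2'
        · rw [chi_pt1]; exact div_pos (by linarith [hs1.2]) h1'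
  have hdisj : Disjoint {s : ℝ | s ∈ Ioo (0 : ℝ) 1 ∧ pt u s ∈ Ec Q} (Ioo (sp u b) (sp u a)) := by
    rw [Set.disjoint_left]
    rintro s ⟨hs, hsE⟩ hsI
    have hmono : ∀ h h' : ℝ, 0 ≤ h → h ≤ h' → sp u h' ≤ sp u h := by
      intro h h' hh hle
      rcases hle.lt_or_eq with hl | hl
      · exact (sp_anti h1' h2' hh hl).le
      · rw [hl]
    rcases (chv_set hQ h1' h2' hs).mp hsE with hA | hB | ⟨i, n, hI⟩
    · have := hmono 1 a (by norm_num) (by linarith)
      linarith [hA.1, hsI.2]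
    · have := hmono b 5 hb0 (by linarith)
      linarith [hB.2, hsI.1]
    · obtain ⟨hh1, hh2, hh3, -⟩ := chv_heights hQ hQ0 h1' h2' i n
      set Z := zet (amp n) (omq Q n) (Rn n) u.1 (prj (mh i n) u) with hZ
      have hi : ((i : ℕ) : ℝ) = 0 ∨ ((i : ℕ) : ℝ) = 1 := by
        fin_cases i
        · left; norm_num
        · right; norm_num
      have key : (b ≤ mh i n) ∨ (mh i n + Z ≤ a) := by
        rcases hi with hi | hi <;> rw [hi] at hh1 hh3 <;> rcases hcase with hc | hc | hc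
        · left; linarith [hc.2]
        · right; linarith [hc.1]
        · right; linarith [hc.1]
        · left; linarith [hc.2]
        · left; linarith [hc.2]
        · right; linarith [hc.1]
      rcases key with hk | hk
      · have := hmono b (mh i n) hb0 hk
        linarith [hI.2, hsI.1]
      · have := hmono (mh i n + Z) a (by linarith) hk
        linarith [hI.1, hsI.2]
  have hvol : volume {s : ℝ | s ∈ Ioo (0 : ℝ) 1 ∧ pt u s ∈ S} =
      volume {s : ℝ | s ∈ Ioo (0 : ℝ) 1 ∧ pt u s ∈ Ec Q} + ENNReal.ofReal (sp u a - sp u b) := by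
    rw [hset, measure_union hdisj measurableSet_Ioo, Real.volume_Ioo]
  have hLa : 0 < La u := Real.sqrt_pos.mpr (by positivity)
  have hseg : 0 < seg u a b := by
    unfold seg
    exact div_pos (mul_pos hLa (by linarith)) (mul_pos (chi_prj_pos h1' h2' ha0)
      (chi_prj_pos h1' h2' hb0))
  have hff := chv_ge hQ hQ0 h1' h2'
  calc ENNReal.ofReal (ff Q u) < ENNReal.ofReal (ff Q u) + ENNReal.ofReal (seg u a b) := by
        apply ENNReal.lt_add_right ENNReal.ofReal_ne_top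
        exact (ENNReal.ofReal_pos.mpr hseg).ne'
    _ = μH[1] (chartLine u ∩ S) := by
        rw [hchm, hvol, mul_add, chv hQ hQ0 h1' h2', ← ENNReal.ofReal_mul (by positivity),
          chi_len h1' h2' ha0 hb0]
    _ ≤ μH[1] (chartLine u ∩ (E0 Q ∪ psi '' Nc N)) := measure_mono hsub

theorem npt_gap (hQ : ∀ n, 1 ≤ Q n) (hQ0 : ∀ n, 800 * 2 ^ n ≤ omq Q n) (h1 : 400 < u.1)
    (h2 : 400 < u.2) {i : Fin 3} (hg : ∀ h ∈ gap i, (h, prj h u) ∈ N) :
    ENNReal.ofReal (ff Q u) < μH[1] (chartLine u ∩ (E0 Q ∪ psi '' Nc N)) := by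
  fin_cases i
  · exact npt_gap_aux hQ hQ0 h1 h2 (a := 196 / 100) (b := 198 / 100) (by norm_num)
      (Or.inl ⟨by norm_num, by norm_num⟩) hg
  · exact npt_gap_aux hQ hQ0 h1 h2 (a := 249 / 100) (b := 251 / 100) (by norm_num)
      (Or.inr (Or.inl ⟨by norm_num, by norm_num⟩)) hg
  · exact npt_gap_aux hQ hQ0 h1 h2 (a := 302 / 100) (b := 304 / 100) (by norm_num)
      (Or.inr (Or.inr ⟨by norm_num, by norm_num⟩)) hg

end Pool.Agent.H63.CR
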