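import Pool.Agent.H63.CR.CNE

/-!
# H63/CR/QUS: average of a quadratic form of trace -2 (about 50 min)

Let `w = wco P Q S k0 k1` and `S_k = (a * x k * k0) • (2, 1) + (a * y k * k1) • (3, 1)`. By `cne_form`
`qf w S_k = a^2 * (P * x^2 + Q * x * y + S * y^2)`, and the sum over `T` is
`a^2 * ((P + S) / 2 * card T + P * sum (x^2 - 1/2) + Q * sum (x * y) + S * sum (y^2 - 1/2))
  ≤ a^2 * card T * (-1 + ε * (|P| + |Q| + |S|))`.
With `e = D k - S_k`, `‖e‖ ≤ ε * a`, `‖S_k‖ ≤ 3 * (k0 + k1) * a`: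
`|qf w (S_k + e) - qf w S_k| ≤ L * ‖e‖ * (2 * ‖S_k‖ + ‖e‖)`, `L = |w.1| + |w.2.1| + |w.2.2|`, at most
`L * ε * a^2 * (6 * (k0 + k1) + ε)`. For `ε ≤ 1` small the total is at most `-(1/2) * a^2 * card T`.
-/

open MeasureTheory Set Filter
open scoped Topology ENNReal

namespace Pool.Agent.H63.CR

private theorem qus_pert (w : ℝ × ℝ × ℝ) (G e : ℝ × ℝ) :
    |qf w (G + e) - qf w G| ≤ (|w.1| + |w.2.1| + |w.2.2|) * (‖e‖ * (2 * ‖G‖ + ‖e‖)) := by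
  obtain ⟨g, hg⟩ : ∃ g, g = ‖G‖ := ⟨_, rfl⟩
  obtain ⟨d, hd⟩ : ∃ d, d = ‖e‖ := ⟨_, rfl⟩
  have g1 : |G.1| ≤ g := by rw [hg]; exact norm_fst_le G
  have g2 : |G.2| ≤ g := by rw [hg]; exact norm_snd_le G
  have e1 : |e.1| ≤ d := by rw [hd]; exact norm_fst_le e
  have e2 : |e.2| ≤ d := by rw [hd]; exact norm_snd_le e
  rw [← hg, ← hd]
  have hd0 : 0 ≤ d := (abs_nonneg _).trans e1
  have hg0 : 0 ≤ g := (abs_nonneg _).trans g1
  have hmul : ∀ x y p q : ℝ, |x| ≤ p → |y| ≤ q → |x * y| ≤ p * q := by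
    intro x y p q hx hy
    rw [abs_mul]
    exact mul_le_mul hx hy (abs_nonneg _) ((abs_nonneg _).trans hx)
  have t1 : |2 * (G.1 * e.1) + e.1 * e.1| ≤ d * (2 * g + d) := by
    have := hmul _ _ _ _ g1 e1
    have h2 := hmul _ _ _ _ e1 e1
    have h3 := abs_add_le (2 * (G.1 * e.1)) (e.1 * e.1)
    rw [abs_mul, abs_two] at h3
    nlinarith
  have t2 : |G.1 * e.2 + e.1 * G.2 + e.1 * e.2| ≤ d * (2 * g + d) := by
    have h1 := hmul _ _ _ _ g1 e2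
    have h2 := hmul _ _ _ _ e1 g2
    have h3 := hmul _ _ _ _ e1 e2
    have h4 := abs_add_le (G.1 * e.2 + e.1 * G.2) (e.1 * e.2)
    have h5 := abs_add_le (G.1 * e.2) (e.1 * G.2)
    nlinarith
  have t3 : |2 * (G.2 * e.2) + e.2 * e.2| ≤ d * (2 * g + d) := by
    have := hmul _ _ _ _ g2 e2
    have h2 := hmul _ _ _ _ e2 e2
    have h3 := abs_add_le (2 * (G.2 * e.2)) (e.2 * e.2)
    rw [abs_mul, abs_two] at h3
    nlinarith
  have hdec : qf w (G + e) - qf w G = w.1 * (2 * (G.1 * e.1) + e.1 * e.1) +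
      w.2.1 * (G.1 * e.2 + e.1 * G.2 + e.1 * e.2) + w.2.2 * (2 * (G.2 * e.2) + e.2 * e.2) := by
    unfold qf
    simp only [Prod.fst_add, Prod.snd_add]
    ring
  rw [hdec]
  have u1 := hmul _ _ _ _ (le_refl |w.1|) t1
  have u2 := hmul _ _ _ _ (le_refl |w.2.1|) t2
  have u3 := hmul _ _ _ _ (le_refl |w.2.2|) t3
  have u4 := abs_add_le (w.1 * (2 * (G.1 * e.1) + e.1 * e.1) +
      w.2.1 * (G.1 * e.2 + e.1 * G.2 + e.1 * e.2)) (w.2.2 * (2 * (G.2 * e.2) + e.2 * e.2))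
  have u5 := abs_add_le (w.1 * (2 * (G.1 * e.1) + e.1 * e.1)) (w.2.1 * (G.1 * e.2 + e.1 * G.2 + e.1 * e.2))
  calc _ ≤ |w.1| * (d * (2 * g + d)) + |w.2.1| * (d * (2 * g + d)) + |w.2.2| * (d * (2 * g + d)) := by linarith
    _ = _ := by ring

private theorem qus_norm (k0 k1 a x y : ℝ) (h0 : 0 < k0) (h1 : 0 < k1) (ha : 0 < a) (hx : |x| ≤ 1) (hy : |y| ≤ 1) :
    ‖(a * x * k0) • ((2, 1) : ℝ × ℝ) + (a * y * k1) • ((3, 1) : ℝ × ℝ)‖ ≤ 3 * (k0 + k1) * a := by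
  have n1 : ‖((2, 1) : ℝ × ℝ)‖ ≤ 3 := by
    rw [Prod.norm_def]
    apply max_le
    · show ‖(2 : ℝ)‖ ≤ 3
      rw [Real.norm_eq_abs, abs_two]
      norm_num
    · show ‖(1 : ℝ)‖ ≤ 3
      rw [norm_one]
      norm_num
  have n2 : ‖((3, 1) : ℝ × ℝ)‖ ≤ 3 := by
    rw [Prod.norm_def]
    apply max_le
    · show ‖(3 : ℝ)‖ ≤ 3
      rw [Real.norm_eq_abs, abs_of_pos (by norm_num)]
    · show ‖(1 : ℝ)‖ ≤ 3
      rw [norm_one]
      norm_num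
  have c1 : |a * x * k0| ≤ a * k0 := by
    rw [abs_mul, abs_mul, abs_of_pos ha, abs_of_pos h0]
    have := mul_le_mul_of_nonneg_left hx ha.le
    rw [mul_one] at this
    exact mul_le_mul_of_nonneg_right this h0.le
  have c2 : |a * y * k1| ≤ a * k1 := by
    rw [abs_mul, abs_mul, abs_of_pos ha, abs_of_pos h1]
    have := mul_le_mul_of_nonneg_left hy ha.le
    rw [mul_one] at this
    exact mul_le_mul_of_nonneg_right this h1.le
  have d1 : ‖(a * x * k0) • ((2, 1) : ℝ × ℝ)‖ ≤ a * k0 * 3 := by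
    rw [norm_smul, Real.norm_eq_abs]
    exact mul_le_mul c1 n1 (norm_nonneg _) (by positivity)
  have d2 : ‖(a * y * k1) • ((3, 1) : ℝ × ℝ)‖ ≤ a * k1 * 3 := by
    rw [norm_smul, Real.norm_eq_abs]
    exact mul_le_mul c2 n2 (norm_nonneg _) (by positivity)
  have := norm_add_le ((a * x * k0) • ((2, 1) : ℝ × ℝ)) ((a * y * k1) • ((3, 1) : ℝ × ℝ))
  linarith

theorem qus (P Q S k0 k1 : ℝ) (h0 : 0 < k0) (h1 : 0 < k1) (hPS : P + S = -2) :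
    ∃ ε : ℝ, 0 < ε ∧ ∀ (T : Finset (ℤ × ℤ)) (x y : ℤ × ℤ → ℝ) (D : ℤ × ℤ → ℝ × ℝ) (a : ℝ), 0 < a →
      (∀ k ∈ T, |x k| ≤ 1) → (∀ k ∈ T, |y k| ≤ 1) →
      |∑ k ∈ T, (x k ^ 2 - 1 / 2)| ≤ ε * T.card → |∑ k ∈ T, (y k ^ 2 - 1 / 2)| ≤ ε * T.card →
      |∑ k ∈ T, x k * y k| ≤ ε * T.card →
      (∀ k ∈ T, ‖D k - ((a * x k * k0) • ((2, 1) : ℝ × ℝ) + (a * y k * k1) • ((3, 1) : ℝ × ℝ))‖ ≤
        ε * a) →
      ∑ k ∈ T, qf (wco P Q S k0 k1) (D k) ≤ -(1 / 2 * a ^ 2 * T.card) := by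
  obtain ⟨w, hw⟩ : ∃ w, w = wco P Q S k0 k1 := ⟨_, rfl⟩
  obtain ⟨L, hL⟩ : ∃ L, L = |w.1| + |w.2.1| + |w.2.2| := ⟨_, rfl⟩
  have hL0 : 0 ≤ L := by rw [hL]; positivity
  obtain ⟨K, hK⟩ : ∃ K, K = 3 * (k0 + k1) := ⟨_, rfl⟩
  have hK0 : 0 < K := by rw [hK]; positivity
  obtain ⟨M, hM⟩ : ∃ M, M = |P| + |Q| + |S| + L * (2 * K + 1) := ⟨_, rfl⟩
  have hM0 : 0 ≤ M := by rw [hM]; positivity
  obtain ⟨ε, hε⟩ : ∃ ε, ε = 1 / (2 * (1 + M)) := ⟨_, rfl⟩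
  have hε0 : 0 < ε := by rw [hε]; positivity
  have hε1 : ε ≤ 1 := by
    rw [hε, div_le_one (by positivity)]
    linarith
  have hεM : ε * M ≤ 1 / 2 := by
    rw [hε, div_mul_eq_mul_div, one_mul, div_le_div_iff₀ (by positivity) (by norm_num)]
    linarith
  refine ⟨ε, hε0, ?_⟩
  intro T x y D a ha hx hy sx sy sxy hD
  rw [← hw]
  obtain ⟨n, hn⟩ : ∃ n : ℝ, n = T.card := ⟨_, rfl⟩
  have hn0 : 0 ≤ n := by rw [hn]; exact Nat.cast_nonneg _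
  rw [← hn] at sx sy sxy ⊢
  have hbound : ∀ k ∈ T, qf w (D k) ≤ a ^ 2 * (P * x k ^ 2 + Q * (x k * y k) + S * y k ^ 2) +
      a ^ 2 * (L * (ε * (2 * K + 1))) := by
    intro k hk
    obtain ⟨G, hG⟩ : ∃ G, G = (a * x k * k0) • ((2, 1) : ℝ × ℝ) + (a * y k * k1) • ((3, 1) : ℝ × ℝ) := ⟨_, rfl⟩
    have hGn : ‖G‖ ≤ K * a := by rw [hG, hK]; exact qus_norm k0 k1 a (x k) (y k) h0 h1 ha (hx k hk) (hy k hk)
    have hqG : qf w G = a ^ 2 * (P * x k ^ 2 + Q * (x k * y k) + S * y k ^ 2) := by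
      have e1 : G = (k0 * (a * x k)) • ((2, 1) : ℝ × ℝ) + (k1 * (a * y k)) • ((3, 1) : ℝ × ℝ) := by
        rw [hG, mul_comm (a * x k) k0, mul_comm (a * y k) k1]
      rw [e1, hw, cne_form P Q S k0 k1 _ _ h0 h1]
      ring
    have hDk := hD k hk
    rw [← hG] at hDk
    have hp := qus_pert w G (D k - G)
    rw [add_sub_cancel, ← hL] at hp
    have hle : ‖D k - G‖ * (2 * ‖G‖ + ‖D k - G‖) ≤ (ε * a) * (2 * (K * a) + 1 * a) := by
      apply mul_le_mul hDk _ (by positivity) (by positivity)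
      have : ε * a ≤ 1 * a := mul_le_mul_of_nonneg_right hε1 ha.le
      linarith
    have h5 : qf w (D k) - qf w G ≤ L * ((ε * a) * (2 * (K * a) + 1 * a)) :=
      (le_abs_self _).trans (hp.trans (mul_le_mul_of_nonneg_left hle hL0))
    have h6 : L * ((ε * a) * (2 * (K * a) + 1 * a)) = a ^ 2 * (L * (ε * (2 * K + 1))) := by ring
    rw [h6] at h5
    linarith
  refine (Finset.sum_le_sum hbound).trans ?_
  rw [Finset.sum_add_distrib, Finset.sum_const, nsmul_eq_mul, ← hn, ← Finset.mul_sum]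
  have hsum : ∑ k ∈ T, (P * x k ^ 2 + Q * (x k * y k) + S * y k ^ 2) =
      P * ∑ k ∈ T, (x k ^ 2 - 1 / 2) + Q * ∑ k ∈ T, x k * y k + S * ∑ k ∈ T, (y k ^ 2 - 1 / 2) - n := by
    rw [Finset.mul_sum, Finset.mul_sum, Finset.mul_sum, ← Finset.sum_add_distrib, ← Finset.sum_add_distrib]
    have e1 : n = ∑ k ∈ T, (1 : ℝ) := by
      rw [Finset.sum_const, nsmul_eq_mul, mul_one, hn]
    rw [e1, ← Finset.sum_sub_distrib]
    apply Finset.sum_congr rfl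
    intro k _
    have e2 : S = -2 - P := by linarith
    rw [e2]
    ring
  rw [hsum]
  have a1 : P * ∑ k ∈ T, (x k ^ 2 - 1 / 2) ≤ |P| * (ε * n) :=
    (le_abs_self _).trans (by rw [abs_mul]; exact mul_le_mul_of_nonneg_left sx (abs_nonneg _))
  have a2 : Q * ∑ k ∈ T, x k * y k ≤ |Q| * (ε * n) :=
    (le_abs_self _).trans (by rw [abs_mul]; exact mul_le_mul_of_nonneg_left sxy (abs_nonneg _))
  have a3 : S * ∑ k ∈ T, (y k ^ 2 - 1 / 2) ≤ |S| * (ε * n) :=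
    (le_abs_self _).trans (by rw [abs_mul]; exact mul_le_mul_of_nonneg_left sy (abs_nonneg _))
  have ha2 : 0 ≤ a ^ 2 := sq_nonneg a
  have han : 0 ≤ a ^ 2 * n := mul_nonneg ha2 hn0
  calc _ ≤ a ^ 2 * (|P| * (ε * n) + |Q| * (ε * n) + |S| * (ε * n) - n) + n * (a ^ 2 * (L * (ε * (2 * K + 1)))) := by
        have := mul_le_mul_of_nonneg_left (add_le_add (add_le_add a1 a2) a3) ha2
        linarith
    _ = a ^ 2 * n * (ε * M) - a ^ 2 * n := by rw [hM]; ring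
    _ ≤ a ^ 2 * n * (1 / 2) - a ^ 2 * n := by
        have := mul_le_mul_of_nonneg_left hεM han
        linarith
    _ = -(1 / 2 * a ^ 2 * n) := by ring

end Pool.Agent.H63.CR
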