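import Pool.Agent.H63.CR.Defs

/-!
# H63/CR/RSL: the real sequence lemma of the Lyapunov argument (about 40 min)

`A i` = area of the confined squares, `S i` = integral of the Lyapunov function, `Q i` = integral
of the square of the gradient, `b i` = square of the amplitude.

PROOF. Summing the hypothesis: `S n + c * sum_{i<n} b i * A i <= S 0 + sum_{i<n} e i * A i + D * (A 0 - A n)`
`<= S 0 + E * A 0 + D * A 0 =: B`, where `E = tsum e` (`A` is nonincreasing and nonnegative).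
As `0 <= c * Q n <= S n`, `Q n <= B / c`. As `A` is nonincreasing,
`c * (sum_{i<n} b i) * A n <= c * sum_{i<n} b i * A i <= B`, and the sums of `b` are unbounded, so
`A n -> 0`. Finally for every `ep > 0` and `x >= 0`: `x <= 1 / ep + ep * x ^ 2`
(indeed `2 x <= 1/ep + ep x^2`), so `L n <= (1 + 1 / ep) * A n + ep * Q n`, hence
`limsup L <= ep * B / c` for every `ep`, so `L -> 0`.
-/

open MeasureTheory Set Filter
open scoped Topology ENNReal

namespace Pool.Agent.H63.CR

theorem rsl (A S Q L b e : ℕ → ℝ) (c D E : ℝ) (hc : 0 < c) (hD : 0 ≤ D)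
    (hA : ∀ i, 0 ≤ A i) (hA1 : ∀ i, A (i + 1) ≤ A i) (hQ : ∀ i, 0 ≤ Q i)
    (hS : ∀ i, c * Q i ≤ S i) (he : ∀ i, 0 ≤ e i)
    (hE : ∀ n, ∑ i ∈ Finset.range n, e i ≤ E)
    (hb : ∀ i, 0 ≤ b i) (hub : ∀ B : ℝ, ∃ N, B ≤ ∑ i ∈ Finset.range N, b i)
    (hstep : ∀ i, S (i + 1) + c * b i * A i ≤ S i + e i * A i + D * (A i - A (i + 1)))
    (hL0 : ∀ i, 0 ≤ L i)
    (hL : ∀ i, ∀ ep : ℝ, 0 < ep → L i ≤ (1 + 1 / ep) * A i + ep * Q i) :
    Tendsto L atTop (𝓝 0) := by
  have hanti : Antitone A := antitone_nat_of_succ_le hA1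
  have hE0 : 0 ≤ E := by
    have := hE 0
    simpa using this
  have hsum : ∀ n, S n + c * ∑ i ∈ Finset.range n, b i * A i ≤
      S 0 + (∑ i ∈ Finset.range n, e i) * A 0 + D * (A 0 - A n) := by
    intro n
    induction n with
    | zero => simp
    | succ n ih =>
      rw [Finset.sum_range_succ, Finset.sum_range_succ]
      have h1 := hstep n
      have h2 : e n * A n ≤ e n * A 0 :=
        mul_le_mul_of_nonneg_left (hanti (Nat.zero_le n)) (he n)
      nlinarith
  have hS0 : 0 ≤ S 0 := (mul_nonneg hc.le (hQ 0)).trans (hS 0)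
  obtain ⟨B, hB⟩ : ∃ B, B = S 0 + E * A 0 + D * A 0 := ⟨_, rfl⟩
  have hB0 : 0 ≤ B := by
    rw [hB]
    have h1 := mul_nonneg hE0 (hA 0)
    have h2 := mul_nonneg hD (hA 0)
    linarith
  have hsum2 : ∀ n, S n + c * ∑ i ∈ Finset.range n, b i * A i ≤ B := by
    intro n
    refine (hsum n).trans ?_
    rw [hB]
    have h1 : (∑ i ∈ Finset.range n, e i) * A 0 ≤ E * A 0 :=
      mul_le_mul_of_nonneg_right (hE n) (hA 0)
    have h2 : 0 ≤ D * A n := mul_nonneg hD (hA n)
    nlinarith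
  have hQB : ∀ n, Q n ≤ B / c := by
    intro n
    rw [le_div_iff₀ hc]
    have h1 := hsum2 n
    have h2 : 0 ≤ ∑ i ∈ Finset.range n, b i * A i :=
      Finset.sum_nonneg fun i _ => mul_nonneg (hb i) (hA i)
    have h3 := mul_nonneg hc.le h2
    have h4 := hS n
    nlinarith
  have hAB : ∀ n, c * ((∑ i ∈ Finset.range n, b i) * A n) ≤ B := by
    intro n
    have h1 : (∑ i ∈ Finset.range n, b i) * A n ≤ ∑ i ∈ Finset.range n, b i * A i := by
      rw [Finset.sum_mul]
      refine Finset.sum_le_sum fun i hi => ?_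
      exact mul_le_mul_of_nonneg_left (hanti (Finset.mem_range.mp hi).le) (hb i)
    have h2 := mul_le_mul_of_nonneg_left h1 hc.le
    have h3 := hsum2 n
    have h4 : 0 ≤ S n := (mul_nonneg hc.le (hQ n)).trans (hS n)
    linarith
  have hA0 : ∀ x : ℝ, 0 < x → ∃ N, ∀ n, N ≤ n → A n ≤ x := by
    intro x hx
    obtain ⟨N, hN⟩ := hub ((B + 1) / (c * x))
    refine ⟨N, fun n hn => (hanti hn).trans ?_⟩
    by_contra hcon
    push Not at hcon
    have hcx : 0 < c * x := mul_pos hc hx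
    rw [div_le_iff₀ hcx] at hN
    have h1 := hAB N
    have h2 : 0 ≤ ∑ i ∈ Finset.range N, b i := Finset.sum_nonneg fun i _ => hb i
    have h3 : (∑ i ∈ Finset.range N, b i) * x ≤ (∑ i ∈ Finset.range N, b i) * A N :=
      mul_le_mul_of_nonneg_left hcon.le h2
    have h4 := mul_le_mul_of_nonneg_left h3 hc.le
    nlinarith
  rw [Metric.tendsto_atTop]
  intro d hd
  have hBc : 0 ≤ B / c := div_nonneg hB0 hc.le
  have hBc1 : 0 < B / c + 1 := by linarith
  obtain ⟨ep, hep⟩ : ∃ ep, ep = d / 2 / (B / c + 1) := ⟨_, rfl⟩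
  have hep0 : 0 < ep := by
    rw [hep]
    positivity
  have hep1 : ep * (B / c + 1) = d / 2 := by
    rw [hep]
    field_simp
  have hK : 0 < 1 + 1 / ep := by positivity
  obtain ⟨N, hN⟩ := hA0 (d / 2 / (1 + 1 / ep)) (by positivity)
  refine ⟨N, fun n hn => ?_⟩
  rw [Real.dist_eq, sub_zero, abs_of_nonneg (hL0 n)]
  have h1 := hL n ep hep0
  have h2 := hN n hn
  rw [le_div_iff₀ hK] at h2
  have h3 : ep * Q n ≤ ep * (B / c) := mul_le_mul_of_nonneg_left (hQB n) hep0.le
  nlinarith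

end Pool.Agent.H63.CR
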