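import Pool.Agent.H63.CR.SQA
import Pool.Agent.H63.CR.SQB
import Pool.Agent.H63.CR.COA
import Pool.Agent.H63.CR.HNL

/-!
# H63/CR/SML: small gradients happen only on a null set of the level curve
-/

open MeasureTheory Set Filter
open scoped Topology ENNReal

namespace Pool.Agent.H63.CR

variable {f : ℝ × ℝ → ℝ} {p : ℕ → ℕ} {G : ℕ → ℤ × ℤ → ℝ × ℝ} {n0 : ℕ} {k0 : ℤ × ℤ} {C c : ℝ}
  {w : Fin 3 → ℝ × ℝ × ℝ}

/-- coarea inequality for squares with a small gradient -/
theorem coarea_small (hW : IsWalk f p G n0 k0 C c w) (n : ℕ) (hn : n0 ≤ n) (r : ℝ)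
    (hr : dlt n ≤ r) (S : Finset (ℤ × ℤ)) (hS : S ⊆ boxIdx (p n - p n0) k0)
    (hG : ∀ k ∈ S, ‖G n k‖ ≤ r) :
    ∫⁻ t, ENNReal.ofReal (cnt f (p n) S t) ≤
      ENNReal.ofReal (6 * r * (S.card * side (p n) ^ 2)) := by
  refine (coarea_gen hW n hn S hS (fun _ => 3 * r)
    (fun k hk => by have := hG k hk; linarith)).trans (le_of_eq ?_)
  rw [Finset.sum_const, nsmul_eq_mul]
  congr 1
  ring

open Classical in
/-- the squares of block `m` and level `p n` where the gradient is small for the first time -/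
noncomputable def fst (p : ℕ → ℕ) (G : ℕ → ℤ × ℤ → ℝ × ℝ) (n0 : ℕ) (k0 : ℤ × ℤ) (m n : ℕ) :
    Finset (ℤ × ℤ) :=
  (boxIdx (p n - p n0) k0).filter (fun k => n0 ≤ 256 ^ m ∧ 256 ^ m ≤ n ∧ n < 256 ^ (m + 1) ∧
    ‖G n k‖ < thr m ∧ ∀ n', 256 ^ m ≤ n' → n' < n → thr m ≤ ‖G n' (par (p n - p n') k)‖)

lemma mem_fst {p : ℕ → ℕ} {G : ℕ → ℤ × ℤ → ℝ × ℝ} {n0 : ℕ} {k0 : ℤ × ℤ} {m n : ℕ} {k : ℤ × ℤ} :
    k ∈ fst p G n0 k0 m n ↔ k ∈ boxIdx (p n - p n0) k0 ∧ n0 ≤ 256 ^ m ∧ 256 ^ m ≤ n ∧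
      n < 256 ^ (m + 1) ∧ ‖G n k‖ < thr m ∧
      ∀ n', 256 ^ m ≤ n' → n' < n → thr m ≤ ‖G n' (par (p n - p n') k)‖ := by
  classical
  unfold fst
  rw [Finset.mem_filter]

lemma mono_p (hW : IsWalk f p G n0 k0 C c w) : Monotone p :=
  monotone_nat_of_le_succ fun i => by have := hW.step i; omega

lemma le_p (hW : IsWalk f p G n0 k0 C c w) (n : ℕ) : n ≤ p n := by
  induction n with
  | zero => exact Nat.zero_le _
  | succ n ih => have := hW.step n; omega

lemma dlt_le (m n : ℕ) (h : 256 ^ m ≤ n) : dlt n ≤ thr m := by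
  unfold dlt thr
  have h1 : 2 * m ≤ n := by
    have h2 : 2 * m ≤ 256 ^ m := by
      induction m with
      | zero => simp
      | succ m ih =>
        have h3 : 256 ^ m ≤ n := le_trans (Nat.pow_le_pow_right (by norm_num) (Nat.le_succ m)) h
        have h4 := ih h3
        have h5 : 1 ≤ 256 ^ m := Nat.one_le_pow _ _ (by norm_num)
        rw [pow_succ]; omega
    omega
  calc (1 / 2 : ℝ) ^ n ≤ (1 / 2 : ℝ) ^ (2 * m) :=
        pow_le_pow_of_le_one (by norm_num) (by norm_num) h1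
    _ = (1 / 4 : ℝ) ^ m := by rw [pow_mul]; norm_num

/-- the first squares of a block are disjoint -/
lemma sum_fst_le (hW : IsWalk f p G n0 k0 C c w) (m : ℕ) (hm : n0 ≤ 256 ^ m) :
    ∑ n ∈ Finset.Ico (256 ^ m) (256 ^ (m + 1)), ((fst p G n0 k0 m n).card * side (p n) ^ 2 : ℝ) ≤
      4 * side (p n0) ^ 2 := by
  classical
  have hp := mono_p hW
  set N := 256 ^ (m + 1) with hN
  have hn0N : n0 ≤ N := hm.trans (Nat.pow_le_pow_right (by norm_num) (Nat.le_succ m))
  -- counting of the descendants at level `N`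
  have key : ∑ n ∈ Finset.Ico (256 ^ m) N, (fst p G n0 k0 m n).card * 4 ^ (p N - p n) ≤
      4 * 4 ^ (p N - p n0) := by
    rw [← card_boxIdx (p N - p n0) k0]
    have hcard : ∀ n ∈ Finset.Ico (256 ^ m) N, (fst p G n0 k0 m n).card * 4 ^ (p N - p n) =
        ((fst p G n0 k0 m n).biUnion (fun k => kids (p N - p n) k)).card := by
      intro n _
      rw [Finset.card_biUnion]
      · rw [Finset.sum_congr rfl (fun k _ => card_kids (p N - p n) k), Finset.sum_const,
          smul_eq_mul]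
      · intro a _ b _ hab
        change Disjoint _ _
        rw [Finset.disjoint_left]
        intro k' h1 h2
        rw [mem_kids] at h1 h2
        exact hab (h1.symm.trans h2)
    rw [Finset.sum_congr rfl hcard, ← Finset.card_biUnion]
    · refine Finset.card_le_card ?_
      intro k' hk'
      rw [Finset.mem_biUnion] at hk'
      obtain ⟨n, hn, hk'⟩ := hk'
      rw [Finset.mem_biUnion] at hk'
      obtain ⟨k, hk, hk'⟩ := hk'
      rw [Finset.mem_Ico] at hn
      rw [mem_kids] at hk'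
      have hkb := (mem_fst.1 hk).1
      rw [← hk'] at hkb
      have h1 : p n0 ≤ p n := hp (hm.trans hn.1)
      have h2 : p n ≤ p N := hp hn.2.le
      have h3 : p N - p n0 = (p n - p n0) + (p N - p n) := by omega
      rw [h3]
      exact mem_boxIdx_add.2 hkb
    · intro n hn n1 hn1 hne
      rw [Finset.mem_coe, Finset.mem_Ico] at hn hn1
      -- a symmetric claim
      have claim : ∀ a b : ℕ, 256 ^ m ≤ a → a < b → b < N → ∀ ka ∈ fst p G n0 k0 m a,
          ∀ kb ∈ fst p G n0 k0 m b, ∀ k', par (p N - p a) k' = ka → par (p N - p b) k' = kb →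
          False := by
        intro a b ha hab hb ka hka kb hkb k' h1 h2
        have h3 : p a ≤ p b := hp hab.le
        have h4 : p b ≤ p N := hp hb.le
        have h5 : par (p b - p a) kb = ka := by
          rw [← h2, par_par, ← h1]
          congr 1
          omega
        have h6 := (mem_fst.1 hkb).2.2.2.2.2 a ha hab
        rw [h5] at h6
        have h7 := (mem_fst.1 hka).2.2.2.2.1
        exact absurd h7 (not_lt.2 h6)
      change Disjoint _ _
      rw [Finset.disjoint_left]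
      intro k' h1 h2
      rw [Finset.mem_biUnion] at h1 h2
      obtain ⟨ka, hka, h1⟩ := h1
      obtain ⟨kb, hkb, h2⟩ := h2
      rw [mem_kids] at h1 h2
      rcases lt_or_gt_of_ne hne with hlt | hlt
      · exact claim n n1 hn.1 hlt hn1.2 ka hka kb hkb k' h1 h2
      · exact claim n1 n hn1.1 hlt hn.2 kb hkb ka hka k' h2 h1
  have hside : ∀ n, p n ≤ p N → (side (p n) ^ 2 : ℝ) = 4 ^ (p N - p n) * side (p N) ^ 2 := by
    intro n hn
    have h1 := side_add (p n) (p N - p n)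
    rw [Nat.add_sub_cancel' hn] at h1
    rw [← h1, mul_pow, ← pow_mul, mul_comm (p N - p n) 2, pow_mul]
    norm_num
    ring
  calc ∑ n ∈ Finset.Ico (256 ^ m) N, ((fst p G n0 k0 m n).card * side (p n) ^ 2 : ℝ)
      = ∑ n ∈ Finset.Ico (256 ^ m) N,
          (((fst p G n0 k0 m n).card * 4 ^ (p N - p n) : ℕ) : ℝ) * side (p N) ^ 2 := by
        refine Finset.sum_congr rfl fun n hn => ?_
        rw [Finset.mem_Ico] at hn
        rw [hside n (hp hn.2.le)]
        push_cast
        ring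
    _ = ((∑ n ∈ Finset.Ico (256 ^ m) N, (fst p G n0 k0 m n).card * 4 ^ (p N - p n) : ℕ) : ℝ) *
          side (p N) ^ 2 := by
        rw [← Finset.sum_mul]
        push_cast
        rfl
    _ ≤ ((4 * 4 ^ (p N - p n0) : ℕ) : ℝ) * side (p N) ^ 2 := by
        have := (Nat.cast_le (α := ℝ)).2 key
        exact mul_le_mul_of_nonneg_right this (sq_nonneg _)
    _ = 4 * side (p n0) ^ 2 := by
        rw [hside n0 (hp hn0N)]
        push_cast
        ring

lemma fst_sub (m n : ℕ) : fst p G n0 k0 m n ⊆ boxIdx (p n - p n0) k0 :=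
  fun _ hk => (mem_fst.1 hk).1

lemma fst_empty (m n : ℕ) (h : ¬ (n0 ≤ 256 ^ m ∧ 256 ^ m ≤ n ∧ n < 256 ^ (m + 1))) :
    fst p G n0 k0 m n = ∅ := by
  rw [Finset.eq_empty_iff_forall_notMem]
  intro k hk
  have := mem_fst.1 hk
  exact h ⟨this.2.1, this.2.2.1, this.2.2.2.1⟩

lemma cnt_empty (f : ℝ × ℝ → ℝ) (p : ℕ) (t : ℝ) : cnt f p ∅ t = 0 := by
  unfold cnt
  rw [Finset.sum_empty]

/-- the integral of the total length of the first squares of block `m` -/
lemma block_integral (hW : IsWalk f p G n0 k0 C c w) (m : ℕ) :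
    ∑' n, ∫⁻ t, ENNReal.ofReal (cnt f (p n) (fst p G n0 k0 m n) t) ≤
      ENNReal.ofReal (6 * thr m * (4 * side (p n0) ^ 2)) := by
  have hthr : 0 ≤ thr m := by unfold thr; positivity
  by_cases hm : n0 ≤ 256 ^ m
  · rw [tsum_eq_sum (s := Finset.Ico (256 ^ m) (256 ^ (m + 1)))]
    · calc ∑ n ∈ Finset.Ico (256 ^ m) (256 ^ (m + 1)),
            ∫⁻ t, ENNReal.ofReal (cnt f (p n) (fst p G n0 k0 m n) t)
          ≤ ∑ n ∈ Finset.Ico (256 ^ m) (256 ^ (m + 1)),
            ENNReal.ofReal (6 * thr m * ((fst p G n0 k0 m n).card * side (p n) ^ 2)) := by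
            refine Finset.sum_le_sum fun n hn => ?_
            rw [Finset.mem_Ico] at hn
            exact coarea_small hW n (hm.trans hn.1) (thr m) (dlt_le m n hn.1) _
              (fst_sub m n) (fun k hk => (mem_fst.1 hk).2.2.2.2.1.le)
        _ = ENNReal.ofReal (6 * thr m * ∑ n ∈ Finset.Ico (256 ^ m) (256 ^ (m + 1)),
            ((fst p G n0 k0 m n).card * side (p n) ^ 2 : ℝ)) := by
            rw [Finset.mul_sum, ENNReal.ofReal_sum_of_nonneg]
            intro n _
            positivity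
        _ ≤ _ := by
            refine ENNReal.ofReal_le_ofReal ?_
            exact mul_le_mul_of_nonneg_left (sum_fst_le hW m hm) (by positivity)
    · intro n hn
      rw [fst_empty m n]
      · simp [cnt_empty]
      · intro h
        exact hn (Finset.mem_Ico.2 h.2)
  · have : ∀ n, fst p G n0 k0 m n = ∅ := fun n => fst_empty m n (fun h => hm h.1)
    simp [this, cnt_empty]

lemma total_finite (hW : IsWalk f p G n0 k0 C c w) : ∀ᵐ t ∂(volume : Measure ℝ),
    ∑' m, ∑' n, ENNReal.ofReal (cnt f (p n) (fst p G n0 k0 m n) t) ≠ ⊤ := by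
  have hmeas : ∀ m n, Measurable fun t => ENNReal.ofReal (cnt f (p n) (fst p G n0 k0 m n) t) := by
    intro m n
    by_cases h : n0 ≤ 256 ^ m ∧ 256 ^ m ≤ n ∧ n < 256 ^ (m + 1)
    · exact (measurable_cnt hW n (h.1.trans h.2.1) _ (fst_sub m n)).ennreal_ofReal
    · rw [fst_empty m n h]
      simp only [cnt_empty]
      exact measurable_const
  have h1 : ∫⁻ t, ∑' m, ∑' n, ENNReal.ofReal (cnt f (p n) (fst p G n0 k0 m n) t) ≠ ⊤ := by
    rw [lintegral_tsum (fun m => (Measurable.tsum (hmeas m)).aemeasurable)]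
    have h2 : ∀ m, ∫⁻ t, ∑' n, ENNReal.ofReal (cnt f (p n) (fst p G n0 k0 m n) t) ≤
        ENNReal.ofReal (24 * side (p n0) ^ 2) * (1 / 4 : ℝ≥0∞) ^ m := by
      intro m
      rw [lintegral_tsum (fun n => (hmeas m n).aemeasurable)]
      refine (block_integral hW m).trans (le_of_eq ?_)
      unfold thr
      have h3 : (1 / 4 : ℝ≥0∞) ^ m = ENNReal.ofReal ((1 / 4 : ℝ) ^ m) := by
        rw [ENNReal.ofReal_pow (by norm_num)]
        congr 1
        rw [ENNReal.ofReal_div_of_pos (by norm_num)]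
        simp
      rw [h3, ← ENNReal.ofReal_mul (by positivity)]
      congr 1
      ring
    refine ne_top_of_le_ne_top ?_ (ENNReal.tsum_le_tsum h2)
    rw [ENNReal.tsum_mul_left, ENNReal.tsum_geometric]
    refine ENNReal.mul_ne_top ENNReal.ofReal_ne_top ?_
    rw [ENNReal.inv_ne_top]
    have : (1 / 4 : ℝ≥0∞) < 1 := by
      rw [ENNReal.div_lt_iff (by simp) (by simp)]
      norm_num
    exact (tsub_pos_iff_lt.2 this).ne'
  refine (ae_lt_top ?_ h1).mono fun t ht => ht.ne
  exact Measurable.tsum fun m => Measurable.tsum (hmeas m)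

lemma ediam_csq_le (q : ℕ) (k : ℤ × ℤ) : Metric.ediam (csq q k) ≤ ENNReal.ofReal (side q) := by
  refine Metric.ediam_le fun u hu v hv => ?_
  rw [edist_dist]
  refine ENNReal.ofReal_le_ofReal ?_
  rw [dist_eq_norm]
  exact norm_sub_le_side hu hv

open Classical in
/-- the covering set of index `(j, n, k)` -/
noncomputable def cvs (f : ℝ × ℝ → ℝ) (p : ℕ → ℕ) (G : ℕ → ℤ × ℤ → ℝ × ℝ) (n0 : ℕ) (k0 : ℤ × ℤ)
    (t : ℝ) (M : ℕ) (x : ℕ × ℕ × (ℤ × ℤ)) : Set (ℝ × ℝ) :=
  if x.2.2 ∈ fst p G n0 k0 (x.1 + M) x.2.1 ∧ t ∈ f '' csq (p x.2.1) x.2.2 then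
    csq (p x.2.1) x.2.2 else ∅

theorem small_null (hW : IsWalk f p G n0 k0 C c w) : ∀ᵐ t ∂(volume : Measure ℝ),
    Measure.hausdorffMeasure 1 {u : ℝ × ℝ | u ∈ mid (p n0) k0 ∧ f u = t ∧
      ∃ᶠ m in atTop, ∃ n, 256 ^ m ≤ n ∧ n < 256 ^ (m + 1) ∧ ‖G n (idx (p n) u)‖ < thr m} = 0 := by
  classical
  have hp := mono_p hW
  filter_upwards [total_finite hW] with t ht
  apply hnl_of_cover
  intro ep hep
  have htail := ENNReal.tendsto_sum_nat_add _ ht
  have hsm : Tendsto (fun M : ℕ => ENNReal.ofReal ((1 / 2 : ℝ) ^ M)) atTop (𝓝 0) := by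
    have := (tendsto_pow_atTop_nhds_zero_of_lt_one (by norm_num : (0 : ℝ) ≤ 1 / 2)
      (by norm_num : (1 / 2 : ℝ) < 1))
    have h2 := ENNReal.tendsto_ofReal this
    rwa [ENNReal.ofReal_zero] at h2
  obtain ⟨M, hM1, hM2, hM3⟩ := ((htail.eventually_lt_const hep).and
    ((hsm.eventually_lt_const hep).and (eventually_ge_atTop n0))).exists
  have e : (ℕ × ℕ × (ℤ × ℤ)) ≃ ℕ := Denumerable.eqv _
  have hM0 : ∀ j, n0 ≤ 256 ^ (j + M) := by
    intro j
    have : j + M < 256 ^ (j + M) := Nat.lt_pow_self (by norm_num)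
    omega
  refine ⟨fun i => cvs f p G n0 k0 t M (e.symm i), ?_, ?_, ?_⟩
  · rintro u ⟨hu, hfu, hfr⟩
    obtain ⟨m, hm, hex⟩ := (frequently_atTop.1 hfr) M
    have hex' : ∃ n, 256 ^ m ≤ n ∧ n < 256 ^ (m + 1) ∧ ‖G n (idx (p n) u)‖ < thr m := hex
    set n := Nat.find hex' with hn
    obtain ⟨h1, h2, h3⟩ := Nat.find_spec hex'
    rw [← hn] at h1 h2 h3
    obtain ⟨j, rfl⟩ : ∃ j, m = j + M := ⟨m - M, by omega⟩
    have hp1 : p n0 ≤ p n := hp ((hM0 j).trans h1)
    have hk : idx (p n) u ∈ fst p G n0 k0 (j + M) n := by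
      rw [mem_fst]
      refine ⟨?_, hM0 j, h1, h2, h3, ?_⟩
      · have := idx_mem_boxIdx (d := p n - p n0) hu
        rwa [Nat.add_sub_cancel' hp1] at this
      · intro n' hn'1 hn'2
        have hq := Nat.find_min hex' hn'2
        have hpn : p n' ≤ p n := hp hn'2.le
        have h4 := par_idx (p n') (p n - p n') u
        rw [Nat.add_sub_cancel' hpn] at h4
        rw [h4]
        by_contra hc
        push Not at hc
        exact hq ⟨hn'1, hn'2.trans h2, hc⟩
    refine mem_iUnion.2 ⟨e (j, n, idx (p n) u), ?_⟩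
    simp only [Equiv.symm_apply_apply]
    unfold cvs
    rw [if_pos ⟨hk, u, mem_csq_idx (p n) u, hfu⟩]
    exact mem_csq_idx (p n) u
  · intro i
    suffices h : ∀ x, Metric.ediam (cvs f p G n0 k0 t M x) ≤ ep from h _
    rintro ⟨j, n, k⟩
    unfold cvs
    split_ifs with h
    · refine (ediam_csq_le _ _).trans (le_trans (ENNReal.ofReal_le_ofReal ?_) hM2.le)
      have h1 := mem_fst.1 h.1
      have h2 : M ≤ n := by
        have : j + M < 256 ^ (j + M) := Nat.lt_pow_self (by norm_num)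
        have := h1.2.2.1
        simp only at this
        omega
      unfold side
      exact pow_le_pow_of_le_one (by norm_num) (by norm_num) (h2.trans (le_p hW n))
    · simp
  · have h0 : ∑' i, Metric.ediam (cvs f p G n0 k0 t M (e.symm i)) =
        ∑' x, Metric.ediam (cvs f p G n0 k0 t M x) :=
      Equiv.tsum_eq e.symm (fun x => Metric.ediam (cvs f p G n0 k0 t M x))
    have h1 : ∑' x, Metric.ediam (cvs f p G n0 k0 t M x) =
        ∑' j, ∑' n, ∑' k, Metric.ediam (cvs f p G n0 k0 t M (j, n, k)) := by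
      rw [ENNReal.tsum_prod']
      refine tsum_congr fun j => ?_
      rw [ENNReal.tsum_prod']
    rw [h0, h1]
    refine le_trans (ENNReal.tsum_le_tsum fun j => ?_) hM1.le
    refine ENNReal.tsum_le_tsum fun n => ?_
    rw [tsum_eq_sum (s := fst p G n0 k0 (j + M) n)]
    · unfold cnt
      rw [ENNReal.ofReal_sum_of_nonneg
        (fun k _ => indicator_nonneg (fun _ _ => (side_pos _).le) t)]
      refine Finset.sum_le_sum fun k hk => ?_
      unfold cvs
      split_ifs with h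
      · rw [indicator_of_mem h.2]
        exact ediam_csq_le _ _
      · simp
    · intro k hk
      unfold cvs
      rw [if_neg (fun h => hk h.1)]
      simp

end Pool.Agent.H63.CR
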