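import Pool.Agent.H63.CR.LNI
import Pool.Agent.H63.CR.ADM

/-!
# H63/CR/STP: main term of the increments (about 60 min)

Write `a = amp (n+1)`, `om = omq Q (n+1)`, `c = ctr (p n) k`, `c' = ctr (p (n+1)) k'`, `m_i = mh i (n+1)`,
`th_i = om * prj m_i c'`. The difference in the statement is the sum of
* `gfp n c' - gfp n c`: at most `dlt n / 4096` (`lni_first`);
* for `i = 0, 1`: `g i (n+1) c' - (a * sin th_i * kap m_i c') • (m_i, 1)`: at most
  `C * (a^2 + a / om)` (`Wave.main`; its hypothesis `prj (m_i + 2) c' ≤ Rn (n+1)` holds because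
  `c' ∈ Uu B`, so `prj (m_i + 2) c' ≤ B + 6 * B`, and `rn_large`);
* for `i = 0, 1`: `(a * sin th_i) • (kap m_i c' • (m_i, 1) - kap (2 + i) u0 • (2 + i, 1))`: at most
  `a * (4 * C * (‖c' - u0‖ + |m_i - (2 + i)|) + C * |m_i - (2 + i)|)` (`Dat.klip`, `Dat.kbd`, `mh_close`), and
  `‖c' - u0‖ ≤ 2 * side (p n0)` because both are in the box (`lni_box_sub`, `lni_csq_sub`; `u0 ∈ mid ⊆ box`).
Each is at most `ε / 10 * a` when `n0` is large: `dlt_small`, `amp_small`, `side_small`, and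
`om ≥ 4096 * 2 ^ (n+1)` by `GoodSeq.fast n` (`dlt n * side (p n) ≤ 1`, `1 ≤ C ≤ Cf (n+1)`).
`box (p n0) k0 ⊆ Uu B`: `u0` is in the box, which has side `2 * side (p n0)`, and `u0` is in the interior of `Uu B`.
-/

open MeasureTheory Set Filter
open scoped Topology ENNReal

namespace Pool.Agent.H63.CR

variable {B C : ℝ} {Q p : ℕ → ℕ} {gb : ℝ × ℝ → ℝ × ℝ} {g : Fin 2 → ℕ → ℝ × ℝ → ℝ × ℝ} {Cf : ℕ → ℝ}
  {n1 : ℕ}

private lemma stp_e2 (a sn C kc kc' m M δ η : ℝ) (ha : 0 ≤ a) (hsn : |sn| ≤ 1) (hC : 0 ≤ C) (hm : |m| ≤ 4)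
    (hδ : |m - M| ≤ δ) (hk : |kc' - kc| ≤ C * (η + δ)) (hkc : |kc| ≤ C) (hη : 0 ≤ η) :
    ‖(a * sn * kc') • ((m, 1) : ℝ × ℝ) - (a * sn * kc) • ((M, 1) : ℝ × ℝ)‖ ≤ a * (4 * C * (η + δ) + C * δ) := by
  have hδ0 : 0 ≤ δ := (abs_nonneg _).trans hδ
  have e : (a * sn * kc') • ((m, 1) : ℝ × ℝ) - (a * sn * kc) • ((M, 1) : ℝ × ℝ) =
      ((a * sn) * ((kc' - kc) * m + kc * (m - M)), (a * sn) * (kc' - kc)) := by
    ext
    · simp
      ring
    · simp
      ring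
  rw [e, Prod.norm_def]
  have h1 : |a * sn| ≤ a := by
    rw [abs_mul, abs_of_nonneg ha]
    nlinarith
  have h2 : |(kc' - kc) * m + kc * (m - M)| ≤ 4 * C * (η + δ) + C * δ := by
    refine (abs_add_le _ _).trans ?_
    rw [abs_mul, abs_mul]
    have h3 : |kc' - kc| * |m| ≤ C * (η + δ) * 4 :=
      mul_le_mul hk hm (abs_nonneg _) (by positivity)
    have h4 : |kc| * |m - M| ≤ C * δ := mul_le_mul hkc hδ (abs_nonneg _) hC
    linarith
  have h5 : |kc' - kc| ≤ 4 * C * (η + δ) + C * δ := by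
    have : 0 ≤ C * (η + δ) := by positivity
    have : 0 ≤ C * δ := by positivity
    linarith
  refine max_le ?_ ?_
  · simp only [Real.norm_eq_abs]
    rw [abs_mul]
    exact mul_le_mul h1 h2 (abs_nonneg _) ha
  · simp only [Real.norm_eq_abs]
    rw [abs_mul]
    exact mul_le_mul h1 h5 (abs_nonneg _) ha

private lemma stp_side_pos (P : ℕ) : 0 < side P := by
  unfold side
  positivity

private lemma stp_box_dist {P : ℕ} {k0 : ℤ × ℤ} {u v : ℝ × ℝ} (hu : u ∈ box P k0) (hv : v ∈ box P k0) :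
    |v.1 - u.1| ≤ 2 * side P ∧ |v.2 - u.2| ≤ 2 * side P := by
  unfold box at hu hv
  obtain ⟨⟨a1, a2⟩, ⟨a3, a4⟩⟩ := hu
  obtain ⟨⟨b1, b2⟩, ⟨b3, b4⟩⟩ := hv
  have hs := stp_side_pos P
  constructor
  · rw [abs_le]
    constructor <;> nlinarith
  · rw [abs_le]
    constructor <;> nlinarith

private lemma stp_mid_box {P : ℕ} {k0 : ℤ × ℤ} {u : ℝ × ℝ} (hu : u ∈ mid P k0) : u ∈ box P k0 := by
  unfold mid at hu
  unfold box
  obtain ⟨⟨a1, a2⟩, ⟨a3, a4⟩⟩ := hu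
  have hs := stp_side_pos P
  refine ⟨⟨?_, ?_⟩, ⟨?_, ?_⟩⟩ <;> nlinarith

theorem stp (hG : GoodSeq Cf Q p) (hD : Dat B C Q gb g) (hC : ∀ j, n1 ≤ j → C ≤ Cf j)
    {u0 : ℝ × ℝ} (h1 : 1 < u0.1) (h2 : 1 < u0.2) (h3 : u0.1 < B) (h4 : u0.2 < B) {ε : ℝ}
    (hε : 0 < ε) :
    ∃ n2, ∀ n0, n2 ≤ n0 → ∀ k0 : ℤ × ℤ, u0 ∈ mid (p n0) k0 → box (p n0) k0 ⊆ Uu B ∧
      ∀ n, n0 ≤ n → ∀ k ∈ boxIdx (p n - p n0) k0, ∀ k' ∈ kids (p (n + 1) - p n) k,
        ‖gfp gb g (n + 1) (ctr (p (n + 1)) k') - gfp gb g n (ctr (p n) k) -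
          ((amp (n + 1) *
              Real.sin (omq Q (n + 1) * prj (mh 0 (n + 1)) (ctr (p (n + 1)) k')) * kap 2 u0) •
                ((2, 1) : ℝ × ℝ) +
            (amp (n + 1) *
              Real.sin (omq Q (n + 1) * prj (mh 1 (n + 1)) (ctr (p (n + 1)) k')) * kap 3 u0) •
                ((3, 1) : ℝ × ℝ))‖ ≤ ε * amp (n + 1) := by
  have hC1 := hD.one
  have hC0 : 0 < C := by linarith
  obtain ⟨e, he⟩ : ∃ e, e = ε / (200 * C) := ⟨_, rfl⟩
  have he0 : 0 < e := by rw [he]; positivity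
  have heC : C * e = ε / 200 := by
    rw [he]
    field_simp
  obtain ⟨μ, hμ⟩ : ∃ μ, μ = min (min (u0.1 - 1) (u0.2 - 1)) (min (B - u0.1) (B - u0.2)) := ⟨_, rfl⟩
  have hμ0 : 0 < μ := by
    rw [hμ]
    exact lt_min (lt_min (by linarith) (by linarith)) (lt_min (by linarith) (by linarith))
  have m1 : μ ≤ u0.1 - 1 := by rw [hμ]; exact (min_le_left _ _).trans (min_le_left _ _)
  have m2 : μ ≤ u0.2 - 1 := by rw [hμ]; exact (min_le_left _ _).trans (min_le_right _ _)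
  have m3 : μ ≤ B - u0.1 := by rw [hμ]; exact (min_le_right _ _).trans (min_le_left _ _)
  have m4 : μ ≤ B - u0.2 := by rw [hμ]; exact (min_le_right _ _).trans (min_le_right _ _)
  obtain ⟨nA, hnA⟩ := dlt_small (ε := ε / 10) (by positivity)
  obtain ⟨nB, hnB⟩ := amp_small he0
  obtain ⟨nC, hnC⟩ := exists_pow_lt_of_lt_one he0 (by norm_num : (1 / 2 : ℝ) < 1)
  obtain ⟨nD, hnD⟩ := side_small (ε := min e (μ / 2)) (lt_min he0 (by linarith)) hG.step
  obtain ⟨nE, hnE⟩ := rn_large (7 * B)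
  refine ⟨max (max (max nA nB) (max nC nD)) (max nE n1), ?_⟩
  intro n0 hn0 k0 hk0
  have q1 : nA ≤ n0 := (le_max_left _ _).trans ((le_max_left _ _).trans ((le_max_left _ _).trans hn0))
  have q2 : nB ≤ n0 := (le_max_right _ _).trans ((le_max_left _ _).trans ((le_max_left _ _).trans hn0))
  have q3 : nC ≤ n0 := (le_max_left _ _).trans ((le_max_right _ _).trans ((le_max_left _ _).trans hn0))
  have q4 : nD ≤ n0 := (le_max_right _ _).trans ((le_max_right _ _).trans ((le_max_left _ _).trans hn0))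
  have q5 : nE ≤ n0 := (le_max_left _ _).trans ((le_max_right _ _).trans hn0)
  have q6 : n1 ≤ n0 := (le_max_right _ _).trans ((le_max_right _ _).trans hn0)
  have hu0b := stp_mid_box hk0
  have hsd := hnD n0 q4
  have hsd1 : side (p n0) ≤ e := hsd.trans (min_le_left _ _)
  have hsd2 : 2 * side (p n0) ≤ μ := by
    have := hsd.trans (min_le_right _ _)
    linarith
  have hboxU : box (p n0) k0 ⊆ Uu B := by
    intro v hv
    obtain ⟨d1, d2⟩ := stp_box_dist hu0b hv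
    rw [abs_le] at d1 d2
    unfold Uu
    exact ⟨⟨by linarith [d1.1], by linarith [d1.2]⟩, ⟨by linarith [d2.1], by linarith [d2.2]⟩⟩
  refine ⟨hboxU, ?_⟩
  intro n hn k hk k' hk'
  have hpm : Monotone p := monotone_nat_of_le_succ (fun n => by
    have := hG.step n
    omega)
  have hp1 : p n0 + (p n - p n0) = p n := by
    have := hpm hn
    omega
  have hp2 : p n + (p (n + 1) - p n) = p (n + 1) := by
    have := hG.step n
    omega
  have hs1 := lni_box_sub (P := p n0) hk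
  rw [hp1] at hs1
  have hs2 := lni_csq_sub (P := p n) hk'
  rw [hp2] at hs2
  have hc'b : ctr (p (n + 1)) k' ∈ box (p n0) k0 := hs1 (hs2 (lni_ctr_mem _ _))
  have hc'U := hboxU hc'b
  have hu0U := hboxU hu0b
  have hdist : ‖ctr (p (n + 1)) k' - u0‖ ≤ 2 * side (p n0) := by
    obtain ⟨d1, d2⟩ := stp_box_dist hu0b hc'b
    rw [Prod.norm_def]
    exact max_le (by simpa using d1) (by simpa using d2)
  have E0 := lni_first hG hD hC (q6.trans hn) (hs1.trans hboxU) hk'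
  obtain ⟨c', hc'⟩ : ∃ c', c' = ctr (p (n + 1)) k' := ⟨_, rfl⟩
  rw [← hc'] at E0 hc'b hc'U hdist ⊢
  obtain ⟨a, ha⟩ : ∃ a, a = amp (n + 1) := ⟨_, rfl⟩
  have ha0 : 0 < a := by rw [ha]; exact amp_pos _
  have hae : a ≤ e := by rw [ha]; exact hnB (n + 1) (by omega)
  obtain ⟨om, hom⟩ : ∃ om, om = omq Q (n + 1) := ⟨_, rfl⟩
  have hom1 : 1 / om ≤ e := by
    have f1 := hG.fast n
    rw [← hom] at f1
    have f2 : 1 ≤ Cf (n + 1) := hC1.trans (hC (n + 1) (by omega))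
    have hs := stp_side_pos (p n)
    have hs' : side (p n) ≤ 1 := by
      unfold side
      exact pow_le_one₀ (by norm_num) (by norm_num)
    have hd : dlt n ≤ 1 := by
      unfold dlt
      exact pow_le_one₀ (by norm_num) (by norm_num)
    have hd0 : 0 < dlt n := by
      unfold dlt
      positivity
    have ho : 0 < om := by
      rw [hom]
      exact lt_of_lt_of_le (by positivity) (hG.Q0 (n + 1))
    have f3 : dlt n * side (p n) ≤ 1 := mul_le_one₀ hd hs.le hs'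
    have f4 : om * (dlt n * side (p n)) ≤ om := by nlinarith
    have f5 : (4096 : ℝ) * 2 ^ (n + 1) ≤ 4096 * 2 ^ (n + 1) * Cf (n + 1) := by
      have : (0 : ℝ) < 4096 * 2 ^ (n + 1) := by positivity
      nlinarith
    have f6 : (2 : ℝ) ^ (n + 1) ≤ om := by
      have : (0 : ℝ) < 2 ^ (n + 1) := by positivity
      linarith
    have f7 : (2 : ℝ) ^ nC ≤ 2 ^ (n + 1) := pow_le_pow_right₀ (by norm_num) (by omega)
    have f8 : 1 / om ≤ (1 / 2) ^ nC := by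
      rw [one_div_pow]
      exact one_div_le_one_div_of_le (by positivity) (f7.trans f6)
    linarith
  have hδ : dlt (n + 1) / 200 ≤ e := by
    have f1 : dlt (n + 1) ≤ (1 / 2) ^ nC := by
      unfold dlt
      exact pow_le_pow_of_le_one (by norm_num) (by norm_num) (by omega)
    have f0 : 0 < dlt (n + 1) := by
      unfold dlt
      positivity
    linarith
  have hR : 7 * B ≤ Rn (n + 1) := hnE (n + 1) (by omega)
  have hmm : ∀ i : Fin 2, 2 ≤ mh i (n + 1) ∧ mh i (n + 1) ≤ 4 := by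
    intro i
    have f1 := abs_le.1 (mh_close i (n + 1))
    unfold mh
    have f2 : (0 : ℝ) ≤ (1 / 2) ^ (n + 1) / 200 := by positivity
    have f3 : ((1 : ℝ) / 2) ^ (n + 1) ≤ 1 := pow_le_one₀ (by norm_num) (by norm_num)
    have f4 : ((i : ℕ) : ℝ) ≤ 1 := by
      have := i.2
      exact_mod_cast (by omega : (i : ℕ) ≤ 1)
    have f5 : (0 : ℝ) ≤ ((i : ℕ) : ℝ) := Nat.cast_nonneg _
    constructor <;> linarith
  have E1 : ∀ i : Fin 2, ‖g i (n + 1) c' - (a * Real.sin (om * prj (mh i (n + 1)) c') * kap (mh i (n + 1)) c') •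
      ((mh i (n + 1), 1) : ℝ × ℝ)‖ ≤ ε / 100 * a := by
    intro i
    have f1 := (hD.wave i (n + 1)).main c' hc'U (by
      refine le_trans ?_ hR
      unfold prj
      have g1 : c'.1 ≤ B := hc'U.1.2
      have g2 : c'.2 ≤ B := hc'U.2.2
      have g3 : 1 ≤ c'.1 := hc'U.1.1
      have g4 := (hmm i).2
      have g5 := (hmm i).1
      nlinarith)
    rw [← ha, ← hom] at f1
    refine f1.trans ?_
    have f2 : C * (a ^ 2 + a / om) = a * (C * a + C * (1 / om)) := by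
      ring
    rw [f2]
    have f3 : C * a + C * (1 / om) ≤ ε / 100 := by
      have f4 : C * a ≤ C * e := mul_le_mul_of_nonneg_left hae hC0.le
      have f5 : C * (1 / om) ≤ C * e := mul_le_mul_of_nonneg_left hom1 hC0.le
      linarith
    nlinarith
  have E2 : ∀ i : Fin 2, ‖(a * Real.sin (om * prj (mh i (n + 1)) c') * kap (mh i (n + 1)) c') • ((mh i (n + 1), 1) : ℝ × ℝ) -
      (a * Real.sin (om * prj (mh i (n + 1)) c') * kap (2 + (i : ℕ)) u0) • ((2 + ((i : ℕ) : ℝ), 1) : ℝ × ℝ)‖ ≤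
        ε / 10 * a := by
    intro i
    have f4 : ((i : ℕ) : ℝ) ≤ 1 := by
      have := i.2
      exact_mod_cast (by omega : (i : ℕ) ≤ 1)
    have f5 : (0 : ℝ) ≤ ((i : ℕ) : ℝ) := Nat.cast_nonneg _
    have hMi : (2 + ((i : ℕ) : ℝ)) ∈ Icc (2 : ℝ) 6 := ⟨by linarith, by linarith⟩
    have hmi : mh i (n + 1) ∈ Icc (2 : ℝ) 6 := ⟨(hmm i).1, by linarith [(hmm i).2]⟩
    have f6 := hD.klip u0 hu0U c' hc'U (2 + ((i : ℕ) : ℝ)) hMi (mh i (n + 1)) hmi
    have f7 := mh_close i (n + 1)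
    have f8 := stp_e2 a (Real.sin (om * prj (mh i (n + 1)) c')) C (kap (2 + (i : ℕ)) u0) (kap (mh i (n + 1)) c')
      (mh i (n + 1)) (2 + (i : ℕ)) (dlt (n + 1) / 200) (2 * side (p n0)) ha0.le (Real.abs_sin_le_one _) hC0.le
      (by rw [abs_le]; exact ⟨by linarith [(hmm i).1], (hmm i).2⟩) f7
      (f6.trans (mul_le_mul_of_nonneg_left (add_le_add hdist f7) hC0.le)) (hD.kbd u0 hu0U _ hMi)
      (by linarith [stp_side_pos (p n0)])
    refine f8.trans ?_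
    have f9 : 4 * C * (2 * side (p n0) + dlt (n + 1) / 200) + C * (dlt (n + 1) / 200) ≤ ε / 10 := by
      have g1 : C * side (p n0) ≤ C * e := mul_le_mul_of_nonneg_left hsd1 hC0.le
      have g2 : C * (dlt (n + 1) / 200) ≤ C * e := mul_le_mul_of_nonneg_left hδ hC0.le
      nlinarith
    nlinarith
  have E0' : ‖gfp gb g n c' - gfp gb g n (ctr (p n) k)‖ ≤ ε / 10 * a := by
    refine E0.trans ?_
    have f1 := hnA n (q1.trans hn)
    rw [← ha] at f1
    have hd0 : 0 < dlt n := by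
      unfold dlt
      positivity
    linarith
  rw [← ha, ← hom, gfp_succ]
  have k0e : kap (2 + (((0 : Fin 2) : ℕ) : ℝ)) u0 = kap 2 u0 := by norm_num
  have k1e : kap (2 + (((1 : Fin 2) : ℕ) : ℝ)) u0 = kap 3 u0 := by norm_num
  have v0e : ((2 + (((0 : Fin 2) : ℕ) : ℝ), 1) : ℝ × ℝ) = (2, 1) := by norm_num
  have v1e : ((2 + (((1 : Fin 2) : ℕ) : ℝ), 1) : ℝ × ℝ) = (3, 1) := by norm_num
  have E20 := E2 0
  have E21 := E2 1
  rw [k0e, v0e] at E20
  rw [k1e, v1e] at E21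
  have E10 := E1 0
  have E11 := E1 1
  obtain ⟨A0, hA0⟩ : ∃ A0, A0 = (a * Real.sin (om * prj (mh 0 (n + 1)) c') * kap (mh 0 (n + 1)) c') •
    ((mh 0 (n + 1), 1) : ℝ × ℝ) := ⟨_, rfl⟩
  obtain ⟨A1, hA1⟩ : ∃ A1, A1 = (a * Real.sin (om * prj (mh 1 (n + 1)) c') * kap (mh 1 (n + 1)) c') •
    ((mh 1 (n + 1), 1) : ℝ × ℝ) := ⟨_, rfl⟩
  obtain ⟨S0, hS0⟩ : ∃ S0, S0 = (a * Real.sin (om * prj (mh 0 (n + 1)) c') * kap 2 u0) •
    ((2, 1) : ℝ × ℝ) := ⟨_, rfl⟩
  obtain ⟨S1, hS1⟩ : ∃ S1, S1 = (a * Real.sin (om * prj (mh 1 (n + 1)) c') * kap 3 u0) •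
    ((3, 1) : ℝ × ℝ) := ⟨_, rfl⟩
  rw [← hA0] at E10 E20
  rw [← hA1] at E11 E21
  rw [← hS0] at E20 ⊢
  rw [← hS1] at E21 ⊢
  have hsplit : gfp gb g n c' + (g 0 (n + 1) c' + g 1 (n + 1) c') - gfp gb g n (ctr (p n) k) - (S0 + S1) =
      (gfp gb g n c' - gfp gb g n (ctr (p n) k)) + (g 0 (n + 1) c' - A0) + (g 1 (n + 1) c' - A1) + (A0 - S0) +
        (A1 - S1) := by abel
  rw [hsplit]
  refine (norm_add_le _ _).trans ?_
  have t1 := norm_add_le ((gfp gb g n c' - gfp gb g n (ctr (p n) k)) + (g 0 (n + 1) c' - A0) + (g 1 (n + 1) c' - A1)) (A0 - S0)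
  have t2 := norm_add_le ((gfp gb g n c' - gfp gb g n (ctr (p n) k)) + (g 0 (n + 1) c' - A0)) (g 1 (n + 1) c' - A1)
  have t3 := norm_add_le (gfp gb g n c' - gfp gb g n (ctr (p n) k)) (g 0 (n + 1) c' - A0)
  have hεa : 0 < ε * a := mul_pos hε ha0
  linarith

end Pool.Agent.H63.CR
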