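import Pool.Agent.H63.CR.FPT
import Pool.Agent.H63.CR.AMP

/-!
# H63/CR/TAI: the tail of the series, continuity of `ff` (about 50 min)

* `tai_vv`: `Wave.size`: `|vv| ≤ C * amp / omq ≤ Cf (j + 1) / omq Q (j + 1)`, and `GoodSeq.fast j`.
* `tai_sum`: the bound of `tai_vv` is at most `2 ^ (-j)` (`dlt j ≤ 1`, `side ≤ 1`).
* `tai_tail`: `ff - fpt n` is the sum over `j ≥ n` of `vv 0 (j+1) + vv 1 (j+1)`, at most
  `2 * sum_(j ≥ n) dlt n * side (p n) / (4096 * 2 ^ (j + 1)) ≤ dlt n * side (p n) / 1024` (`dlt` and `side (p ·)`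
  decrease by `GoodSeq.step`).
* `tai_cont`: `fpt Q n` is continuous on `Uu B` (`fpt_tay`: it is locally Lipschitz there; or
  `|f u' - f u| ≤ K * ‖u' - u‖` with `Uu B` bounded) and by `tai_tail` `ff Q` is the uniform limit
  (`TendstoUniformlyOn.continuousOn`).
-/

open MeasureTheory Set Filter
open scoped Topology ENNReal

namespace Pool.Agent.H63.CR

variable {B C : ℝ} {Q p : ℕ → ℕ} {gb : ℝ × ℝ → ℝ × ℝ} {g : Fin 2 → ℕ → ℝ × ℝ → ℝ × ℝ} {Cf : ℕ → ℝ}
  {n1 : ℕ}

private lemma taix_om (Q : ℕ → ℕ) {n : ℕ} (h : 800 * 2 ^ n ≤ omq Q n) : 0 < omq Q n :=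
  lt_of_lt_of_le (by positivity) h

theorem tai_vv (hG : GoodSeq Cf Q p) (hD : Dat B C Q gb g) (hC : ∀ j, n1 ≤ j → C ≤ Cf j)
    (i : Fin 2) {j : ℕ} (hj : n1 ≤ j) {u : ℝ × ℝ} (hu : u ∈ Uu B) :
    |vv Q i (j + 1) u| ≤ dlt j * side (p j) / (4096 * 2 ^ (j + 1)) := by
  have h1 := (hD.wave i (j + 1)).size u hu
  have h2 := hG.fast j
  have h3 := hC (j + 1) (by omega)
  have hom := taix_om Q (hG.Q0 (j + 1))
  have ha := amp_le_one (j + 1)
  have ha0 := amp_pos (j + 1)
  have hC1 := hD.one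
  refine h1.trans ?_
  rw [div_le_div_iff₀ hom (by positivity)]
  have h4 : C * amp (j + 1) ≤ Cf (j + 1) := by nlinarith
  calc C * amp (j + 1) * (4096 * 2 ^ (j + 1)) ≤ Cf (j + 1) * (4096 * 2 ^ (j + 1)) :=
        mul_le_mul_of_nonneg_right h4 (by positivity)
    _ = 4096 * 2 ^ (j + 1) * Cf (j + 1) := by ring
    _ ≤ omq Q (j + 1) * (dlt j * side (p j)) := h2
    _ = dlt j * side (p j) * omq Q (j + 1) := by ring

private lemma taix_mono (hG : GoodSeq Cf Q p) : Monotone p :=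
  monotone_nat_of_le_succ fun n => by
    have := hG.step n
    omega

private lemma taix_side {a b : ℕ} (h : a ≤ b) : side b ≤ side a :=
  pow_le_pow_of_le_one (by norm_num) (by norm_num) h

private lemma taix_dlt {a b : ℕ} (h : a ≤ b) : dlt b ≤ dlt a :=
  pow_le_pow_of_le_one (by norm_num) (by norm_num) h

private lemma taix_dpos (a : ℕ) : 0 < dlt a := by
  unfold dlt
  positivity

private lemma taix_spos (a : ℕ) : 0 < side a := by
  unfold side
  positivity

private lemma taix_term (hG : GoodSeq Cf Q p) (hD : Dat B C Q gb g) (hC : ∀ j, n1 ≤ j → C ≤ Cf j)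
    {n : ℕ} (hn : n1 ≤ n) {u : ℝ × ℝ} (hu : u ∈ Uu B) (j : ℕ) :
    ‖vv Q 0 (j + (n + 1)) u + vv Q 1 (j + (n + 1)) u‖ ≤
      dlt n * side (p n) / 2048 * (1 / 2) ^ j := by
  have h0 := tai_vv hG hD hC 0 (j := j + n) (by omega) hu
  have h1 := tai_vv hG hD hC 1 (j := j + n) (by omega) hu
  have e : j + (n + 1) = j + n + 1 := by ring
  rw [e]
  have h2 : dlt (j + n) * side (p (j + n)) / (4096 * 2 ^ (j + n + 1)) ≤
      dlt n * side (p n) / 4096 * (1 / 2) ^ j := by
    have h3 : dlt (j + n) * side (p (j + n)) ≤ dlt n * side (p n) :=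
      mul_le_mul (taix_dlt (by omega)) (taix_side (taix_mono hG (by omega))) (taix_spos _).le
        (taix_dpos _).le
    have h4 : (0 : ℝ) < 2 ^ j := by positivity
    have h5 : (2 : ℝ) ^ j ≤ 2 ^ (j + n + 1) := pow_le_pow_right₀ (by norm_num) (by omega)
    have h6 : 0 ≤ dlt n * side (p n) := (mul_pos (taix_dpos _) (taix_spos _)).le
    calc dlt (j + n) * side (p (j + n)) / (4096 * 2 ^ (j + n + 1)) ≤
          dlt n * side (p n) / (4096 * 2 ^ j) :=
          div_le_div₀ h6 h3 (by positivity) (mul_le_mul_of_nonneg_left h5 (by norm_num))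
      _ = dlt n * side (p n) / 4096 * (1 / 2) ^ j := by
          rw [one_div_pow]
          field_simp
  rw [Real.norm_eq_abs]
  refine (abs_add_le _ _).trans ?_
  linarith

theorem tai_sum (hG : GoodSeq Cf Q p) (hD : Dat B C Q gb g) (hC : ∀ j, n1 ≤ j → C ≤ Cf j)
    {u : ℝ × ℝ} (hu : u ∈ Uu B) : Summable (fun j => vv Q 0 j u + vv Q 1 j u) := by
  rw [← summable_nat_add_iff (n1 + 1)]
  exact Summable.of_norm_bounded (summable_geometric_two.mul_left _)
    fun j => taix_term hG hD hC le_rfl hu j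

theorem tai_tail (hG : GoodSeq Cf Q p) (hD : Dat B C Q gb g) (hC : ∀ j, n1 ≤ j → C ≤ Cf j)
    {n : ℕ} (hn : n1 ≤ n) {u : ℝ × ℝ} (hu : u ∈ Uu B) :
    |ff Q u - fpt Q n u| ≤ dlt n * side (p n) / 1024 := by
  have hs := tai_sum hG hD hC hu
  have h1 := hs.sum_add_tsum_nat_add (n + 1)
  have h2 : ff Q u - fpt Q n u = ∑' j, (vv Q 0 (j + (n + 1)) u + vv Q 1 (j + (n + 1)) u) := by
    unfold ff fpt
    rw [← h1]
    ring
  rw [h2, ← Real.norm_eq_abs]
  have h3 : HasSum (fun j : ℕ => dlt n * side (p n) / 2048 * (1 / 2 : ℝ) ^ j)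
      (dlt n * side (p n) / 2048 * 2) := hasSum_geometric_two.mul_left _
  refine (tsum_of_norm_bounded h3 fun j => taix_term hG hD hC hn hu j).trans (le_of_eq ?_)
  ring

private lemma taix_fpt (hD : Dat B C Q gb g) (n : ℕ) : ContinuousOn (fpt Q n) (Uu B) := by
  intro u hu
  have h1 : Tendsto (fun u' => fpt Q n u' - fpt Q n u) (𝓝[Uu B] u) (𝓝 0) := by
    have h2 : Tendsto (fun u' : ℝ × ℝ => |dot (gfp gb g n u) (u' - u)| +
        C * Sg Q n * ‖u' - u‖ ^ 2) (𝓝[Uu B] u) (𝓝 0) := by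
      have hc : Continuous (fun u' : ℝ × ℝ => |dot (gfp gb g n u) (u' - u)| +
          C * Sg Q n * ‖u' - u‖ ^ 2) := by
        unfold dot
        fun_prop
      have h3 := (hc.tendsto u).mono_left (nhdsWithin_le_nhds (s := Uu B))
      have h4 : |dot (gfp gb g n u) (u - u)| + C * Sg Q n * ‖u - u‖ ^ 2 = 0 := by
        rw [sub_self, norm_zero]
        unfold dot
        simp
      rwa [h4] at h3
    refine squeeze_zero_norm' ?_ h2
    filter_upwards [self_mem_nhdsWithin] with u' hu'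
    have h5 := fpt_tay hD n hu hu'
    rw [Real.norm_eq_abs]
    have h6 : fpt Q n u' - fpt Q n u = dot (gfp gb g n u) (u' - u) +
        (fpt Q n u' - fpt Q n u - dot (gfp gb g n u) (u' - u)) := by ring
    rw [h6]
    refine (abs_add_le _ _).trans ?_
    linarith
  have h2 := h1.add_const (fpt Q n u)
  simp only [sub_add_cancel, zero_add] at h2
  exact h2

theorem tai_cont (hG : GoodSeq Cf Q p) (hD : Dat B C Q gb g) (hC : ∀ j, n1 ≤ j → C ≤ Cf j) :
    ContinuousOn (ff Q) (Uu B) := by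
  have hU : TendstoUniformlyOn (fun n => fpt Q n) (ff Q) atTop (Uu B) := by
    rw [Metric.tendstoUniformlyOn_iff]
    intro ε hε
    obtain ⟨N, hN⟩ := exists_pow_lt_of_lt_one hε (by norm_num : (1 / 2 : ℝ) < 1)
    filter_upwards [eventually_ge_atTop (max N n1)] with n hn u hu
    rw [Real.dist_eq]
    refine (tai_tail hG hD hC ((le_max_right _ _).trans hn) hu).trans_lt ?_
    refine lt_of_le_of_lt ?_ hN
    have h1 : dlt n ≤ (1 / 2) ^ N := taix_dlt ((le_max_left _ _).trans hn)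
    have h2 : side (p n) ≤ 1 := pow_le_one₀ (by norm_num) (by norm_num)
    have h3 := taix_dpos n
    have h4 : dlt n * side (p n) ≤ dlt n := mul_le_of_le_one_right h3.le h2
    linarith
  exact hU.continuousOn (Eventually.of_forall fun n => taix_fpt hD n).frequently

end Pool.Agent.H63.CR
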