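import Pool.Agent.H63.CR.GDefs

/-!
# H63/CR/TAY: second order Taylor bounds on compact convex sets (about 50 min)

`tay_general`: the restriction of `fderiv` (and of `fderiv` of `fderiv`) to the open set `U` is
continuous (`ContDiffOn.fderiv_of_isOpen`, `ContDiffOn.continuousOn_fderiv_of_isOpen`), so `|f|`,
`‖fderiv f‖` and `‖fderiv (fderiv f)‖` are bounded on the compact set `K` by one constant `C ≥ 1`
(`IsCompact.exists_bound_of_continuousOn`). The mean value inequality on the convex set `K`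
(`Convex.norm_image_sub_le_of_norm_hasFDerivWithin_le` or the `fderiv` version) gives the Lipschitz
bound of `fderiv f`, and applied to `y ↦ f y - fderiv f x y` on the segment `[x, y]` (its derivative
at `y'` is `fderiv f y' - fderiv f x`, of norm at most `C * ‖y' - x‖ ≤ C * ‖y - x‖`) the Taylor bound.

`tay_plane`: `K = Uu B` (compact and convex: product of intervals), `g u = (fderiv f u (1, 0),
fderiv f u (0, 1))`; `dot (g u) v = fderiv f u v` by linearity (`v = v.1 • (1, 0) + v.2 • (0, 1)`),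
and each coordinate of `g u' - g u` is `(fderiv f u' - fderiv f u) e` with `‖e‖ = 1`.
-/

open MeasureTheory Set Filter
open scoped Topology ENNReal

namespace Pool.Agent.H63.CR

theorem tay_general {E : Type*} [NormedAddCommGroup E] [NormedSpace ℝ E] (K : Set E)
    (hK : IsCompact K) (hc : Convex ℝ K) (U : Set E) (hU : IsOpen U) (hKU : K ⊆ U) (f : E → ℝ)
    (hf : ContDiffOn ℝ 2 f U) :
    ∃ C : ℝ, 1 ≤ C ∧ (∀ x ∈ K, |f x| ≤ C) ∧ (∀ x ∈ K, ‖fderiv ℝ f x‖ ≤ C) ∧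
      (∀ x ∈ K, ∀ y ∈ K, ‖fderiv ℝ f y - fderiv ℝ f x‖ ≤ C * ‖y - x‖) ∧
      ∀ x ∈ K, ∀ y ∈ K, |f y - f x - fderiv ℝ f x (y - x)| ≤ C * ‖y - x‖ ^ 2 := by
  have h1 : ContDiffOn ℝ 1 (fderiv ℝ f) U := hf.fderiv_of_isOpen hU (by norm_num)
  have h2 : ContDiffOn ℝ 0 (fderiv ℝ (fderiv ℝ f)) U := h1.fderiv_of_isOpen hU (by norm_num)
  obtain ⟨C0, hC0⟩ := hK.exists_bound_of_continuousOn (hf.continuousOn.mono hKU)
  obtain ⟨C1, hC1⟩ := hK.exists_bound_of_continuousOn (h1.continuousOn.mono hKU)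
  have h2c : ContinuousOn (fderiv ℝ (fderiv ℝ f)) K := h2.continuousOn.mono hKU
  obtain ⟨C2, hC2⟩ : ∃ C2 : ℝ, ∀ x ∈ K, ‖fderiv ℝ (fderiv ℝ f) x‖ ≤ C2 := by
    rcases K.eq_empty_or_nonempty with rfl | hne
    · exact ⟨0, fun x hx => absurd hx (notMem_empty x)⟩
    · obtain ⟨z, _, hz⟩ := hK.exists_isMaxOn hne (ContinuousOn.norm (E := E →L[ℝ] E →L[ℝ] ℝ) h2c)
      exact ⟨_, fun x hx => hz hx⟩
  obtain ⟨C, hC⟩ : ∃ C : ℝ, C = max 1 (max C0 (max C1 C2)) := ⟨_, rfl⟩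
  have hc0 : C0 ≤ C := by rw [hC]; exact (le_max_left _ _).trans (le_max_right _ _)
  have hc1 : C1 ≤ C := by
    rw [hC]
    exact ((le_max_left _ _).trans (le_max_right _ _)).trans (le_max_right _ _)
  have hc2 : C2 ≤ C := by
    rw [hC]
    exact ((le_max_right _ _).trans (le_max_right _ _)).trans (le_max_right _ _)
  have hCone : 1 ≤ C := by rw [hC]; exact le_max_left _ _
  have hlip : ∀ x ∈ K, ∀ y ∈ K, ‖fderiv ℝ f y - fderiv ℝ f x‖ ≤ C * ‖y - x‖ := by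
    intro x hx y hy
    refine Convex.norm_image_sub_le_of_norm_fderiv_le (𝕜 := ℝ) (fun z hz => ?_)
      (fun z hz => (hC2 z hz).trans hc2) hc hx hy
    exact (h1.contDiffAt (hU.mem_nhds (hKU hz))).differentiableAt (by norm_num)
  refine ⟨C, hCone, fun x hx => ?_, fun x hx => (hC1 x hx).trans hc1, hlip, ?_⟩
  · have := (hC0 x hx).trans hc0
    rwa [Real.norm_eq_abs] at this
  · intro x hx y hy
    have hs : segment ℝ x y ⊆ K := hc.segment_subset hx hy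
    have h3 := Convex.norm_image_sub_le_of_norm_fderiv_le' (𝕜 := ℝ) (f := f)
      (C := C * ‖y - x‖) (s := segment ℝ x y) (x := x) (y := y) (φ := fderiv ℝ f x)
      (fun z hz => (hf.contDiffAt (hU.mem_nhds (hKU (hs hz)))).differentiableAt (by norm_num))
      (fun z hz => by
        refine (hlip x hx z (hs hz)).trans (mul_le_mul_of_nonneg_left ?_ (by linarith))
        obtain ⟨t, ht, rfl⟩ := (segment_eq_image' ℝ x y) ▸ hz
        simp only [add_sub_cancel_left, norm_smul, Real.norm_eq_abs, abs_of_nonneg ht.1]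
        exact mul_le_of_le_one_left (norm_nonneg _) ht.2)
      (convex_segment x y) (left_mem_segment ℝ x y) (right_mem_segment ℝ x y)
    rw [Real.norm_eq_abs, mul_assoc, ← sq] at h3
    exact h3

theorem tay_plane (B : ℝ) (U : Set (ℝ × ℝ)) (hU : IsOpen U) (hKU : Uu B ⊆ U) (f : ℝ × ℝ → ℝ)
    (hf : ContDiffOn ℝ 2 f U) :
    ∃ C : ℝ, 1 ≤ C ∧ ∃ g : ℝ × ℝ → ℝ × ℝ, (∀ u ∈ Uu B, |f u| ≤ C) ∧ (∀ u ∈ Uu B, ‖g u‖ ≤ C) ∧
      (∀ u ∈ Uu B, ∀ u' ∈ Uu B, ‖g u' - g u‖ ≤ C * ‖u' - u‖) ∧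
      ∀ u ∈ Uu B, ∀ u' ∈ Uu B, |f u' - f u - dot (g u) (u' - u)| ≤ C * ‖u' - u‖ ^ 2 := by
  have hK : IsCompact (Uu B) := isCompact_Icc.prod isCompact_Icc
  have hc : Convex ℝ (Uu B) := (convex_Icc 1 B).prod (convex_Icc 1 B)
  obtain ⟨C, hC1, hf0, hf1, hf2, hf3⟩ := tay_general (Uu B) hK hc U hU hKU f hf
  have e1 : ‖((1, 0) : ℝ × ℝ)‖ = 1 := by simp [Prod.norm_def]
  have e2 : ‖((0, 1) : ℝ × ℝ)‖ = 1 := by simp [Prod.norm_def]
  have key : ∀ L : (ℝ × ℝ) →L[ℝ] ℝ, ‖((L (1, 0), L (0, 1)) : ℝ × ℝ)‖ ≤ ‖L‖ := by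
    intro L
    rw [Prod.norm_def]
    refine max_le ?_ ?_
    · have := L.le_opNorm (1, 0)
      rwa [e1, mul_one] at this
    · have := L.le_opNorm (0, 1)
      rwa [e2, mul_one] at this
  have hdot : ∀ (L : (ℝ × ℝ) →L[ℝ] ℝ) (v : ℝ × ℝ), dot (L (1, 0), L (0, 1)) v = L v := by
    intro L v
    have h1 : v = v.1 • ((1, 0) : ℝ × ℝ) + v.2 • ((0, 1) : ℝ × ℝ) := by
      ext <;> simp
    conv_rhs => rw [h1]
    rw [map_add, map_smul, map_smul]
    unfold dot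
    simp only [smul_eq_mul]
    ring
  refine ⟨C, hC1, fun u => (fderiv ℝ f u (1, 0), fderiv ℝ f u (0, 1)), hf0, ?_, ?_, ?_⟩
  · intro u hu
    exact (key _).trans (hf1 u hu)
  · intro u hu u' hu'
    refine le_trans (le_of_eq ?_) ((key (fderiv ℝ f u' - fderiv ℝ f u)).trans (hf2 u hu u' hu'))
    rfl
  · intro u hu u' hu'
    have := hf3 u hu u' hu'
    rw [hdot]
    exact this

end Pool.Agent.H63.CR
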