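import Pool.Agent.H63.CR.GDefs

/-!
# H63/CR/TRG: trigonometric sums over dyadic squares (about 60 min)

`cos_sum`: `2 * sin (A s / 2) * cos (A (k + 1/2) s + φ) = sin (A (k + 1) s + φ) - sin (A k s + φ)`, the sum
telescopes, so it is at most `1 / sin (A s / 2) ≤ pi / (A s)` in absolute value
(`Real.mul_le_sin`: `2 / pi * x ≤ sin x` on `[0, pi / 2]`).
Write `s = side (P + d)`, so `2 ^ d * s = side P`; `ctr (P + d) k' = ((k'.1 + 1/2) s, (k'.2 + 1/2) s)`, `kids d k` is the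
product of two integer intervals of length `2 ^ d`, and `prj m c = c.2 + c.1 * m`.
* `trg_sq`: `sin x ^ 2 - 1/2 = -cos (2 x) / 2`; for fixed `k'.1` sum over `k'.2` with `A = 2 * om`: at most
  `pi / (2 om s)`; there are `2 ^ d` values of `k'.1`: total at most `2 ^ d * pi / (4 om s) = 4 ^ d * pi / (4 om side P)`.
* `trg_mul`: `sin x * sin y = (cos (x - y) - cos (x + y)) / 2`; `x - y = -om * c.1` (sum over `k'.1` with `A = om`) and
  `x + y = 2 om c.2 + om (m0 + m1) c.1` (sum over `k'.2` with `A = 2 om`).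
-/

open MeasureTheory Set Filter
open scoped Topology ENNReal

namespace Pool.Agent.H63.CR

private theorem trg_tel (A s φ : ℝ) (K : ℤ) (N : ℕ) :
    2 * Real.sin (A * s / 2) * ∑ k ∈ Finset.Ico K (K + N), Real.cos (A * (((k : ℝ) + 1 / 2) * s) + φ) =
      Real.sin (A * (((K : ℝ) + N) * s) + φ) - Real.sin (A * ((K : ℝ) * s) + φ) := by
  induction N with
  | zero => simp
  | succ N ih =>
    have h1 : Finset.Ico K (K + ((N + 1 : ℕ) : ℤ)) = insert (K + N) (Finset.Ico K (K + N)) := by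
      ext x
      rw [Finset.mem_insert, Finset.mem_Ico, Finset.mem_Ico]
      push_cast
      omega
    have h2 : (K + N : ℤ) ∉ Finset.Ico K (K + N) := by
      rw [Finset.mem_Ico]
      omega
    rw [h1, Finset.sum_insert h2, mul_add, ih]
    have h3 : 2 * Real.sin (A * s / 2) * Real.cos (A * ((((K + N : ℤ) : ℝ) + 1 / 2) * s) + φ) =
        Real.sin (A * (((K : ℝ) + (N + 1 : ℕ)) * s) + φ) - Real.sin (A * (((K : ℝ) + N) * s) + φ) := by
      rw [Real.sin_sub_sin]
      have e1 : (A * (((K : ℝ) + (N + 1 : ℕ)) * s) + φ - (A * (((K : ℝ) + N) * s) + φ)) / 2 = A * s / 2 := by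
        push_cast
        ring
      have e2 : (A * (((K : ℝ) + (N + 1 : ℕ)) * s) + φ + (A * (((K : ℝ) + N) * s) + φ)) / 2 =
          A * ((((K + N : ℤ) : ℝ) + 1 / 2) * s) + φ := by
        push_cast
        ring
      rw [e1, e2]
    rw [h3]
    ring

theorem cos_sum (A s φ : ℝ) (hA : 0 < A) (hs : 0 < s) (h : A * s ≤ Real.pi) (K : ℤ) (N : ℕ) :
    |∑ k ∈ Finset.Ico K (K + N), Real.cos (A * (((k : ℝ) + 1 / 2) * s) + φ)| ≤
      Real.pi / (A * s) := by
  obtain ⟨S, hS⟩ : ∃ S, S = ∑ k ∈ Finset.Ico K (K + N), Real.cos (A * (((k : ℝ) + 1 / 2) * s) + φ) := ⟨_, rfl⟩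
  have h1 := trg_tel A s φ K N
  rw [← hS] at h1 ⊢
  have hAs : 0 < A * s := mul_pos hA hs
  have hpi := Real.pi_pos
  have h2 : 2 / Real.pi * (A * s / 2) ≤ Real.sin (A * s / 2) :=
    Real.mul_le_sin (by positivity) (by linarith)
  have h3 : A * s / Real.pi ≤ Real.sin (A * s / 2) := by
    have e : 2 / Real.pi * (A * s / 2) = A * s / Real.pi := by
      field_simp
    rwa [e] at h2
  have h4 : 0 < A * s / Real.pi := div_pos hAs hpi
  have h5 : |2 * Real.sin (A * s / 2) * S| ≤ 2 := by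
    rw [h1, abs_le]
    have a1 := Real.neg_one_le_sin (A * (((K : ℝ) + N) * s) + φ)
    have a2 := Real.sin_le_one (A * (((K : ℝ) + N) * s) + φ)
    have a3 := Real.neg_one_le_sin (A * ((K : ℝ) * s) + φ)
    have a4 := Real.sin_le_one (A * ((K : ℝ) * s) + φ)
    constructor <;> linarith
  rw [abs_mul, abs_of_pos (by linarith : 0 < 2 * Real.sin (A * s / 2))] at h5
  have h6 : A * s / Real.pi * |S| ≤ 1 := by
    have h7 : A * s / Real.pi * |S| ≤ Real.sin (A * s / 2) * |S| :=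
      mul_le_mul_of_nonneg_right h3 (abs_nonneg S)
    linarith
  rw [le_div_iff₀ hAs]
  have h8 : A * s / Real.pi * |S| = A * s * |S| / Real.pi := by ring
  rw [h8, div_le_one hpi] at h6
  linarith

private theorem trg_side (P d : ℕ) : side P = 2 ^ d * side (P + d) := by
  unfold side
  rw [pow_add, ← mul_assoc, mul_comm ((2 : ℝ) ^ d), mul_assoc, ← mul_pow]
  norm_num

private theorem trg_side_pos (P : ℕ) : 0 < side P := by
  unfold side
  positivity

private theorem trg_ico (K : ℤ) (d : ℕ) :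
    Finset.Ico (K * 2 ^ d) ((K + 1) * 2 ^ d) = Finset.Ico (K * 2 ^ d) (K * 2 ^ d + ((2 ^ d : ℕ) : ℤ)) := by
  congr 1
  push_cast
  ring

private theorem trg_ico_card (K : ℤ) (d : ℕ) : ((Finset.Ico (K * 2 ^ d) ((K + 1) * 2 ^ d)).card : ℝ) = 2 ^ d := by
  rw [trg_ico, Int.card_Ico]
  have : (K * 2 ^ d + ((2 ^ d : ℕ) : ℤ) - K * 2 ^ d).toNat = 2 ^ d := by
    rw [add_sub_cancel_left]
    exact Int.toNat_natCast _
  rw [this]
  push_cast
  rfl

/-- sum over a square, inner sum over the second coordinate -/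
private theorem trg_in2 (A : ℝ) (φ : ℤ → ℝ) (hA : 0 < A) (P d : ℕ) (k : ℤ × ℤ) (h : A * side (P + d) ≤ Real.pi) :
    |∑ k' ∈ kids d k, Real.cos (A * (((k'.2 : ℝ) + 1 / 2) * side (P + d)) + φ k'.1)| ≤
      2 ^ d * (Real.pi / (A * side (P + d))) := by
  unfold kids
  rw [Finset.sum_product]
  refine (Finset.abs_sum_le_sum_abs _ _).trans ?_
  have h1 : ∀ x ∈ Finset.Ico (k.1 * 2 ^ d) ((k.1 + 1) * 2 ^ d),
      |∑ y ∈ Finset.Ico (k.2 * 2 ^ d) ((k.2 + 1) * 2 ^ d),
        Real.cos (A * ((((x, y) : ℤ × ℤ).2 : ℝ) + 1 / 2) * side (P + d) + φ ((x, y) : ℤ × ℤ).1)| ≤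
        Real.pi / (A * side (P + d)) := by
    intro x _
    rw [trg_ico]
    have h2 := cos_sum A (side (P + d)) (φ x) hA (trg_side_pos _) h (k.2 * 2 ^ d) (2 ^ d)
    simp only [mul_assoc] at h2 ⊢
    exact h2
  have h3 := Finset.sum_le_card_nsmul _ _ _ h1
  rw [nsmul_eq_mul, trg_ico_card] at h3
  refine le_trans (le_of_eq ?_) h3
  simp only [mul_assoc]

private theorem trg_in1 (A : ℝ) (φ : ℤ → ℝ) (hA : 0 < A) (P d : ℕ) (k : ℤ × ℤ) (h : A * side (P + d) ≤ Real.pi) :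
    |∑ k' ∈ kids d k, Real.cos (A * (((k'.1 : ℝ) + 1 / 2) * side (P + d)) + φ k'.2)| ≤
      2 ^ d * (Real.pi / (A * side (P + d))) := by
  unfold kids
  rw [Finset.sum_product_right]
  refine (Finset.abs_sum_le_sum_abs _ _).trans ?_
  have h1 : ∀ y ∈ Finset.Ico (k.2 * 2 ^ d) ((k.2 + 1) * 2 ^ d),
      |∑ x ∈ Finset.Ico (k.1 * 2 ^ d) ((k.1 + 1) * 2 ^ d),
        Real.cos (A * ((((x, y) : ℤ × ℤ).1 : ℝ) + 1 / 2) * side (P + d) + φ ((x, y) : ℤ × ℤ).2)| ≤
        Real.pi / (A * side (P + d)) := by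
    intro y _
    rw [trg_ico]
    have h2 := cos_sum A (side (P + d)) (φ y) hA (trg_side_pos _) h (k.1 * 2 ^ d) (2 ^ d)
    simp only [mul_assoc] at h2 ⊢
    exact h2
  have h3 := Finset.sum_le_card_nsmul _ _ _ h1
  rw [nsmul_eq_mul, trg_ico_card] at h3
  refine le_trans (le_of_eq ?_) h3
  simp only [mul_assoc]

private theorem trg_fin (om : ℝ) (hom : 0 < om) (P d : ℕ) :
    2 ^ d * (Real.pi / (om * side (P + d))) = 4 ^ d * (Real.pi / (om * side P)) := by
  have h1 := trg_side_pos (P + d)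
  rw [trg_side P d]
  have e : (4 : ℝ) ^ d = 2 ^ d * 2 ^ d := by
    rw [← mul_pow]
    norm_num
  rw [e]
  have h2 : (0 : ℝ) < 2 ^ d := by positivity
  field_simp

theorem trg_sq (om m : ℝ) (hom : 0 < om) (P d : ℕ) (k : ℤ × ℤ) (h : om * side (P + d) ≤ 1) :
    |∑ k' ∈ kids d k, (Real.sin (om * prj m (ctr (P + d) k')) ^ 2 - 1 / 2)| ≤
      4 ^ d * (4 / (om * side P)) := by
  have hpi := Real.pi_gt_three
  have hpi4 := Real.pi_le_four
  have hs := trg_side_pos P
  have h1 := trg_in2 (2 * om) (fun x => 2 * om * (((x : ℝ) + 1 / 2) * side (P + d) * m)) (by linarith) P d k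
    (by linarith)
  have h2 : ∑ k' ∈ kids d k, (Real.sin (om * prj m (ctr (P + d) k')) ^ 2 - 1 / 2) =
      (-(1 / 2)) * ∑ k' ∈ kids d k, Real.cos (2 * om * (((k'.2 : ℝ) + 1 / 2) * side (P + d)) +
        2 * om * (((k'.1 : ℝ) + 1 / 2) * side (P + d) * m)) := by
    rw [Finset.mul_sum]
    refine Finset.sum_congr rfl (fun k' _ => ?_)
    rw [Real.sin_sq_eq_half_sub]
    have e : 2 * (om * prj m (ctr (P + d) k')) = 2 * om * (((k'.2 : ℝ) + 1 / 2) * side (P + d)) +
        2 * om * (((k'.1 : ℝ) + 1 / 2) * side (P + d) * m) := by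
      simp only [prj, ctr]
      ring
    rw [e]
    ring
  rw [h2, abs_mul]
  have h3 : |(-(1 / 2) : ℝ)| = 1 / 2 := by norm_num [abs_of_neg]
  rw [h3]
  have h4 : (2 : ℝ) ^ d * (Real.pi / (2 * om * side (P + d))) = 4 ^ d * (Real.pi / (2 * om * side P)) :=
    trg_fin (2 * om) (by linarith) P d
  rw [h4] at h1
  have h5 : (4 : ℝ) ^ d * (Real.pi / (2 * om * side P)) ≤ 4 ^ d * (4 / (om * side P)) := by
    refine mul_le_mul_of_nonneg_left ?_ (by positivity)
    rw [div_le_div_iff₀ (by positivity) (by positivity)]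
    nlinarith [mul_pos hom hs]
  have h6 : 0 ≤ |∑ k' ∈ kids d k, Real.cos (2 * om * (((k'.2 : ℝ) + 1 / 2) * side (P + d)) +
        2 * om * (((k'.1 : ℝ) + 1 / 2) * side (P + d) * m))| := abs_nonneg _
  linarith

theorem trg_mul (om m0 m1 : ℝ) (hm : m1 = m0 + 1) (hom : 0 < om) (P d : ℕ) (k : ℤ × ℤ)
    (h : om * side (P + d) ≤ 1) :
    |∑ k' ∈ kids d k, Real.sin (om * prj m0 (ctr (P + d) k')) *
        Real.sin (om * prj m1 (ctr (P + d) k'))| ≤ 4 ^ d * (4 / (om * side P)) := by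
  have hpi := Real.pi_gt_three
  have hpi4 := Real.pi_le_four
  have hs := trg_side_pos P
  have h1 := trg_in2 (2 * om) (fun x => om * (m0 + m1) * (((x : ℝ) + 1 / 2) * side (P + d))) (by linarith) P d k
    (by linarith)
  have h1' := trg_in1 om (fun _ => 0) hom P d k (by linarith)
  have h2 : ∑ k' ∈ kids d k, Real.sin (om * prj m0 (ctr (P + d) k')) * Real.sin (om * prj m1 (ctr (P + d) k')) =
      (1 / 2) * (∑ k' ∈ kids d k, Real.cos (om * (((k'.1 : ℝ) + 1 / 2) * side (P + d)) + 0)) -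
      (1 / 2) * ∑ k' ∈ kids d k, Real.cos (2 * om * (((k'.2 : ℝ) + 1 / 2) * side (P + d)) +
        om * (m0 + m1) * (((k'.1 : ℝ) + 1 / 2) * side (P + d))) := by
    rw [Finset.mul_sum, Finset.mul_sum, ← Finset.sum_sub_distrib]
    refine Finset.sum_congr rfl (fun k' _ => ?_)
    have e1 : om * (((k'.1 : ℝ) + 1 / 2) * side (P + d)) + 0 =
        om * prj m1 (ctr (P + d) k') - om * prj m0 (ctr (P + d) k') := by
      simp only [prj, ctr, hm]
      ring
    have e2 : 2 * om * (((k'.2 : ℝ) + 1 / 2) * side (P + d)) +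
        om * (m0 + m1) * (((k'.1 : ℝ) + 1 / 2) * side (P + d)) =
        om * prj m1 (ctr (P + d) k') + om * prj m0 (ctr (P + d) k') := by
      simp only [prj, ctr]
      ring
    rw [e1, e2, Real.cos_sub, Real.cos_add]
    ring
  rw [h2]
  have h4 : (2 : ℝ) ^ d * (Real.pi / (2 * om * side (P + d))) = 4 ^ d * (Real.pi / (2 * om * side P)) :=
    trg_fin (2 * om) (by linarith) P d
  have h4' : (2 : ℝ) ^ d * (Real.pi / (om * side (P + d))) = 4 ^ d * (Real.pi / (om * side P)) :=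
    trg_fin om hom P d
  rw [h4] at h1
  rw [h4'] at h1'
  have h5 : (1 / 2) * ((4 : ℝ) ^ d * (Real.pi / (om * side P))) + (1 / 2) * (4 ^ d * (Real.pi / (2 * om * side P))) ≤
      4 ^ d * (4 / (om * side P)) := by
    have e3 : (1 / 2) * ((4 : ℝ) ^ d * (Real.pi / (om * side P))) + (1 / 2) * (4 ^ d * (Real.pi / (2 * om * side P))) =
        4 ^ d * ((3 / 4 * Real.pi) / (om * side P)) := by
      field_simp
      ring
    rw [e3]
    refine mul_le_mul_of_nonneg_left ?_ (by positivity)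
    exact div_le_div_of_nonneg_right (by linarith) (by positivity)
  have h6 := abs_le.1 h1
  have h7 := abs_le.1 h1'
  rw [abs_le]
  constructor
  · linarith [h6.2, h7.1]
  · linarith [h6.1, h7.2]

end Pool.Agent.H63.CR
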