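import Pool.Agent.H63.CR.STP
import Pool.Agent.H63.CR.MEA
import Pool.Agent.H63.CR.QUS
import Pool.Agent.H63.CR.TRG

/-!
# H63/CR/WLK: `ff Q` is a walk near every point (assembly, about 60 min)

`G n k = gfp gb g n (ctr (p n) k)`, constant `3 * C`, `w = wj u0`, `c = min c1 (1 / 2)` with `c1` of `cne_coer`.
Let `ε` be the minimum of the three numbers of `qus` (for `j = 0, 1, 2`; `P + S = 55 - 57 = -57 + 55 = -1 - 1 = -2`;
`kap 2 u0, kap 3 u0 > 0` by `cne_ratio`) and `n2` from `stp`; take `n0 ≥ max n2 n1 1` and so large that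
`4 / (omq Q (n+1) * side (p n)) ≤ ε` for `n ≥ n0` (`GoodSeq.fast n`:
`omq Q (n+1) * side (p n) ≥ 4096 * 2 ^ (n+1)`). For `k ∈ boxIdx (p n - p n0) k0`, `csq (p n) k ⊆ box ⊆ Uu B`
(`lni_box_sub`). Fields: `step` of `GoodSeq`; `cont` = `tai_cont`; `lin` = `lni_lin`; `inc` = `lni_inc`;
`mean` = `mea`; `quad` = `qus` with `T = kids (p (n+1) - p n) k`, `lni_card`, `x, y` the two sines (`trg_sq` twice,
`trg_mul` with `mh_succ`; the hypothesis `omq Q (n+1) * side (p (n+1)) ≤ 1` from `GoodSeq.fine (n+1)`, `sg_ge`),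
`D` from `stp`; `coer` = `cne_coer`.
`mid_exists`: `k0 = (floor (u.1 / s - 1/2), floor (u.2 / s - 1/2))`.
-/

open MeasureTheory Set Filter
open scoped Topology ENNReal

namespace Pool.Agent.H63.CR

variable {B C : ℝ} {Q p : ℕ → ℕ} {gb : ℝ × ℝ → ℝ × ℝ} {g : Fin 2 → ℕ → ℝ × ℝ → ℝ × ℝ} {Cf : ℕ → ℝ}
  {n1 : ℕ}

private lemma wlk_side_pos (P : ℕ) : 0 < side P := by
  unfold side
  positivity

lemma mid_exists (P : ℕ) (u : ℝ × ℝ) : ∃ k0 : ℤ × ℤ, u ∈ mid P k0 := by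
  have hs := wlk_side_pos P
  have key : ∀ x : ℝ, ((⌊x / side P - 1 / 2⌋ : ℝ) + 1 / 2) * side P ≤ x ∧
      x ≤ ((⌊x / side P - 1 / 2⌋ : ℝ) + 3 / 2) * side P := by
    intro x
    have h1 := Int.floor_le (x / side P - 1 / 2)
    have h2 := Int.lt_floor_add_one (x / side P - 1 / 2)
    constructor
    · rw [← le_div_iff₀ hs]
      linarith
    · rw [← div_le_iff₀ hs]
      linarith
  refine ⟨(⌊u.1 / side P - 1 / 2⌋, ⌊u.2 / side P - 1 / 2⌋), ?_⟩
  unfold mid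
  exact ⟨⟨(key u.1).1, (key u.1).2⟩, ⟨(key u.2).1, (key u.2).2⟩⟩

private lemma wlk_amp_pos (n : ℕ) : 0 < amp n := by
  unfold amp
  positivity

private lemma wlk_p_mono (hG : GoodSeq Cf Q p) : Monotone p :=
  monotone_nat_of_le_succ (fun n => by
    have := hG.step n
    omega)

private lemma wlk_sub (hG : GoodSeq Cf Q p) {n0 n : ℕ} (hn : n0 ≤ n) {k k0 : ℤ × ℤ} (hbox : box (p n0) k0 ⊆ Uu B)
    (hk : k ∈ boxIdx (p n - p n0) k0) : csq (p n) k ⊆ Uu B := by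
  have h1 := lni_box_sub (P := p n0) hk
  have h2 : p n0 + (p n - p n0) = p n := by
    have := wlk_p_mono hG hn
    omega
  rw [h2] at h1
  exact h1.trans hbox

private lemma wlk_om (hG : GoodSeq Cf Q p) (hD : Dat B C Q gb g) (hC : ∀ j, n1 ≤ j → C ≤ Cf j) {n : ℕ} (hn : n1 ≤ n) :
    4096 * 2 ^ (n + 1) ≤ omq Q (n + 1) * side (p n) := by
  have h1 := hG.fast n
  have h2 : 1 ≤ Cf (n + 1) := hD.one.trans (hC (n + 1) (by omega))
  have hs := wlk_side_pos (p n)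
  have ho : 0 < omq Q (n + 1) := lt_of_lt_of_le (by positivity) (hG.Q0 (n + 1))
  have hd : dlt n ≤ 1 := by
    unfold dlt
    exact pow_le_one₀ (by norm_num) (by norm_num)
  have h3 : omq Q (n + 1) * (dlt n * side (p n)) ≤ omq Q (n + 1) * side (p n) := by
    refine mul_le_mul_of_nonneg_left ?_ ho.le
    nlinarith
  have h4 : (4096 : ℝ) * 2 ^ (n + 1) ≤ 4096 * 2 ^ (n + 1) * Cf (n + 1) := by
    have : (0 : ℝ) < 4096 * 2 ^ (n + 1) := by positivity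
    nlinarith
  linarith

private lemma wlk_fine (hG : GoodSeq Cf Q p) (hD : Dat B C Q gb g) (hC : ∀ j, n1 ≤ j → C ≤ Cf j) {n : ℕ} (hn : n1 ≤ n) :
    omq Q (n + 1) * side (p (n + 1)) ≤ 1 := by
  have h1 := hG.fine (n + 1)
  have h2 : 1 ≤ Cf (n + 1) := hD.one.trans (hC (n + 1) (by omega))
  have h3 := sg_ge Q (n + 1)
  have hs := wlk_side_pos (p (n + 1))
  have ho : 0 < omq Q (n + 1) := lt_of_lt_of_le (by positivity) (hG.Q0 (n + 1))
  have hd : dlt (n + 1) ≤ 1 := by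
    unfold dlt
    exact pow_le_one₀ (by norm_num) (by norm_num)
  have h4 : omq Q (n + 1) ≤ 4096 * (Cf (n + 1) * Sg Q (n + 1)) := by
    nlinarith
  have h5 : omq Q (n + 1) * side (p (n + 1)) ≤ 4096 * (Cf (n + 1) * Sg Q (n + 1)) * side (p (n + 1)) :=
    mul_le_mul_of_nonneg_right h4 hs.le
  linarith

theorem wlk (hG : GoodSeq Cf Q p) (hD : Dat B C Q gb g) (hC : ∀ j, n1 ≤ j → C ≤ Cf j)
    {u0 : ℝ × ℝ} (h1 : 1 < u0.1) (h2 : 1 < u0.2) (h3 : u0.1 < B) (h4 : u0.2 < B) :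
    ∃ n2, ∀ n0, n2 ≤ n0 → ∀ k0 : ℤ × ℤ, u0 ∈ mid (p n0) k0 →
      ∃ (G : ℕ → ℤ × ℤ → ℝ × ℝ) (C' c : ℝ) (w : Fin 3 → ℝ × ℝ × ℝ),
        IsWalk (ff Q) p G n0 k0 C' c w := by
  have hk3 : 0 < kap 3 u0 := (cne_ratio (by linarith) (by linarith)).1
  have hk2 : 0 < kap 2 u0 := lt_of_lt_of_le hk3 (cne_ratio (by linarith) (by linarith)).2.1
  obtain ⟨c1, hc1, hcoer⟩ := cne_coer (u := u0) (by linarith) (by linarith)
  have hq : ∀ j : Fin 3, ∃ ε : ℝ, 0 < ε ∧ ∀ (T : Finset (ℤ × ℤ)) (x y : ℤ × ℤ → ℝ) (D : ℤ × ℤ → ℝ × ℝ) (a : ℝ), 0 < a →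
      (∀ k ∈ T, |x k| ≤ 1) → (∀ k ∈ T, |y k| ≤ 1) →
      |∑ k ∈ T, (x k ^ 2 - 1 / 2)| ≤ ε * T.card → |∑ k ∈ T, (y k ^ 2 - 1 / 2)| ≤ ε * T.card →
      |∑ k ∈ T, x k * y k| ≤ ε * T.card →
      (∀ k ∈ T, ‖D k - ((a * x k * kap 2 u0) • ((2, 1) : ℝ × ℝ) + (a * y k * kap 3 u0) • ((3, 1) : ℝ × ℝ))‖ ≤
        ε * a) →
      ∑ k ∈ T, qf (wj u0 j) (D k) ≤ -(1 / 2 * a ^ 2 * T.card) := by
    intro j
    exact qus _ _ _ _ _ hk2 hk3 (by fin_cases j <;> norm_num)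
  choose ε hε hq' using hq
  obtain ⟨e, he⟩ : ∃ e, e = min (ε 0) (min (ε 1) (ε 2)) := ⟨_, rfl⟩
  have he0 : 0 < e := by
    rw [he]
    exact lt_min (hε 0) (lt_min (hε 1) (hε 2))
  have hej : ∀ j, e ≤ ε j := by
    intro j
    rw [he]
    fin_cases j
    · exact min_le_left _ _
    · exact (min_le_right _ _).trans (min_le_left _ _)
    · exact (min_le_right _ _).trans (min_le_right _ _)
  obtain ⟨n2, hn2⟩ := stp hG hD hC h1 h2 h3 h4 he0
  obtain ⟨n3, hn3⟩ := exists_pow_lt_of_lt_one he0 (by norm_num : (1 / 2 : ℝ) < 1)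
  refine ⟨max (max n2 n1) (max 1 n3), ?_⟩
  intro n0 hn0 k0 hk0
  have hn02 : n2 ≤ n0 := (le_max_left n2 n1).trans ((le_max_left _ _).trans hn0)
  have hn01 : n1 ≤ n0 := (le_max_right n2 n1).trans ((le_max_left _ _).trans hn0)
  have hn00 : 1 ≤ n0 := (le_max_left 1 n3).trans ((le_max_right _ _).trans hn0)
  have hn03 : n3 ≤ n0 := (le_max_right 1 n3).trans ((le_max_right _ _).trans hn0)
  obtain ⟨hbox, hst⟩ := hn2 n0 hn02 k0 hk0
  have hsm : ∀ n, n0 ≤ n → 4 / (omq Q (n + 1) * side (p n)) ≤ e := by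
    intro n hn
    have a1 := wlk_om hG hD hC (hn01.trans hn)
    have a2 : (0 : ℝ) < 4096 * 2 ^ (n + 1) := by positivity
    calc 4 / (omq Q (n + 1) * side (p n)) ≤ 4 / (4096 * 2 ^ (n + 1)) :=
          div_le_div_of_nonneg_left (by norm_num) a2 a1
      _ ≤ (1 / 2) ^ n3 := by
          rw [one_div, inv_pow, ← one_div, div_le_div_iff₀ a2 (by positivity)]
          have a3 : (2 : ℝ) ^ n3 ≤ 2 ^ (n + 1) := pow_le_pow_right₀ (by norm_num) (by omega)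
          have a4 : (0 : ℝ) < 2 ^ (n + 1) := by positivity
          linarith
      _ ≤ e := hn3.le
  refine ⟨fun n k => gfp gb g n (ctr (p n) k), 3 * C, min c1 (1 / 2), wj u0, ?_⟩
  refine ⟨by linarith [hD.one], lt_min hc1 (by norm_num), hn00, hG.step, (tai_cont hG hD hC).mono hbox, ?_, ?_, ?_, ?_, ?_⟩
  · intro n hn k hk u hu u1 hu1 hd
    exact lni_lin hG hD hC (hn01.trans hn) (wlk_sub hG hn hbox hk) hu (hbox hu1) hd
  · intro n hn k hk k' hk'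
    exact lni_inc hG hD hC (hn01.trans hn) (wlk_sub hG hn hbox hk) hk'
  · intro n hn k hk
    exact mea hG hD hC (hn01.trans hn) (wlk_sub hG hn hbox hk)
  · intro j n hn k hk
    have hpn : p n + (p (n + 1) - p n) = p (n + 1) := by
      have := hG.step n
      omega
    have ho : 0 < omq Q (n + 1) := lt_of_lt_of_le (by positivity) (hG.Q0 (n + 1))
    have hfin := wlk_fine hG hD hC (hn01.trans hn)
    have hcard : (((kids (p (n + 1) - p n) k).card : ℕ) : ℝ) = 4 ^ (p (n + 1) - p n) := by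
      rw [lni_card]
      push_cast
      rfl
    have hbd : (4 : ℝ) ^ (p (n + 1) - p n) * (4 / (omq Q (n + 1) * side (p n))) ≤
        ε j * ((kids (p (n + 1) - p n) k).card : ℝ) := by
      rw [hcard, mul_comm (ε j)]
      exact mul_le_mul_of_nonneg_left ((hsm n hn).trans (hej j)) (by positivity)
    have b1 := trg_sq (omq Q (n + 1)) (mh 0 (n + 1)) ho (p n) (p (n + 1) - p n) k (by rw [hpn]; exact hfin)
    have b2 := trg_sq (omq Q (n + 1)) (mh 1 (n + 1)) ho (p n) (p (n + 1) - p n) k (by rw [hpn]; exact hfin)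
    have b3 := trg_mul (omq Q (n + 1)) (mh 0 (n + 1)) (mh 1 (n + 1)) (mh_succ (n + 1)) ho (p n) (p (n + 1) - p n) k
      (by rw [hpn]; exact hfin)
    rw [hpn] at b1 b2 b3
    have b4 := hq' j (kids (p (n + 1) - p n) k)
      (fun k' => Real.sin (omq Q (n + 1) * prj (mh 0 (n + 1)) (ctr (p (n + 1)) k')))
      (fun k' => Real.sin (omq Q (n + 1) * prj (mh 1 (n + 1)) (ctr (p (n + 1)) k')))
      (fun k' => gfp gb g (n + 1) (ctr (p (n + 1)) k') - gfp gb g n (ctr (p n) k)) (amp (n + 1)) (wlk_amp_pos _)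
      (fun k' _ => Real.abs_sin_le_one _) (fun k' _ => Real.abs_sin_le_one _) (b1.trans hbd) (b2.trans hbd)
      (b3.trans hbd) (fun k' hk' => (hst n hn k hk k' hk').trans
        (mul_le_mul_of_nonneg_right (hej j) (wlk_amp_pos _).le))
    refine b4.trans ?_
    rw [hcard]
    have b5 : min c1 (1 / 2) ≤ 1 / 2 := min_le_right _ _
    have b6 : (0 : ℝ) ≤ amp (n + 1) ^ 2 * 4 ^ (p (n + 1) - p n) := by positivity
    nlinarith
  · intro j G hGj
    have b5 : min c1 (1 / 2) ≤ c1 := min_le_left _ _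
    have b6 : 0 ≤ sqn G := by
      unfold sqn
      positivity
    exact (mul_le_mul_of_nonneg_right b5 b6).trans (hcoer j G hGj)

end Pool.Agent.H63.CR
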