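import Pool.Agent.H63.CR.ZDI
import Pool.Agent.H63.CR.HFN

/-!
# H63/CR/WVA: size and main term of a wall (about 50 min)

Write `z = zet a om R u.1 (prj m u)`, `xi = xiz a om R u.1 (prj m u)`. By `seg_eq`
`vw a om R m u = Hf u (m + z) - Hf u m`, and `m, m + z ∈ [2, 6]` (`zdi_bd`, `Adm.m2`, `Adm.m4`).
* `wva_size`: `HB.tay` with `u' = u`: `|Hf u (m + z) - Hf u m - kap m u * z| ≤ C * z ^ 2`, so
  `|vw| ≤ C * z + C * z * 2 ≤ 3 * C * (2 * a / om)`.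
* `wva_grad`: `‖Hu (m+z) u - Hu m u‖ ≤ C * z ≤ 2 * C * a` and
  `‖(kap * xi) • (m + z, 1)‖ ≤ C * 2 * a * 6`.
* `wva_main`: `gw - (a sin * kap m u) • (m, 1)` is the sum of `Hu (m+z) u - Hu m u` (at most `C * z`),
  `((kap (m+z) u - kap m u) * xi) • (m+z, 1)` (at most `C * z * 2 * a * 6`),
  `(kap m u * (xi - a sin)) • (m+z, 1)` (at most `C * 4 * B * a ^ 2 * 6`, `zdi_main`) and
  `(kap m u * a sin) • (z, 0)` (at most `C * a * z`); `z ≤ 2 * a / om`, `a ≤ 1`.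
-/

open MeasureTheory Set Filter
open scoped Topology ENNReal

namespace Pool.Agent.H63.CR

variable {B C a om R m : ℝ} {Hu : ℝ → ℝ × ℝ → ℝ × ℝ}

private theorem wva_in (h : Adm a om R m) {u : ℝ × ℝ} (hu : u ∈ Uu B) :
    m ∈ Icc (2 : ℝ) 6 ∧ m + zet a om R u.1 (prj m u) ∈ Icc (2 : ℝ) 6 := by
  obtain ⟨h0, -, h2, -⟩ := zdi_bd h hu
  have h3 := h.m2
  have h4 := h.m4
  exact ⟨⟨h3, by linarith⟩, ⟨by linarith, by linarith⟩⟩

private theorem wva_pair {x : ℝ} (h0 : 0 ≤ x) (h1 : x ≤ 6) : ‖((x, 1) : ℝ × ℝ)‖ ≤ 6 := by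
  rw [Prod.norm_def]
  apply max_le
  · show ‖x‖ ≤ 6
    rw [Real.norm_eq_abs, abs_of_nonneg h0]
    exact h1
  · show ‖(1 : ℝ)‖ ≤ 6
    rw [norm_one]
    norm_num

private theorem wva_z (h : Adm a om R m) {u : ℝ × ℝ} (hu : u ∈ Uu B) :
    zet a om R u.1 (prj m u) ≤ 2 * a := by
  obtain ⟨-, h1, -, -⟩ := zdi_bd h hu
  refine h1.trans ?_
  have h2 := h.a0
  have h3 := h.om1
  rw [div_le_iff₀ (by linarith)]
  nlinarith

theorem vw_eq (h : Adm a om R m) {u : ℝ × ℝ} (hu : u ∈ Uu B) :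
    vw a om R m u = Hf u (m + zet a om R u.1 (prj m u)) - Hf u m := by
  obtain ⟨h0, -, h2, -⟩ := zdi_bd h hu
  obtain ⟨⟨hu1, -⟩, ⟨hu2, -⟩⟩ := hu
  have h3 := h.m2
  have hpos : ∀ x : ℝ, 0 ≤ x → 0 < prj x u := by
    intro x hx
    unfold prj
    have : 0 ≤ u.1 * x := mul_nonneg (by linarith) hx
    linarith
  unfold vw
  exact seg_eq (by linarith) (hpos m (by linarith)) (hpos _ (by linarith))

theorem wva_size (hH : HB B C Hu) (h : Adm a om R m) {u : ℝ × ℝ} (hu : u ∈ Uu B) :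
    |vw a om R m u| ≤ 100 * C * a / om := by
  obtain ⟨hm, hmz⟩ := wva_in h hu
  have hC := hH.one
  have ha := h.a0
  have hom := h.om1
  rw [vw_eq h hu]
  have h1 := hH.tay u hu u hu m hm _ hmz
  have h2 := hH.kbd u hu m hm
  obtain ⟨h0, hz1, hz2, -⟩ := zdi_bd h hu
  obtain ⟨z, hz⟩ : ∃ z, z = zet a om R u.1 (prj m u) := ⟨_, rfl⟩
  rw [← hz] at h1 h0 hz1 hz2 ⊢
  have e1 : dot (Hu m u) (u - u) = 0 := by
    rw [sub_self]
    unfold dot
    simp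
  rw [e1, sub_self, norm_zero, add_sub_cancel_left, abs_of_nonneg h0] at h1
  have h3 : |Hf u (m + z) - Hf u m| ≤ C * z ^ 2 + C * z := by
    have h4 : |kap m u * z| ≤ C * z := by
      rw [abs_mul, abs_of_nonneg h0]
      exact mul_le_mul_of_nonneg_right h2 h0
    have h5 := abs_add_le (Hf u (m + z) - Hf u m - 0 - kap m u * z) (kap m u * z)
    have e2 : Hf u (m + z) - Hf u m - 0 - kap m u * z + kap m u * z = Hf u (m + z) - Hf u m := by ring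
    rw [e2] at h5
    have e3 : C * (0 ^ 2 + z ^ 2) = C * z ^ 2 := by ring
    rw [e3] at h1
    linarith
  have h6 : C * z ^ 2 + C * z ≤ 3 * C * z := by nlinarith [mul_nonneg (by linarith : (0:ℝ) ≤ C) h0]
  have h7 : 3 * C * z ≤ 3 * C * (2 * a / om) := mul_le_mul_of_nonneg_left hz1 (by linarith)
  have h8 : 3 * C * (2 * a / om) = 6 * (C * a / om) := by ring
  have h9 : 100 * C * a / om = 100 * (C * a / om) := by ring
  have h10 : 0 ≤ C * a / om := by positivity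
  rw [h9]
  linarith

theorem wva_grad (hH : HB B C Hu) (h : Adm a om R m) {u : ℝ × ℝ} (hu : u ∈ Uu B) :
    ‖gw Hu a om R m u‖ ≤ 100 * C * a := by
  obtain ⟨hm, hmz⟩ := wva_in h hu
  have hC := hH.one
  have ha := h.a0
  have hom := h.om1
  have hza := wva_z h hu
  obtain ⟨h0, hz1, hz2, hxi⟩ := zdi_bd h hu
  have h1 := hH.lip u hu u hu m hm _ hmz
  have h2 := hH.kbd u hu _ hmz
  unfold gw
  obtain ⟨z, hz⟩ : ∃ z, z = zet a om R u.1 (prj m u) := ⟨_, rfl⟩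
  obtain ⟨xi, hxi'⟩ : ∃ xi, xi = xiz a om R u.1 (prj m u) := ⟨_, rfl⟩
  rw [← hz] at h1 h0 hz1 hz2 h2 hza hmz ⊢
  rw [← hxi'] at hxi ⊢
  rw [sub_self, norm_zero, add_sub_cancel_left, abs_of_nonneg h0, zero_add] at h1
  have h3 : ‖(kap (m + z) u * xi) • ((m + z, 1) : ℝ × ℝ)‖ ≤ C * (2 * a) * 6 := by
    rw [norm_smul, Real.norm_eq_abs, abs_mul]
    have h4 := wva_pair (x := m + z) (by linarith [hmz.1]) hmz.2
    exact mul_le_mul (mul_le_mul h2 hxi (abs_nonneg _) (by linarith)) h4 (norm_nonneg _) (by positivity)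
  have h4 := norm_add_le (Hu (m + z) u - Hu m u) ((kap (m + z) u * xi) • ((m + z, 1) : ℝ × ℝ))
  have h5 : C * z ≤ C * (2 * a) := mul_le_mul_of_nonneg_left hza (by linarith)
  have h6 : 0 ≤ C * a := by positivity
  calc _ ≤ _ := h4
    _ ≤ C * (2 * a) + C * (2 * a) * 6 := add_le_add (h1.trans h5) h3
    _ = 14 * (C * a) := by ring
    _ ≤ 100 * (C * a) := by linarith
    _ = 100 * C * a := by ring

theorem wva_main (hB : 1 ≤ B) (hH : HB B C Hu) (h : Adm a om R m) {u : ℝ × ℝ} (hu : u ∈ Uu B)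
    (hR : prj (m + 2) u ≤ R) :
    ‖gw Hu a om R m u - (a * Real.sin (om * prj m u) * kap m u) • ((m, 1) : ℝ × ℝ)‖ ≤
      100 * C * B * (a ^ 2 + a / om) := by
  obtain ⟨hm, hmz⟩ := wva_in h hu
  have hC := hH.one
  have ha := h.a0
  have ha1 := h.a1
  have hom := h.om1
  have hmain := zdi_main h hu hR
  obtain ⟨h0, hz1, hz2, hxi⟩ := zdi_bd h hu
  have h1 := hH.lip u hu u hu m hm _ hmz
  have h2 := hH.kbd u hu m hm
  have h3 := hH.klip u hu u hu m hm _ hmz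
  unfold gw
  obtain ⟨z, hz⟩ : ∃ z, z = zet a om R u.1 (prj m u) := ⟨_, rfl⟩
  obtain ⟨xi, hxi'⟩ : ∃ xi, xi = xiz a om R u.1 (prj m u) := ⟨_, rfl⟩
  obtain ⟨s, hs⟩ : ∃ s, s = Real.sin (om * prj m u) := ⟨_, rfl⟩
  have hs1 : |s| ≤ 1 := by rw [hs]; exact Real.abs_sin_le_one _
  rw [← hz] at h1 h0 hz1 hz2 h3 hmz ⊢
  rw [← hxi'] at hxi hmain ⊢
  rw [← hs] at hmain ⊢
  obtain ⟨k, hk⟩ : ∃ k, k = kap m u := ⟨_, rfl⟩
  obtain ⟨k', hk'⟩ : ∃ k', k' = kap (m + z) u := ⟨_, rfl⟩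
  rw [← hk] at h2 h3 ⊢
  rw [← hk'] at h3 ⊢
  rw [sub_self, norm_zero, add_sub_cancel_left, abs_of_nonneg h0, zero_add] at h1 h3
  have hp := wva_pair (x := m + z) (by linarith [hmz.1]) hmz.2
  have hdec : Hu (m + z) u - Hu m u + (k' * xi) • ((m + z, 1) : ℝ × ℝ) - (a * s * k) • ((m, 1) : ℝ × ℝ) =
      (Hu (m + z) u - Hu m u) + ((k' - k) * xi) • ((m + z, 1) : ℝ × ℝ) +
        (k * (xi - a * s)) • ((m + z, 1) : ℝ × ℝ) + (k * (a * s)) • ((z, 0) : ℝ × ℝ) := by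
    apply Prod.ext
    · simp only [Prod.fst_add, Prod.fst_sub, Prod.smul_fst, smul_eq_mul]
      ring
    · simp only [Prod.snd_add, Prod.snd_sub, Prod.smul_snd, smul_eq_mul]
      ring
  rw [hdec]
  have t1 : ‖Hu (m + z) u - Hu m u‖ ≤ C * (2 * a / om) :=
    h1.trans (mul_le_mul_of_nonneg_left hz1 (by linarith))
  have hz0 : 0 ≤ 2 * a / om := by positivity
  have t2 : ‖((k' - k) * xi) • ((m + z, 1) : ℝ × ℝ)‖ ≤ C * (2 * a / om) * 2 * 6 := by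
    rw [norm_smul, Real.norm_eq_abs, abs_mul]
    refine mul_le_mul (mul_le_mul (h3.trans (mul_le_mul_of_nonneg_left hz1 (by linarith))) (hxi.trans (by linarith))
      (abs_nonneg _) (by positivity)) hp (norm_nonneg _) (by positivity)
  have t3 : ‖(k * (xi - a * s)) • ((m + z, 1) : ℝ × ℝ)‖ ≤ C * (4 * B * a ^ 2) * 6 := by
    rw [norm_smul, Real.norm_eq_abs, abs_mul]
    exact mul_le_mul (mul_le_mul h2 hmain (abs_nonneg _) (by linarith)) hp (norm_nonneg _) (by positivity)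
  have t4 : ‖(k * (a * s)) • ((z, 0) : ℝ × ℝ)‖ ≤ C * 1 * (2 * a / om) := by
    rw [norm_smul, Real.norm_eq_abs, abs_mul]
    refine mul_le_mul (mul_le_mul h2 ?_ (abs_nonneg _) (by linarith)) ?_ (norm_nonneg _) (by positivity)
    · rw [abs_mul, abs_of_pos ha]
      calc a * |s| ≤ 1 * 1 := mul_le_mul ha1 hs1 (abs_nonneg _) zero_le_one
        _ = 1 := one_mul 1
    · rw [Prod.norm_def]
      apply max_le
      · show ‖z‖ ≤ _
        rw [Real.norm_eq_abs, abs_of_nonneg h0]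
        exact hz1
      · show ‖(0 : ℝ)‖ ≤ _
        rw [norm_zero]
        exact hz0
  have hq : C * (a / om) ≤ C * B * (a / om) := by
    have : 0 ≤ a / om := by positivity
    have h5 : C * 1 ≤ C * B := mul_le_mul_of_nonneg_left hB (by linarith)
    rw [mul_one] at h5
    exact mul_le_mul_of_nonneg_right h5 this
  have hq0 : 0 ≤ C * (a / om) := by positivity
  have hr0 : 0 ≤ C * B * a ^ 2 := by positivity
  calc _ ≤ ‖(Hu (m + z) u - Hu m u) + ((k' - k) * xi) • ((m + z, 1) : ℝ × ℝ) +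
        (k * (xi - a * s)) • ((m + z, 1) : ℝ × ℝ)‖ + ‖(k * (a * s)) • ((z, 0) : ℝ × ℝ)‖ := norm_add_le _ _
    _ ≤ ‖(Hu (m + z) u - Hu m u) + ((k' - k) * xi) • ((m + z, 1) : ℝ × ℝ)‖ +
        ‖(k * (xi - a * s)) • ((m + z, 1) : ℝ × ℝ)‖ + ‖(k * (a * s)) • ((z, 0) : ℝ × ℝ)‖ :=
      add_le_add (norm_add_le _ _) le_rfl
    _ ≤ ‖Hu (m + z) u - Hu m u‖ + ‖((k' - k) * xi) • ((m + z, 1) : ℝ × ℝ)‖ +
        ‖(k * (xi - a * s)) • ((m + z, 1) : ℝ × ℝ)‖ + ‖(k * (a * s)) • ((z, 0) : ℝ × ℝ)‖ :=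
      add_le_add (add_le_add (norm_add_le _ _) le_rfl) le_rfl
    _ ≤ C * (2 * a / om) + C * (2 * a / om) * 2 * 6 + C * (4 * B * a ^ 2) * 6 + C * 1 * (2 * a / om) :=
      add_le_add (add_le_add (add_le_add t1 t2) t3) t4
    _ = 28 * (C * (a / om)) + 24 * (C * B * a ^ 2) := by ring
    _ ≤ 100 * (C * B * (a / om)) + 100 * (C * B * a ^ 2) := by linarith
    _ = 100 * C * B * (a ^ 2 + a / om) := by ring

end Pool.Agent.H63.CR
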