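import Pool.Agent.H63.CR.ZET

/-!
# H63/CR/ZDI: differential estimates for `zet` (about 70 min)

Notation: `z = zet a om R u.1 (prj m u)`, `X = prj m u`, `Y = X + al * z` (`al = u.1`), the same with
primes for `u'`; `dal = u'.1 - u.1`, `dbe = u'.2 - u.2`, `dX = X' - X = dbe + m * dal`,
`D = ‖u' - u‖` (so `|dal| ≤ D`, `|dbe| ≤ D`, `|dX| ≤ 5 * D`), `dz = z' - z`, `l = lamD Y`,
`l' = lamD Y'`. On `Uu B`: `al ≥ 1`, `2 * al ≤ X`. `0 ≤ z ≤ 2 * a / om ≤ 2`.
* (0) `Y' - Y = dX + z' * dal + al * dz` and also `= dX + z * dal + al' * dz`.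
* (1) If `X > R` and `X' > R` then `z = z' = 0` and `Y' - Y = dX`. Otherwise (by symmetry `X ≤ R`)
  `al * a ≤ 1 / 16` and `|dz| ≤ a * |Y' - Y| ≤ a * (5 D + 2 D) + |dz| / 16`, so `|dz| ≤ 8 * a * D`
  (`zdi_lip`) and `|Y' - Y| ≤ 7 D + al * 8 a D ≤ 8 * D` (with the second form of (0) if `X' ≤ R`).
  So in all cases `|Y' - Y| ≤ 8 * D`.
* (2) `xiz = l / (1 - al * l)` and `|al * l| ≤ 1 / 16` (`den_ge`), so `|xiz| ≤ 16 / 15 * a ≤ 2 * a`.
* (3) `lam_tay`: `dz = l * (Y' - Y) + e`, `|e| ≤ a * om * 64 * D ^ 2`; with (0):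
  `dz * (1 - al * l) = l * (dX + z' * dal) + e`, so `dz = xiz * (dX + z' * dal) + e / (1 - al * l)` and
  `z' * dal = z * dal + dz * dal`: total error at most `(64 * 16 / 15 + 2 * 8) * om * D ^ 2`.
  `dX + z * dal = (m + z) * dal + dbe`.
* (4) `xiz' - xiz = ((l' - l) + l * l' * (al' - al)) / ((1 - al * l) * (1 - al' * l'))`, `lamD_lip`.
* (5) if `prj (m + 2) u ≤ R` then `Y = X + al * z ≤ X + 2 * al = prj (m + 2) u ≤ R`, so
  `l = a * sin (om * Y)`, `|l - a * sin (om * X)| ≤ a * om * al * z ≤ 2 * B * a ^ 2`, and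
  `|xiz - l| = |al * l ^ 2 / (1 - al * l)| ≤ 2 * B * a ^ 2`.
-/

open MeasureTheory Set Filter
open scoped Topology ENNReal

namespace Pool.Agent.H63.CR

variable {a om R m B : ℝ}

private lemma zdi_u {u : ℝ × ℝ} (h : Adm a om R m) (hu : u ∈ Uu B) :
    0 ≤ u.1 ∧ u.1 ≤ B ∧ 2 * u.1 ≤ prj m u := by
  obtain ⟨⟨h1, h2⟩, ⟨h3, h4⟩⟩ := hu
  refine ⟨by linarith, h2, ?_⟩
  unfold prj
  have h5 := h.m2
  nlinarith

private lemma zdi_l {u : ℝ × ℝ} (h : Adm a om R m) (hu : u ∈ Uu B) :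
    |u.1 * lamD a om R (prj m u + u.1 * zet a om R u.1 (prj m u))| ≤ 1 / 16 :=
  den_ge h (zdi_u h hu).1 (zdi_u h hu).2.2

private lemma zdi_z {u : ℝ × ℝ} (h : Adm a om R m) (hu : u ∈ Uu B) :
    0 ≤ zet a om R u.1 (prj m u) ∧ zet a om R u.1 (prj m u) ≤ 2 * a / om ∧
      zet a om R u.1 (prj m u) ≤ 2 := by
  obtain ⟨h1, h2, h3⟩ := zdi_u h hu
  have h4 := (zet_spec h h1 h3).1
  have h5 := zet_le h h1 h3
  refine ⟨h4, h5, h5.trans ?_⟩
  have h6 := h.a1
  have h7 := h.om1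
  rw [div_le_iff₀ (by linarith)]
  nlinarith

theorem zdi_bd (h : Adm a om R m) {u : ℝ × ℝ} (hu : u ∈ Uu B) :
    0 ≤ zet a om R u.1 (prj m u) ∧ zet a om R u.1 (prj m u) ≤ 2 * a / om ∧
      zet a om R u.1 (prj m u) ≤ 2 ∧ |xiz a om R u.1 (prj m u)| ≤ 2 * a := by
  obtain ⟨h1, h2, h3⟩ := zdi_z h hu
  refine ⟨h1, h2, h3, ?_⟩
  have h4 := zdi_l h hu
  unfold xiz
  obtain ⟨l, hl⟩ : ∃ l, l = lamD a om R (prj m u + u.1 * zet a om R u.1 (prj m u)) := ⟨_, rfl⟩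
  rw [← hl] at h4 ⊢
  have h5 : |l| ≤ a := by rw [hl]; exact lamD_abs h _
  rw [abs_le] at h4
  rw [abs_div, div_le_iff₀ (abs_pos.2 (by linarith)), abs_of_pos (by linarith : 0 < 1 - u.1 * l)]
  have h6 := h.a0
  nlinarith

private lemma zdi_D {u u' : ℝ × ℝ} :
    |u'.1 - u.1| ≤ ‖u' - u‖ ∧ |u'.2 - u.2| ≤ ‖u' - u‖ := by
  rw [Prod.norm_def]
  exact ⟨le_max_left _ _, le_max_right _ _⟩

/-- one half of the case distinction -/
private lemma zdi_half (h : Adm a om R m) {u u' : ℝ × ℝ} (hu : u ∈ Uu B) (hu' : u' ∈ Uu B)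
    (hX : prj m u ≤ R) :
    |zet a om R u'.1 (prj m u') - zet a om R u.1 (prj m u)| ≤ 8 * a * ‖u' - u‖ ∧
    |prj m u' + u'.1 * zet a om R u'.1 (prj m u') - (prj m u + u.1 * zet a om R u.1 (prj m u))| ≤
      8 * ‖u' - u‖ := by
  obtain ⟨h1, h2, h3⟩ := zdi_u h hu
  obtain ⟨h1', h2', h3'⟩ := zdi_u h hu'
  obtain ⟨z1, z2, z3⟩ := zdi_z h hu
  obtain ⟨z1', z2', z3'⟩ := zdi_z h hu'
  have e := (zet_spec h h1 h3).2
  have e' := (zet_spec h h1' h3').2
  have hal := al_mul_a h h1 h3 hX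
  obtain ⟨d1, d2⟩ := zdi_D (u := u) (u' := u')
  obtain ⟨D, hD⟩ : ∃ D, D = ‖u' - u‖ := ⟨_, rfl⟩
  rw [← hD] at d1 d2 ⊢
  obtain ⟨z, hz⟩ : ∃ z, z = zet a om R u.1 (prj m u) := ⟨_, rfl⟩
  obtain ⟨z', hz'⟩ : ∃ z', z' = zet a om R u'.1 (prj m u') := ⟨_, rfl⟩
  rw [← hz] at e z1 z2 z3 ⊢
  rw [← hz'] at e' z1' z2' z3' ⊢
  have hD0 : 0 ≤ D := (abs_nonneg _).trans d1
  have ha := h.a0
  have ha1 := h.a1
  have hm2 := h.m2
  have hm4 := h.m4
  have hlip := lam_lip h (prj m u + u.1 * z) (prj m u' + u'.1 * z')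
  rw [← e, ← e'] at hlip
  have hY : prj m u' + u'.1 * z' - (prj m u + u.1 * z) =
      ((u'.2 - u.2) + (m + z') * (u'.1 - u.1)) + u.1 * (z' - z) := by
    unfold prj
    ring
  have hW : |(u'.2 - u.2) + (m + z') * (u'.1 - u.1)| ≤ 7 * D := by
    refine (abs_add_le _ _).trans ?_
    rw [abs_mul, abs_of_nonneg (by linarith : 0 ≤ m + z')]
    have : (m + z') * |u'.1 - u.1| ≤ 6 * D :=
      mul_le_mul (by linarith) d1 (abs_nonneg _) (by norm_num)
    linarith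
  have hY2 : |prj m u' + u'.1 * z' - (prj m u + u.1 * z)| ≤ 7 * D + u.1 * |z' - z| := by
    rw [hY]
    refine (abs_add_le _ _).trans ?_
    rw [abs_mul, abs_of_nonneg h1]
    linarith
  have hdz : |z' - z| ≤ 8 * a * D := by
    have h5 : a * |prj m u' + u'.1 * z' - (prj m u + u.1 * z)| ≤
        a * (7 * D + u.1 * |z' - z|) := mul_le_mul_of_nonneg_left hY2 ha.le
    have h6 : (u.1 * a) * |z' - z| ≤ 1 / 16 * |z' - z| :=
      mul_le_mul_of_nonneg_right hal (abs_nonneg _)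
    have h7 : 0 ≤ a * D := mul_nonneg ha.le hD0
    nlinarith
  refine ⟨hdz, hY2.trans ?_⟩
  have h8 : u.1 * |z' - z| ≤ u.1 * (8 * a * D) := mul_le_mul_of_nonneg_left hdz h1
  have h9 : (u.1 * a) * D ≤ 1 / 16 * D := mul_le_mul_of_nonneg_right hal hD0
  nlinarith

private lemma zdi_both (h : Adm a om R m) {u u' : ℝ × ℝ} (hu : u ∈ Uu B) (hu' : u' ∈ Uu B) :
    |zet a om R u'.1 (prj m u') - zet a om R u.1 (prj m u)| ≤ 8 * a * ‖u' - u‖ ∧
    |prj m u' + u'.1 * zet a om R u'.1 (prj m u') - (prj m u + u.1 * zet a om R u.1 (prj m u))| ≤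
      8 * ‖u' - u‖ := by
  rcases le_or_gt (prj m u) R with hX | hX
  · exact zdi_half h hu hu' hX
  · rcases le_or_gt (prj m u') R with hX' | hX'
    · have h1 := zdi_half h hu' hu hX'
      rw [norm_sub_rev, abs_sub_comm, abs_sub_comm
        (prj m u + u.1 * zet a om R u.1 (prj m u))] at h1
      exact h1
    · obtain ⟨h1, h2, h3⟩ := zdi_u h hu
      obtain ⟨h1', h2', h3'⟩ := zdi_u h hu'
      obtain ⟨z1, z2, z3⟩ := zdi_z h hu
      obtain ⟨z1', z2', z3'⟩ := zdi_z h hu'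
      have e := (zet_spec h h1 h3).2
      have e' := (zet_spec h h1' h3').2
      have c : zet a om R u.1 (prj m u) = 0 := by
        rw [e]
        refine lam_cut h ?_
        have := mul_nonneg h1 z1
        linarith
      have c' : zet a om R u'.1 (prj m u') = 0 := by
        rw [e']
        refine lam_cut h ?_
        have := mul_nonneg h1' z1'
        linarith
      obtain ⟨d1, d2⟩ := zdi_D (u := u) (u' := u')
      have hD0 : 0 ≤ ‖u' - u‖ := norm_nonneg _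
      have ha := h.a0
      have hm2 := h.m2
      have hm4 := h.m4
      rw [c, c']
      refine ⟨by rw [sub_self, abs_zero]; positivity, ?_⟩
      have hY : prj m u' + u'.1 * 0 - (prj m u + u.1 * 0) =
          (u'.2 - u.2) + m * (u'.1 - u.1) := by
        unfold prj
        ring
      rw [hY]
      refine (abs_add_le _ _).trans ?_
      rw [abs_mul, abs_of_nonneg (by linarith : 0 ≤ m)]
      have : m * |u'.1 - u.1| ≤ 4 * ‖u' - u‖ :=
        mul_le_mul hm4 d1 (abs_nonneg _) (by norm_num)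
      linarith

theorem zdi_lip (h : Adm a om R m) {u u' : ℝ × ℝ} (hu : u ∈ Uu B) (hu' : u' ∈ Uu B) :
    |zet a om R u'.1 (prj m u') - zet a om R u.1 (prj m u)| ≤ 8 * a * ‖u' - u‖ :=
  (zdi_both h hu hu').1

theorem zdi_tay (h : Adm a om R m) {u u' : ℝ × ℝ} (hu : u ∈ Uu B) (hu' : u' ∈ Uu B) :
    |zet a om R u'.1 (prj m u') - zet a om R u.1 (prj m u) -
        xiz a om R u.1 (prj m u) *
          ((m + zet a om R u.1 (prj m u)) * (u'.1 - u.1) + (u'.2 - u.2))| ≤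
      100 * om * ‖u' - u‖ ^ 2 := by
  obtain ⟨b1, b2⟩ := zdi_both h hu hu'
  obtain ⟨h1, h2, h3⟩ := zdi_u h hu
  obtain ⟨h1', h2', h3'⟩ := zdi_u h hu'
  have e := (zet_spec h h1 h3).2
  have e' := (zet_spec h h1' h3').2
  have hl := zdi_l h hu
  have ht := lam_tay h (prj m u + u.1 * zet a om R u.1 (prj m u))
    (prj m u' + u'.1 * zet a om R u'.1 (prj m u'))
  have hla := lamD_abs h (prj m u + u.1 * zet a om R u.1 (prj m u))
  rw [← e, ← e'] at ht
  obtain ⟨d1, d2⟩ := zdi_D (u := u) (u' := u')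
  unfold xiz
  obtain ⟨D, hD⟩ : ∃ D, D = ‖u' - u‖ := ⟨_, rfl⟩
  rw [← hD] at d1 d2 b1 b2 ⊢
  obtain ⟨z, hz⟩ : ∃ z, z = zet a om R u.1 (prj m u) := ⟨_, rfl⟩
  obtain ⟨z', hz'⟩ : ∃ z', z' = zet a om R u'.1 (prj m u') := ⟨_, rfl⟩
  rw [← hz] at b1 b2 hl ht hla ⊢
  rw [← hz'] at b1 b2 ht ⊢
  obtain ⟨l, hl0⟩ : ∃ l, l = lamD a om R (prj m u + u.1 * z) := ⟨_, rfl⟩
  rw [← hl0] at hl ht hla ⊢
  have hD0 : 0 ≤ D := (abs_nonneg _).trans d1
  have ha := h.a0
  have ha1 := h.a1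
  have ho := h.om1
  have hl2 := hl
  rw [abs_le] at hl2
  have hden : 0 < 1 - u.1 * l := by linarith
  have key : z' - z - l / (1 - u.1 * l) * ((m + z) * (u'.1 - u.1) + (u'.2 - u.2)) =
      (l * (z' - z) * (u'.1 - u.1) + (z' - z - l * (prj m u' + u'.1 * z' -
        (prj m u + u.1 * z)))) / (1 - u.1 * l) := by
    have hq : l / (1 - u.1 * l) * (1 - u.1 * l) = l := div_mul_cancel₀ _ hden.ne'
    rw [eq_div_iff hden.ne']
    unfold prj
    linear_combination (-((m + z) * (u'.1 - u.1) + (u'.2 - u.2))) * hq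
  rw [key, abs_div, abs_of_pos hden, div_le_iff₀ hden]
  refine (abs_add_le _ _).trans ?_
  have k1 : |l * (z' - z) * (u'.1 - u.1)| ≤ 8 * D ^ 2 := by
    rw [abs_mul, abs_mul]
    calc |l| * |z' - z| * |u'.1 - u.1| ≤ 1 * (8 * 1 * D) * D := by
          refine mul_le_mul (mul_le_mul (hla.trans ha1) (b1.trans ?_) (abs_nonneg _) (by norm_num))
            d1 (abs_nonneg _) (by positivity)
          nlinarith
      _ = 8 * D ^ 2 := by ring
  have k2 : a * om * |prj m u' + u'.1 * z' - (prj m u + u.1 * z)| ^ 2 ≤ 64 * om * D ^ 2 := by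
    have k3 : |prj m u' + u'.1 * z' - (prj m u + u.1 * z)| ^ 2 ≤ (8 * D) ^ 2 :=
      pow_le_pow_left₀ (abs_nonneg _) b2 2
    calc a * om * |prj m u' + u'.1 * z' - (prj m u + u.1 * z)| ^ 2 ≤ 1 * om * (8 * D) ^ 2 :=
          mul_le_mul (mul_le_mul_of_nonneg_right ha1 (by linarith)) k3 (by positivity)
            (by linarith)
      _ = 64 * om * D ^ 2 := by ring
  have k4 := ht.trans k2
  have k5 : 0 ≤ om * D ^ 2 := by positivity
  have k6 : D ^ 2 ≤ om * D ^ 2 := le_mul_of_one_le_left (by positivity) ho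
  nlinarith

theorem zdi_xi (h : Adm a om R m) {u u' : ℝ × ℝ} (hu : u ∈ Uu B) (hu' : u' ∈ Uu B) :
    |xiz a om R u'.1 (prj m u') - xiz a om R u.1 (prj m u)| ≤ 16 * om * ‖u' - u‖ := by
  obtain ⟨b1, b2⟩ := zdi_both h hu hu'
  have hl := zdi_l h hu
  have hl' := zdi_l h hu'
  have ht := lamD_lip h (prj m u + u.1 * zet a om R u.1 (prj m u))
    (prj m u' + u'.1 * zet a om R u'.1 (prj m u'))
  have hla := lamD_abs h (prj m u + u.1 * zet a om R u.1 (prj m u))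
  have hla' := lamD_abs h (prj m u' + u'.1 * zet a om R u'.1 (prj m u'))
  obtain ⟨d1, d2⟩ := zdi_D (u := u) (u' := u')
  unfold xiz
  obtain ⟨D, hD⟩ : ∃ D, D = ‖u' - u‖ := ⟨_, rfl⟩
  rw [← hD] at d1 d2 b1 b2 ⊢
  obtain ⟨l, hl0⟩ : ∃ l, l = lamD a om R (prj m u + u.1 * zet a om R u.1 (prj m u)) := ⟨_, rfl⟩
  obtain ⟨l', hl0'⟩ : ∃ l', l' = lamD a om R (prj m u' + u'.1 * zet a om R u'.1 (prj m u')) :=
    ⟨_, rfl⟩
  rw [← hl0] at hl ht hla ⊢
  rw [← hl0'] at hl' ht hla' ⊢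
  have hD0 : 0 ≤ D := (abs_nonneg _).trans d1
  have ha := h.a0
  have ha1 := h.a1
  have ho := h.om1
  rw [abs_le] at hl hl'
  have hden : 15 / 16 ≤ 1 - u.1 * l := by linarith
  have hden' : 15 / 16 ≤ 1 - u'.1 * l' := by linarith
  have n1 : 1 - u.1 * l ≠ 0 := by linarith
  have n2 : 1 - u'.1 * l' ≠ 0 := by linarith
  have key : l' / (1 - u'.1 * l') - l / (1 - u.1 * l) =
      ((l' - l) + l * l' * (u'.1 - u.1)) / ((1 - u.1 * l) * (1 - u'.1 * l')) := by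
    rw [div_sub_div _ _ n2 n1, div_eq_div_iff (mul_ne_zero n2 n1) (mul_ne_zero n1 n2)]
    ring
  have hprod : (15 / 16) * (15 / 16) ≤ (1 - u.1 * l) * (1 - u'.1 * l') :=
    mul_le_mul hden hden' (by norm_num) (by linarith)
  have hprod0 : 0 < (1 - u.1 * l) * (1 - u'.1 * l') := by linarith
  rw [key, abs_div, abs_of_pos hprod0, div_le_iff₀ hprod0]
  refine (abs_add_le _ _).trans ?_
  have k1 : |l * l' * (u'.1 - u.1)| ≤ D := by
    rw [abs_mul, abs_mul]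
    calc |l| * |l'| * |u'.1 - u.1| ≤ 1 * 1 * D :=
          mul_le_mul (mul_le_mul (hla.trans ha1) (hla'.trans ha1) (abs_nonneg _) (by norm_num))
            d1 (abs_nonneg _) (by norm_num)
      _ = D := by ring
  have k2 : |l' - l| ≤ 8 * (om * D) := by
    refine ht.trans ?_
    calc a * om * |prj m u' + u'.1 * zet a om R u'.1 (prj m u') -
          (prj m u + u.1 * zet a om R u.1 (prj m u))| ≤ 1 * om * (8 * D) :=
          mul_le_mul (mul_le_mul_of_nonneg_right ha1 (by linarith)) b2 (abs_nonneg _)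
            (by linarith)
      _ = 8 * (om * D) := by ring
  have k5 : 0 ≤ om * D := by positivity
  have k6 : D ≤ om * D := le_mul_of_one_le_left hD0 ho
  have k7 : 16 * om * D * ((15 / 16) * (15 / 16)) ≤
      16 * om * D * ((1 - u.1 * l) * (1 - u'.1 * l')) :=
    mul_le_mul_of_nonneg_left hprod (by nlinarith)
  nlinarith

theorem zdi_main (h : Adm a om R m) {u : ℝ × ℝ} (hu : u ∈ Uu B) (hR : prj (m + 2) u ≤ R) :
    |xiz a om R u.1 (prj m u) - a * Real.sin (om * prj m u)| ≤ 4 * B * a ^ 2 := by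
  obtain ⟨h1, h2, h3⟩ := zdi_u h hu
  obtain ⟨z1, z2, z3⟩ := zdi_z h hu
  have hl := zdi_l h hu
  have hla := lamD_abs h (prj m u + u.1 * zet a om R u.1 (prj m u))
  have hB : 0 ≤ B := h1.trans h2
  have ha := h.a0
  have ho := h.om1
  unfold xiz
  obtain ⟨z, hz⟩ : ∃ z, z = zet a om R u.1 (prj m u) := ⟨_, rfl⟩
  rw [← hz] at z1 z2 z3 hl hla ⊢
  have hY : prj m u + u.1 * z ≤ R := by
    have : prj (m + 2) u = prj m u + u.1 * 2 := by unfold prj; ring
    rw [this] at hR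
    nlinarith
  have hl1 : lamD a om R (prj m u + u.1 * z) = a * Real.sin (om * (prj m u + u.1 * z)) :=
    if_pos hY
  obtain ⟨l, hl0⟩ : ∃ l, l = lamD a om R (prj m u + u.1 * z) := ⟨_, rfl⟩
  rw [← hl0] at hl hla hl1 ⊢
  have k1 : |l - a * Real.sin (om * prj m u)| ≤ 2 * B * a ^ 2 := by
    rw [hl1, ← mul_sub, abs_mul, abs_of_pos ha]
    have s1 := Convex.norm_image_sub_le_of_norm_hasDerivWithin_le (f := Real.sin)
      (f' := Real.cos) (s := univ) (C := 1) (x := om * prj m u)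
      (y := om * (prj m u + u.1 * z))
      (fun z _ => (Real.hasDerivAt_sin z).hasDerivWithinAt)
      (fun z _ => by rw [Real.norm_eq_abs]; exact Real.abs_cos_le_one z) convex_univ
      (mem_univ _) (mem_univ _)
    rw [Real.norm_eq_abs, Real.norm_eq_abs, one_mul] at s1
    have s2 : om * (prj m u + u.1 * z) - om * prj m u = om * (u.1 * z) := by ring
    have s0 : 0 ≤ om * (u.1 * z) := mul_nonneg (by linarith) (mul_nonneg h1 z1)
    rw [s2, abs_of_nonneg s0] at s1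
    have s3 : om * (u.1 * z) ≤ 2 * B * a := by
      rw [le_div_iff₀ (by linarith)] at z2
      have s4 : u.1 * (z * om) ≤ B * (2 * a) := mul_le_mul h2 z2 (by positivity) hB
      linarith
    calc a * |Real.sin (om * (prj m u + u.1 * z)) - Real.sin (om * prj m u)| ≤
          a * (2 * B * a) := mul_le_mul_of_nonneg_left (s1.trans s3) ha.le
      _ = 2 * B * a ^ 2 := by ring
  have k2 : |l / (1 - u.1 * l) - l| ≤ 2 * B * a ^ 2 := by
    rw [abs_le] at hl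
    have hden : 0 < 1 - u.1 * l := by linarith
    have e1 : l / (1 - u.1 * l) - l = u.1 * l ^ 2 / (1 - u.1 * l) := by
      have hq : l / (1 - u.1 * l) * (1 - u.1 * l) = l := div_mul_cancel₀ _ hden.ne'
      rw [eq_div_iff hden.ne']
      linear_combination hq
    rw [e1, abs_of_nonneg (by positivity), div_le_iff₀ hden]
    have s5 : l ^ 2 ≤ a ^ 2 := by
      rw [← sq_abs l]
      exact pow_le_pow_left₀ (abs_nonneg _) hla 2
    have s6 : u.1 * l ^ 2 ≤ B * a ^ 2 := mul_le_mul h2 s5 (sq_nonneg _) hB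
    have s7 : 0 ≤ B * a ^ 2 := by positivity
    nlinarith
  have e2 : l / (1 - u.1 * l) - a * Real.sin (om * prj m u) =
      (l / (1 - u.1 * l) - l) + (l - a * Real.sin (om * prj m u)) := by ring
  rw [e2]
  refine (abs_add_le _ _).trans ?_
  linarith

end Pool.Agent.H63.CR
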