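import Pool.Agent.H63.CR.LAM

/-!
# H63/CR/ZET: the equation `z = lam (X + al * z)` (about 40 min)

Here `al ≥ 0` and `2 * al ≤ X`. If `X ≤ R` then `al * a ≤ X * a / 2 ≤ R * a / 2 ≤ 1 / 16` (`al_mul_a`).
If `R < X` then `lam (X + al * z) = 0` for all `z ≥ 0`.
Existence: `phi z = z - lam (X + al * z)` is continuous, `phi 0 ≤ 0` and `phi (2 * a / om) ≥ 0`
(`lam_le`): intermediate value theorem. Monotonicity: if `X ≤ R` then for `z1 ≤ z2`
`phi z2 - phi z1 ≥ (1 - al * a) * (z2 - z1)` (`lam_lip`), so `phi` is strictly increasing; if `R < X`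
then `phi z = z` for `z ≥ 0`. So the nonnegative zero is unique, and for `z ≥ 0`:
`z < lam (X + al * z)` iff `phi z < 0` iff `z < zet`.
-/

open MeasureTheory Set Filter
open scoped Topology ENNReal

namespace Pool.Agent.H63.CR

variable {a om R m al X : ℝ}

lemma al_mul_a (h : Adm a om R m) (hal : 0 ≤ al) (hX : 2 * al ≤ X) (hR : X ≤ R) :
    al * a ≤ 1 / 16 := by
  have h1 : 2 * al * a ≤ R * a := mul_le_mul_of_nonneg_right (hX.trans hR) h.a0.le
  have h2 := h.aR
  have h3 : 8 * a * R = 8 * (R * a) := by ring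
  rw [h3] at h2
  nlinarith

private lemma zet_mono (h : Adm a om R m) (hal : 0 ≤ al) (hX : 2 * al ≤ X) {z1 z2 : ℝ}
    (h1 : 0 ≤ z1) (h12 : z1 < z2) :
    z1 - lam a om R (X + al * z1) < z2 - lam a om R (X + al * z2) := by
  rcases le_or_gt X R with hR | hR
  · have h2 := al_mul_a h hal hX hR
    have h3 := lam_lip h (X + al * z1) (X + al * z2)
    have h4 : X + al * z2 - (X + al * z1) = al * (z2 - z1) := by ring
    rw [h4, abs_of_nonneg (mul_nonneg hal (by linarith) : 0 ≤ al * (z2 - z1))] at h3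
    have h5 := (abs_le.1 h3).2
    have h6 : a * (al * (z2 - z1)) = al * a * (z2 - z1) := by ring
    rw [h6] at h5
    have h7 : al * a * (z2 - z1) ≤ 1 / 16 * (z2 - z1) :=
      mul_le_mul_of_nonneg_right h2 (by linarith)
    linarith
  · have h2 : 0 ≤ al * z1 := mul_nonneg hal h1
    have h3 : 0 ≤ al * z2 := mul_nonneg hal (by linarith)
    rw [lam_cut h (by linarith : R ≤ X + al * z1), lam_cut h (by linarith : R ≤ X + al * z2)]
    linarith

private lemma zet_ex (h : Adm a om R m) :
    ∃ z, 0 ≤ z ∧ z = lam a om R (X + al * z) := by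
  have hom : 0 < om := lt_of_lt_of_le one_pos h.om1
  have hb : (0 : ℝ) ≤ 2 * a / om := by
    have := h.a0
    positivity
  have hcont : Continuous (lam a om R) :=
    continuous_iff_continuousAt.2 fun x => (lam_hasDerivAt h x).continuousAt
  have hc : ContinuousOn (fun z => z - lam a om R (X + al * z)) (Icc 0 (2 * a / om)) := by
    apply Continuous.continuousOn
    exact continuous_id.sub (hcont.comp (by fun_prop))
  have h1 := intermediate_value_Icc hb hc
  have h2 : (0 : ℝ) ∈ Icc ((0 : ℝ) - lam a om R (X + al * 0))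
      (2 * a / om - lam a om R (X + al * (2 * a / om))) := by
    constructor
    · have := lam_nonneg h (X + al * 0)
      linarith
    · have := lam_le h (X + al * (2 * a / om))
      linarith
  obtain ⟨z, hz, hz2⟩ := h1 h2
  exact ⟨z, hz.1, by
    have : z - lam a om R (X + al * z) = 0 := hz2
    linarith⟩

lemma zet_spec (h : Adm a om R m) (hal : 0 ≤ al) (hX : 2 * al ≤ X) :
    0 ≤ zet a om R al X ∧ zet a om R al X = lam a om R (X + al * zet a om R al X) := by
  have hex := zet_ex (al := al) (X := X) h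
  unfold zet
  rw [dif_pos hex]
  exact hex.choose_spec

lemma zet_le (h : Adm a om R m) (hal : 0 ≤ al) (hX : 2 * al ≤ X) :
    zet a om R al X ≤ 2 * a / om := by
  rw [(zet_spec h hal hX).2]
  exact lam_le h _

lemma zet_unique (h : Adm a om R m) (hal : 0 ≤ al) (hX : 2 * al ≤ X) {z : ℝ} (hz : 0 ≤ z)
    (hz2 : z = lam a om R (X + al * z)) : z = zet a om R al X := by
  obtain ⟨h1, h2⟩ := zet_spec h hal hX
  rcases lt_trichotomy z (zet a om R al X) with h3 | h3 | h3
  · have h4 := zet_mono h hal hX hz h3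
    linarith
  · exact h3
  · have h4 := zet_mono h hal hX h1 h3
    linarith

/-- the crossing set of the wall -/
lemma zet_set (h : Adm a om R m) (hal : 0 ≤ al) (hX : 2 * al ≤ X) :
    {z : ℝ | 0 < z ∧ z < lam a om R (X + al * z)} = Ioo 0 (zet a om R al X) := by
  obtain ⟨h1, h2⟩ := zet_spec h hal hX
  ext z
  constructor
  · rintro ⟨h3, h4⟩
    refine ⟨h3, ?_⟩
    by_contra hcon
    rcases (not_lt.1 hcon).lt_or_eq with h5 | h5
    · have h6 := zet_mono h hal hX h1 h5
      linarith
    · rw [← h5] at h4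
      linarith
  · rintro ⟨h3, h4⟩
    refine ⟨h3, ?_⟩
    have h6 := zet_mono h hal hX h3.le h4
    linarith

/-- the denominator of `xiz` -/
lemma den_ge (h : Adm a om R m) (hal : 0 ≤ al) (hX : 2 * al ≤ X) :
    |al * lamD a om R (X + al * zet a om R al X)| ≤ 1 / 16 := by
  rcases le_or_gt X R with hR | hR
  · rw [abs_mul, abs_of_nonneg hal]
    exact (mul_le_mul_of_nonneg_left (lamD_abs h _) hal).trans (al_mul_a h hal hX hR)
  · have h1 := (zet_spec h hal hX).1
    have h2 : 0 ≤ al * zet a om R al X := mul_nonneg hal h1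
    rw [lamD_cut h (by linarith), mul_zero, abs_zero]
    norm_num

end Pool.Agent.H63.CR
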